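import Pool.Agent.Helper218_SB.TestFun

namespace Pool.Agent.Helper218_SB

open MeasureTheory Set
open scoped ENNReal

variable {d' q : ℕ}

/-- scale function in one coordinate -/
noncomputable def fac (k : ℕ) (r : ℝ) (e : Finset (Fin (d' + 1))) (t : Fin (d' + 1) → ℝ)
    (i : Fin (d' + 1)) (v : ℕ) : ℝ :=
  (2:ℝ) ^ (-(r * v)) * (if i ∈ e then (t i) ^ (-r) * Th k v (t i) else 1)

theorem fac_nonneg (k : ℕ) (r : ℝ) (e : Finset (Fin (d' + 1))) (t : Fin (d' + 1) → ℝ)
    (ht : ∀ i ∈ e, 0 < t i) (i : Fin (d' + 1)) (v : ℕ) : 0 ≤ fac k r e t i v := by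
  unfold fac
  by_cases hi : i ∈ e
  · simp only [hi, if_true]
    have := Real.rpow_nonneg (ht i hi).le (-r)
    have := Th_nonneg k v (ht i hi).le
    positivity
  · simp only [hi, if_false]; positivity

/-- (i): the sum over all shapes is bounded by `C 2^{r n}`. -/
theorem exists_sup_bound (d' k : ℕ) (r : ℝ) (hr : 0 < r) (hk : r < k) :
    ∃ C : ℝ, 1 ≤ C ∧ ∀ (q : ℕ) (e : Finset (Fin (d' + 1))) (t : Fin (d' + 1) → ℝ),
      (∀ i ∈ e, 0 < t i) →
      ∑ a : Fin d' → Fin (q + 1), ∏ i ∈ e, ((t i) ^ (-r) * Th k (shp q a i) (t i))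
        ≤ C * 2 ^ (r * ((d' + 1) * q : ℕ)) := by
  obtain ⟨C1, hC1, h1⟩ := exists_sum_scale k r hr hk
  obtain ⟨C2, hC2, h2⟩ := exists_sum_geom r hr
  refine ⟨(max C1 C2) ^ (d' + 1), one_le_pow₀ (le_max_of_le_left hC1), ?_⟩
  intro q e t ht
  set M := max C1 C2 with hM
  have hM1 : 1 ≤ M := le_max_of_le_left hC1
  have hf0 := fac_nonneg k r e t ht
  have hfs : ∀ i, ∀ q : ℕ, ∑ v ∈ Finset.range (q + 1), fac k r e t i v ≤ M := by
    intro i q
    by_cases hi : i ∈ e
    · simp only [fac, hi, if_true]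
      exact (h1 (t i) (ht i hi) q).trans (le_max_left _ _)
    · simp only [fac, hi, if_false, mul_one]
      exact (h2 q).trans (le_max_right _ _)
  have hf1 : ∀ i v, fac k r e t i v ≤ M := by
    intro i v
    exact (Finset.single_le_sum (f := fun v => fac k r e t i v) (fun v _ => hf0 i v)
      (Finset.mem_range.2 (Nat.lt_succ_self v))).trans (hfs i v)
  have hterm : ∀ a : Fin d' → Fin (q + 1), ∏ i ∈ e, ((t i) ^ (-r) * Th k (shp q a i) (t i))
      = 2 ^ (r * ((d' + 1) * q : ℕ)) * ∏ i, fac k r e t i (shp q a i) := by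
    intro a
    have e2 : ∏ i, fac k r e t i (shp q a i) = (∏ i, (2:ℝ) ^ (-(r * (shp q a i : ℕ)))) *
        ∏ i ∈ e, ((t i) ^ (-r) * Th k (shp q a i) (t i)) := by
      unfold fac
      rw [Finset.prod_mul_distrib, Finset.prod_ite_mem, Finset.univ_inter]
    rw [e2]
    have e1 : ∏ i, (2:ℝ) ^ (-(r * (shp q a i : ℕ))) = 2 ^ (-(r * ((d' + 1) * q : ℕ))) := by
      rw [← Real.rpow_sum_of_pos (by norm_num)]
      congr 1
      rw [Finset.sum_neg_distrib, ← Finset.mul_sum, ← Nat.cast_sum, sum_shp]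
    rw [e1, ← mul_assoc, ← Real.rpow_add (by norm_num)]
    simp
  rw [Finset.sum_congr rfl (fun a _ => hterm a), ← Finset.mul_sum, mul_comm]
  refine mul_le_mul_of_nonneg_right ?_ (by positivity)
  calc ∑ a : Fin d' → Fin (q + 1), ∏ i, fac k r e t i (shp q a i)
      ≤ ∑ a : Fin d' → Fin (q + 1), M * ∏ i : Fin d', fac k r e t i.succ (a i) := by
        refine Finset.sum_le_sum (fun a _ => ?_)
        rw [Fin.prod_univ_succ]
        simp only [shp, Fin.cons_zero, Fin.cons_succ]
        exact mul_le_mul_of_nonneg_right (hf1 _ _) (Finset.prod_nonneg (fun i _ => hf0 _ _))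
    _ = M * ∏ i : Fin d', ∑ v : Fin (q + 1), fac k r e t i.succ v := by
        rw [← Finset.mul_sum, Finset.prod_univ_sum, Fintype.piFinset_univ]
    _ ≤ M * ∏ _i : Fin d', M := by
        refine mul_le_mul_of_nonneg_left ?_ (by linarith)
        refine Finset.prod_le_prod (fun i _ => Finset.sum_nonneg (fun v _ => hf0 _ _))
          (fun i _ => ?_)
        rw [Fin.sum_univ_eq_sum_range (fun v => fac k r e t i.succ v) (q + 1)]
        exact hfs _ q
    _ = M ^ (d' + 1) := by simp; ring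

/-- (ii): the integral of one term -/
theorem exists_int_bound (d' k : ℕ) (r : ℝ) (hr : 0 < r) (hk : r < k) :
    ∃ C : ℝ, 1 ≤ C ∧ ∀ (q : ℕ) (e : Finset (Fin (d' + 1))) (a : Fin d' → Fin (q + 1)),
      ∫⁻ t in Set.univ.pi (fun _ : Fin (d' + 1) => Set.Ioo 0 (2 * Real.pi)),
        ∏ i ∈ e, ENNReal.ofReal ((t i) ^ (-r - 1) * Th k (shp q a i) (t i))
        ≤ ENNReal.ofReal (C * 2 ^ (r * ((d' + 1) * q : ℕ))) := by
  obtain ⟨C1, hC1, h1⟩ := exists_lintegral_scale k r hr hk
  set M := max C1 (2 * Real.pi) with hM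
  have hM1 : 1 ≤ M := le_max_of_le_left hC1
  refine ⟨M ^ (d' + 1), one_le_pow₀ hM1, ?_⟩
  intro q e a
  have e0 : ∀ t : Fin (d' + 1) → ℝ,
      ∏ i ∈ e, ENNReal.ofReal ((t i) ^ (-r - 1) * Th k (shp q a i) (t i))
      = ∏ i, (if i ∈ e then ENNReal.ofReal ((t i) ^ (-r - 1) * Th k (shp q a i) (t i)) else 1) := by
    intro t
    rw [Finset.prod_ite_mem, Finset.univ_inter]
  simp_rw [e0]
  rw [volume_pi, Measure.restrict_pi_pi]
  rw [lintegral_fin_prod (f := fun i (u : ℝ) => if i ∈ e then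
    ENNReal.ofReal (u ^ (-r - 1) * Th k (shp q a i) u) else 1)]
  · calc ∏ i, ∫⁻ u in Ioo 0 (2 * Real.pi), (if i ∈ e then
          ENNReal.ofReal (u ^ (-r - 1) * Th k (shp q a i) u) else 1)
        ≤ ∏ i, ENNReal.ofReal (M * 2 ^ (r * (shp q a i : ℕ))) := by
          refine Finset.prod_le_prod' (fun i _ => ?_)
          by_cases hi : i ∈ e
          · simp only [hi, if_true]
            refine (h1 _).trans (ENNReal.ofReal_le_ofReal ?_)
            exact mul_le_mul_of_nonneg_right (le_max_left _ _) (by positivity)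
          · simp only [hi, if_false]
            rw [lintegral_one, Measure.restrict_apply_univ, Real.volume_Ioo, sub_zero]
            apply ENNReal.ofReal_le_ofReal
            have h3 : (1:ℝ) ≤ 2 ^ (r * (shp q a i : ℕ)) := Real.one_le_rpow (by norm_num) (by positivity)
            have h4 : 2 * Real.pi ≤ M := le_max_right _ _
            nlinarith [Real.two_pi_pos]
      _ = ENNReal.ofReal (∏ i, (M * 2 ^ (r * (shp q a i : ℕ)))) := by
          rw [ENNReal.ofReal_prod_of_nonneg (fun i _ => by positivity)]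
      _ = _ := by
          congr 1
          rw [Finset.prod_mul_distrib]
          have e1 : ∏ i, (2:ℝ) ^ (r * (shp q a i : ℕ)) = 2 ^ (r * ((d' + 1) * q : ℕ)) := by
            rw [← Real.rpow_sum_of_pos (by norm_num)]
            congr 1
            rw [← Finset.mul_sum, ← Nat.cast_sum, sum_shp]
          rw [e1]
          simp
  · intro i
    by_cases hi : i ∈ e
    · simp only [hi, if_true]
      unfold Th
      fun_prop
    · simp only [hi, if_false]
      exact measurable_const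

theorem mixedModulus_tf_le {𝕜 : Type} [RCLike 𝕜] {k : ℕ} {C : ℝ} (hC1 : 1 ≤ C)
    (hC : ∀ (s : ℕ) (y : AddCircle (2 * Real.pi)) (h : ℝ),
      |diff1 k (phi1 s) (fun j => y + (((j : ℝ) * h : ℝ) : AddCircle (2 * Real.pi)))|
      ≤ C * min 1 ((2 ^ s * |h|) ^ k))
    (p : ℝ≥0∞) (hp : 1 ≤ p) (c : Idx d' q → ℝ) (hc : ∀ a, eLpNorm (Wf c a) p volume ≤ 1)
    (e : Finset (Fin (d' + 1))) (t : Fin (d' + 1) → ℝ) :
    mixedModulus k e p (fun x => ((tf q c x : ℝ) : 𝕜)) t ≤
      ENNReal.ofReal ((C ^ (d' + 1) * (k + 1) ^ (d' + 1)) *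
        ∑ a : Fin d' → Fin (q + 1), ∏ i ∈ e, Th k (shp q a i) (t i)) := by
  unfold mixedModulus
  refine iSup₂_le (fun h hh => ?_)
  have e1 : eLpNorm (mixedDiff k e h (fun x => ((tf q c x : ℝ) : 𝕜))) p volume
      = eLpNorm (mixedDiff k e h (tf q c)) p volume := by
    refine eLpNorm_congr_norm_ae (Filter.Eventually.of_forall (fun x => ?_))
    rw [mixedDiff_ofReal, RCLike.norm_ofReal, Real.norm_eq_abs]
  rw [e1]
  refine (eLpNorm_mixedDiff_tf_le hC1 hC p hp c hc e h).trans (ENNReal.ofReal_le_ofReal ?_)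
  refine mul_le_mul_of_nonneg_left (Finset.sum_le_sum (fun a _ => ?_)) (by positivity)
  exact Finset.prod_le_prod (fun i _ => Th_nonneg _ _ (abs_nonneg _))
    (fun i hi => Th_mono _ _ (abs_nonneg _) (hh i hi).le)

/-- The mixed Besov norm of the test functions. -/
theorem exists_besovNorm_tf_le (𝕜 : Type) [RCLike 𝕜] (d' k : ℕ) (r : ℝ) (hr : 0 < r) (hk : r < k)
    (p θ : ℝ≥0∞) (hp : 1 ≤ p) (hθ : 1 ≤ θ) :
    ∃ C : ℝ, 1 ≤ C ∧ ∀ (q : ℕ) (c : Idx d' q → ℝ), (∀ a, eLpNorm (Wf c a) p volume ≤ 1) →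
      besovNorm k r p θ (fun x => ((tf q c x : ℝ) : 𝕜)) ≤
        ENNReal.ofReal (C * (2 ^ (r * ((d' + 1) * q : ℕ)) * (((q:ℝ) + 1) ^ d') ^ (θ⁻¹).toReal)) := by
  obtain ⟨C0, hC0, h0⟩ := exists_diff_bound k
  obtain ⟨C2, hC2, h2⟩ := exists_sup_bound d' k r hr hk
  obtain ⟨C3, hC3, h3⟩ := exists_int_bound d' k r hr hk
  set C1 : ℝ := C0 ^ (d' + 1) * (k + 1) ^ (d' + 1) with hC1
  have hC1' : 1 ≤ C1 := by
    have a1 : 1 ≤ C0 ^ (d' + 1) := one_le_pow₀ hC0
    have a2 : (1:ℝ) ≤ ((k:ℝ) + 1) ^ (d' + 1) := one_le_pow₀ (by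
      have : (0:ℝ) ≤ k := Nat.cast_nonneg _
      linarith)
    nlinarith
  set D : ℝ := C1 * C2 * C3 with hD
  have hD1 : 1 ≤ D := by
    have : 1 ≤ C1 * C2 := by nlinarith
    nlinarith
  -- the bound for one seminorm
  have hsemi : ∀ (q : ℕ) (c : Idx d' q → ℝ), (∀ a, eLpNorm (Wf c a) p volume ≤ 1) →
      ∀ e : Finset (Fin (d' + 1)), besovSemi k r p θ e (fun x => ((tf q c x : ℝ) : 𝕜)) ≤
        ENNReal.ofReal (D * (2 ^ (r * ((d' + 1) * q : ℕ)) * (((q:ℝ) + 1) ^ d') ^ (θ⁻¹).toReal)) := by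
    intro q c hc e
    set R : ℝ := (2:ℝ) ^ (r * ((d' + 1) * q : ℕ)) with hR
    have hR0 : 0 < R := by positivity
    have hmod := mixedModulus_tf_le (𝕜 := 𝕜) hC0 h0 p hp c hc e
    rw [← hC1] at hmod
    have hXeq : ∀ t : Fin (d' + 1) → ℝ,
        (∏ i ∈ e, (t i) ^ (-r)) * ∑ a : Fin d' → Fin (q + 1), ∏ i ∈ e, Th k (shp q a i) (t i)
        = ∑ a : Fin d' → Fin (q + 1), ∏ i ∈ e, ((t i) ^ (-r) * Th k (shp q a i) (t i)) := by
      intro t
      rw [Finset.mul_sum]
      refine Finset.sum_congr rfl (fun a _ => ?_)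
      rw [Finset.prod_mul_distrib]
    by_cases hθi : θ = ∞
    · -- `θ = ∞`
      simp only [besovSemi, hθi, if_true, ENNReal.inv_top, ENNReal.toReal_zero, Real.rpow_zero,
        mul_one]
      refine iSup₂_le (fun t ht => ?_)
      have ht0 : ∀ i, 0 < t i := fun i => (ht i).1
      calc (∏ i ∈ e, ENNReal.ofReal ((t i) ^ (-r))) *
            mixedModulus k e p (fun x => ((tf q c x : ℝ) : 𝕜)) t
          ≤ (∏ i ∈ e, ENNReal.ofReal ((t i) ^ (-r))) * ENNReal.ofReal (C1 *
            ∑ a : Fin d' → Fin (q + 1), ∏ i ∈ e, Th k (shp q a i) (t i)) :=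
            mul_le_mul_right (hmod t) _
        _ = ENNReal.ofReal (C1 * ∑ a : Fin d' → Fin (q + 1),
            ∏ i ∈ e, ((t i) ^ (-r) * Th k (shp q a i) (t i))) := by
            rw [← ENNReal.ofReal_prod_of_nonneg (fun i _ => Real.rpow_nonneg (ht0 i).le _),
              ← ENNReal.ofReal_mul (Finset.prod_nonneg (fun i _ => Real.rpow_nonneg (ht0 i).le _)),
              ← hXeq]
            congr 1
            ring
        _ ≤ ENNReal.ofReal (D * R) := by
            apply ENNReal.ofReal_le_ofReal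
            have a1 := h2 q e t (fun i _ => ht0 i)
            calc C1 * ∑ a : Fin d' → Fin (q + 1),
                ∏ i ∈ e, ((t i) ^ (-r) * Th k (shp q a i) (t i)) ≤ C1 * (C2 * R) :=
                  mul_le_mul_of_nonneg_left a1 (by linarith)
              _ = (C1 * C2) * R * 1 := by ring
              _ ≤ (C1 * C2) * R * C3 := mul_le_mul_of_nonneg_left hC3 (by positivity)
              _ = D * R := by rw [hD]; ring
    · -- `θ < ∞`
      set ϑ : ℝ := θ.toReal with hϑ
      have hϑ1 : 1 ≤ ϑ := by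
        rw [hϑ, ← ENNReal.toReal_one]
        exact ENNReal.toReal_mono hθi hθ
      have hϑ0 : 0 < ϑ := by linarith
      have hinv : (θ⁻¹).toReal = 1 / ϑ := by rw [ENNReal.toReal_inv, one_div]
      simp only [besovSemi, hθi, if_false]
      rw [hinv, ← hϑ]
      set Q : ℝ := C2 * R with hQ
      have hQ0 : 0 < Q := by positivity
      set Y : ℝ := C1 ^ ϑ * Q ^ (ϑ - 1) with hY
      have hY0 : 0 ≤ Y := by positivity
      have hpt : ∀ t ∈ Set.univ.pi (fun _ : Fin (d' + 1) => Set.Ioo (0:ℝ) (2 * Real.pi)),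
          mixedModulus k e p (fun x => ((tf q c x : ℝ) : 𝕜)) t ^ ϑ *
            ∏ i ∈ e, ENNReal.ofReal ((t i) ^ (-(ϑ * r) - 1))
          ≤ ENNReal.ofReal Y * ∑ a : Fin d' → Fin (q + 1),
            ∏ i ∈ e, ENNReal.ofReal ((t i) ^ (-r - 1) * Th k (shp q a i) (t i)) := by
        intro t ht
        have ht0 : ∀ i, 0 < t i := fun i => (ht i (Set.mem_univ i)).1
        set A : ℝ := ∑ a : Fin d' → Fin (q + 1), ∏ i ∈ e, Th k (shp q a i) (t i) with hA
        have hA0 : 0 ≤ A := Finset.sum_nonneg (fun a _ => Finset.prod_nonneg (fun i _ =>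
          Th_nonneg _ _ (ht0 i).le))
        set w : ℝ := ∏ i ∈ e, (t i) ^ (-r) with hw
        have hw0 : 0 ≤ w := Finset.prod_nonneg (fun i _ => Real.rpow_nonneg (ht0 i).le _)
        set v : ℝ := ∏ i ∈ e, (t i)⁻¹ with hv
        have hv0 : 0 ≤ v := Finset.prod_nonneg (fun i _ => (inv_pos.2 (ht0 i)).le)
        set X : ℝ := w * A with hX
        have hX0 : 0 ≤ X := mul_nonneg hw0 hA0
        have hXQ : X ≤ Q := by
          rw [hX, hw, hA, hXeq]
          exact h2 q e t (fun i _ => ht0 i)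
        have e1 : ∏ i ∈ e, (t i) ^ (-(ϑ * r) - 1) = w ^ ϑ * v := by
          rw [hw, hv, ← Real.finsetProd_rpow _ _ (fun i _ => Real.rpow_nonneg (ht0 i).le _),
            ← Finset.prod_mul_distrib]
          refine Finset.prod_congr rfl (fun i _ => ?_)
          rw [← Real.rpow_mul (ht0 i).le, ← Real.rpow_neg_one, ← Real.rpow_add (ht0 i)]
          congr 1
          ring
        have e2 : X * v = ∑ a : Fin d' → Fin (q + 1),
            ∏ i ∈ e, ((t i) ^ (-r - 1) * Th k (shp q a i) (t i)) := by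
          rw [hX, hw, hA, hXeq, hv, Finset.sum_mul]
          refine Finset.sum_congr rfl (fun a _ => ?_)
          rw [← Finset.prod_mul_distrib]
          refine Finset.prod_congr rfl (fun i _ => ?_)
          rw [Real.rpow_sub_one (ht0 i).ne']
          field_simp
        have hXϑ : X ^ ϑ ≤ Q ^ (ϑ - 1) * X := by
          rcases hX0.lt_or_eq with h | h
          · calc X ^ ϑ = X ^ (ϑ - 1) * X := by rw [Real.rpow_sub_one h.ne']; field_simp
              _ ≤ Q ^ (ϑ - 1) * X := by
                refine mul_le_mul_of_nonneg_right ?_ hX0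
                exact Real.rpow_le_rpow hX0 hXQ (by linarith)
          · rw [← h, Real.zero_rpow hϑ0.ne']; simp
        calc mixedModulus k e p (fun x => ((tf q c x : ℝ) : 𝕜)) t ^ ϑ *
            ∏ i ∈ e, ENNReal.ofReal ((t i) ^ (-(ϑ * r) - 1))
            ≤ ENNReal.ofReal (C1 * A) ^ ϑ * ∏ i ∈ e, ENNReal.ofReal ((t i) ^ (-(ϑ * r) - 1)) :=
              mul_le_mul_left (ENNReal.rpow_le_rpow (hmod t) hϑ0.le) _
          _ = ENNReal.ofReal ((C1 * A) ^ ϑ * (w ^ ϑ * v)) := by
              rw [ENNReal.ofReal_rpow_of_nonneg (by positivity) hϑ0.le,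
                ← ENNReal.ofReal_prod_of_nonneg (fun i _ => Real.rpow_nonneg (ht0 i).le _),
                ← ENNReal.ofReal_mul (by positivity), e1]
          _ ≤ ENNReal.ofReal (Y * (X * v)) := by
              apply ENNReal.ofReal_le_ofReal
              have e3 : (C1 * A) ^ ϑ * (w ^ ϑ * v) = C1 ^ ϑ * X ^ ϑ * v := by
                rw [hX, Real.mul_rpow (by linarith) hA0, Real.mul_rpow hw0 hA0]; ring
              rw [e3, hY]
              calc C1 ^ ϑ * X ^ ϑ * v ≤ C1 ^ ϑ * (Q ^ (ϑ - 1) * X) * v := by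
                    refine mul_le_mul_of_nonneg_right ?_ hv0
                    exact mul_le_mul_of_nonneg_left hXϑ (by positivity)
                _ = _ := by ring
          _ = _ := by
              rw [ENNReal.ofReal_mul hY0, e2, ENNReal.ofReal_sum_of_nonneg]
              · congr 1
                refine Finset.sum_congr rfl (fun a _ => ?_)
                rw [ENNReal.ofReal_prod_of_nonneg]
                intro i _
                exact mul_nonneg (Real.rpow_nonneg (ht0 i).le _) (Th_nonneg _ _ (ht0 i).le)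
              · intro a _
                exact Finset.prod_nonneg (fun i _ =>
                  mul_nonneg (Real.rpow_nonneg (ht0 i).le _) (Th_nonneg _ _ (ht0 i).le))
      have hbox : MeasurableSet (Set.univ.pi (fun _ : Fin (d' + 1) => Set.Ioo (0:ℝ) (2 * Real.pi))) :=
        MeasurableSet.univ_pi (fun _ => measurableSet_Ioo)
      set M : ℝ := ((q:ℝ) + 1) ^ d' with hM
      have hM0 : 0 ≤ M := by positivity
      have hI : ∫⁻ t in Set.univ.pi (fun _ : Fin (d' + 1) => Set.Ioo 0 (2 * Real.pi)),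
          mixedModulus k e p (fun x => ((tf q c x : ℝ) : 𝕜)) t ^ ϑ *
            ∏ i ∈ e, ENNReal.ofReal ((t i) ^ (-(ϑ * r) - 1))
          ≤ ENNReal.ofReal (Y * (M * (C3 * R))) := by
        refine (setLIntegral_mono' hbox hpt).trans ?_
        have hmeas : ∀ a : Fin d' → Fin (q + 1), Measurable (fun t : Fin (d' + 1) → ℝ =>
            ∏ i ∈ e, ENNReal.ofReal ((t i) ^ (-r - 1) * Th k (shp q a i) (t i))) := by
          intro a
          refine Finset.measurable_prod _ (fun i _ => ?_)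
          unfold Th
          fun_prop
        rw [lintegral_const_mul _ (Finset.measurable_sum _ (fun a _ => hmeas a)),
          lintegral_finsetSum _ (fun a _ => hmeas a), ENNReal.ofReal_mul hY0]
        refine mul_le_mul_right ?_ _
        calc ∑ a : Fin d' → Fin (q + 1), ∫⁻ t in Set.univ.pi (fun _ : Fin (d' + 1) =>
              Set.Ioo 0 (2 * Real.pi)),
              ∏ i ∈ e, ENNReal.ofReal ((t i) ^ (-r - 1) * Th k (shp q a i) (t i))
            ≤ ∑ _a : Fin d' → Fin (q + 1), ENNReal.ofReal (C3 * R) :=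
              Finset.sum_le_sum (fun a _ => h3 q e a)
          _ = ENNReal.ofReal (M * (C3 * R)) := by
              rw [Finset.sum_const, nsmul_eq_mul, ENNReal.ofReal_mul hM0]
              congr 1
              rw [hM]
              simp only [Finset.card_univ, Fintype.card_pi, Fintype.card_fin, Finset.prod_const]
              rw [← ENNReal.ofReal_natCast]
              congr 1
              push_cast
              rfl
      refine (ENNReal.rpow_le_rpow hI (by positivity)).trans ?_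
      rw [ENNReal.ofReal_rpow_of_nonneg (by positivity) (by positivity)]
      apply ENNReal.ofReal_le_ofReal
      have hfin : Y * (M * (C3 * R)) ≤ (D * R) ^ ϑ * M := by
        have b1 : Q ^ (ϑ - 1) * R = C2 ^ (ϑ - 1) * R ^ ϑ := by
          rw [hQ, Real.mul_rpow (by linarith) hR0.le, mul_assoc]
          congr 1
          rw [Real.rpow_sub_one hR0.ne']
          field_simp
        have b2 : C2 ^ (ϑ - 1) ≤ C2 ^ ϑ := Real.rpow_le_rpow_of_exponent_le hC2 (by linarith)
        have b3 : C3 ≤ C3 ^ ϑ := Real.self_le_rpow_of_one_le hC3 hϑ1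
        calc Y * (M * (C3 * R)) = C1 ^ ϑ * (Q ^ (ϑ - 1) * R) * C3 * M := by rw [hY]; ring
          _ = C1 ^ ϑ * (C2 ^ (ϑ - 1) * R ^ ϑ) * C3 * M := by rw [b1]
          _ ≤ C1 ^ ϑ * (C2 ^ ϑ * R ^ ϑ) * C3 ^ ϑ * M := by
              refine mul_le_mul_of_nonneg_right ?_ hM0
              refine mul_le_mul ?_ b3 (by linarith) (by positivity)
              refine mul_le_mul_of_nonneg_left ?_ (by positivity)
              exact mul_le_mul_of_nonneg_right b2 (by positivity)
          _ = (D * R) ^ ϑ * M := by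
              have hC10 : (0:ℝ) ≤ C1 := by linarith
              have hC20 : (0:ℝ) ≤ C2 := by linarith
              have hC30 : (0:ℝ) ≤ C3 := by linarith
              have f1 : (D * R) ^ ϑ = C1 ^ ϑ * C2 ^ ϑ * C3 ^ ϑ * R ^ ϑ := by
                rw [hD, Real.mul_rpow (x := C1 * C2 * C3) (mul_nonneg (mul_nonneg hC10 hC20) hC30)
                  hR0.le, Real.mul_rpow (x := C1 * C2) (mul_nonneg hC10 hC20) hC30,
                  Real.mul_rpow (x := C1) hC10 hC20]
              rw [f1]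
              ring
      calc (Y * (M * (C3 * R))) ^ (1 / ϑ) ≤ ((D * R) ^ ϑ * M) ^ (1 / ϑ) :=
            Real.rpow_le_rpow (by positivity) hfin (by positivity)
        _ = D * R * M ^ (1 / ϑ) := by
            rw [Real.mul_rpow (by positivity) hM0, ← Real.rpow_mul (by positivity),
              mul_one_div_cancel hϑ0.ne', Real.rpow_one]
        _ = D * (R * M ^ (1 / ϑ)) := by ring
  refine ⟨2 ^ (d' + 1) * D, ?_, ?_⟩
  · have : (1:ℝ) ≤ 2 ^ (d' + 1) := one_le_pow₀ (by norm_num)
    nlinarith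
  · intro q c hc
    unfold besovNorm
    set Z : ℝ := (2:ℝ) ^ (r * ((d' + 1) * q : ℕ)) * (((q:ℝ) + 1) ^ d') ^ (θ⁻¹).toReal with hZ
    have hZ0 : 0 ≤ Z := by positivity
    calc ∑ e : Finset (Fin (d' + 1)), besovSemi k r p θ e (fun x => ((tf q c x : ℝ) : 𝕜))
        ≤ ∑ _e : Finset (Fin (d' + 1)), ENNReal.ofReal (D * Z) :=
          Finset.sum_le_sum (fun e _ => hsemi q c hc e)
      _ = ENNReal.ofReal (2 ^ (d' + 1) * D * Z) := by
          have hass : (2:ℝ) ^ (d' + 1) * D * Z = 2 ^ (d' + 1) * (D * Z) := by ring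
          rw [Finset.sum_const, nsmul_eq_mul, hass,
            ENNReal.ofReal_mul (by positivity : (0:ℝ) ≤ 2 ^ (d' + 1))]
          congr 1
          simp only [Finset.card_univ, Fintype.card_finset, Fintype.card_fin]
          rw [← ENNReal.ofReal_natCast]
          congr 1
          push_cast
          rfl

end Pool.Agent.Helper218_SB
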