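import Pool.Agent.Helper218_SB.Circle

namespace Pool.Agent.Helper218_SB

open MeasureTheory Set
open scoped ENNReal

/-- centres on the circle -/
noncomputable def ctr (s k : ℕ) : AddCircle (2 * Real.pi) :=
  ((2 * Real.pi * k / 2 ^ s : ℝ) : AddCircle (2 * Real.pi))

theorem dist_ctr (s : ℕ) {k k' : ℕ} (hk : k < 2 ^ s) (hk' : k' < 2 ^ s) (hne : k ≠ k') :
    2 * (1/2 : ℝ) ^ s ≤ dist (ctr s k) (ctr s k') := by
  have hpi := Real.pi_gt_three
  rw [dist_eq_norm, ctr, ctr, ← AddCircle.coe_sub, AddCircle.norm_eq]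
  set z := round ((2 * Real.pi)⁻¹ * (2 * Real.pi * k / 2 ^ s - 2 * Real.pi * k' / 2 ^ s)) with hz
  have hint : ((k:ℤ) - k' - z * 2 ^ s) ≠ 0 := by
    intro h0
    have h1 : (k:ℤ) - k' = z * 2 ^ s := by linarith
    have h2 : |(k:ℤ) - k'| < 2 ^ s := by
      rw [abs_lt]
      have a1 : (k:ℤ) < 2 ^ s := by exact_mod_cast hk
      have a2 : (k':ℤ) < 2 ^ s := by exact_mod_cast hk'
      constructor <;> omega
    have h3 : z ≠ 0 := by
      rintro h3
      rw [h3] at h1
      simp at h1
      apply hne; omega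
    rw [h1, abs_mul] at h2
    have h4 : (1:ℤ) ≤ |z| := Int.one_le_abs h3
    have h5 : |(2:ℤ) ^ s| = 2 ^ s := abs_of_pos (by positivity)
    rw [h5] at h2
    have h6 : (0:ℤ) < 2 ^ s := by positivity
    nlinarith
  have h1 : (1:ℝ) ≤ |(k:ℝ) - k' - z * 2 ^ s| := by
    have := Int.one_le_abs hint
    exact_mod_cast this
  have e : (2 * Real.pi * k / 2 ^ s - 2 * Real.pi * k' / 2 ^ s) - z * (2 * Real.pi)
      = (2 * Real.pi) * (1/2) ^ s * ((k:ℝ) - k' - z * 2 ^ s) := by
    have : ((1:ℝ)/2) ^ s = 1 / 2 ^ s := by rw [div_pow, one_pow]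
    rw [this]
    field_simp
  rw [e, abs_mul, abs_of_pos (by positivity)]
  have h2 : 0 < (1/2:ℝ) ^ s := by positivity
  calc 2 * (1/2 : ℝ) ^ s ≤ 2 * Real.pi * (1/2) ^ s * 1 := by nlinarith
    _ ≤ 2 * Real.pi * (1/2) ^ s * |(k:ℝ) - k' - z * 2 ^ s| :=
        mul_le_mul_of_nonneg_left h1 (by positivity)

/-- the ball of radius `2^{-s}` -/
theorem ball_disjoint (s : ℕ) {k k' : ℕ} (hk : k < 2 ^ s) (hk' : k' < 2 ^ s) (hne : k ≠ k') :
    Disjoint (Metric.ball (ctr s k) ((1/2:ℝ) ^ s)) (Metric.ball (ctr s k') ((1/2:ℝ) ^ s)) := by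
  apply Metric.ball_disjoint_ball
  have := dist_ctr s hk hk' hne
  linarith

theorem volume_ball_le (c : AddCircle (2 * Real.pi)) (s : ℕ) :
    volume (Metric.ball c ((1/2:ℝ) ^ s)) ≤ ENNReal.ofReal (2 * (1/2) ^ s) := by
  refine (measure_mono Metric.ball_subset_closedBall).trans ?_
  rw [AddCircle.volume_closedBall]
  exact ENNReal.ofReal_le_ofReal (min_le_right _ _)

theorem volume_inter_ball_le (c c' : AddCircle (2 * Real.pi)) (s s' : ℕ) :
    volume (Metric.ball c ((1/2:ℝ) ^ s) ∩ Metric.ball c' ((1/2:ℝ) ^ s'))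
      ≤ ENNReal.ofReal (2 * (1/2) ^ (max s s')) := by
  rcases le_total s s' with h | h
  · rw [max_eq_right h]
    exact (measure_mono inter_subset_right).trans (volume_ball_le _ _)
  · rw [max_eq_left h]
    exact (measure_mono inter_subset_left).trans (volume_ball_le _ _)

variable {d : ℕ}

/-- the box with side lengths `2^{-s_i}` around `c` -/
def box (s : Fin d → ℕ) (c : Torus d) : Set (Torus d) :=
  Set.univ.pi (fun i => Metric.ball (c i) ((1/2:ℝ) ^ (s i)))

theorem measurableSet_box (s : Fin d → ℕ) (c : Torus d) : MeasurableSet (box s c) :=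
  MeasurableSet.univ_pi (fun _ => Metric.isOpen_ball.measurableSet)

theorem volume_box_inter_le (s s' : Fin d → ℕ) (c c' : Torus d) :
    volume.real (box s c ∩ box s' c') ≤ 2 ^ d * (1/2) ^ (∑ i, max (s i) (s' i)) := by
  have h1 : box s c ∩ box s' c' = Set.univ.pi (fun i =>
      Metric.ball (c i) ((1/2:ℝ) ^ (s i)) ∩ Metric.ball (c' i) ((1/2:ℝ) ^ (s' i))) := by
    ext x; simp [box, Set.mem_pi, forall_and]
  have h2 : volume (box s c ∩ box s' c') ≤ ENNReal.ofReal (2 ^ d * (1/2) ^ (∑ i, max (s i) (s' i))) := by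
    rw [h1, volume_pi_pi]
    calc _ ≤ ∏ i, ENNReal.ofReal (2 * (1/2) ^ (max (s i) (s' i))) :=
          Finset.prod_le_prod' (fun i _ => volume_inter_ball_le _ _ _ _)
      _ = ENNReal.ofReal (∏ i, (2 * (1/2) ^ (max (s i) (s' i)))) := by
          rw [ENNReal.ofReal_prod_of_nonneg (fun i _ => by positivity)]
      _ = _ := by
          congr 1
          rw [Finset.prod_mul_distrib, Finset.prod_pow_eq_pow_sum]
          simp
  rw [measureReal_def]
  exact ENNReal.toReal_le_of_le_ofReal (by positivity) h2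

theorem volume_box_le (s : Fin d → ℕ) (c : Torus d) :
    volume.real (box s c) ≤ 2 ^ d * (1/2) ^ (∑ i, s i) := by
  have := volume_box_inter_le s s c c
  simpa using this

/-- tensor product bump -/
noncomputable def phi (s : Fin d → ℕ) (c : Torus d) (x : Torus d) : ℝ :=
  ∏ i, phi1 (s i) (x i - c i)

theorem phi_nonneg (s : Fin d → ℕ) (c x : Torus d) : 0 ≤ phi s c x :=
  Finset.prod_nonneg (fun _ _ => phi1_nonneg _ _)

theorem phi_le_one (s : Fin d → ℕ) (c x : Torus d) : phi s c x ≤ 1 :=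
  Finset.prod_le_one (fun _ _ => phi1_nonneg _ _) (fun _ _ => phi1_le_one _ _)

theorem phi_continuous (s : Fin d → ℕ) (c : Torus d) : Continuous (phi s c) :=
  continuous_finsetProd _ (fun i _ =>
    (phi1_continuous (s i)).comp ((continuous_apply i).sub continuous_const))

theorem phi_zero (s : Fin d → ℕ) (c x : Torus d) (h : x ∉ box s c) : phi s c x = 0 := by
  simp only [box, Set.mem_pi, Set.mem_univ, true_imp_iff, not_forall, Metric.mem_ball,
    not_lt, dist_eq_norm] at h
  obtain ⟨i, hi⟩ := h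
  exact Finset.prod_eq_zero (Finset.mem_univ i) (phi1_zero _ _ hi)

theorem integral_phi_ge (s : Fin d → ℕ) (c : Torus d) :
    (1/2 : ℝ) ^ (∑ i, s i) ≤ ∫ x, phi s c x := by
  set D : Set (Torus d) := Set.univ.pi (fun i => Metric.closedBall (c i) ((1/2:ℝ) ^ (s i) / 2))
    with hD
  have hDm : MeasurableSet D := MeasurableSet.univ_pi (fun _ => Metric.isClosed_closedBall.measurableSet)
  have hpi := Real.pi_gt_three
  have hvol : volume.real D = (1/2 : ℝ) ^ (∑ i, s i) := by
    rw [measureReal_def, hD, volume_pi_pi]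
    have : ∀ i, volume (Metric.closedBall (c i) ((1/2:ℝ) ^ (s i) / 2))
        = ENNReal.ofReal ((1/2:ℝ) ^ (s i)) := by
      intro i
      rw [AddCircle.volume_closedBall]
      congr 1
      have h1 : (1/2:ℝ) ^ (s i) ≤ 1 := pow_le_one₀ (by norm_num) (by norm_num)
      rw [min_eq_right (by linarith)]
      ring
    simp_rw [this]
    rw [← ENNReal.ofReal_prod_of_nonneg (fun i _ => by positivity), ENNReal.toReal_ofReal
      (Finset.prod_nonneg (fun i _ => by positivity)), Finset.prod_pow_eq_pow_sum]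
  have hint : Integrable (phi s c) volume := by
    refine (integrable_const (1:ℝ)).mono' (phi_continuous s c).aestronglyMeasurable
      (Filter.Eventually.of_forall (fun x => ?_))
    rw [Real.norm_eq_abs, abs_of_nonneg (phi_nonneg s c x)]; exact phi_le_one s c x
  calc (1/2 : ℝ) ^ (∑ i, s i) = ∫ x in D, (1:ℝ) := by rw [setIntegral_const]; simp [hvol]
    _ = ∫ x in D, phi s c x := by
        refine setIntegral_congr_fun hDm (fun x hx => ?_)
        have hx' : ∀ i, ‖x i - c i‖ ≤ (1/2:ℝ) ^ (s i) / 2 := by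
          intro i
          have := hx i (Set.mem_univ i)
          rwa [Metric.mem_closedBall, dist_eq_norm] at this
        simp only [phi]
        rw [Finset.prod_eq_one (fun i _ => phi1_one _ _ (hx' i))]
    _ ≤ ∫ x, phi s c x := setIntegral_le_integral hint (Filter.Eventually.of_forall (phi_nonneg s c))

end Pool.Agent.Helper218_SB
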