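import Pool.Agent.Helper218_SB.Defs

namespace Pool.Agent.Helper218_SB

open MeasureTheory Set
open scoped ENNReal

/-- `k`-th differences of a `C^k` function. -/
theorem abs_fwdDiff_iter_le (h : ℝ) : ∀ (n : ℕ) (A : ℝ) (g : ℝ → ℝ), ContDiff ℝ n g →
    (∀ x, |iteratedDeriv n g x| ≤ A) → ∀ x, |(fwdDiff h)^[n] g x| ≤ A * |h| ^ n := by
  intro n
  induction n with
  | zero => intro A g _ hA x; simpa using hA x
  | succ n ih =>
    intro A g hg hA x
    have hg' : ContDiff ℝ n g := hg.of_le (by exact_mod_cast Nat.le_succ n)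
    rw [Function.iterate_succ_apply]
    have hsh : ContDiff ℝ n (fun x => g (x + h)) := hg'.comp (contDiff_id.add contDiff_const)
    have hd : ContDiff ℝ n (fwdDiff h g) := by
      have : fwdDiff h g = fun x => g (x + h) - g x := rfl
      rw [this]
      exact hsh.sub hg'
    have hder : ∀ y, |iteratedDeriv n (fwdDiff h g) y| ≤ A * |h| := by
      intro y
      have e1 : iteratedDeriv n (fwdDiff h g) y
          = iteratedDeriv n g (y + h) - iteratedDeriv n g y := by
        have : fwdDiff h g = (fun x => g (x + h)) - g := rfl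
        rw [this, iteratedDeriv_sub hsh.contDiffAt hg'.contDiffAt, iteratedDeriv_comp_add_const]
      rw [e1]
      have hdiff : Differentiable ℝ (iteratedDeriv n g) := by
        apply hg.differentiable_iteratedDeriv n
        exact_mod_cast Nat.lt_succ_self n
      have := Convex.norm_image_sub_le_of_norm_deriv_le (f := iteratedDeriv n g) (C := A)
        (s := Set.univ) (x := y) (y := y + h) (fun z _ => hdiff z)
        (fun z _ => by
          rw [← iteratedDeriv_succ, Real.norm_eq_abs]; exact hA z) convex_univ (mem_univ _)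
        (mem_univ _)
      simpa [Real.norm_eq_abs] using this
    have := ih (A * |h|) (fwdDiff h g) hd hder x
    calc _ ≤ A * |h| * |h| ^ n := this
      _ = A * |h| ^ (n + 1) := by ring

/-- one-dimensional difference -/
noncomputable def diff1 {E : Type*} (k : ℕ) (g : E → ℝ) (sh : ℕ → E) : ℝ :=
  ∑ j ∈ Finset.range (k + 1), ((-1 : ℝ) ^ (k - j) * (k.choose j : ℝ)) * g (sh j)

theorem diff1_eq_fwdDiff (k : ℕ) (g : ℝ → ℝ) (u h : ℝ) :
    diff1 k g (fun j => u + j * h) = (fwdDiff h)^[k] g u := by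
  rw [fwdDiff_iter_eq_sum_shift]
  unfold diff1
  refine Finset.sum_congr rfl (fun j _ => ?_)
  rw [zsmul_eq_mul, nsmul_eq_mul]
  push_cast
  ring

theorem abs_diff1_le {E : Type*} (k : ℕ) (g : E → ℝ) (sh : ℕ → E) (hg : ∀ y, |g y| ≤ 1) :
    |diff1 k g sh| ≤ 2 ^ k := by
  unfold diff1
  calc |∑ j ∈ Finset.range (k + 1), ((-1 : ℝ) ^ (k - j) * (k.choose j : ℝ)) * g (sh j)|
      ≤ ∑ j ∈ Finset.range (k + 1), |((-1 : ℝ) ^ (k - j) * (k.choose j : ℝ)) * g (sh j)| :=
        Finset.abs_sum_le_sum_abs _ _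
    _ ≤ ∑ j ∈ Finset.range (k + 1), (k.choose j : ℝ) := by
        refine Finset.sum_le_sum (fun j _ => ?_)
        rw [abs_mul, abs_mul, abs_pow, abs_neg, abs_one, one_pow, one_mul,
          abs_of_nonneg (Nat.cast_nonneg _ : (0:ℝ) ≤ (k.choose j : ℝ))]
        calc (k.choose j : ℝ) * |g (sh j)| ≤ (k.choose j : ℝ) * 1 :=
              mul_le_mul_of_nonneg_left (hg _) (Nat.cast_nonneg _)
          _ = _ := mul_one _
    _ = 2 ^ k := by
        have := Nat.sum_range_choose k
        exact_mod_cast this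

/-- the fixed bump function: equal to one on `[-1/2, 1/2]`, supported in `[-1, 1]` -/
noncomputable def bmp : ContDiffBump (0 : ℝ) := ⟨1/2, 1, by norm_num, by norm_num⟩

/-- the bump on the circle at scale `2^{-s}` -/
noncomputable def phi1 (s : ℕ) (y : AddCircle (2 * Real.pi)) : ℝ := bmp (2 ^ s * ‖y‖)

theorem phi1_nonneg (s : ℕ) (y) : 0 ≤ phi1 s y := bmp.nonneg
theorem phi1_le_one (s : ℕ) (y) : phi1 s y ≤ 1 := bmp.le_one
theorem phi1_abs_le_one (s : ℕ) (y) : |phi1 s y| ≤ 1 := by
  rw [abs_of_nonneg (phi1_nonneg s y)]; exact phi1_le_one s y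
theorem phi1_continuous (s : ℕ) : Continuous (phi1 s) :=
  bmp.continuous.comp (continuous_const.mul continuous_norm)

theorem phi1_zero (s : ℕ) (y : AddCircle (2 * Real.pi)) (h : (1/2 : ℝ) ^ s ≤ ‖y‖) :
    phi1 s y = 0 := by
  apply bmp.zero_of_le_dist
  have e : bmp.rOut = 1 := rfl
  rw [e, Real.dist_eq, sub_zero, abs_of_nonneg (by positivity)]
  calc (1:ℝ) = 2 ^ s * (1/2) ^ s := by rw [← mul_pow]; norm_num
    _ ≤ 2 ^ s * ‖y‖ := mul_le_mul_of_nonneg_left h (by positivity)

theorem phi1_one (s : ℕ) (y : AddCircle (2 * Real.pi)) (h : ‖y‖ ≤ (1/2 : ℝ) ^ s / 2) :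
    phi1 s y = 1 := by
  apply bmp.one_of_mem_closedBall
  have e : bmp.rIn = 1/2 := rfl
  rw [e, mem_closedBall_zero_iff, Real.norm_eq_abs, abs_of_nonneg (by positivity)]
  calc 2 ^ s * ‖y‖ ≤ 2 ^ s * ((1/2) ^ s / 2) := mul_le_mul_of_nonneg_left h (by positivity)
    _ = (2 * (1/2)) ^ s / 2 := by rw [mul_pow]; ring
    _ = 1/2 := by norm_num

theorem phi1_coe (s : ℕ) (v : ℝ) (hv : |v| ≤ 3 * Real.pi / 2) :
    phi1 s (v : AddCircle (2 * Real.pi)) = bmp (2 ^ s * v) := by
  have hpi := Real.pi_gt_three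
  rcases le_or_gt |v| Real.pi with h | h
  · have e : ‖(v : AddCircle (2 * Real.pi))‖ = |v| := by
      rw [AddCircle.norm_coe_eq_abs_iff _ (by positivity)]
      rw [abs_of_pos Real.two_pi_pos]; linarith
    unfold phi1
    rw [e]
    rcases abs_choice v with h' | h'
    · rw [h']
    · rw [h', mul_neg, bmp.neg]
  · have h1 : Real.pi / 2 ≤ ‖(v : AddCircle (2 * Real.pi))‖ := by
      rw [AddCircle.norm_eq]
      set z := round ((2 * Real.pi)⁻¹ * v) with hz
      rcases eq_or_ne z 0 with h0 | h0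
      · rw [h0]; simp; linarith
      · have h2 : (1:ℝ) ≤ |(z:ℝ)| := by
          rw [← Int.cast_abs]; exact_mod_cast Int.one_le_abs h0
        have h3 : |(z:ℝ) * (2 * Real.pi)| ≤ |v - z * (2 * Real.pi)| + |v| := by
          have : (z:ℝ) * (2 * Real.pi) = v - (v - z * (2 * Real.pi)) := by ring
          rw [this]
          calc _ ≤ |v| + |v - z * (2 * Real.pi)| := by
                simpa [abs_sub_comm] using abs_sub v (v - z * (2 * Real.pi))
            _ = |v - (v - (v - z * (2 * Real.pi)))| + |v| := by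
                rw [add_comm]; congr 2; ring
        rw [abs_mul, abs_of_pos Real.two_pi_pos] at h3
        nlinarith
    have h2 : (1/2:ℝ) ^ s ≤ 1 := pow_le_one₀ (by norm_num) (by norm_num)
    rw [phi1_zero s _ (by linarith)]
    symm
    apply bmp.zero_of_le_dist
    have e : bmp.rOut = 1 := rfl
    rw [e, Real.dist_eq, sub_zero, abs_mul, abs_of_pos (by positivity : (0:ℝ) < 2 ^ s)]
    have h3 : (1:ℝ) ≤ 2 ^ s := one_le_pow₀ (by norm_num)
    nlinarith

/-- The key estimate for differences of the bump `phi1 s`. -/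
theorem exists_diff_bound (k : ℕ) : ∃ C : ℝ, 1 ≤ C ∧ ∀ (s : ℕ) (y : AddCircle (2 * Real.pi))
    (h : ℝ), |diff1 k (phi1 s) (fun j => y + (((j : ℝ) * h : ℝ) : AddCircle (2 * Real.pi)))|
      ≤ C * min 1 ((2 ^ s * |h|) ^ k) := by
  -- bound for the derivative
  obtain ⟨A, hA⟩ : ∃ A : ℝ, ∀ x, |iteratedDeriv k (bmp : ℝ → ℝ) x| ≤ A := by
    have hc : Continuous (iteratedDeriv k (bmp : ℝ → ℝ)) :=
      (bmp.contDiff (n := k)).continuous_iteratedDeriv k le_rfl
    have hs : HasCompactSupport (iteratedDeriv k (bmp : ℝ → ℝ)) := by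
      have h1 : HasCompactSupport (bmp : ℝ → ℝ) := bmp.hasCompactSupport
      have h2 := h1.iteratedFDeriv (𝕜 := ℝ) k
      rw [iteratedDeriv_eq_equiv_comp]
      exact h2.comp_left (by simp)
    obtain ⟨A, hA⟩ := hc.bounded_above_of_compact_support hs
    exact ⟨A, fun x => by simpa [Real.norm_eq_abs] using hA x⟩
  have hA0 : 0 ≤ A := (abs_nonneg _).trans (hA 0)
  refine ⟨2 ^ k + A + 2 ^ k * k ^ k, ?_, ?_⟩
  · have : (1:ℝ) ≤ 2 ^ k := one_le_pow₀ (by norm_num)
    have : (0:ℝ) ≤ 2 ^ k * k ^ k := by positivity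
    linarith
  · intro s y h
    have hpi := Real.pi_gt_three
    have htriv := abs_diff1_le k (phi1 s)
      (fun j => y + (((j : ℝ) * h : ℝ) : AddCircle (2 * Real.pi))) (phi1_abs_le_one s)
    have h2k : (0:ℝ) ≤ 2 ^ k * k ^ k := by positivity
    rcases le_or_gt 1 ((2 ^ s * |h|) ^ k) with h1 | h1
    · rw [min_eq_left h1, mul_one]; linarith
    · rw [min_eq_right h1.le]
      have hnn : 0 ≤ (2 ^ s * |h|) ^ k := by positivity
      rcases le_or_gt (k * |h|) (Real.pi / 2) with h2 | h2
      · -- small step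
        obtain ⟨u, hu, rfl⟩ : ∃ u : ℝ, |u| ≤ Real.pi ∧ (u : AddCircle (2 * Real.pi)) = y := by
          have := (AddCircle.coe_image_Ico_eq (2 * Real.pi) (-Real.pi))
          have hy : y ∈ ((↑) : ℝ → AddCircle (2 * Real.pi)) '' Set.Ico (-Real.pi) (-Real.pi + 2 * Real.pi) := by
            rw [this]; trivial
          obtain ⟨u, hu, rfl⟩ := hy
          refine ⟨u, abs_le.2 ⟨hu.1, by linarith [hu.2]⟩, rfl⟩
        have e1 : diff1 k (phi1 s) (fun j => (u : AddCircle (2 * Real.pi)) +
            (((j : ℝ) * h : ℝ) : AddCircle (2 * Real.pi)))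
            = diff1 k (bmp : ℝ → ℝ) (fun j => 2 ^ s * u + j * (2 ^ s * h)) := by
          unfold diff1
          refine Finset.sum_congr rfl (fun j hj => ?_)
          have hj' : (j:ℝ) ≤ k := by
            have := Finset.mem_range.1 hj
            exact_mod_cast Nat.lt_succ_iff.1 this
          have h3 : |u + j * h| ≤ 3 * Real.pi / 2 := by
            calc |u + j * h| ≤ |u| + |j * h| := abs_add_le _ _
              _ = |u| + j * |h| := by
                rw [abs_mul, abs_of_nonneg (Nat.cast_nonneg j : (0:ℝ) ≤ (j:ℝ))]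
              _ ≤ Real.pi + k * |h| := by
                have := mul_le_mul_of_nonneg_right hj' (abs_nonneg h)
                linarith
              _ ≤ 3 * Real.pi / 2 := by linarith
          beta_reduce
          rw [← AddCircle.coe_add, phi1_coe s _ h3]
          congr 2
          ring
        rw [e1, diff1_eq_fwdDiff]
        have h4 := abs_fwdDiff_iter_le (2 ^ s * h) k A bmp bmp.contDiff hA (2 ^ s * u)
        rw [abs_mul, abs_of_pos (by positivity : (0:ℝ) < 2 ^ s)] at h4
        refine h4.trans ?_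
        have h5 : (1:ℝ) ≤ 2 ^ k := one_le_pow₀ (by norm_num)
        nlinarith
      · -- large step
        have hk0 : k ≠ 0 := by
          rintro rfl
          simp at h2
          linarith
        have hk1 : (1:ℝ) ≤ k := by exact_mod_cast Nat.one_le_iff_ne_zero.2 hk0
        have h3 : (1:ℝ) ≤ k * (2 ^ s * |h|) := by
          have h4 : (1:ℝ) ≤ 2 ^ s := one_le_pow₀ (by norm_num)
          have h5 : k * |h| ≤ k * (2 ^ s * |h|) := by
            refine mul_le_mul_of_nonneg_left ?_ (by positivity)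
            nlinarith [abs_nonneg h]
          linarith
        have h4 : (1:ℝ) ≤ (k * (2 ^ s * |h|)) ^ k := one_le_pow₀ h3
        rw [mul_pow] at h4
        calc _ ≤ (2:ℝ) ^ k := htriv
          _ ≤ 2 ^ k * (k ^ k * (2 ^ s * |h|) ^ k) := by
            have : (0:ℝ) < 2 ^ k := by positivity
            nlinarith
          _ ≤ _ := by
            have : 0 ≤ (2 ^ k + A) * (2 ^ s * |h|) ^ k := by positivity
            nlinarith

end Pool.Agent.Helper218_SB
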