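import Mathlib

namespace Pool.Agent.Helper218_SB

open MeasureTheory Set

/-- Second moment inequality for a measure of total mass at most one. -/
theorem sq_sum_le {Ω ι : Type*} [MeasurableSpace Ω] [Fintype ι] (ρ : Measure Ω) [IsFiniteMeasure ρ]
    (hρ : ρ.real univ ≤ 1) (B : ι → Set Ω) (hB : ∀ i, MeasurableSet (B i)) (a : ι → ℝ) :
    (∑ i, a i * ρ.real (B i)) ^ 2 ≤ ∑ i, ∑ j, a i * a j * ρ.real (B i ∩ B j) := by
  classical
  set G : Ω → ℝ := fun x => ∑ i, (B i).indicator (fun _ => a i) x with hG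
  set c : ℝ := ∑ i, a i * ρ.real (B i) with hc
  have hind : ∀ i, Integrable ((B i).indicator (fun _ => a i)) ρ := fun i =>
    (integrable_const (a i)).indicator (hB i)
  have hGint : Integrable G ρ := integrable_finsetSum _ (fun i _ => hind i)
  have hGI : ∫ x, G x ∂ρ = c := by
    rw [hG, integral_finsetSum _ (fun i _ => hind i)]
    refine Finset.sum_congr rfl (fun i _ => ?_)
    rw [integral_indicator_const _ (hB i)]
    simp [mul_comm]
  have hprod : ∀ i j x, (B i).indicator (fun _ => a i) x * (B j).indicator (fun _ => a j) x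
      = (B i ∩ B j).indicator (fun _ => a i * a j) x := by
    intro i j x
    by_cases h1 : x ∈ B i <;> by_cases h2 : x ∈ B j <;> simp [h1, h2]
  have hind2 : ∀ i j, Integrable ((B i ∩ B j).indicator (fun _ => a i * a j)) ρ := fun i j =>
    (integrable_const (a i * a j)).indicator ((hB i).inter (hB j))
  have hG2 : ∀ x, G x ^ 2 = ∑ i, ∑ j, (B i ∩ B j).indicator (fun _ => a i * a j) x := by
    intro x
    rw [sq, hG, Finset.sum_mul_sum]
    refine Finset.sum_congr rfl (fun i _ => Finset.sum_congr rfl (fun j _ => hprod i j x))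
  have hG2int : Integrable (fun x => G x ^ 2) ρ := by
    simp_rw [hG2]
    exact integrable_finsetSum _ (fun i _ => integrable_finsetSum _ (fun j _ => hind2 i j))
  have hG2I : ∫ x, G x ^ 2 ∂ρ = ∑ i, ∑ j, a i * a j * ρ.real (B i ∩ B j) := by
    simp_rw [hG2]
    rw [integral_finsetSum _ (fun i _ => integrable_finsetSum _ (fun j _ => hind2 i j))]
    refine Finset.sum_congr rfl (fun i _ => ?_)
    rw [integral_finsetSum _ (fun j _ => hind2 i j)]
    refine Finset.sum_congr rfl (fun j _ => ?_)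
    rw [integral_indicator_const _ ((hB i).inter (hB j))]
    simp [mul_comm]
  have h0 : 0 ≤ ∫ x, (G x - c) ^ 2 ∂ρ := integral_nonneg (fun x => sq_nonneg _)
  have h1 : ∫ x, (G x - c) ^ 2 ∂ρ = ∫ x, G x ^ 2 ∂ρ - 2 * c * c + c ^ 2 * ρ.real univ := by
    have e : ∀ x, (G x - c) ^ 2 = G x ^ 2 - 2 * c * G x + c ^ 2 := fun x => by ring
    simp_rw [e]
    have i1 : Integrable (fun x => 2 * c * G x) ρ := hGint.const_mul _
    have i2 : Integrable (fun x => G x ^ 2 - 2 * c * G x) ρ := hG2int.sub i1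
    rw [integral_add i2 (integrable_const _), integral_sub hG2int i1, integral_const_mul, hGI,
      integral_const]
    simp [mul_comm]
  rw [← hG2I]
  nlinarith [sq_nonneg c]

/-- Young's inequality with exponents 6 and 6/5, in polynomial form. -/
theorem young6 (u y : ℝ) (hu : 0 ≤ u) (hy : 0 ≤ y) : 6 * u * y ^ 5 ≤ u ^ 6 + 5 * y ^ 6 := by
  have : u ^ 6 + 5 * y ^ 6 - 6 * u * y ^ 5
      = (u - y) ^ 2 * (u ^ 4 + 2 * u ^ 3 * y + 3 * u ^ 2 * y ^ 2 + 4 * u * y ^ 3 + 5 * y ^ 4) := by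
    ring
  have h2 : 0 ≤ (u - y) ^ 2 * (u ^ 4 + 2 * u ^ 3 * y + 3 * u ^ 2 * y ^ 2 + 4 * u * y ^ 3 + 5 * y ^ 4) := by
    positivity
  linarith

/-- Numerical form of Lemma A. -/
theorem lemmaA_num {ι S : Type*} [Fintype ι] [Fintype S] [DecidableEq S] (σ : ι → S)
    (τ : S → S → ℝ) (C : ℝ) (hC0 : 0 ≤ C) (hC : ∀ s, ∑ t, τ s t ≤ C)
    (hτ0 : ∀ s t, 0 ≤ τ s t) (hτs : ∀ s t, τ s t = τ t s)
    (x : ι → ℝ) (hx0 : ∀ i, 0 ≤ x i) (y : ι → ι → ℝ) (hy0 : ∀ i j, 0 ≤ y i j)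
    (hys : ∀ i j, y i j = y j i)
    (hyτ : ∀ i j, y i j ≤ τ (σ i) (σ j))
    (ha : ∀ i s, ∑ j with σ j = s, (y i j) ^ 6 ≤ (x i) ^ 6)
    (hb : ∀ s, ∑ j with σ j = s, (x j) ^ 6 ≤ 1)
    (hd : (∑ i, (x i) ^ 2 * (x i) ^ 6) ^ 2 ≤ ∑ i, ∑ j, (x i) ^ 2 * (x j) ^ 2 * (y i j) ^ 6) :
    ∑ i, (x i) ^ 8 ≤ C := by
  classical
  set T : ℝ := ∑ i, (x i) ^ 8 with hT
  have hT0 : 0 ≤ T := Finset.sum_nonneg (fun i _ => by positivity)
  have e0 : ∑ i, (x i) ^ 2 * (x i) ^ 6 = T := Finset.sum_congr rfl (fun i _ => by ring)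
  rw [e0] at hd
  -- the key bound for one row
  have key : ∀ i, ∑ j, (x i * x j) * (y i j) ^ 5 * τ (σ i) (σ j) ≤ C * (x i) ^ 6 := by
    intro i
    have hs : ∀ s, ∑ j with σ j = s, (x i * x j) * (y i j) ^ 5 ≤ (x i) ^ 6 := by
      intro s
      have h1 : ∀ j, 6 * ((x i * x j) * (y i j) ^ 5) ≤ (x i) ^ 6 * (x j) ^ 6 + 5 * (y i j) ^ 6 := by
        intro j
        have := young6 (x i * x j) (y i j) (mul_nonneg (hx0 i) (hx0 j)) (hy0 i j)
        nlinarith [this, mul_pow (x i) (x j) 6]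
      have h2 : 6 * ∑ j with σ j = s, (x i * x j) * (y i j) ^ 5
          ≤ (x i) ^ 6 * ∑ j with σ j = s, (x j) ^ 6 + 5 * ∑ j with σ j = s, (y i j) ^ 6 := by
        rw [Finset.mul_sum, Finset.mul_sum, Finset.mul_sum, ← Finset.sum_add_distrib]
        exact Finset.sum_le_sum (fun j _ => h1 j)
      have h3 : (x i) ^ 6 * ∑ j with σ j = s, (x j) ^ 6 ≤ (x i) ^ 6 := by
        have h0 : 0 ≤ (x i) ^ 6 := by positivity
        nlinarith [hb s]
      have h4 := ha i s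
      linarith
    calc ∑ j, (x i * x j) * (y i j) ^ 5 * τ (σ i) (σ j)
        = ∑ s, ∑ j with σ j = s, (x i * x j) * (y i j) ^ 5 * τ (σ i) (σ j) := by
          rw [Finset.sum_fiberwise]
      _ = ∑ s, τ (σ i) s * ∑ j with σ j = s, (x i * x j) * (y i j) ^ 5 := by
          refine Finset.sum_congr rfl (fun s _ => ?_)
          rw [Finset.mul_sum]
          refine Finset.sum_congr rfl (fun j hj => ?_)
          rw [(Finset.mem_filter.1 hj).2]; ring
      _ ≤ ∑ s, τ (σ i) s * (x i) ^ 6 :=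
          Finset.sum_le_sum (fun s _ => mul_le_mul_of_nonneg_left (hs s) (hτ0 _ _))
      _ = (∑ s, τ (σ i) s) * (x i) ^ 6 := by rw [Finset.sum_mul]
      _ ≤ C * (x i) ^ 6 := mul_le_mul_of_nonneg_right (hC _) (by positivity)
  have hpair : ∀ i j, (x i) ^ 2 * (x j) ^ 2 * (y i j) ^ 6 ≤
      (1/2) * ((x i) ^ 2 * ((x i * x j) * (y i j) ^ 5 * τ (σ i) (σ j)))
        + (1/2) * ((x j) ^ 2 * ((x i * x j) * (y i j) ^ 5 * τ (σ i) (σ j))) := by
    intro i j
    have h1 : (y i j) ^ 6 ≤ (y i j) ^ 5 * τ (σ i) (σ j) := by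
      have : (y i j) ^ 6 = (y i j) ^ 5 * y i j := by ring
      rw [this]
      exact mul_le_mul_of_nonneg_left (hyτ i j) (by have := hy0 i j; positivity)
    have h2 : (x i) ^ 2 * (x j) ^ 2 ≤ (1/2) * ((x i)^2 * (x i * x j)) + (1/2) * ((x j)^2 * (x i * x j)) := by
      have := mul_nonneg (mul_nonneg (hx0 i) (hx0 j)) (sq_nonneg (x i - x j))
      nlinarith [this]
    have h3 : 0 ≤ (y i j) ^ 5 * τ (σ i) (σ j) :=
      mul_nonneg (by have := hy0 i j; positivity) (hτ0 _ _)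
    calc (x i) ^ 2 * (x j) ^ 2 * (y i j) ^ 6
        ≤ (x i) ^ 2 * (x j) ^ 2 * ((y i j) ^ 5 * τ (σ i) (σ j)) :=
          mul_le_mul_of_nonneg_left h1 (by positivity)
      _ ≤ ((1/2) * ((x i)^2 * (x i * x j)) + (1/2) * ((x j)^2 * (x i * x j))) * ((y i j) ^ 5 * τ (σ i) (σ j)) :=
          mul_le_mul_of_nonneg_right h2 h3
      _ = _ := by ring
  have hsum : ∑ i, ∑ j, (x i) ^ 2 * (x j) ^ 2 * (y i j) ^ 6 ≤ C * T := by
    have e1 : ∑ i, ∑ j, (x i) ^ 2 * ((x i * x j) * (y i j) ^ 5 * τ (σ i) (σ j)) ≤ C * T := by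
      rw [hT, Finset.mul_sum]
      refine Finset.sum_le_sum (fun i _ => ?_)
      rw [← Finset.mul_sum]
      calc (x i) ^ 2 * ∑ j, (x i * x j) * (y i j) ^ 5 * τ (σ i) (σ j)
          ≤ (x i) ^ 2 * (C * (x i) ^ 6) := mul_le_mul_of_nonneg_left (key i) (by positivity)
        _ = C * (x i) ^ 8 := by ring
    have e2 : ∑ i, ∑ j, (x j) ^ 2 * ((x i * x j) * (y i j) ^ 5 * τ (σ i) (σ j)) ≤ C * T := by
      rw [Finset.sum_comm]
      refine le_trans (le_of_eq ?_) e1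
      refine Finset.sum_congr rfl (fun i _ => Finset.sum_congr rfl (fun j _ => ?_))
      rw [hys j i, hτs (σ j) (σ i)]; ring
    calc ∑ i, ∑ j, (x i) ^ 2 * (x j) ^ 2 * (y i j) ^ 6
        ≤ ∑ i, ∑ j, ((1/2) * ((x i) ^ 2 * ((x i * x j) * (y i j) ^ 5 * τ (σ i) (σ j)))
        + (1/2) * ((x j) ^ 2 * ((x i * x j) * (y i j) ^ 5 * τ (σ i) (σ j)))) :=
          Finset.sum_le_sum (fun i _ => Finset.sum_le_sum (fun j _ => hpair i j))
      _ = (1/2) * (∑ i, ∑ j, (x i) ^ 2 * ((x i * x j) * (y i j) ^ 5 * τ (σ i) (σ j)))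
        + (1/2) * (∑ i, ∑ j, (x j) ^ 2 * ((x i * x j) * (y i j) ^ 5 * τ (σ i) (σ j))) := by
          simp_rw [Finset.sum_add_distrib, Finset.mul_sum]
      _ ≤ C * T := by linarith
  have h2 : T ^ 2 ≤ C * T := hd.trans hsum
  rcases hT0.lt_or_eq with h | h
  · nlinarith
  · rw [← h]; exact hC0

/-- Lemma A: `∑_B ρ(B)^{4/3}` is bounded for a family of boxes with `ρ(B ∩ B') ≤ τ(σ B, σ B')^6`. -/
theorem lemmaA {Ω : Type*} [MeasurableSpace Ω] (ρ : Measure Ω) [IsFiniteMeasure ρ]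
    (hρ : ρ.real univ ≤ 1)
    {ι S : Type*} [Fintype ι] [Fintype S] [DecidableEq S] (σ : ι → S) (B : ι → Set Ω)
    (hB : ∀ i, MeasurableSet (B i))
    (hdisj : ∀ i j, i ≠ j → σ i = σ j → Disjoint (B i) (B j))
    (τ : S → S → ℝ) (C : ℝ) (hC0 : 0 ≤ C) (hC : ∀ s, ∑ t, τ s t ≤ C)
    (hτ0 : ∀ s t, 0 ≤ τ s t) (hτs : ∀ s t, τ s t = τ t s)
    (hint : ∀ i j, ρ.real (B i ∩ B j) ≤ (τ (σ i) (σ j)) ^ 6)
    (x : ι → ℝ) (hx0 : ∀ i, 0 ≤ x i) (hx : ∀ i, (x i) ^ 6 = ρ.real (B i)) :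
    ∑ i, (x i) ^ 8 ≤ C := by
  classical
  have hroot : ∀ a : ℝ, 0 ≤ a → ∃ b : ℝ, 0 ≤ b ∧ b ^ 6 = a := fun a ha =>
    ⟨a ^ (1/6 : ℝ), by positivity, by
      rw [← Real.rpow_natCast, ← Real.rpow_mul ha]; norm_num⟩
  choose y hy0 hy using fun i j => hroot (ρ.real (B i ∩ B j)) measureReal_nonneg
  have hA : ∀ (A : Set Ω), MeasurableSet A → ∀ (s : S),
      ∑ j with σ j = s, ρ.real (A ∩ B j) ≤ ρ.real A := by
    intro A hAm s
    rw [← measureReal_biUnion_finset]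
    · exact measureReal_mono (by simp)
    · intro i hi j hj hij
      have hi' : σ i = s := by simpa using hi
      have hj' : σ j = s := by simpa using hj
      exact (hdisj i j hij (hi'.trans hj'.symm)).mono inter_subset_right inter_subset_right
    · intro i _; exact hAm.inter (hB i)
  refine lemmaA_num σ τ C hC0 hC hτ0 hτs x hx0 y hy0 ?_ ?_ ?_ ?_ ?_
  · intro i j
    have : (y i j) ^ 6 = (y j i) ^ 6 := by rw [hy, hy, inter_comm]
    exact (pow_left_inj₀ (hy0 i j) (hy0 j i) (by norm_num)).1 this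
  · intro i j
    have : (y i j) ^ 6 ≤ (τ (σ i) (σ j)) ^ 6 := by rw [hy]; exact hint i j
    exact (pow_le_pow_iff_left₀ (hy0 i j) (hτ0 _ _) (by norm_num)).1 this
  · intro i s
    simp_rw [hy, hx]
    exact hA (B i) (hB i) s
  · intro s
    simp_rw [hx]
    refine le_trans ?_ hρ
    simpa using hA univ MeasurableSet.univ s
  · have h := sq_sum_le ρ hρ B hB (fun i => (x i) ^ 2)
    simp_rw [hx, hy]
    exact h

end Pool.Agent.Helper218_SB
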