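import Pool.Agent.Helper218_SB.Trace
import Pool.Agent.Helper218_SB.LemmaA

namespace Pool.Agent.Helper218_SB

open MeasureTheory Set

section

variable {Ω : Type*} [MeasurableSpace Ω] {μ : Measure Ω} [IsFiniteMeasure μ]
  {ι S : Type*} [Fintype ι] [Fintype S] [DecidableEq S]

/-- A family of boxes with shapes in `S`. -/
structure BoxFamily (μ : Measure Ω) (ι S : Type*) [Fintype S] where
  σ : ι → S
  B : ι → Set Ω
  meas : ∀ i, MeasurableSet (B i)
  disj : ∀ i j, i ≠ j → σ i = σ j → Disjoint (B i) (B j)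
  L : ℝ
  Lpos : 0 < L
  τ : S → S → ℝ
  τ0 : ∀ s t, 0 ≤ τ s t
  τ1 : ∀ s t, τ s t ≤ 1
  τs : ∀ s t, τ s t = τ t s
  C : ℝ
  C0 : 0 ≤ C
  hC : ∀ s, ∑ t, τ s t ≤ C
  inter : ∀ i j, L * μ.real (B i ∩ B j) ≤ (τ (σ i) (σ j)) ^ 12

omit [IsFiniteMeasure μ] [DecidableEq S] in
theorem BoxFamily.card_le (F : BoxFamily μ ι S) (x : Ω) :
    ∑ j, (F.B j).indicator (fun _ => (1:ℝ)) x ≤ Fintype.card S := by
  classical
  have h : ∑ j, (F.B j).indicator (fun _ => (1:ℝ)) x
      = ((Finset.univ.filter (fun j => x ∈ F.B j)).card : ℝ) := by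
    simp only [Set.indicator_apply]
    rw [Finset.sum_ite]
    simp
  rw [h]
  have : (Finset.univ.filter (fun j => x ∈ F.B j)).card ≤ (Finset.univ : Finset S).card := by
    refine Finset.card_le_card_of_injOn F.σ (fun _ _ => Finset.mem_univ _) ?_
    intro i hi j hj hij
    by_contra hne
    have := F.disj i j hne hij
    have hi' : x ∈ F.B i := by simpa using hi
    have hj' : x ∈ F.B j := by simpa using hj
    exact Set.disjoint_left.1 this hi' hj'
  exact_mod_cast this

omit [IsFiniteMeasure μ] [DecidableEq S] in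
theorem BoxFamily.sum_setIntegral_le (F : BoxFamily μ ι S) (g : Ω → ℝ) (hg0 : ∀ x, 0 ≤ g x)
    (hg : Integrable g μ) : ∑ j, ∫ x in F.B j, g x ∂μ ≤ Fintype.card S * ∫ x, g x ∂μ := by
  have h1 : ∀ j, ∫ x in F.B j, g x ∂μ = ∫ x, (F.B j).indicator g x ∂μ := fun j =>
    (integral_indicator (F.meas j)).symm
  simp_rw [h1]
  rw [← integral_finsetSum _ (fun j _ => hg.indicator (F.meas j)), ← integral_const_mul]
  refine integral_mono (integrable_finsetSum _ (fun j _ => hg.indicator (F.meas j)))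
    (hg.const_mul _) (fun x => ?_)
  have h2 : ∀ j, (F.B j).indicator g x = (F.B j).indicator (fun _ => (1:ℝ)) x * g x := by
    intro j
    by_cases h : x ∈ F.B j <;> simp [h]
  simp only []
  simp_rw [h2]
  rw [← Finset.sum_mul]
  exact mul_le_mul_of_nonneg_right (F.card_le x) (hg0 x)

/-- the row sums of squares of `L μ(B_i ∩ B_j)` -/
theorem BoxFamily.sum_sq_inter_le (F : BoxFamily μ ι S) (i : ι) :
    ∑ j, (F.L * μ.real (F.B i ∩ F.B j)) ^ 2 ≤ F.C := by
  classical
  have hA : ∀ (s : S), ∑ j with F.σ j = s, μ.real (F.B i ∩ F.B j) ≤ μ.real (F.B i) := by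
    intro s
    rw [← measureReal_biUnion_finset]
    · exact measureReal_mono (by simp)
    · intro a ha b hb hab
      have ha' : F.σ a = s := by simpa using ha
      have hb' : F.σ b = s := by simpa using hb
      exact (F.disj a b hab (ha'.trans hb'.symm)).mono inter_subset_right inter_subset_right
    · intro a _; exact (F.meas i).inter (F.meas a)
  have hone : F.L * μ.real (F.B i) ≤ 1 := by
    have := F.inter i i
    rw [inter_self] at this
    exact this.trans (pow_le_one₀ (F.τ0 _ _) (F.τ1 _ _))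
  have h0 : ∀ j, 0 ≤ F.L * μ.real (F.B i ∩ F.B j) := fun j =>
    mul_nonneg F.Lpos.le measureReal_nonneg
  calc ∑ j, (F.L * μ.real (F.B i ∩ F.B j)) ^ 2
      ≤ ∑ j, F.τ (F.σ i) (F.σ j) * (F.L * μ.real (F.B i ∩ F.B j)) := by
        refine Finset.sum_le_sum (fun j _ => ?_)
        rw [sq]
        refine mul_le_mul_of_nonneg_right ((F.inter i j).trans ?_) (h0 j)
        calc (F.τ (F.σ i) (F.σ j)) ^ 12 ≤ (F.τ (F.σ i) (F.σ j)) ^ 1 :=
              pow_le_pow_of_le_one (F.τ0 _ _) (F.τ1 _ _) (by norm_num)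
          _ = _ := pow_one _
    _ = ∑ s, ∑ j with F.σ j = s, F.τ (F.σ i) (F.σ j) * (F.L * μ.real (F.B i ∩ F.B j)) := by
        rw [Finset.sum_fiberwise]
    _ = ∑ s, F.τ (F.σ i) s * (F.L * ∑ j with F.σ j = s, μ.real (F.B i ∩ F.B j)) := by
        refine Finset.sum_congr rfl (fun s _ => ?_)
        rw [Finset.mul_sum, Finset.mul_sum]
        refine Finset.sum_congr rfl (fun j hj => ?_)
        rw [(Finset.mem_filter.1 hj).2]
    _ ≤ ∑ s, F.τ (F.σ i) s * 1 := by
        refine Finset.sum_le_sum (fun s _ => mul_le_mul_of_nonneg_left ?_ (F.τ0 _ _))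
        exact (mul_le_mul_of_nonneg_left (hA s) F.Lpos.le).trans hone
    _ ≤ F.C := by simpa using F.hC (F.σ i)

/-- Lemma A applied to `ρ = min(G, √(L G)) dμ`, with `∫ G ≤ 1`. -/
theorem BoxFamily.row (F : BoxFamily μ ι S) (G : Ω → ℝ) (hGm : Measurable G) (hG0 : ∀ x, 0 ≤ G x)
    (hGi : Integrable G μ) (hG1 : ∫ x, G x ∂μ ≤ 1) :
    ∃ x : ι → ℝ, (∀ j, 0 ≤ x j) ∧ (∀ j, x j ≤ 1) ∧
      (∀ j, (x j) ^ 6 = ∫ y in F.B j, min (G y) (Real.sqrt (F.L * G y)) ∂μ) ∧
      ∑ j, (x j) ^ 8 ≤ F.C := by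
  classical
  set w : Ω → ℝ := fun y => min (G y) (Real.sqrt (F.L * G y)) with hw
  have hwm : Measurable w := hGm.min ((hGm.const_mul _).sqrt)
  have hw0 : ∀ y, 0 ≤ w y := fun y => le_min (hG0 y) (Real.sqrt_nonneg _)
  have hwG : ∀ y, w y ≤ G y := fun y => min_le_left _ _
  have hwi : Integrable w μ := hGi.mono' hwm.aestronglyMeasurable
    (Filter.Eventually.of_forall (fun y => by
      rw [Real.norm_eq_abs, abs_of_nonneg (hw0 y)]; exact hwG y))
  set ρ : Measure Ω := μ.withDensity (fun y => ENNReal.ofReal (w y)) with hρ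
  have hfin : IsFiniteMeasure ρ := isFiniteMeasure_withDensity_ofReal hwi.2
  have hρA : ∀ A, MeasurableSet A → ρ.real A = ∫ y in A, w y ∂μ := by
    intro A hA
    rw [measureReal_def, hρ, withDensity_apply _ hA,
      integral_eq_lintegral_of_nonneg_ae (Filter.Eventually.of_forall hw0)
        hwm.aestronglyMeasurable]
  have hroot : ∀ a : ℝ, 0 ≤ a → ∃ b : ℝ, 0 ≤ b ∧ b ^ 6 = a := fun a ha =>
    ⟨a ^ (1/6 : ℝ), by positivity, by
      rw [← Real.rpow_natCast, ← Real.rpow_mul ha]; norm_num⟩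
  choose x hx0 hx using fun j => hroot (ρ.real (F.B j)) measureReal_nonneg
  have huniv : ρ.real univ ≤ 1 := by
    rw [hρA _ MeasurableSet.univ, setIntegral_univ]
    exact (integral_mono hwi hGi hwG).trans hG1
  have hint : ∀ i j, ρ.real (F.B i ∩ F.B j) ≤ (F.τ (F.σ i) (F.σ j)) ^ 6 := by
    intro i j
    have hAm : MeasurableSet (F.B i ∩ F.B j) := (F.meas i).inter (F.meas j)
    rw [hρA _ hAm]
    set A := F.B i ∩ F.B j with hA
    set t := F.τ (F.σ i) (F.σ j) with ht
    have ht0 : 0 ≤ t := F.τ0 _ _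
    have hμA : F.L * μ.real A ≤ t ^ 12 := F.inter i j
    rcases ht0.lt_or_eq with h | h
    · have hpt : ∀ y, 2 * t ^ 6 * w y ≤ F.L + t ^ 12 * G y := by
        intro y
        have h1 : w y ≤ Real.sqrt F.L * Real.sqrt (G y) := by
          rw [← Real.sqrt_mul F.Lpos.le]; exact min_le_right _ _
        have h2 : 2 * (Real.sqrt F.L) * (t ^ 6 * Real.sqrt (G y)) ≤ F.L + t ^ 12 * G y := by
          have e1 : F.L + t ^ 12 * G y = (Real.sqrt F.L) ^ 2 + (t ^ 6 * Real.sqrt (G y)) ^ 2 := by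
            rw [mul_pow, Real.sq_sqrt F.Lpos.le, Real.sq_sqrt (hG0 y)]; ring
          rw [e1, mul_assoc]
          have := sq_nonneg (Real.sqrt F.L - t ^ 6 * Real.sqrt (G y))
          linarith [this, sub_sq (Real.sqrt F.L) (t ^ 6 * Real.sqrt (G y))]
        have h3 : t ^ 6 * w y ≤ t ^ 6 * (Real.sqrt F.L * Real.sqrt (G y)) :=
          mul_le_mul_of_nonneg_left h1 (by positivity)
        nlinarith
      have hI : ∫ y in A, 2 * t ^ 6 * w y ∂μ ≤ ∫ y in A, (F.L + t ^ 12 * G y) ∂μ := by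
        refine integral_mono (hwi.integrableOn.const_mul _)
          ((integrable_const _).add (hGi.integrableOn.const_mul _)) hpt
      have i1 : Integrable (fun y => t ^ 12 * G y) (μ.restrict A) := hGi.integrableOn.const_mul _
      rw [integral_const_mul, integral_add (integrable_const _) i1, integral_const,
        integral_const_mul] at hI
      have h4 : ∫ y in A, G y ∂μ ≤ 1 :=
        (setIntegral_le_integral hGi (Filter.Eventually.of_forall hG0)).trans hG1
      have h5 : (μ.restrict A).real univ • F.L = F.L * μ.real A := by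
        rw [measureReal_restrict_apply_univ, smul_eq_mul, mul_comm]
      rw [h5] at hI
      have h6 : t ^ 12 * ∫ y in A, G y ∂μ ≤ t ^ 12 := by
        have : 0 ≤ t ^ 12 := by positivity
        nlinarith
      have h7 : 2 * t ^ 6 * ∫ y in A, w y ∂μ ≤ 2 * t ^ 6 * t ^ 6 := by
        have : 2 * t ^ 6 * t ^ 6 = t ^ 12 + t ^ 12 := by ring
        linarith
      exact le_of_mul_le_mul_left h7 (by positivity)
    · have hμ0 : μ.real A = 0 := by
        have h1 : F.L * μ.real A ≤ 0 := by rw [← h] at hμA; simpa using hμA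
        have h2 : 0 ≤ μ.real A := measureReal_nonneg
        nlinarith [F.Lpos]
      have hμ0' : μ A = 0 := by
        rwa [measureReal_def, ENNReal.toReal_eq_zero_iff, or_iff_left (measure_ne_top μ A)] at hμ0
      rw [setIntegral_measure_zero _ hμ0']
      positivity
  have h8 := lemmaA ρ huniv F.σ F.B F.meas F.disj F.τ F.C F.C0 F.hC F.τ0 F.τs hint x hx0 hx
  refine ⟨x, hx0, ?_, ?_, h8⟩
  · intro j
    have : (x j) ^ 6 ≤ 1 ^ 6 := by
      rw [hx, one_pow]; exact (measureReal_mono (subset_univ _)).trans huniv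
    exact (pow_le_pow_iff_left₀ (hx0 j) zero_le_one (by norm_num)).1 this
  · intro j
    rw [hx, hρA _ (F.meas j)]

/-- One row of the kept/removed analysis: pointwise facts about `Ω_j`. -/
theorem kept_pointwise {L K G X : ℝ} (hL : 0 < L) (hK : 1 ≤ K) (hG : 0 ≤ G) (hX0 : 0 ≤ X)
    (hX1 : X ≤ 1) (h : G * X ^ 4 ≤ K ^ 2 * L) :
    G * X ^ 2 ≤ K * min G (Real.sqrt (L * G)) := by
  rcases le_total G L with hGL | hGL
  · have h1 : G ≤ Real.sqrt (L * G) := by
      apply Real.le_sqrt_of_sq_le; nlinarith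
    rw [min_eq_left h1]
    have hX2 : X ^ 2 ≤ 1 := pow_le_one₀ hX0 hX1
    nlinarith
  · have h1 : Real.sqrt (L * G) ≤ G := by
      apply Real.sqrt_le_iff.2 ⟨hG, by nlinarith⟩
    rw [min_eq_right h1]
    have h2 : (G * X ^ 2) ^ 2 ≤ (K * Real.sqrt (L * G)) ^ 2 := by
      rw [mul_pow K, Real.sq_sqrt (by positivity)]
      calc (G * X ^ 2) ^ 2 = G * (G * X ^ 4) := by ring
        _ ≤ G * (K ^ 2 * L) := mul_le_mul_of_nonneg_left h hG
        _ = K ^ 2 * (L * G) := by ring
    exact (pow_le_pow_iff_left₀ (by positivity) (by positivity) two_ne_zero).1 h2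

theorem removed_pointwise {L K G X : ℝ} (hL : 0 < L) (hK : 1 ≤ K) (hG : 0 ≤ G) (hX0 : 0 ≤ X)
    (hX1 : X ≤ 1) (h : K ^ 2 * L < G * X ^ 4) :
    K * L ≤ X ^ 2 * min G (Real.sqrt (L * G)) := by
  have hX4 : X ^ 4 ≤ 1 := pow_le_one₀ hX0 hX1
  have hGL : L ≤ G := by
    have h1 : G * X ^ 4 ≤ G := by nlinarith
    have h2 : L ≤ K ^ 2 * L := by nlinarith [sq_nonneg (K - 1), hL, mul_nonneg (sub_nonneg.2 hK) hL.le]
    linarith
  have h1 : Real.sqrt (L * G) ≤ G := by
    apply Real.sqrt_le_iff.2 ⟨hG, by nlinarith⟩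
  rw [min_eq_right h1]
  have h2 : (K * L) ^ 2 ≤ (X ^ 2 * Real.sqrt (L * G)) ^ 2 := by
    rw [mul_pow (X ^ 2), Real.sq_sqrt (by positivity)]
    calc (K * L) ^ 2 = L * (K ^ 2 * L) := by ring
      _ ≤ L * (G * X ^ 4) := mul_le_mul_of_nonneg_left h.le hL.le
      _ = (X ^ 2) ^ 2 * (L * G) := by ring
  exact (pow_le_pow_iff_left₀ (by positivity) (by positivity) two_ne_zero).1 h2

/-- **Core theorem** (all functions good).  If `u_i = L φ_i - (error)` with error at most
`G_i + g` in absolute value, `∫ G_i ≤ 1`, and the `u_i` are combinations of `m` integrable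
functions, then `m` is large. -/
theorem BoxFamily.core1 (F : BoxFamily μ ι S) (φ : ι → Ω → ℝ) (hφm : ∀ i, Measurable (φ i))
    (hφ0 : ∀ i x, 0 ≤ φ i x) (hφ1 : ∀ i x, φ i x ≤ 1) (hφB : ∀ i x, x ∉ F.B i → φ i x = 0)
    (κ : ℝ) (hκ : ∀ i, κ ≤ F.L * ∫ x, φ i x ∂μ)
    (G : ι → Ω → ℝ) (hGm : ∀ i, Measurable (G i)) (hG0 : ∀ i x, 0 ≤ G i x)
    (hGi : ∀ i, Integrable (G i) μ) (hG1 : ∀ i, ∫ x, G i x ∂μ ≤ 1)
    (g : Ω → ℝ) (hgm : Measurable g) (hg0 : ∀ x, 0 ≤ g x) (hgi : Integrable g μ)
    {m : ℕ} (P : ι → Fin m → ℝ) (ψ : Fin m → Ω → ℝ) (hψ : ∀ l, Integrable (ψ l) μ)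
    (herr : ∀ i x, |F.L * φ i x - ∑ l, P i l * ψ l x| ≤ G i x + g x)
    (K Λ : ℝ) (hK : 1 ≤ K) (hΛ : 0 < Λ)
    (T : ℝ) (hT0 : 0 ≤ T)
    (hT : T ≤ κ * Fintype.card ι - Fintype.card S * F.L * (∫ x, g x ∂μ) / Λ
      - F.C * Fintype.card ι / K - ∑ i, ∫ x, G i x ∂μ - Fintype.card S * ∫ x, g x ∂μ) :
    T ^ 2 ≤ m * (Fintype.card ι * (3 * F.C + 3 * K ^ 2 * F.C
      + 3 * (Fintype.card ι * (Λ / F.L) ^ 2))) := by
  classical
  have hLpos := F.Lpos
  choose x hx0 hx1 hx6 hx8 using fun i => F.row (G i) (hGm i) (hG0 i) (hGi i) (hG1 i)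
  set w : ι → Ω → ℝ := fun i y => min (G i y) (Real.sqrt (F.L * G i y)) with hw
  have hwm : ∀ i, Measurable (w i) := fun i => (hGm i).min (((hGm i).const_mul _).sqrt)
  have hw0 : ∀ i y, 0 ≤ w i y := fun i y => le_min (hG0 i y) (Real.sqrt_nonneg _)
  have hwi : ∀ i, Integrable (w i) μ := fun i => (hGi i).mono' (hwm i).aestronglyMeasurable
    (Filter.Eventually.of_forall (fun y => by
      rw [Real.norm_eq_abs, abs_of_nonneg (hw0 i y)]; exact min_le_left _ _))
  -- the kept sets
  set D : ι → ι → Set Ω := fun i j => F.B j ∩ {y | K ^ 2 * F.L < G i y * (x i j) ^ 4} with hD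
  have hDm : ∀ i j, MeasurableSet (D i j) := fun i j =>
    (F.meas j).inter (measurableSet_lt measurable_const ((hGm i).mul_const _))
  set Z : Set Ω := {y | Λ < g y} with hZ
  have hZm : MeasurableSet Z := measurableSet_lt measurable_const hgm
  set O : ι → Set Ω := fun j => F.B j \ ((F.B j ∩ Z) ∪ ⋃ i, D i j) with hO
  have hOm : ∀ j, MeasurableSet (O j) := fun j =>
    (F.meas j).diff (((F.meas j).inter hZm).union (MeasurableSet.iUnion (fun i => hDm i j)))
  have hOB : ∀ j, O j ⊆ F.B j := fun j => sdiff_subset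
  have hOg : ∀ j y, y ∈ O j → g y ≤ Λ := by
    intro j y hy
    by_contra h
    exact hy.2 (Or.inl ⟨hy.1, not_le.1 h⟩)
  have hOG : ∀ i j y, y ∈ O j → G i y * (x i j) ^ 4 ≤ K ^ 2 * F.L := by
    intro i j y hy
    by_contra h
    exact hy.2 (Or.inr (mem_iUnion.2 ⟨i, hy.1, not_le.1 h⟩))
  -- Step A: the kept part
  have hA : ∀ i j, ∫ y in O j, G i y ∂μ ≤ K * (x i j) ^ 4 := by
    intro i j
    have hle : (x i j) ^ 2 * ∫ y in O j, G i y ∂μ ≤ K * (x i j) ^ 6 := by
      rw [← integral_const_mul]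
      calc ∫ y in O j, (x i j) ^ 2 * G i y ∂μ ≤ ∫ y in O j, K * w i y ∂μ := by
            refine setIntegral_mono_on ((hGi i).integrableOn.const_mul _)
              ((hwi i).integrableOn.const_mul _) (hOm j) (fun y hy => ?_)
            have := kept_pointwise hLpos hK (hG0 i y) (hx0 i j) (hx1 i j) (hOG i j y hy)
            rw [mul_comm]; exact this
        _ = K * ∫ y in O j, w i y ∂μ := integral_const_mul _ _
        _ ≤ K * ∫ y in F.B j, w i y ∂μ := by
            refine mul_le_mul_of_nonneg_left ?_ (by linarith)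
            exact setIntegral_mono_set (hwi i).integrableOn
              (Filter.Eventually.of_forall (hw0 i)) (Filter.Eventually.of_forall (hOB j))
        _ = K * (x i j) ^ 6 := by rw [hx6]
    rcases (hx0 i j).lt_or_eq with h | h
    · have h2 : (x i j) ^ 2 * ∫ y in O j, G i y ∂μ ≤ (x i j) ^ 2 * (K * (x i j) ^ 4) := by
        calc _ ≤ _ := hle
          _ = _ := by ring
      exact le_of_mul_le_mul_left h2 (by positivity)
    · have hw00 : ∫ y in F.B j, w i y ∂μ = 0 := by rw [← hx6, ← h]; norm_num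
      have h3 : w i =ᵐ[μ.restrict (F.B j)] 0 :=
        (setIntegral_eq_zero_iff_of_nonneg_ae (Filter.Eventually.of_forall (hw0 i))
          (hwi i).integrableOn).1 hw00
      have h4 : G i =ᵐ[μ.restrict (F.B j)] 0 := by
        filter_upwards [h3] with y hy
        have hy' : min (G i y) (Real.sqrt (F.L * G i y)) = 0 := hy
        by_contra hne
        have hpos : 0 < G i y := lt_of_le_of_ne (hG0 i y) (fun h => hne h.symm)
        have : 0 < min (G i y) (Real.sqrt (F.L * G i y)) :=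
          lt_min hpos (Real.sqrt_pos.2 (mul_pos hLpos hpos))
        linarith
      have h5 : G i =ᵐ[μ.restrict (O j)] 0 := ae_restrict_of_ae_restrict_of_subset (hOB j) h4
      rw [integral_congr_ae h5, ← h]
      simp
  -- Step B: the removed part
  have hBr : ∀ i j, F.L * μ.real (D i j) ≤ (x i j) ^ 8 / K := by
    intro i j
    have h1 : ∫ y in D i j, K * F.L ∂μ ≤ ∫ y in D i j, (x i j) ^ 2 * w i y ∂μ := by
      refine setIntegral_mono_on (integrable_const _) ((hwi i).integrableOn.const_mul _) (hDm i j)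
        (fun y hy => ?_)
      exact removed_pointwise hLpos hK (hG0 i y) (hx0 i j) (hx1 i j) hy.2
    have h2 : ∫ y in D i j, (x i j) ^ 2 * w i y ∂μ ≤ (x i j) ^ 2 * (x i j) ^ 6 := by
      rw [integral_const_mul]
      refine mul_le_mul_of_nonneg_left ?_ (by positivity)
      rw [hx6]
      exact setIntegral_mono_set (hwi i).integrableOn
        (Filter.Eventually.of_forall (hw0 i)) (Filter.Eventually.of_forall inter_subset_left)
    rw [setIntegral_const, smul_eq_mul] at h1
    rw [le_div_iff₀ (by linarith)]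
    nlinarith
  -- Step C: the set where `g` is large
  have hCz : ∑ j, μ.real (F.B j ∩ Z) ≤ Fintype.card S * (∫ y, g y ∂μ) / Λ := by
    rw [le_div_iff₀ hΛ, Finset.sum_mul]
    refine le_trans (Finset.sum_le_sum (fun j _ => ?_)) (F.sum_setIntegral_le g hg0 hgi)
    have h1 : ∫ y in F.B j ∩ Z, Λ ∂μ ≤ ∫ y in F.B j ∩ Z, g y ∂μ :=
      setIntegral_mono_on (integrable_const _) hgi.integrableOn ((F.meas j).inter hZm)
        (fun y hy => (le_of_lt hy.2))
    rw [setIntegral_const, smul_eq_mul] at h1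
    exact h1.trans (setIntegral_mono_set hgi.integrableOn
        (Filter.Eventually.of_forall hg0) (Filter.Eventually.of_forall inter_subset_left))
  -- Step D: total removed mass
  have hDr : ∑ j, F.L * μ.real (F.B j \ O j)
      ≤ Fintype.card S * F.L * (∫ y, g y ∂μ) / Λ + F.C * Fintype.card ι / K := by
    have h1 : ∀ j, μ.real (F.B j \ O j) ≤ μ.real (F.B j ∩ Z) + ∑ i, μ.real (D i j) := by
      intro j
      have hsub : F.B j \ O j ⊆ (F.B j ∩ Z) ∪ ⋃ i, D i j := by
        intro y hy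
        by_contra h
        exact hy.2 ⟨hy.1, h⟩
      refine (measureReal_mono hsub).trans ((measureReal_union_le _ _).trans ?_)
      exact add_le_add le_rfl (measureReal_iUnion_fintype_le _)
    calc ∑ j, F.L * μ.real (F.B j \ O j)
        ≤ ∑ j, (F.L * μ.real (F.B j ∩ Z) + ∑ i, F.L * μ.real (D i j)) := by
          refine Finset.sum_le_sum (fun j _ => ?_)
          rw [← Finset.mul_sum, ← mul_add]
          exact mul_le_mul_of_nonneg_left (h1 j) hLpos.le
      _ = F.L * ∑ j, μ.real (F.B j ∩ Z) + ∑ i, ∑ j, F.L * μ.real (D i j) := by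
          rw [Finset.sum_add_distrib, Finset.mul_sum,
            Finset.sum_comm (f := fun j i => F.L * μ.real (D i j))]
      _ ≤ F.L * (Fintype.card S * (∫ y, g y ∂μ) / Λ) + ∑ i : ι, F.C / K := by
          refine add_le_add (mul_le_mul_of_nonneg_left hCz hLpos.le)
            (Finset.sum_le_sum (fun i _ => ?_))
          calc ∑ j, F.L * μ.real (D i j) ≤ ∑ j, (x i j) ^ 8 / K :=
                Finset.sum_le_sum (fun j _ => hBr i j)
            _ = (∑ j, (x i j) ^ 8) / K := by rw [Finset.sum_div]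
            _ ≤ F.C / K := div_le_div_of_nonneg_right (hx8 i) (by linarith)
      _ = Fintype.card S * F.L * (∫ y, g y ∂μ) / Λ + F.C * Fintype.card ι / K := by
          simp only [Finset.sum_const, Finset.card_univ, nsmul_eq_mul]; ring
  have hone : ∀ j, F.L * μ.real (F.B j) ≤ 1 := by
    intro j
    have := F.inter j j
    rw [inter_self] at this
    exact this.trans (pow_le_one₀ (F.τ0 _ _) (F.τ1 _ _))
  have hφi : ∀ i, Integrable (φ i) μ := fun i =>
    (integrable_const (1:ℝ)).mono' (hφm i).aestronglyMeasurable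
      (Filter.Eventually.of_forall (fun y => by
        rw [Real.norm_eq_abs, abs_of_nonneg (hφ0 i y)]; exact hφ1 i y))
  set u : ι → Ω → ℝ := fun i y => ∑ l, P i l * ψ l y with hu
  have hui : ∀ i, Integrable (u i) μ := fun i =>
    integrable_finsetSum _ (fun l _ => (hψ l).const_mul _)
  set A : ι → ι → ℝ := fun i j => ∫ y in O j, u i y ∂μ with hAdef
  have hAeq : ∀ i j, A i j = ∑ l, P i l * ∫ y in O j, ψ l y ∂μ := by
    intro i j
    simp only [hAdef, hu]
    rw [integral_finsetSum _ (fun l _ => ((hψ l).integrableOn.const_mul _))]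
    exact Finset.sum_congr rfl (fun l _ => integral_const_mul _ _)
  have hφO : ∀ i j, ∫ y in O j, φ i y ∂μ ≤ μ.real (F.B i ∩ F.B j) := by
    intro i j
    have h1 : ∀ y, φ i y ≤ (F.B i).indicator (fun _ => (1:ℝ)) y := by
      intro y
      by_cases h : y ∈ F.B i
      · simpa [h] using hφ1 i y
      · simp [h, hφB i y h]
    calc ∫ y in O j, φ i y ∂μ ≤ ∫ y in O j, (F.B i).indicator (fun _ => (1:ℝ)) y ∂μ :=
          integral_mono (hφi i).integrableOn
            ((integrable_const (1:ℝ)).indicator (F.meas i)).integrableOn h1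
      _ = μ.real (O j ∩ F.B i) := by
          rw [setIntegral_indicator (F.meas i), setIntegral_const]; simp
      _ ≤ μ.real (F.B i ∩ F.B j) := measureReal_mono (fun y hy => ⟨hy.2, hOB j hy.1⟩)
  -- Step E: size of the entries
  have hE : ∀ i j, |A i j| ≤ F.L * μ.real (F.B i ∩ F.B j) + K * (x i j) ^ 4 + Λ / F.L := by
    intro i j
    have h1 : |A i j| ≤ ∫ y in O j, |u i y| ∂μ := by
      simp only [hAdef]
      exact abs_integral_le_integral_abs
    have h2 : ∫ y in O j, |u i y| ∂μ ≤ ∫ y in O j, (F.L * φ i y + G i y + Λ) ∂μ := by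
      refine setIntegral_mono_on (hui i).abs.integrableOn
        ((((hφi i).const_mul _).add (hGi i)).add (integrable_const _)).integrableOn (hOm j)
        (fun y hy => ?_)
      have h3 := herr i y
      have h4 := hOg j y hy
      have h5 : |u i y| ≤ |F.L * φ i y| + |F.L * φ i y - u i y| := by
        have : u i y = F.L * φ i y - (F.L * φ i y - u i y) := by ring
        calc |u i y| = |F.L * φ i y - (F.L * φ i y - u i y)| := by rw [← this]
          _ ≤ _ := abs_sub _ _
      rw [abs_of_nonneg (mul_nonneg hLpos.le (hφ0 i y))] at h5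
      simp only [hu] at h5 ⊢
      linarith
    have i1 : IntegrableOn (fun y => F.L * φ i y) (O j) μ := (hφi i).integrableOn.const_mul _
    have i2 : IntegrableOn (fun y => F.L * φ i y + G i y) (O j) μ :=
      i1.add (hGi i).integrableOn
    rw [integral_add i2 (integrable_const _), integral_add i1 (hGi i).integrableOn,
      integral_const_mul, setIntegral_const, smul_eq_mul] at h2
    have h6 : μ.real (O j) * Λ ≤ Λ / F.L := by
      rw [le_div_iff₀ hLpos]
      have h7 : μ.real (O j) ≤ μ.real (F.B j) := measureReal_mono (hOB j)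
      have h8 := hone j
      have h9 : F.L * μ.real (O j) ≤ 1 := by nlinarith
      nlinarith
    have h10 := hA i j
    have h11 := mul_le_mul_of_nonneg_left (hφO i j) hLpos.le
    linarith
  -- Step F: the trace
  have hF : T ≤ ∑ i, A i i := by
    have h1 : ∀ i, κ - F.L * μ.real (F.B i \ O i) - ∫ y, G i y ∂μ - ∫ y in F.B i, g y ∂μ
        ≤ A i i := by
      intro i
      have e1 : ∫ y in O i, (F.L * φ i y - G i y - g y) ∂μ ≤ A i i := by
        simp only [hAdef]
        refine setIntegral_mono_on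
          ((((hφi i).const_mul _).sub (hGi i)).sub hgi).integrableOn (hui i).integrableOn (hOm i)
          (fun y _ => ?_)
        have := (abs_le.1 (herr i y)).2
        simp only [hu]
        linarith
      have i1 : IntegrableOn (fun y => F.L * φ i y) (O i) μ := (hφi i).integrableOn.const_mul _
      have i2 : IntegrableOn (fun y => F.L * φ i y - G i y) (O i) μ :=
        i1.sub (hGi i).integrableOn
      rw [integral_sub i2 hgi.integrableOn, integral_sub i1 (hGi i).integrableOn,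
        integral_const_mul] at e1
      have e2 : ∫ y, φ i y ∂μ - μ.real (F.B i \ O i) ≤ ∫ y in O i, φ i y ∂μ := by
        have e3 : ∫ y, φ i y ∂μ = ∫ y in F.B i, φ i y ∂μ := by
          symm
          exact setIntegral_eq_integral_of_forall_compl_eq_zero (fun y hy => hφB i y hy)
        have e4 : ∫ y in F.B i, φ i y ∂μ = ∫ y in F.B i \ O i, φ i y ∂μ + ∫ y in O i, φ i y ∂μ := by
          rw [← setIntegral_union disjoint_sdiff_left (hOm i) (hφi i).integrableOn
            (hφi i).integrableOn, sdiff_union_of_subset (hOB i)]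
        have e5 : ∫ y in F.B i \ O i, φ i y ∂μ ≤ μ.real (F.B i \ O i) := by
          calc ∫ y in F.B i \ O i, φ i y ∂μ ≤ ∫ y in F.B i \ O i, (1:ℝ) ∂μ :=
                integral_mono (hφi i).integrableOn (integrable_const _) (hφ1 i)
            _ = _ := by simp
        linarith
      have e6 : ∫ y in O i, G i y ∂μ ≤ ∫ y, G i y ∂μ :=
        setIntegral_le_integral (hGi i) (Filter.Eventually.of_forall (hG0 i))
      have e7 : ∫ y in O i, g y ∂μ ≤ ∫ y in F.B i, g y ∂μ :=
        setIntegral_mono_set hgi.integrableOn (Filter.Eventually.of_forall hg0)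
          (Filter.Eventually.of_forall (hOB i))
      have e8 := hκ i
      have e9 := mul_le_mul_of_nonneg_left e2 hLpos.le
      rw [mul_sub] at e9
      linarith
    have h2 := Finset.sum_le_sum (fun i (_ : i ∈ Finset.univ) => h1 i)
    rw [Finset.sum_sub_distrib, Finset.sum_sub_distrib, Finset.sum_sub_distrib] at h2
    have h3 : ∑ i : ι, κ = κ * Fintype.card ι := by simp [mul_comm]
    have h4 := F.sum_setIntegral_le g hg0 hgi
    rw [h3] at h2
    linarith
  -- Step G: Hilbert-Schmidt norm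
  have hG' : ∑ i, ∑ j, (A i j) ^ 2 ≤ Fintype.card ι * (3 * F.C + 3 * K ^ 2 * F.C
      + 3 * (Fintype.card ι * (Λ / F.L) ^ 2)) := by
    have h1 : ∀ i, ∑ j, (A i j) ^ 2 ≤ 3 * F.C + 3 * K ^ 2 * F.C
      + 3 * (Fintype.card ι * (Λ / F.L) ^ 2) := by
      intro i
      have h2 : ∀ j, (A i j) ^ 2 ≤ 3 * (F.L * μ.real (F.B i ∩ F.B j)) ^ 2
          + 3 * K ^ 2 * (x i j) ^ 8 + 3 * (Λ / F.L) ^ 2 := by
        intro j
        have h3 := hE i j
        set a := F.L * μ.real (F.B i ∩ F.B j) with ha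
        set b := K * (x i j) ^ 4 with hb
        set c := Λ / F.L with hc
        have h4 : (A i j) ^ 2 ≤ (a + b + c) ^ 2 := by
          rw [← sq_abs]
          exact pow_le_pow_left₀ (abs_nonneg _) h3 2
        have h5 : 3 * K ^ 2 * (x i j) ^ 8 = 3 * b ^ 2 := by rw [hb]; ring
        rw [h5]
        nlinarith [sq_nonneg (a - b), sq_nonneg (b - c), sq_nonneg (a - c)]
      calc ∑ j, (A i j) ^ 2 ≤ ∑ j, (3 * (F.L * μ.real (F.B i ∩ F.B j)) ^ 2
          + 3 * K ^ 2 * (x i j) ^ 8 + 3 * (Λ / F.L) ^ 2) := Finset.sum_le_sum (fun j _ => h2 j)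
        _ = 3 * ∑ j, (F.L * μ.real (F.B i ∩ F.B j)) ^ 2 + 3 * K ^ 2 * ∑ j, (x i j) ^ 8
            + 3 * (Fintype.card ι * (Λ / F.L) ^ 2) := by
            rw [Finset.sum_add_distrib, Finset.sum_add_distrib, Finset.mul_sum, Finset.mul_sum]
            simp only [Finset.sum_const, Finset.card_univ, nsmul_eq_mul]
            ring
        _ ≤ _ := by
            have h6 := F.sum_sq_inter_le i
            have h7 := mul_le_mul_of_nonneg_left (hx8 i) (by positivity : 0 ≤ 3 * K ^ 2)
            linarith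
    calc ∑ i, ∑ j, (A i j) ^ 2 ≤ ∑ i : ι, (3 * F.C + 3 * K ^ 2 * F.C
      + 3 * (Fintype.card ι * (Λ / F.L) ^ 2)) := Finset.sum_le_sum (fun i _ => h1 i)
      _ = _ := by simp only [Finset.sum_const, Finset.card_univ, nsmul_eq_mul]
  have hfin := sq_trace_le P (fun l j => ∫ y in O j, ψ l y ∂μ)
  simp_rw [← hAeq] at hfin
  calc T ^ 2 ≤ (∑ i, A i i) ^ 2 := pow_le_pow_left₀ hT0 hF 2
    _ ≤ m * ∑ i, ∑ j, (A i j) ^ 2 := hfin
    _ ≤ _ := mul_le_mul_of_nonneg_left hG' (Nat.cast_nonneg _)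

end

end Pool.Agent.Helper218_SB
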