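import Pool.Agent.Helper218_SB.Core

namespace Pool.Agent.Helper218_SB

open MeasureTheory Set

section

variable {Ω : Type*} [MeasurableSpace Ω] {μ : Measure Ω} [IsFiniteMeasure μ]
  {ι S : Type*} [Fintype ι] [Fintype S] [DecidableEq S]

/-- Restriction of a family of boxes to a subset of the index set. -/
def BoxFamily.restr (F : BoxFamily μ ι S) (p : ι → Prop) : BoxFamily μ {i // p i} S where
  σ := fun i => F.σ i.1
  B := fun i => F.B i.1
  meas := fun i => F.meas i.1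
  disj := fun i j hij h => F.disj i.1 j.1 (fun h' => hij (Subtype.ext h')) h
  L := F.L
  Lpos := F.Lpos
  τ := F.τ
  τ0 := F.τ0
  τ1 := F.τ1
  τs := F.τs
  C := F.C
  C0 := F.C0
  hC := F.hC
  inter := fun i j => F.inter i.1 j.1

/-- **Core theorem**, average form. -/
theorem BoxFamily.core2 (F : BoxFamily μ ι S) (φ : ι → Ω → ℝ) (hφm : ∀ i, Measurable (φ i))
    (hφ0 : ∀ i x, 0 ≤ φ i x) (hφ1 : ∀ i x, φ i x ≤ 1) (hφB : ∀ i x, x ∉ F.B i → φ i x = 0)
    (κ : ℝ) (hκ0 : 0 < κ) (hκ1 : κ ≤ 1) (hκ : ∀ i, κ ≤ F.L * ∫ x, φ i x ∂μ)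
    (G : ι → Ω → ℝ) (hGm : ∀ i, Measurable (G i)) (hG0 : ∀ i x, 0 ≤ G i x)
    (hGi : ∀ i, Integrable (G i) μ)
    (hG1 : ∑ i, ∫ x, G i x ∂μ ≤ κ / 16 * Fintype.card ι)
    (g : Ω → ℝ) (hgm : Measurable g) (hg0 : ∀ x, 0 ≤ g x) (hgi : Integrable g μ)
    (hg1 : ∫ x, g x ∂μ ≤ κ / 16 * Fintype.card S)
    (hS : 0 < Fintype.card S)
    (hSL : Fintype.card S * F.L ≤ Fintype.card ι)
    (hSS : (Fintype.card S : ℝ) ^ 2 ≤ Fintype.card ι)
    (C4 : ℝ) (hC4 : Fintype.card ι * (Fintype.card S / F.L) ^ 2 ≤ C4)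
    {m : ℕ} (P : ι → Fin m → ℝ) (ψ : Fin m → Ω → ℝ) (hψ : ∀ l, Integrable (ψ l) μ)
    (herr : ∀ i x, |F.L * φ i x - ∑ l, P i l * ψ l x| ≤ G i x + g x) :
    κ ^ 2 * Fintype.card ι ≤
      m * (12 * (F.C + (1 + 4 * F.C / κ) ^ 2 * F.C + C4)) := by
  classical
  set N : ℝ := (Fintype.card ι : ℝ) with hN
  set M : ℝ := (Fintype.card S : ℝ) with hM
  have hMpos : 0 < M := by rw [hM]; exact_mod_cast hS
  set p : ι → Prop := fun i => ∫ x, G i x ∂μ ≤ 1 with hp
  set N' : ℝ := (Fintype.card {i // p i} : ℝ) with hN'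
  have hGI0 : ∀ i, 0 ≤ ∫ x, G i x ∂μ := fun i => integral_nonneg (hG0 i)
  have hN'le : N' ≤ N := by
    rw [hN', hN]; exact_mod_cast Fintype.card_subtype_le p
  have hbad : N - N' ≤ κ / 16 * N := by
    have h1 : (Fintype.card {i // p i} : ℝ) + (Fintype.card {i // ¬ p i} : ℝ) = N := by
      rw [hN]
      have := Fintype.card_subtype_compl (fun i => p i)
      have h2 := Fintype.card_subtype_le p
      rw [this]
      push_cast [Nat.cast_sub h2]
      ring
    have h2 : (Fintype.card {i // ¬ p i} : ℝ) ≤ ∑ i, ∫ x, G i x ∂μ := by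
      calc (Fintype.card {i // ¬ p i} : ℝ) = ∑ i ∈ Finset.univ.filter (fun i => ¬ p i), (1:ℝ) := by
            rw [Fintype.card_subtype]; simp
        _ ≤ ∑ i ∈ Finset.univ.filter (fun i => ¬ p i), ∫ x, G i x ∂μ := by
            refine Finset.sum_le_sum (fun i hi => ?_)
            have : ¬ p i := (Finset.mem_filter.1 hi).2
            exact (not_le.1 this).le
        _ ≤ ∑ i, ∫ x, G i x ∂μ :=
            Finset.sum_le_sum_of_subset_of_nonneg (Finset.filter_subset _ _)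
              (fun i _ _ => hGI0 i)
    linarith
  set K : ℝ := 1 + 4 * F.C / κ with hK
  have hC0 := F.C0
  have hL := F.Lpos
  have hK1 : 1 ≤ K := by
    have : 0 ≤ 4 * F.C / κ := by positivity
    linarith
  have hN0 : 0 ≤ N := by rw [hN]; positivity
  have hN'0 : 0 ≤ N' := by rw [hN']; positivity
  have hCK : F.C / K ≤ κ / 4 := by
    rw [div_le_iff₀ (by linarith)]
    have : κ / 4 * K = κ / 4 + F.C := by rw [hK]; field_simp
    rw [this]; linarith
  have hgI0 : 0 ≤ ∫ x, g x ∂μ := integral_nonneg hg0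
  have hT : κ / 2 * N ≤ κ * N' - M * F.L * (∫ x, g x ∂μ) / M
      - F.C * N' / K - ∑ i : {i // p i}, ∫ x, G i.1 x ∂μ - M * ∫ x, g x ∂μ := by
    have h1 : M * F.L * (∫ x, g x ∂μ) / M ≤ κ / 16 * N := by
      have e : M * F.L * (∫ x, g x ∂μ) / M = F.L * (∫ x, g x ∂μ) := by field_simp
      rw [e]
      calc F.L * (∫ x, g x ∂μ) ≤ F.L * (κ / 16 * M) := mul_le_mul_of_nonneg_left hg1 hL.le
        _ = κ / 16 * (M * F.L) := by ring
        _ ≤ κ / 16 * N := mul_le_mul_of_nonneg_left hSL (by positivity)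
    have h2 : F.C * N' / K ≤ κ / 4 * N := by
      have e : F.C * N' / K = F.C / K * N' := by ring
      rw [e]
      exact mul_le_mul hCK hN'le hN'0 (by positivity)
    have h3 : ∑ i : {i // p i}, ∫ x, G i.1 x ∂μ ≤ κ / 16 * N := by
      refine le_trans ?_ hG1
      rw [← Finset.sum_subtype (Finset.univ.filter p) (by simp) (fun i => ∫ x, G i x ∂μ)]
      exact Finset.sum_le_sum_of_subset_of_nonneg (Finset.filter_subset _ _)
              (fun i _ _ => hGI0 i)
    have h4 : M * ∫ x, g x ∂μ ≤ κ / 16 * N := by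
      calc M * ∫ x, g x ∂μ ≤ M * (κ / 16 * M) := mul_le_mul_of_nonneg_left hg1 hMpos.le
        _ = κ / 16 * M ^ 2 := by ring
        _ ≤ κ / 16 * N := mul_le_mul_of_nonneg_left hSS (by positivity)
    have h5 : κ * N' ≥ κ * N - κ * (κ / 16 * N) := by
      nlinarith
    have h6 : κ * (κ / 16 * N) ≤ κ / 16 * N := by
      have : 0 ≤ κ / 16 * N := by positivity
      nlinarith
    nlinarith
  have hmain := (F.restr p).core1 (fun i => φ i.1) (fun i => hφm i.1) (fun i => hφ0 i.1)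
    (fun i => hφ1 i.1) (fun i => hφB i.1) κ (fun i => hκ i.1) (fun i => G i.1)
    (fun i => hGm i.1) (fun i => hG0 i.1) (fun i => hGi i.1) (fun i => i.2) g hgm hg0 hgi
    (fun i => P i.1) ψ hψ (fun i => herr i.1) K M hK1 hMpos (κ / 2 * N) (by positivity)
    hT
  have hm0 : (0:ℝ) ≤ m := Nat.cast_nonneg _
  have hfin : (κ / 2 * N) ^ 2 ≤ m * (N * (3 * F.C + 3 * K ^ 2 * F.C + 3 * C4)) := by
    refine hmain.trans (mul_le_mul_of_nonneg_left ?_ hm0)
    have h7 : N' * (M / F.L) ^ 2 ≤ C4 :=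
      (mul_le_mul_of_nonneg_right hN'le (by positivity)).trans hC4
    have h8 : 0 ≤ N' * (M / F.L) ^ 2 := by positivity
    have h9 : 3 * F.C + 3 * K ^ 2 * F.C + 3 * (N' * (M / F.L) ^ 2)
        ≤ 3 * F.C + 3 * K ^ 2 * F.C + 3 * C4 := by linarith
    exact mul_le_mul hN'le h9 (by positivity) hN0
  rcases hN0.lt_or_eq with h | h
  · have e1 : (κ / 2 * N) ^ 2 = N * (κ ^ 2 * N / 4) := by ring
    have e2 : m * (N * (3 * F.C + 3 * K ^ 2 * F.C + 3 * C4))
        = N * (m * (3 * F.C + 3 * K ^ 2 * F.C + 3 * C4)) := by ring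
    rw [e1, e2] at hfin
    have := le_of_mul_le_mul_left hfin h
    nlinarith
  · rw [← h]
    have h1 : 0 ≤ C4 := le_trans (by positivity) hC4
    have : 0 ≤ (m:ℝ) * (12 * (F.C + K ^ 2 * F.C + C4)) := by positivity
    simpa using this

end

end Pool.Agent.Helper218_SB
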