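import Mathlib

/-!
# Mixed Besov classes on the torus and their sampling numbers

Definitions used in the hand-ins for problem MP_919f0c_an.
-/

namespace Pool.Agent.Helper218_SB

open MeasureTheory
open scoped ENNReal

/-- `2π` is positive. -/
instance factTwoPi : Fact (0 < 2 * Real.pi) := ⟨Real.two_pi_pos⟩

/-- The torus `𝕋^d`, a product of `d` circles of length `2π`; it carries the product of the
Lebesgue measures, of total mass `(2π)^d`. -/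
abbrev Torus (d : ℕ) : Type := Fin d → AddCircle (2 * Real.pi)

/-- The mixed difference `Δ_h^{k,e} f = ∏_{i ∈ e} Δ^k_{h_i, i} f`, written out as
`∑_j ∏_{i ∈ e} (-1)^{k - j_i} binom(k, j_i) f(x + ∑_{i ∈ e} j_i h_i e_i)`, the sum over all `j` with
`0 ≤ j_i ≤ k` for `i ∈ e` and `j_i = 0` for `i ∉ e`. -/
noncomputable def mixedDiff {𝕜 : Type} [RCLike 𝕜] {d : ℕ} (k : ℕ) (e : Finset (Fin d))
    (h : Fin d → ℝ) (f : Torus d → 𝕜) (x : Torus d) : 𝕜 :=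
  ∑ j ∈ Fintype.piFinset (fun i => if i ∈ e then Finset.range (k + 1) else {0}),
    (∏ i ∈ e, (-1 : 𝕜) ^ (k - j i) * (k.choose (j i) : 𝕜)) *
      f (x + fun i => (((j i : ℝ) * h i : ℝ) : AddCircle (2 * Real.pi)))

/-- The mixed modulus of smoothness `ω_k^e(f, t)_p = sup_{|h_i| < t_i, i ∈ e} ‖Δ_h^{k,e} f‖_p`. -/
noncomputable def mixedModulus {𝕜 : Type} [RCLike 𝕜] {d : ℕ} (k : ℕ) (e : Finset (Fin d))
    (p : ℝ≥0∞) (f : Torus d → 𝕜) (t : Fin d → ℝ) : ℝ≥0∞ :=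
  ⨆ (h : Fin d → ℝ) (_ : ∀ i ∈ e, |h i| < t i), eLpNorm (mixedDiff k e h f) p volume

/-- The seminorm `|f|_{B^r_{p,θ}(e)}`: for `θ < ∞` the `θ`-th root of the integral over
`(0, 2π)^d` of `ω_k^e(f, t)_p^θ ∏_{i ∈ e} t_i^{-θ r - 1}`, and for `θ = ∞` the supremum over
`t ∈ (0, 2π)^d` of `∏_{i ∈ e} t_i^{-r} ω_k^e(f, t)_p`. -/
noncomputable def besovSemi {𝕜 : Type} [RCLike 𝕜] {d : ℕ} (k : ℕ) (r : ℝ) (p θ : ℝ≥0∞)
    (e : Finset (Fin d)) (f : Torus d → 𝕜) : ℝ≥0∞ :=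
  if θ = ∞ then
    ⨆ (t : Fin d → ℝ) (_ : ∀ i, t i ∈ Set.Ioo 0 (2 * Real.pi)),
      (∏ i ∈ e, ENNReal.ofReal ((t i) ^ (-r))) * mixedModulus k e p f t
  else
    (∫⁻ t in Set.univ.pi (fun _ : Fin d => Set.Ioo 0 (2 * Real.pi)),
      mixedModulus k e p f t ^ θ.toReal *
        ∏ i ∈ e, ENNReal.ofReal ((t i) ^ (-(θ.toReal * r) - 1))) ^ (1 / θ.toReal)

/-- The mixed Besov norm: the sum of the seminorms over all `e ⊆ {1, …, d}`. -/
noncomputable def besovNorm {𝕜 : Type} [RCLike 𝕜] {d : ℕ} (k : ℕ) (r : ℝ) (p θ : ℝ≥0∞)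
    (f : Torus d → 𝕜) : ℝ≥0∞ :=
  ∑ e : Finset (Fin d), besovSemi k r p θ e f

/-- The class `𝐁^r_{p,θ}`: continuous functions of mixed Besov norm at most one. -/
def besovClass (𝕜 : Type) [RCLike 𝕜] (d k : ℕ) (r : ℝ) (p θ : ℝ≥0∞) : Set (Torus d → 𝕜) :=
  {f | Continuous f ∧ besovNorm k r p θ f ≤ 1}

/-- The optimal (linear) sampling recovery number `ϱ_m(F, L_p)`. -/
noncomputable def samplingNumber {𝕜 : Type} [RCLike 𝕜] {d : ℕ} (m : ℕ) (F : Set (Torus d → 𝕜))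
    (p : ℝ≥0∞) : ℝ≥0∞ :=
  ⨅ (x : Fin m → Torus d) (ψ : Fin m → Torus d → 𝕜) (_ : ∀ j, MemLp (ψ j) p volume),
    ⨆ f ∈ F, eLpNorm (fun y => f y - ∑ j, f (x j) * ψ j y) p volume

end Pool.Agent.Helper218_SB
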