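import Pool.Agent.Helper218_SB.Family

namespace Pool.Agent.Helper218_SB

open MeasureTheory Set
open scoped ENNReal

theorem succ_cube_le (q : ℕ) : (q + 1) ^ 3 ≤ 8 * 2 ^ q := by
  induction q with
  | zero => norm_num
  | succ q ih =>
    rcases le_or_gt q 3 with h | h
    · interval_cases q <;> norm_num
    · have h2 : (q + 1 + 1) ^ 3 ≤ 2 * (q + 1) ^ 3 := by nlinarith [sq_nonneg (q:ℤ)]
      calc (q + 1 + 1) ^ 3 ≤ 2 * (q + 1) ^ 3 := h2
        _ ≤ 2 * (8 * 2 ^ q) := by omega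
        _ = 8 * 2 ^ (q + 1) := by ring

theorem succ_le_two_pow (q : ℕ) : q + 1 ≤ 2 ^ q := Nat.lt_two_pow_self

/-- The core theorem for the dyadic boxes on the torus. -/
theorem fam_core (d' : ℕ) : ∃ ε c : ℝ, 0 < ε ∧ 0 < c ∧ c ≤ 1 ∧
    ∀ (q m : ℕ) (G : Idx d' q → Torus (d' + 1) → ℝ) (g : Torus (d' + 1) → ℝ)
      (P : Idx d' q → Fin m → ℝ) (ψ : Fin m → Torus (d' + 1) → ℝ),
      (∀ i, Measurable (G i)) → (∀ i x, 0 ≤ G i x) → (∀ i, Integrable (G i) volume) →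
      (∑ i, ∫ x, G i x ≤ ε * ((q + 1) ^ d' * 2 ^ ((d' + 1) * q))) →
      Measurable g → (∀ x, 0 ≤ g x) → Integrable g volume → (∫ x, g x ≤ ε * (q + 1) ^ d') →
      (∀ l, Integrable (ψ l) volume) →
      (∀ i x, |(fam d' q).L * phi (shp q i.1) (cen i) x - ∑ l, P i l * ψ l x| ≤ G i x + g x) →
      c * ((q + 1) ^ d' * 2 ^ ((d' + 1) * q)) ≤ m := by
  set κ : ℝ := 1 / 2 ^ (d' + 1) with hκ
  have hκ0 : 0 < κ := by positivity
  have hκ1 : κ ≤ 1 := by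
    rw [hκ, div_le_one (by positivity)]
    exact one_le_pow₀ (by norm_num)
  set C : ℝ := (2 * (1 - bet)⁻¹) ^ d' with hC
  have hb : 0 < 1 - bet := by have := bet_lt_one; linarith
  have hC0 : 0 ≤ C := by positivity
  set C4 : ℝ := 4 ^ (d' + 1) * 8 ^ d' with hC4
  set D : ℝ := 12 * (C + (1 + 4 * C / κ) ^ 2 * C + C4) with hD
  have hC4' : (1:ℝ) ≤ C4 := by
    have h1 : (1:ℝ) ≤ 4 ^ (d' + 1) := one_le_pow₀ (by norm_num)
    have h2 : (1:ℝ) ≤ 8 ^ d' := one_le_pow₀ (by norm_num)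
    nlinarith
  have hD1 : 12 ≤ D := by
    have : 0 ≤ C + (1 + 4 * C / κ) ^ 2 * C := by positivity
    rw [hD]; linarith
  refine ⟨κ / 16, κ ^ 2 / D, by positivity, by positivity, ?_, ?_⟩
  · rw [div_le_one (by linarith)]
    have : κ ^ 2 ≤ 1 := pow_le_one₀ hκ0.le hκ1
    linarith
  intro q m G g P ψ hGm hG0 hGi hG1 hgm hg0 hgi hg1 hψ herr
  have hcι : (Fintype.card (Idx d' q) : ℝ) = (q + 1) ^ d' * 2 ^ ((d' + 1) * q) := by
    rw [card_Idx]; push_cast; ring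
  have hcS : (Fintype.card (Fin d' → Fin (q + 1)) : ℝ) = (q + 1) ^ d' := by
    simp
  have hLdef : (fam d' q).L = 2 ^ ((d' + 1) * q) / 2 ^ (d' + 1) := rfl
  have h2q : ((q:ℝ) + 1) ^ d' ≤ 2 ^ ((d' + 1) * q) := by
    have h1 : ((q:ℝ) + 1) ≤ 2 ^ q := by exact_mod_cast succ_le_two_pow q
    calc ((q:ℝ) + 1) ^ d' ≤ (2 ^ q) ^ d' := pow_le_pow_left₀ (by positivity) h1 _
      _ = 2 ^ (d' * q) := by rw [← pow_mul, mul_comm]
      _ ≤ 2 ^ ((d' + 1) * q) := pow_le_pow_right₀ (by norm_num) (Nat.mul_le_mul_right _ (Nat.le_succ _))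
  have hmain := (fam d' q).core2 (fun i => phi (shp q i.1) (cen i))
    (fun i => (phi_continuous _ _).measurable) (fun i => phi_nonneg _ _) (fun i => phi_le_one _ _)
    (fun i x hx => phi_zero _ _ _ hx) κ hκ0 hκ1 ?_ G hGm hG0 hGi (by rw [hcι]; exact hG1)
    g hgm hg0 hgi (by rw [hcS]; exact hg1) ?_ ?_ ?_ C4 ?_ P ψ hψ herr
  · have e : (fam d' q).C = C := rfl
    rw [e, ← hD, hcι] at hmain
    rw [div_mul_eq_mul_div, div_le_iff₀ (by linarith)]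
    exact hmain
  · intro i
    have h1 := integral_phi_ge (shp q i.1) (cen i)
    rw [sum_shp] at h1
    calc κ = 2 ^ ((d' + 1) * q) / 2 ^ (d' + 1) * (1/2) ^ ((d' + 1) * q) := by
          rw [hκ, div_mul_eq_mul_div, ← mul_pow]; norm_num
      _ ≤ (fam d' q).L * ∫ x, phi (shp q i.1) (cen i) x :=
          mul_le_mul_of_nonneg_left h1 (by positivity)
  · rw [Fintype.card_pos_iff]; infer_instance
  · rw [hcι, hcS, hLdef]
    refine mul_le_mul_of_nonneg_left ?_ (by positivity)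
    rw [div_le_iff₀ (by positivity)]
    have : (1:ℝ) ≤ 2 ^ (d' + 1) := one_le_pow₀ (by norm_num)
    have h3 : (0:ℝ) < 2 ^ ((d' + 1) * q) := by positivity
    nlinarith
  · rw [hcι, hcS, sq]
    exact mul_le_mul_of_nonneg_left h2q (by positivity)
  · rw [hcι, hcS, hLdef]
    have e : ((q:ℝ) + 1) ^ d' * 2 ^ ((d' + 1) * q) *
        (((q:ℝ) + 1) ^ d' / (2 ^ ((d' + 1) * q) / 2 ^ (d' + 1))) ^ 2
        = 4 ^ (d' + 1) * ((((q:ℝ) + 1) ^ 3) ^ d' / 2 ^ ((d' + 1) * q)) := by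
      have e4 : (4:ℝ) ^ (d' + 1) = (2 ^ (d' + 1)) ^ 2 := by
        rw [← pow_mul, mul_comm, pow_mul]; norm_num
      rw [e4, ← pow_mul ((q:ℝ) + 1) 3 d']
      field_simp
      ring
    rw [e, hC4]
    refine mul_le_mul_of_nonneg_left ?_ (by positivity)
    rw [div_le_iff₀ (by positivity)]
    have h1 : ((q:ℝ) + 1) ^ 3 ≤ 8 * 2 ^ q := by exact_mod_cast succ_cube_le q
    calc (((q:ℝ) + 1) ^ 3) ^ d' ≤ (8 * 2 ^ q) ^ d' := pow_le_pow_left₀ (by positivity) h1 _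
      _ = 8 ^ d' * 2 ^ (d' * q) := by rw [mul_pow, ← pow_mul, mul_comm q d']
      _ ≤ 8 ^ d' * 2 ^ ((d' + 1) * q) := by
          refine mul_le_mul_of_nonneg_left ?_ (by positivity)
          exact pow_le_pow_right₀ (by norm_num) (Nat.mul_le_mul_right _ (Nat.le_succ _))

end Pool.Agent.Helper218_SB
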