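import Pool.Agent.Helper218_SB.Boxes
import Pool.Agent.Helper218_SB.Core2

namespace Pool.Agent.Helper218_SB

open MeasureTheory Set
open scoped ENNReal

/-- the base of the exponential decay: `β^24 = 1/2` -/
noncomputable def bet : ℝ := (1/2 : ℝ) ^ (1/24 : ℝ)

theorem bet_pos : 0 < bet := Real.rpow_pos_of_pos (by norm_num) _
theorem bet_lt_one : bet < 1 := Real.rpow_lt_one (by norm_num) (by norm_num) (by norm_num)
theorem bet_pow : bet ^ 24 = 1/2 := by
  unfold bet
  rw [← Real.rpow_natCast, ← Real.rpow_mul (by norm_num)]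
  norm_num

theorem sum_pow_inj_le {b : ℝ} (hb0 : 0 ≤ b) (hb1 : b < 1) (T : Finset ℕ) (f : ℕ → ℕ)
    (hf : Set.InjOn f T) : ∑ v ∈ T, b ^ (f v) ≤ (1 - b)⁻¹ := by
  classical
  calc ∑ v ∈ T, b ^ (f v) = ∑ w ∈ T.image f, b ^ w := (Finset.sum_image hf).symm
    _ ≤ ∑' w, b ^ w := (summable_geometric_of_lt_one hb0 hb1).sum_le_tsum _
        (fun _ _ => by positivity)
    _ = (1 - b)⁻¹ := tsum_geometric_of_lt_one hb0 hb1

theorem sum_two_sided_le {b : ℝ} (hb0 : 0 ≤ b) (hb1 : b < 1) (a : ℕ) (T : Finset ℕ) :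
    ∑ v ∈ T, b ^ ((a : ℤ) - v).natAbs ≤ 2 * (1 - b)⁻¹ := by
  classical
  rw [← Finset.sum_filter_add_sum_filter_not T (fun v => v ≤ a), two_mul]
  refine add_le_add ?_ ?_
  · refine sum_pow_inj_le hb0 hb1 _ (fun v => ((a : ℤ) - v).natAbs) ?_
    intro v hv w hw h
    have hv' : v ≤ a := by simpa using (Finset.mem_filter.1 hv).2
    have hw' : w ≤ a := by simpa using (Finset.mem_filter.1 hw).2
    simp only at h
    omega
  · refine sum_pow_inj_le hb0 hb1 _ (fun v => ((a : ℤ) - v).natAbs) ?_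
    intro v hv w hw h
    have hv' : ¬ v ≤ a := by simpa using (Finset.mem_filter.1 hv).2
    have hw' : ¬ w ≤ a := by simpa using (Finset.mem_filter.1 hw).2
    simp only at h
    omega

variable {d' : ℕ}

/-- the shape attached to `a`: side exponents `a_i`, and the remaining one making the sum
`(d'+1) q` -/
def shp (q : ℕ) (a : Fin d' → Fin (q + 1)) : Fin (d' + 1) → ℕ :=
  Fin.cons ((d' + 1) * q - ∑ i, (a i : ℕ)) (fun i => (a i : ℕ))

theorem sum_shp (q : ℕ) (a : Fin d' → Fin (q + 1)) : ∑ i, shp q a i = (d' + 1) * q := by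
  rw [Fin.sum_univ_succ]
  simp only [shp, Fin.cons_zero, Fin.cons_succ]
  have h : ∑ i, (a i : ℕ) ≤ d' * q := by
    calc ∑ i, (a i : ℕ) ≤ ∑ _i : Fin d', q := Finset.sum_le_sum (fun i _ => Nat.lt_succ_iff.1 (a i).2)
      _ = d' * q := by simp
  have h2 : (d' + 1) * q = d' * q + q := by ring
  omega

/-- index set of all boxes -/
abbrev Idx (d' q : ℕ) : Type := Σ a : (Fin d' → Fin (q + 1)), ((i : Fin (d' + 1)) → Fin (2 ^ shp q a i))

theorem card_Idx (d' q : ℕ) : Fintype.card (Idx d' q) = (q + 1) ^ d' * 2 ^ ((d' + 1) * q) := by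
  rw [Fintype.card_sigma]
  have : ∀ a : Fin d' → Fin (q + 1), Fintype.card ((i : Fin (d' + 1)) → Fin (2 ^ shp q a i))
      = 2 ^ ((d' + 1) * q) := by
    intro a
    rw [Fintype.card_pi]
    simp only [Fintype.card_fin]
    rw [Finset.prod_pow_eq_pow_sum, sum_shp]
  simp only [this, Finset.sum_const, Finset.card_univ, Fintype.card_pi, Fintype.card_fin,
    Finset.prod_const, smul_eq_mul]

/-- the centre of the box with index `i` -/
noncomputable def cen {q : ℕ} (i : Idx d' q) : Torus (d' + 1) :=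
  fun j => ctr (shp q i.1 j) (i.2 j)

/-- the family of all boxes with index set `Idx d' q` -/
noncomputable def fam (d' q : ℕ) :
    BoxFamily (volume : Measure (Torus (d' + 1))) (Idx d' q) (Fin d' → Fin (q + 1)) where
  σ := Sigma.fst
  B := fun i => box (shp q i.1) (cen i)
  meas := fun i => measurableSet_box _ _
  disj := by
    rintro ⟨a, k⟩ ⟨a', k'⟩ hne h
    simp only at h
    subst h
    have hk : k ≠ k' := fun h => hne (by rw [h])
    obtain ⟨j, hj⟩ : ∃ j, k j ≠ k' j := by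
      by_contra hcon
      push Not at hcon
      exact hk (funext hcon)
    rw [Set.disjoint_left]
    intro x hx hx'
    have h1 := hx j (Set.mem_univ j)
    have h2 := hx' j (Set.mem_univ j)
    exact Set.disjoint_left.1 (ball_disjoint (shp q a j) (k j).2 (k' j).2
      (fun h => hj (Fin.ext h))) h1 h2
  L := 2 ^ ((d' + 1) * q) / 2 ^ (d' + 1)
  Lpos := by positivity
  τ := fun a a' => ∏ i, bet ^ (((a i : ℕ) : ℤ) - (a' i : ℕ)).natAbs
  τ0 := fun a a' => Finset.prod_nonneg (fun i _ => pow_nonneg bet_pos.le _)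
  τ1 := fun a a' => Finset.prod_le_one (fun i _ => pow_nonneg bet_pos.le _)
    (fun i _ => pow_le_one₀ bet_pos.le bet_lt_one.le)
  τs := fun a a' => Finset.prod_congr rfl (fun i _ => by
    congr 1
    omega)
  C := (2 * (1 - bet)⁻¹) ^ d'
  C0 := by
    have := bet_lt_one
    have : 0 < 1 - bet := by linarith
    positivity
  hC := by
    intro a
    have h1 : ∑ t : Fin d' → Fin (q + 1), ∏ i, bet ^ (((a i : ℕ) : ℤ) - (t i : ℕ)).natAbs
        = ∏ i, ∑ v : Fin (q + 1), bet ^ (((a i : ℕ) : ℤ) - (v : ℕ)).natAbs := by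
      rw [Finset.prod_univ_sum, Fintype.piFinset_univ]
    rw [h1]
    calc ∏ i, ∑ v : Fin (q + 1), bet ^ (((a i : ℕ) : ℤ) - (v : ℕ)).natAbs
        ≤ ∏ _i : Fin d', 2 * (1 - bet)⁻¹ := by
          refine Finset.prod_le_prod (fun i _ => Finset.sum_nonneg (fun _ _ =>
            pow_nonneg bet_pos.le _)) (fun i _ => ?_)
          rw [Fin.sum_univ_eq_sum_range (fun v => bet ^ (((a i : ℕ) : ℤ) - (v : ℕ)).natAbs) (q + 1)]
          exact sum_two_sided_le bet_pos.le bet_lt_one _ _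
      _ = _ := by simp
  inter := by
    intro i j
    set s := shp q i.1 with hs
    set s' := shp q j.1 with hs'
    have hsum : ∑ l, s l = (d' + 1) * q := sum_shp q i.1
    have hsum' : ∑ l, s' l = (d' + 1) * q := sum_shp q j.1
    have h1 := volume_box_inter_le s s' (cen i) (cen j)
    set X : ℝ := 2 ^ ((d' + 1) * q) * (1/2) ^ (∑ l, max (s l) (s' l)) with hX
    have h2 : 2 ^ ((d' + 1) * q) / 2 ^ (d' + 1) * volume.real (box s (cen i) ∩ box s' (cen j)) ≤ X := by
      calc _ ≤ 2 ^ ((d' + 1) * q) / 2 ^ (d' + 1) * (2 ^ (d' + 1) * (1/2) ^ (∑ l, max (s l) (s' l))) :=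
            mul_le_mul_of_nonneg_left h1 (by positivity)
        _ = X := by rw [hX]; field_simp
    refine h2.trans ?_
    have hX0 : 0 ≤ X := by positivity
    have hτ0 : 0 ≤ ∏ l, bet ^ (((i.1 l : ℕ) : ℤ) - (j.1 l : ℕ)).natAbs :=
      Finset.prod_nonneg (fun i _ => pow_nonneg bet_pos.le _)
    refine (pow_le_pow_iff_left₀ hX0 (by positivity) two_ne_zero).1 ?_
    rw [← pow_mul]
    have e1 : 2 * ∑ l, max (s l) (s' l) = 2 * ((d' + 1) * q) + ∑ l, ((s l : ℤ) - s' l).natAbs := by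
      have : ∀ l, 2 * max (s l) (s' l) = s l + s' l + ((s l : ℤ) - s' l).natAbs := by
        intro l; omega
      rw [Finset.mul_sum, Finset.sum_congr rfl (fun l _ => this l), Finset.sum_add_distrib,
        Finset.sum_add_distrib, hsum, hsum']
      ring
    have e2 : X ^ 2 = (1/2) ^ (∑ l, ((s l : ℤ) - s' l).natAbs) := by
      rw [hX, mul_pow, ← pow_mul, ← pow_mul, mul_comm (∑ l, max (s l) (s' l)) 2, e1, pow_add,
        mul_comm ((d' + 1) * q) 2, ← mul_assoc, ← mul_pow]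
      norm_num
    have e3 : (∏ l, bet ^ (((i.1 l : ℕ) : ℤ) - (j.1 l : ℕ)).natAbs) ^ (12 * 2)
        = (1/2) ^ (∑ l, (((i.1 l : ℕ) : ℤ) - (j.1 l : ℕ)).natAbs) := by
      rw [Finset.prod_pow_eq_pow_sum, ← pow_mul, mul_comm, pow_mul]
      norm_num [bet_pow]
    rw [e2, e3]
    apply pow_le_pow_of_le_one (by norm_num) (by norm_num)
    rw [Fin.sum_univ_succ (f := fun l => ((s l : ℤ) - s' l).natAbs)]
    simp only [hs, hs', shp, Fin.cons_succ]
    omega

end Pool.Agent.Helper218_SB
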