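import Mathlib

namespace Pool.Agent.Helper218_SB

open scoped ENNReal

/-- From the bounds at the levels `q` to a bound for all `m`. -/
theorem exists_lower_all (d' : ℕ) (r t : ℝ) (hr : 0 < r) (ht0 : 0 ≤ t) (ht1 : t ≤ 1)
    (a : ℕ → ℝ≥0∞)
    (h : ∃ c₁ c₂ : ℝ, 0 < c₁ ∧ c₁ ≤ 1 ∧ 0 < c₂ ∧ ∀ q m : ℕ,
      (m : ℝ) < c₁ * (((q:ℝ) + 1) ^ d' * 2 ^ ((d' + 1) * q)) →
      ENNReal.ofReal (c₂ * ((2 ^ (r * ((d' + 1) * q : ℕ)))⁻¹ *
        (((q:ℝ) + 1) ^ d') ^ (1 - t))) ≤ a m) :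
    ∃ c : ℝ, 0 < c ∧ ∀ m : ℕ, 1 ≤ m →
      ENNReal.ofReal (c * ((m : ℝ) ^ (-r) * (Real.log m) ^ (d' * (r + 1 - t)))) ≤ a m := by
  obtain ⟨c₁, c₂, hc₁, hc₁1, hc₂, hall⟩ := h
  set s : ℝ := d' * (r + 1 - t) with hs
  have hs0 : 0 ≤ s := mul_nonneg (Nat.cast_nonneg _) (by linarith)
  set w : ℝ := 2 * d' + 1 with hw
  have hw0 : 0 < w := by positivity
  refine ⟨c₂ * (c₁ / 2 ^ (d' + 1)) ^ r / w ^ s, by positivity, ?_⟩
  intro m hm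
  have hm0 : (0:ℝ) < m := by exact_mod_cast hm
  have hm1 : (1:ℝ) ≤ m := by exact_mod_cast hm
  -- existence of a level
  have hex : ∃ q : ℕ, (m : ℝ) < c₁ * (((q:ℝ) + 1) ^ d' * 2 ^ ((d' + 1) * q)) := by
    obtain ⟨q, hq⟩ := pow_unbounded_of_one_lt (m / c₁ : ℝ) (one_lt_two)
    refine ⟨q, ?_⟩
    rw [div_lt_iff₀ hc₁] at hq
    have h1 : (1:ℝ) ≤ ((q:ℝ) + 1) ^ d' := one_le_pow₀ (by
      have : (0:ℝ) ≤ q := Nat.cast_nonneg _
      linarith)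
    have h2 : (2:ℝ) ^ q ≤ 2 ^ ((d' + 1) * q) := by
      apply pow_le_pow_right₀ (by norm_num)
      nlinarith [Nat.zero_le d', Nat.zero_le q]
    have h3 : (2:ℝ) ^ q ≤ ((q:ℝ) + 1) ^ d' * 2 ^ ((d' + 1) * q) := by
      calc (2:ℝ) ^ q ≤ 2 ^ ((d' + 1) * q) := h2
        _ = 1 * 2 ^ ((d' + 1) * q) := (one_mul _).symm
        _ ≤ _ := mul_le_mul_of_nonneg_right h1 (by positivity)
    calc (m:ℝ) < 2 ^ q * c₁ := hq
      _ = c₁ * 2 ^ q := mul_comm _ _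
      _ ≤ _ := mul_le_mul_of_nonneg_left h3 hc₁.le
  classical
  set q := Nat.find hex with hq
  have hq1 : (m : ℝ) < c₁ * (((q:ℝ) + 1) ^ d' * 2 ^ ((d' + 1) * q)) := Nat.find_spec hex
  have hq0 : q ≠ 0 := by
    intro h0
    rw [h0] at hq1
    simp at hq1
    linarith
  obtain ⟨p, hp⟩ : ∃ p, q = p + 1 := Nat.exists_eq_succ_of_ne_zero hq0
  have hq2 : c₁ * (((p:ℝ) + 1) ^ d' * 2 ^ ((d' + 1) * p)) ≤ m := by
    have := Nat.find_min hex (m := p) (by omega)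
    exact not_lt.1 this
  have hqr : (q:ℝ) = p + 1 := by rw [hp]; push_cast; rfl
  rw [← hqr] at hq2
  have hqpos : (1:ℝ) ≤ q := by rw [hqr]; have : (0:ℝ) ≤ p := Nat.cast_nonneg _; linarith
  have hqpos0 : (0:ℝ) < q := by linarith
  refine le_trans (ENNReal.ofReal_le_ofReal ?_) (hall q m hq1)
  -- the power of two
  have h2 : c₁ / 2 ^ (d' + 1) * ((q:ℝ) ^ d' * 2 ^ ((d' + 1) * q)) ≤ m := by
    have e : (2:ℝ) ^ ((d' + 1) * q) = 2 ^ ((d' + 1) * p) * 2 ^ (d' + 1) := by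
      rw [← pow_add, hp]; congr 1
    calc c₁ / 2 ^ (d' + 1) * ((q:ℝ) ^ d' * 2 ^ ((d' + 1) * q))
        = c₁ * ((q:ℝ) ^ d' * 2 ^ ((d' + 1) * p)) := by rw [e]; field_simp
      _ ≤ m := hq2
  have h3 : (c₁ / 2 ^ (d' + 1)) ^ r * ((q:ℝ) ^ (d' * r) * 2 ^ (r * ((d' + 1) * q : ℕ))) ≤ (m:ℝ) ^ r := by
    have h4 := Real.rpow_le_rpow (by positivity) h2 hr.le
    have e1 : (c₁ / 2 ^ (d' + 1) * ((q:ℝ) ^ d' * 2 ^ ((d' + 1) * q))) ^ r
        = (c₁ / 2 ^ (d' + 1)) ^ r * ((q:ℝ) ^ (d' * r) * 2 ^ (r * ((d' + 1) * q : ℕ))) := by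
      rw [Real.mul_rpow (by positivity) (by positivity), Real.mul_rpow (by positivity) (by positivity)]
      congr 2
      · rw [← Real.rpow_natCast (q:ℝ) d', ← Real.rpow_mul hqpos0.le]
      · rw [← Real.rpow_natCast 2 ((d' + 1) * q), ← Real.rpow_mul (by norm_num), mul_comm r]
    rw [e1] at h4
    exact h4
  -- the logarithm
  have hlog0 : 0 ≤ Real.log m := Real.log_nonneg hm1
  have hlog : Real.log m ≤ w * q := by
    have h5 : Real.log m ≤ Real.log (((q:ℝ) + 1) ^ d' * 2 ^ ((d' + 1) * q)) := by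
      apply Real.log_le_log hm0
      have h6 : (0:ℝ) < ((q:ℝ) + 1) ^ d' * 2 ^ ((d' + 1) * q) := by positivity
      nlinarith
    rw [Real.log_mul (by positivity) (by positivity), Real.log_pow, Real.log_pow] at h5
    have h7 : Real.log ((q:ℝ) + 1) ≤ q := by
      have := Real.log_le_sub_one_of_pos (x := (q:ℝ) + 1) (by positivity)
      linarith
    have h8 : Real.log 2 ≤ 1 := by
      have := Real.log_le_sub_one_of_pos (x := (2:ℝ)) (by norm_num)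
      linarith
    have h9 : (d':ℝ) * Real.log ((q:ℝ) + 1) ≤ d' * q := mul_le_mul_of_nonneg_left h7 (Nat.cast_nonneg _)
    have h10 : (((d' + 1) * q : ℕ) : ℝ) * Real.log 2 ≤ ((d' + 1) * q : ℕ) * 1 :=
      mul_le_mul_of_nonneg_left h8 (Nat.cast_nonneg _)
    push_cast at h10 h5
    rw [hw]
    nlinarith
  have hlogs : (Real.log m) ^ s ≤ w ^ s * (q:ℝ) ^ s := by
    rw [← Real.mul_rpow hw0.le hqpos0.le]
    exact Real.rpow_le_rpow hlog0 hlog hs0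
  have hsplit : (q:ℝ) ^ s = (q:ℝ) ^ (d' * r) * ((q:ℝ) ^ d') ^ (1 - t) := by
    rw [← Real.rpow_natCast (q:ℝ) d', ← Real.rpow_mul hqpos0.le, ← Real.rpow_add hqpos0]
    congr 1
    rw [hs]; ring
  have hmono : ((q:ℝ) ^ d') ^ (1 - t) ≤ (((q:ℝ) + 1) ^ d') ^ (1 - t) := by
    apply Real.rpow_le_rpow (by positivity) _ (by linarith)
    exact pow_le_pow_left₀ hqpos0.le (by linarith) _
  have hmr : 0 < (m:ℝ) ^ (-r) := Real.rpow_pos_of_pos hm0 _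
  have hmr2 : (m:ℝ) ^ (-r) * (m:ℝ) ^ r = 1 := by
    rw [← Real.rpow_add hm0]; simp
  set R : ℝ := 2 ^ (r * ((d' + 1) * q : ℕ)) with hR
  have hR0 : 0 < R := by positivity
  set A : ℝ := (c₁ / 2 ^ (d' + 1)) ^ r with hA
  have hA0 : 0 < A := by positivity
  have h11 : A * ((m:ℝ) ^ (-r) * (q:ℝ) ^ (d' * r)) ≤ R⁻¹ := by
    rw [← one_div, le_div_iff₀ hR0]
    calc A * ((m:ℝ) ^ (-r) * (q:ℝ) ^ (d' * r)) * R
        = (m:ℝ) ^ (-r) * (A * ((q:ℝ) ^ (d' * r) * R)) := by ring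
      _ ≤ (m:ℝ) ^ (-r) * (m:ℝ) ^ r := mul_le_mul_of_nonneg_left h3 hmr.le
      _ = 1 := hmr2
  calc c₂ * A / w ^ s * ((m : ℝ) ^ (-r) * (Real.log m) ^ s)
      ≤ c₂ * A / w ^ s * ((m : ℝ) ^ (-r) * (w ^ s * (q:ℝ) ^ s)) := by
        refine mul_le_mul_of_nonneg_left ?_ (by positivity)
        exact mul_le_mul_of_nonneg_left hlogs hmr.le
    _ = c₂ * (A * ((m:ℝ) ^ (-r) * (q:ℝ) ^ (d' * r)) * ((q:ℝ) ^ d') ^ (1 - t)) := by
        rw [hsplit]; field_simp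
    _ ≤ c₂ * (R⁻¹ * (((q:ℝ) + 1) ^ d') ^ (1 - t)) := by
        refine mul_le_mul_of_nonneg_left ?_ hc₂.le
        exact mul_le_mul h11 hmono (by positivity) (by positivity)

end Pool.Agent.Helper218_SB
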