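import Pool.Agent.Helper218_SB.LowerTop

namespace Pool.Agent.Helper218_SB

open MeasureTheory Set
open scoped ENNReal

variable {d' q : ℕ}

/-- coefficients: one box per shape -/
noncomputable def secc (b : (Fin d' → Fin (q + 1)) → Idx d' q) (v : (Fin d' → Fin (q + 1)) → ℝ)
    (i : Idx d' q) : ℝ := if b i.1 = i then v i.1 else 0

theorem sum_secc (b : (Fin d' → Fin (q + 1)) → Idx d' q) (hb : ∀ s, (b s).1 = s)
    (v : (Fin d' → Fin (q + 1)) → ℝ) (F : Idx d' q → ℝ) :
    ∑ i, secc b v i * F i = ∑ s, v s * F (b s) := by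
  classical
  rw [← Finset.sum_fiberwise (s := Finset.univ) (g := fun i : Idx d' q => i.1)]
  refine Finset.sum_congr rfl (fun s _ => ?_)
  rw [Finset.sum_eq_single (b s)]
  · simp [secc, hb s]
  · intro i hi hne
    have hi' : i.1 = s := (Finset.mem_filter.1 hi).2
    have : ¬ b i.1 = i := by rw [hi']; exact fun h => hne h.symm
    simp [secc, this]
  · intro h
    exfalso
    exact h (Finset.mem_filter.2 ⟨Finset.mem_univ _, hb s⟩)

theorem Wf_secc_le (b : (Fin d' → Fin (q + 1)) → Idx d' q) (hb : ∀ s, (b s).1 = s)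
    (v : (Fin d' → Fin (q + 1)) → ℝ) (a : Fin d' → Fin (q + 1)) (x : Torus (d' + 1)) :
    Wf (secc b v) a x = |v a| * (box (shp q a) (cen (b a))).indicator (fun _ => (1:ℝ)) x := by
  classical
  have hba : ∃ l, b a = ⟨a, l⟩ := by
    have h := hb a
    generalize b a = w at h
    obtain ⟨a', l⟩ := w
    simp only at h
    subst h
    exact ⟨l, rfl⟩
  obtain ⟨l0, hl0⟩ := hba
  unfold Wf
  rw [Finset.sum_eq_single l0]
  · simp only [secc, hl0, if_true]
  · intro l _ hne
    have : ¬ (⟨a, l0⟩ : Idx d' q) = ⟨a, l⟩ := by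
      intro h
      apply hne
      simpa using h.symm
    simp only [secc, hl0, this, if_false, abs_zero, zero_mul]
  · intro h; exact absurd (Finset.mem_univ _) h

theorem eLpNorm_Wf_one (b : (Fin d' → Fin (q + 1)) → Idx d' q) (hb : ∀ s, (b s).1 = s)
    (c : (Fin d' → Fin (q + 1)) → Bool) (a : Fin d' → Fin (q + 1)) :
    eLpNorm (Wf (secc b (fun s => sg (c s) * (fam d' q).L)) a) 1 volume ≤ 1 := by
  have hL0 : 0 < (fam d' q).L := (fam d' q).Lpos
  have hLdef : (fam d' q).L = 2 ^ ((d' + 1) * q) / 2 ^ (d' + 1) := rfl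
  have e1 : Wf (secc b (fun s => sg (c s) * (fam d' q).L)) a = fun x =>
      (box (shp q a) (cen (b a))).indicator (fun _ => (fam d' q).L) x := by
    funext x
    rw [Wf_secc_le b hb, abs_mul, abs_sg, one_mul, abs_of_pos hL0]
    by_cases hx : x ∈ box (shp q a) (cen (b a))
    · simp [hx]
    · simp [hx]
  rw [e1]
  refine (eLpNorm_indicator_const_le _ _).trans ?_
  simp only [ENNReal.toReal_one, div_one, ENNReal.rpow_one]
  have h2 := volume_box_le (shp q a) (cen (b a))
  rw [sum_shp] at h2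
  rw [Real.enorm_of_nonneg hL0.le]
  have h3 : volume (box (shp q a) (cen (b a))) = ENNReal.ofReal (volume.real (box (shp q a) (cen (b a)))) := by
    rw [measureReal_def, ENNReal.ofReal_toReal (measure_ne_top _ _)]
  rw [h3, ← ENNReal.ofReal_mul hL0.le, ← ENNReal.ofReal_one]
  apply ENNReal.ofReal_le_ofReal
  calc (fam d' q).L * volume.real (box (shp q a) (cen (b a)))
      ≤ (2 ^ ((d' + 1) * q) / 2 ^ (d' + 1)) * (2 ^ (d' + 1) * (1/2) ^ ((d' + 1) * q)) := by
        rw [hLdef]; exact mul_le_mul_of_nonneg_left h2 (by positivity)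
    _ = (2 * (1/2)) ^ ((d' + 1) * q) := by
        rw [mul_pow]; field_simp
    _ = 1 := by norm_num

/-- Lower bound at a given level, `p = 1`. -/
theorem lower_q_one (𝕜 : Type) [RCLike 𝕜] (d' k : ℕ) (r : ℝ) (hr : 0 < r) (hk : r < k)
    (θ : ℝ≥0∞) (hθ : 1 ≤ θ) :
    ∃ c₁ c₂ : ℝ, 0 < c₁ ∧ c₁ ≤ 1 ∧ 0 < c₂ ∧ ∀ q m : ℕ,
      (m : ℝ) < c₁ * (((q:ℝ) + 1) ^ d' * 2 ^ ((d' + 1) * q)) →
      ENNReal.ofReal (c₂ * ((2 ^ (r * ((d' + 1) * q : ℕ)))⁻¹ *
        (((q:ℝ) + 1) ^ d') ^ (1 - (θ⁻¹).toReal))) ≤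
      samplingNumber m (besovClass 𝕜 (d' + 1) k r 1 θ) 1 := by
  classical
  obtain ⟨ε, c, hε, hc, hc1, hcore⟩ := fam_core d'
  obtain ⟨C, hC, hnorm⟩ := exists_besovNorm_tf_le 𝕜 d' k r hr hk 1 θ le_rfl hθ
  have hC0 : 0 < C := by linarith
  refine ⟨c, ε / C, hc, hc1, by positivity, ?_⟩
  intro q m hm
  by_contra hlt
  rw [not_le] at hlt
  set M : ℝ := ((q:ℝ) + 1) ^ d' with hM
  have hM0 : 0 < M := by positivity
  set R : ℝ := 2 ^ (r * ((d' + 1) * q : ℕ)) with hR
  have hR0 : 0 < R := by positivity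
  set K : ℝ := C * (R * M ^ (θ⁻¹).toReal) with hK
  have hK0 : 0 < K := by positivity
  set δ : ℝ := ε / C * (R⁻¹ * M ^ (1 - (θ⁻¹).toReal)) with hδ
  have hδ0 : 0 < δ := by positivity
  have hKδ : K * δ = ε * M := by
    have e1 : M ^ (θ⁻¹).toReal * M ^ (1 - (θ⁻¹).toReal) = M := by
      rw [← Real.rpow_add hM0]; simp
    rw [hK, hδ]
    calc C * (R * M ^ (θ⁻¹).toReal) * (ε / C * (R⁻¹ * M ^ (1 - (θ⁻¹).toReal)))
        = (C / C) * (R * R⁻¹) * (M ^ (θ⁻¹).toReal * M ^ (1 - (θ⁻¹).toReal)) * ε := by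
          field_simp
      _ = _ := by rw [e1, div_self hC0.ne', mul_inv_cancel₀ hR0.ne']; ring
  obtain ⟨x, ψ, hψm, hψL, hall⟩ := exists_of_samplingNumber_lt hθ hlt
  have hL0 : 0 < (fam d' q).L := (fam d' q).Lpos
  set L : ℝ := (fam d' q).L with hL
  set F : Idx d' q → Torus (d' + 1) → ℝ := fun i y => L * err x ψ i y with hF
  have herri : ∀ i : Idx d' q, Integrable (err x ψ i) volume := fun i =>
    memLp_one_iff_integrable.1 (err_memLp hψL i)
  have hFm : ∀ i, Measurable (F i) := fun i => (err_measurable hψm i).const_mul _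
  have hFi : ∀ i, Integrable (F i) volume := fun i => (herri i).const_mul _
  have hE : ∀ b : (Fin d' → Fin (q + 1)) → Idx d' q, (∀ s, (b s).1 = s) →
      ∀ c : (Fin d' → Fin (q + 1)) → Bool,
      ∫ y, |∑ s, sg (c s) * F (b s) y| ≤ ε * M := by
    intro b hb c
    have h1 := hall K (tf q (secc b (fun s => sg (c s) * L))) hK0 (tf_continuous _)
      (hnorm q _ (fun a => eLpNorm_Wf_one b hb c a))
    rw [← ENNReal.ofReal_mul hK0.le, hKδ] at h1
    have e1 : ∀ y, tf q (secc b (fun s => sg (c s) * L)) y -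
        ∑ j, tf q (secc b (fun s => sg (c s) * L)) (x j) * ψ j y = ∑ s, sg (c s) * F (b s) y := by
      intro y
      rw [tf_sub, sum_secc b hb]
      refine Finset.sum_congr rfl (fun s _ => ?_)
      rw [hF]; ring
    simp only [e1] at h1
    have hint : Integrable (fun y => ∑ s, sg (c s) * F (b s) y) volume :=
      integrable_finsetSum _ (fun s _ => (hFi (b s)).const_mul _)
    rw [eLpNorm_one_eq_lintegral_enorm] at h1
    have h2 : ∫ y, |∑ s, sg (c s) * F (b s) y| =
        (∫⁻ y, ‖∑ s, sg (c s) * F (b s) y‖ₑ).toReal := by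
      rw [← integral_norm_eq_lintegral_enorm hint.aestronglyMeasurable]
      simp only [Real.norm_eq_abs]
    rw [h2]
    exact ENNReal.toReal_le_of_le_ofReal (by positivity) h1
  obtain ⟨g, hgm, hg0, hgi, hg1, hsum⟩ := max_choice (μ := (volume : Measure (Torus (d' + 1))))
    (σ := fun i : Idx d' q => i.1) (fun s => ⟨⟨s, fun i => ⟨0, by positivity⟩⟩, rfl⟩) F hFm hFi
    (ε * M) hE (2 ^ ((d' + 1) * q)) (fun s => by
      have h1 : (Finset.univ.filter (fun i : Idx d' q => i.1 = s)).card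
          ≤ Fintype.card ((i : Fin (d' + 1)) → Fin (2 ^ shp q s i)) := by
        refine Finset.card_le_card_of_surjOn (s := Finset.univ)
          (fun l => (⟨s, l⟩ : Idx d' q)) ?_ |>.trans (le_of_eq (Finset.card_univ))
        rintro ⟨a, l⟩ hi
        have : a = s := by simpa using hi
        subst this
        exact ⟨l, by simp, rfl⟩
      refine h1.trans (le_of_eq ?_)
      rw [Fintype.card_pi]
      simp only [Fintype.card_fin]
      rw [Finset.prod_pow_eq_pow_sum, sum_shp])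
  have hfin := hcore q m (fun i y => max (|F i y| - g y) 0) g
    (fun i l => L * phi (shp q i.1) (cen i) (x l)) ψ
    (fun i => ((hFm i).abs.sub hgm).max measurable_const)
    (fun i y => le_max_right _ _)
    (fun i => ((hFi i).abs.sub hgi).sup (integrable_zero _ _ _)) ?_ hgm hg0 hgi hg1
    (fun l => memLp_one_iff_integrable.1 (hψL l)) ?_
  · rw [← hM] at hfin
    linarith
  · refine hsum.trans (le_of_eq ?_)
    push_cast
    ring
  · intro i y
    have : L * phi (shp q i.1) (cen i) y -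
        ∑ l, L * phi (shp q i.1) (cen i) (x l) * ψ l y = F i y := by
      rw [hF]
      simp only
      unfold err
      rw [mul_sub, Finset.mul_sum]
      congr 1
      exact Finset.sum_congr rfl (fun l _ => by ring)
    rw [this]
    have := le_max_left (|F i y| - g y) 0
    linarith

end Pool.Agent.Helper218_SB
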