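import Mathlib

namespace Pool.Agent.Helper218_SB

open MeasureTheory Set

/-- sign of a Boolean -/
def sg (b : Bool) : ℝ := if b then 1 else -1

theorem sg_not (b : Bool) : sg (!b) = - sg b := by cases b <;> simp [sg]
theorem abs_sg (b : Bool) : |sg b| = 1 := by cases b <;> simp [sg]

section

variable {S : Type*} [Fintype S] [DecidableEq S]

/-- Averaging over all signs. -/
theorem sum_signs_ge (y : S → ℝ) (s0 : S) :
    2 ^ (Fintype.card S) * |y s0| ≤ ∑ c : S → Bool, |∑ s, sg (c s) * y s| := by
  set fl : (S → Bool) → (S → Bool) := fun c s => if s = s0 then c s else !(c s) with hfl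
  have hinv : Function.Involutive fl := by
    intro c
    funext s
    by_cases h : s = s0 <;> simp [hfl, h]
  set A : (S → Bool) → ℝ := fun c => ∑ s, sg (c s) * y s with hA
  have hpair : ∀ c, 2 * |y s0| ≤ |A c| + |A (fl c)| := by
    intro c
    have e : A c + A (fl c) = 2 * (sg (c s0) * y s0) := by
      simp only [hA]
      rw [← Finset.sum_add_distrib]
      rw [Finset.sum_eq_single s0]
      · simp [hfl]; ring
      · intro s _ hs
        simp [hfl, hs, sg_not]
      · intro h; exact absurd (Finset.mem_univ _) h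
    calc 2 * |y s0| = |A c + A (fl c)| := by
          rw [e, abs_mul, abs_mul, abs_sg]; norm_num
      _ ≤ |A c| + |A (fl c)| := abs_add_le _ _
  have h1 : ∑ c : S → Bool, |A (fl c)| = ∑ c : S → Bool, |A c| :=
    (Equiv.sum_comp (hinv.toPerm fl) (fun c => |A c|))
  have h2 : ∑ _c : S → Bool, 2 * |y s0| ≤ ∑ c : S → Bool, (|A c| + |A (fl c)|) :=
    Finset.sum_le_sum (fun c _ => hpair c)
  rw [Finset.sum_add_distrib, h1] at h2
  simp only [Finset.sum_const, Finset.card_univ, Fintype.card_pi, Fintype.card_bool,
    Finset.prod_const, nsmul_eq_mul] at h2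
  push_cast at h2
  linarith

variable [Nonempty S]

/-- maximum of a finite family -/
def Mx (z : S → ℝ) : ℝ := Finset.univ.sup' Finset.univ_nonempty z

omit [DecidableEq S] in
theorem le_Mx (z : S → ℝ) (s : S) : z s ≤ Mx z := Finset.le_sup' z (Finset.mem_univ s)

omit [DecidableEq S] in
theorem exists_Mx (z : S → ℝ) : ∃ s, Mx z = z s := by
  obtain ⟨s, _, hs⟩ := Finset.exists_mem_eq_sup' Finset.univ_nonempty z
  exact ⟨s, hs⟩

omit [DecidableEq S] in
theorem Mx_nonneg (z : S → ℝ) (hz : ∀ s, 0 ≤ z s) : 0 ≤ Mx z := by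
  obtain ⟨s⟩ := ‹Nonempty S›
  exact (hz s).trans (le_Mx z s)

theorem Mx_update_le (z : S → ℝ) (hz : ∀ s, 0 ≤ z s) (s : S) :
    Mx (Function.update z s 0) ≤ Mx z := by
  obtain ⟨t, ht⟩ := exists_Mx (Function.update z s 0)
  rw [ht]
  by_cases h : t = s
  · subst h; simp; exact Mx_nonneg z hz
  · rw [Function.update_of_ne h]; exact le_Mx z t

theorem Mx_update (z : S → ℝ) (s : S) (v : ℝ) (hv : 0 ≤ v) :
    Mx (Function.update z s v) = max v (Mx (Function.update z s 0)) := by
  apply le_antisymm
  · obtain ⟨t, ht⟩ := exists_Mx (Function.update z s v)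
    rw [ht]
    by_cases h : t = s
    · subst h; simp
    · rw [Function.update_of_ne h]
      refine le_max_of_le_right ?_
      have := le_Mx (Function.update z s 0) t
      rwa [Function.update_of_ne h] at this
  · refine max_le ?_ ?_
    · have := le_Mx (Function.update z s v) s
      rwa [Function.update_self] at this
    · obtain ⟨t, ht⟩ := exists_Mx (Function.update z s 0)
      rw [ht]
      by_cases h : t = s
      · subst h
        rw [Function.update_self]
        have := le_Mx (Function.update z t v) t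
        rw [Function.update_self] at this
        exact hv.trans this
      · rw [Function.update_of_ne h]
        have := le_Mx (Function.update z s v) t
        rwa [Function.update_of_ne h] at this

theorem sum_Mx_sub_le (z : S → ℝ) (hz : ∀ s, 0 ≤ z s) :
    ∑ s, (Mx z - Mx (Function.update z s 0)) ≤ Mx z := by
  obtain ⟨t, ht⟩ := exists_Mx z
  have hb : ∀ s, Mx z - Mx (Function.update z s 0) ≤ if s = t then Mx z else 0 := by
    intro s
    by_cases h : s = t
    · simp only [h, if_true]
      have : 0 ≤ Mx (Function.update z t 0) := Mx_nonneg _ (fun s => by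
        by_cases h' : s = t
        · subst h'; simp
        · rw [Function.update_of_ne h']; exact hz s)
      linarith
    · simp only [h, if_false]
      have := le_Mx (Function.update z s 0) t
      rw [Function.update_of_ne (fun h' => h h'.symm), ← ht] at this
      linarith
  calc ∑ s, (Mx z - Mx (Function.update z s 0)) ≤ ∑ s, if s = t then Mx z else 0 :=
        Finset.sum_le_sum (fun s _ => hb s)
    _ = Mx z := by simp

omit [DecidableEq S] in
theorem measurable_Mx {Ω : Type*} [MeasurableSpace Ω] (z : S → Ω → ℝ)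
    (hz : ∀ s, Measurable (z s)) : Measurable (fun x => Mx (fun s => z s x)) := by
  have : (fun x => Mx (fun s => z s x)) = Finset.univ.sup' Finset.univ_nonempty z := by
    funext x
    rw [Finset.sup'_apply]
    rfl
  rw [this]
  exact Finset.measurable_sup' _ (fun s _ => hz s)

omit [DecidableEq S] in
theorem Mx_le_sum (z : S → ℝ) (hz : ∀ s, 0 ≤ z s) : Mx z ≤ ∑ s, z s := by
  obtain ⟨t, ht⟩ := exists_Mx z
  rw [ht]
  exact Finset.single_le_sum (fun s _ => hz s) (Finset.mem_univ t)

end

/-- **Maximal choice.** If all signed sums over sections have small `L₁` norm, then the functions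
are dominated, up to a small error on average, by one single function. -/
theorem max_choice {Ω ι S : Type*} [MeasurableSpace Ω] {μ : Measure Ω} [Fintype ι] [Fintype S]
    [DecidableEq S] [Nonempty S] (σ : ι → S) (hσ : ∀ s, ∃ i, σ i = s)
    (F : ι → Ω → ℝ) (hFm : ∀ i, Measurable (F i)) (hFi : ∀ i, Integrable (F i) μ)
    (E : ℝ) (hE : ∀ b : S → ι, (∀ s, σ (b s) = s) → ∀ c : S → Bool,
      ∫ x, |∑ s, sg (c s) * F (b s) x| ∂μ ≤ E)
    (n : ℕ) (hn : ∀ s, (Finset.univ.filter (fun i => σ i = s)).card ≤ n) :
    ∃ g : Ω → ℝ, Measurable g ∧ (∀ x, 0 ≤ g x) ∧ Integrable g μ ∧ ∫ x, g x ∂μ ≤ E ∧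
      ∑ i, ∫ x, max (|F i x| - g x) 0 ∂μ ≤ n * E := by
  classical
  -- integrability of maxima
  have hMxi : ∀ z : S → Ω → ℝ, (∀ s, Measurable (z s)) → (∀ s x, 0 ≤ z s x) →
      (∀ s, Integrable (z s) μ) → Integrable (fun x => Mx (fun s => z s x)) μ := by
    intro z hzm hz0 hzi
    refine (integrable_finsetSum Finset.univ (fun s _ => hzi s)).mono'
      (measurable_Mx z hzm).aestronglyMeasurable (Filter.Eventually.of_forall (fun x => ?_))
    rw [Real.norm_eq_abs, abs_of_nonneg (Mx_nonneg _ (fun s => hz0 s x))]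
    exact Mx_le_sum _ (fun s => hz0 s x)
  have hFa : ∀ i, Measurable (fun x => |F i x|) := fun i => (hFm i).abs
  have hFai : ∀ i, Integrable (fun x => |F i x|) μ := fun i => (hFi i).abs
  -- integral of the maximum
  have hmaxE : ∀ b : S → ι, (∀ s, σ (b s) = s) →
      ∫ x, Mx (fun s => |F (b s) x|) ∂μ ≤ E := by
    intro b hb
    have h1 : ∀ x, 2 ^ (Fintype.card S) * Mx (fun s => |F (b s) x|)
        ≤ ∑ c : S → Bool, |∑ s, sg (c s) * F (b s) x| := by
      intro x
      obtain ⟨s0, hs0⟩ := exists_Mx (fun s => |F (b s) x|)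
      rw [hs0]
      exact sum_signs_ge (fun s => F (b s) x) s0
    have hci : ∀ c : S → Bool, Integrable (fun x => |∑ s, sg (c s) * F (b s) x|) μ := fun c =>
      (integrable_finsetSum _ (fun s _ => (hFi (b s)).const_mul _)).abs
    have h2 := integral_mono ((hMxi (fun s x => |F (b s) x|) (fun s => hFa _)
      (fun s x => abs_nonneg _) (fun s => hFai _)).const_mul (2 ^ (Fintype.card S) : ℝ))
      (integrable_finsetSum Finset.univ (fun c _ => hci c)) h1
    rw [integral_const_mul, integral_finsetSum _ (fun c _ => hci c)] at h2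
    have h3 : ∑ c : S → Bool, ∫ x, |∑ s, sg (c s) * F (b s) x| ∂μ ≤ 2 ^ (Fintype.card S) * E := by
      calc _ ≤ ∑ _c : S → Bool, E := Finset.sum_le_sum (fun c _ => hE b hb c)
        _ = 2 ^ (Fintype.card S) * E := by
          simp only [Finset.sum_const, Finset.card_univ, Fintype.card_pi, Fintype.card_bool,
            Finset.prod_const, nsmul_eq_mul]
          push_cast; rfl
    exact le_of_mul_le_mul_left (h2.trans h3) (by positivity)
  -- the maximal section
  choose b0 hb0 using hσ
  have : Nonempty {b : S → ι // ∀ s, σ (b s) = s} := ⟨⟨b0, hb0⟩⟩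
  obtain ⟨⟨b, hb⟩, hmax⟩ := Finite.exists_max
    (fun b : {b : S → ι // ∀ s, σ (b s) = s} => ∫ x, Mx (fun s => |F (b.1 s) x|) ∂μ)
  set z : Ω → S → ℝ := fun x s => |F (b s) x| with hz
  have hz0 : ∀ x s, 0 ≤ z x s := fun x s => abs_nonneg _
  set g : Ω → ℝ := fun x => Mx (z x) with hg
  set gh : S → Ω → ℝ := fun s x => Mx (Function.update (z x) s 0) with hgh
  have hgm : Measurable g := measurable_Mx (fun s x => |F (b s) x|) (fun s => hFa _)
  have hgi : Integrable g μ := hMxi (fun s x => |F (b s) x|) (fun s => hFa _)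
      (fun s x => abs_nonneg _) (fun s => hFai _)
  have hupd : ∀ s x, Function.update (z x) s 0 = fun t => (if t = s then (fun _ => 0) else
      (fun x => |F (b t) x|)) x := by
    intro s x
    funext t
    by_cases h : t = s
    · subst h; simp
    · rw [Function.update_of_ne h]; simp [h, hz]
  have hghm : ∀ s, Measurable (gh s) := by
    intro s
    simp only [hgh]
    simp_rw [hupd]
    refine measurable_Mx (fun t => if t = s then (fun _ => 0) else (fun x => |F (b t) x|)) ?_
    intro t
    by_cases h : t = s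
    · simp [h]
    · simp only [h, if_false]; exact hFa _
  have hghi : ∀ s, Integrable (gh s) μ := by
    intro s
    simp only [hgh]
    simp_rw [hupd]
    refine hMxi (fun t => if t = s then (fun _ => 0) else (fun x => |F (b t) x|)) ?_ ?_ ?_
    · intro t
      by_cases h : t = s
      · simp [h]
      · simp only [h, if_false]; exact hFa _
    · intro t x
      by_cases h : t = s
      · simp [h]
      · simp only [h, if_false]; exact abs_nonneg _
    · intro t
      by_cases h : t = s
      · simp [h]
      · simp only [h, if_false]; exact hFai _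
  have hghg : ∀ s x, gh s x ≤ g x := fun s x => Mx_update_le _ (hz0 x) s
  have hone : ∀ i, ∫ x, max (|F i x| - g x) 0 ∂μ ≤ ∫ x, (g x - gh (σ i) x) ∂μ := by
    intro i
    set s := σ i with hs
    have hb' : ∀ t, σ (Function.update b s i t) = t := by
      intro t
      by_cases h : t = s
      · subst h; rw [Function.update_self]
      · rw [Function.update_of_ne h]; exact hb t
    have h1 := hmax ⟨Function.update b s i, hb'⟩
    simp only at h1
    have e1 : ∀ x, Mx (fun t => |F (Function.update b s i t) x|) = max |F i x| (gh s x) := by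
      intro x
      rw [← Mx_update (z x) s _ (abs_nonneg _)]
      congr 1
      funext t
      by_cases h : t = s
      · subst h; simp
      · rw [Function.update_of_ne h, Function.update_of_ne h]
    simp_rw [e1] at h1
    have hmi : Integrable (fun x => max |F i x| (gh s x)) μ := (hFai i).sup (hghi s)
    have hli : Integrable (fun x => max (|F i x| - g x) 0) μ :=
      ((hFai i).sub hgi).sup (integrable_zero _ _ _)
    have h2 : ∫ x, max (|F i x| - g x) 0 ∂μ ≤ ∫ x, (max |F i x| (gh s x) - gh s x) ∂μ := by
      refine integral_mono hli (hmi.sub (hghi s)) (fun x => ?_)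
      have := hghg s x
      refine max_le ?_ ?_
      · have := le_max_left |F i x| (gh s x)
        simp only; linarith
      · have := le_max_right |F i x| (gh s x)
        simp only; linarith
    rw [integral_sub hmi (hghi s)] at h2
    rw [integral_sub hgi (hghi s)]
    linarith
  have hgE : ∫ x, g x ∂μ ≤ E := hmaxE b hb
  refine ⟨g, hgm, fun x => Mx_nonneg _ (hz0 x), hgi, hgE, ?_⟩
  have hβ0 : ∀ s, 0 ≤ ∫ x, (g x - gh s x) ∂μ := fun s =>
    integral_nonneg (fun x => sub_nonneg.2 (hghg s x))
  calc ∑ i, ∫ x, max (|F i x| - g x) 0 ∂μ ≤ ∑ i, ∫ x, (g x - gh (σ i) x) ∂μ :=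
        Finset.sum_le_sum (fun i _ => hone i)
    _ = ∑ s, ∑ i with σ i = s, ∫ x, (g x - gh (σ i) x) ∂μ := by rw [Finset.sum_fiberwise]
    _ = ∑ s, ((Finset.univ.filter (fun i => σ i = s)).card : ℝ) * ∫ x, (g x - gh s x) ∂μ := by
        refine Finset.sum_congr rfl (fun s _ => ?_)
        rw [Finset.sum_congr rfl (g := fun _ => ∫ x, (g x - gh s x) ∂μ)
          (fun i hi => by rw [(Finset.mem_filter.1 hi).2])]
        rw [Finset.sum_const, nsmul_eq_mul]
    _ ≤ ∑ s, (n : ℝ) * ∫ x, (g x - gh s x) ∂μ :=
        Finset.sum_le_sum (fun s _ => mul_le_mul_of_nonneg_right (by exact_mod_cast hn s) (hβ0 s))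
    _ = n * ∫ x, ∑ s, (g x - gh s x) ∂μ := by
        have hd : ∀ s ∈ Finset.univ, Integrable (fun x => g x - gh s x) μ :=
          fun s _ => hgi.sub (hghi s)
        rw [← Finset.mul_sum, integral_finsetSum _ hd]
    _ ≤ n * ∫ x, g x ∂μ := by
        refine mul_le_mul_of_nonneg_left ?_ (Nat.cast_nonneg _)
        exact integral_mono (integrable_finsetSum _ (fun s _ => hgi.sub (hghi s))) hgi
          (fun x => sum_Mx_sub_le (z x) (hz0 x))
    _ ≤ n * E := mul_le_mul_of_nonneg_left hgE (Nat.cast_nonneg _)

end Pool.Agent.Helper218_SB
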