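import Pool.Agent.Helper218_SB.Reduce
import Pool.Agent.Helper218_SB.BesovUpper
import Pool.Agent.Helper218_SB.FamCore
import Pool.Agent.Helper218_SB.MaxChoice

namespace Pool.Agent.Helper218_SB

open MeasureTheory Set
open scoped ENNReal

variable {d' q : ℕ}

theorem memLp_cont {p : ℝ≥0∞} {f : Torus (d' + 1) → ℝ} (hf : Continuous f) : MemLp f p volume := by
  obtain ⟨C, hC⟩ := (isCompact_univ (X := Torus (d' + 1))).exists_bound_of_continuousOn hf.continuousOn
  exact MemLp.of_bound hf.aestronglyMeasurable C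
    (Filter.Eventually.of_forall (fun x => hC x (Set.mem_univ x)))

/-- the error functions of a sampling operator on the bumps -/
noncomputable def err {m : ℕ} (x : Fin m → Torus (d' + 1)) (ψ : Fin m → Torus (d' + 1) → ℝ)
    (i : Idx d' q) (y : Torus (d' + 1)) : ℝ :=
  phi (shp q i.1) (cen i) y - ∑ l, phi (shp q i.1) (cen i) (x l) * ψ l y

theorem err_measurable {m : ℕ} {x : Fin m → Torus (d' + 1)} {ψ : Fin m → Torus (d' + 1) → ℝ}
    (hψ : ∀ l, Measurable (ψ l)) (i : Idx d' q) : Measurable (err x ψ i) :=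
  (phi_continuous _ _).measurable.sub (Finset.measurable_sum _ (fun l _ => (hψ l).const_mul _))

theorem err_memLp {p : ℝ≥0∞} {m : ℕ} {x : Fin m → Torus (d' + 1)}
    {ψ : Fin m → Torus (d' + 1) → ℝ}
    (hψ : ∀ l, MemLp (ψ l) p volume) (i : Idx d' q) : MemLp (err x ψ i) p volume := by
  have h1 : MemLp (fun y => ∑ l, phi (shp q i.1) (cen i) (x l) * ψ l y) p volume :=
    memLp_finsetSum _ (fun l _ => (hψ l).const_mul _)
  exact (memLp_cont (phi_continuous _ _)).sub h1

theorem tf_sub {m : ℕ} (x : Fin m → Torus (d' + 1)) (ψ : Fin m → Torus (d' + 1) → ℝ)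
    (c : Idx d' q → ℝ) (y : Torus (d' + 1)) :
    tf q c y - ∑ l, tf q c (x l) * ψ l y = ∑ i, c i * err x ψ i y := by
  simp only [tf, err, mul_sub, Finset.sum_sub_distrib, Finset.sum_mul, Finset.mul_sum]
  congr 1
  rw [Finset.sum_comm]
  refine Finset.sum_congr rfl (fun i _ => Finset.sum_congr rfl (fun l _ => ?_))
  ring

/-- disjointness of the boxes of one shape -/
theorem sum_indicator_box_le (a : Fin d' → Fin (q + 1)) (x : Torus (d' + 1)) :
    ∑ l : ((i : Fin (d' + 1)) → Fin (2 ^ shp q a i)),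
      (box (shp q a) (cen ⟨a, l⟩)).indicator (fun _ => (1:ℝ)) x ≤ 1 := by
  classical
  by_cases hex : ∃ l : ((i : Fin (d' + 1)) → Fin (2 ^ shp q a i)), x ∈ box (shp q a) (cen ⟨a, l⟩)
  · obtain ⟨l0, hl0⟩ := hex
    rw [Finset.sum_eq_single l0]
    · exact Set.indicator_le_self' (fun _ _ => zero_le_one) x
    · intro l _ hl
      apply Set.indicator_of_notMem
      intro hx
      have hne : (⟨a, l⟩ : Idx d' q) ≠ ⟨a, l0⟩ := by
        intro h
        apply hl
        simpa using h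
      exact Set.disjoint_left.1 ((fam d' q).disj _ _ hne rfl) hx hl0
    · intro h; exact absurd (Finset.mem_univ _) h
  · push Not at hex
    rw [Finset.sum_eq_zero (fun l _ => Set.indicator_of_notMem (hex l) _)]
    exact zero_le_one

theorem Wf_nonneg (c : Idx d' q → ℝ) (a : Fin d' → Fin (q + 1)) (x : Torus (d' + 1)) :
    0 ≤ Wf c a x :=
  Finset.sum_nonneg (fun _ _ => mul_nonneg (abs_nonneg _)
    (Set.indicator_nonneg (fun _ _ => zero_le_one) _))

theorem eLpNorm_Wf_top (c : Idx d' q → ℝ) (hc : ∀ i, |c i| = 1) (a : Fin d' → Fin (q + 1)) :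
    eLpNorm (Wf c a) ∞ volume ≤ 1 := by
  rw [eLpNorm_exponent_top]
  refine eLpNormEssSup_le_of_ae_enorm_bound (Filter.Eventually.of_forall (fun x => ?_))
  rw [Real.enorm_of_nonneg (Wf_nonneg c a x), ← ENNReal.ofReal_one]
  apply ENNReal.ofReal_le_ofReal
  unfold Wf
  simp only [hc, one_mul]
  exact sum_indicator_box_le a x

/-- Lower bound at a given level, `p = ∞`. -/
theorem lower_q_top (𝕜 : Type) [RCLike 𝕜] (d' k : ℕ) (r : ℝ) (hr : 0 < r) (hk : r < k)
    (θ : ℝ≥0∞) (hθ : 1 ≤ θ) :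
    ∃ c₁ c₂ : ℝ, 0 < c₁ ∧ c₁ ≤ 1 ∧ 0 < c₂ ∧ ∀ q m : ℕ,
      (m : ℝ) < c₁ * (((q:ℝ) + 1) ^ d' * 2 ^ ((d' + 1) * q)) →
      ENNReal.ofReal (c₂ * ((2 ^ (r * ((d' + 1) * q : ℕ)))⁻¹ *
        (((q:ℝ) + 1) ^ d') ^ (1 - (θ⁻¹).toReal))) ≤
      samplingNumber m (besovClass 𝕜 (d' + 1) k r ∞ θ) ∞ := by
  obtain ⟨ε, c, hε, hc, hc1, hcore⟩ := fam_core d'
  obtain ⟨C, hC, hnorm⟩ := exists_besovNorm_tf_le 𝕜 d' k r hr hk ∞ θ le_top hθ
  have hC0 : 0 < C := by linarith
  set V : ℝ := volume.real (Set.univ : Set (Torus (d' + 1))) with hV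
  have hV0 : 0 ≤ V := measureReal_nonneg
  refine ⟨c, ε * 2 ^ (d' + 1) / (C * (V + 1)), hc, hc1, by positivity, ?_⟩
  intro q m hm
  by_contra hlt
  rw [not_le] at hlt
  set M : ℝ := ((q:ℝ) + 1) ^ d' with hM
  have hM0 : 0 < M := by positivity
  set R : ℝ := 2 ^ (r * ((d' + 1) * q : ℕ)) with hR
  have hR0 : 0 < R := by positivity
  set K : ℝ := C * (R * M ^ (θ⁻¹).toReal) with hK
  have hK0 : 0 < K := by positivity
  set δ : ℝ := ε * 2 ^ (d' + 1) / (C * (V + 1)) * (R⁻¹ * M ^ (1 - (θ⁻¹).toReal)) with hδ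
  have hδ0 : 0 < δ := by positivity
  have hKδ : K * δ = ε * 2 ^ (d' + 1) * M / (V + 1) := by
    have e1 : M ^ (θ⁻¹).toReal * M ^ (1 - (θ⁻¹).toReal) = M := by
      rw [← Real.rpow_add hM0]; simp
    rw [hK, hδ]
    calc C * (R * M ^ (θ⁻¹).toReal) * (ε * 2 ^ (d' + 1) / (C * (V + 1)) *
          (R⁻¹ * M ^ (1 - (θ⁻¹).toReal)))
        = (C / C) * (R * R⁻¹) * (M ^ (θ⁻¹).toReal * M ^ (1 - (θ⁻¹).toReal)) *
          (ε * 2 ^ (d' + 1)) / (V + 1) := by
          field_simp
      _ = _ := by rw [e1, div_self hC0.ne', mul_inv_cancel₀ hR0.ne']; ring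
  obtain ⟨x, ψ, hψm, hψL, hall⟩ := exists_of_samplingNumber_lt hθ hlt
  -- all signs
  have hsg : ∀ b : Idx d' q → Bool, ∀ᵐ y ∂(volume : Measure (Torus (d' + 1))),
      |∑ i, sg (b i) * err x ψ i y| ≤ K * δ := by
    intro b
    have h1 := hall K (tf q (fun i => sg (b i))) hK0 (tf_continuous _)
      (hnorm q _ (fun a => eLpNorm_Wf_top _ (fun i => abs_sg _) a))
    rw [← ENNReal.ofReal_mul hK0.le, eLpNorm_exponent_top] at h1
    have h2 := ae_le_eLpNormEssSup (μ := (volume : Measure (Torus (d' + 1))))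
      (f := fun y => tf q (fun i => sg (b i)) y - ∑ j, tf q (fun i => sg (b i)) (x j) * ψ j y)
    filter_upwards [h2] with y hy
    have h3 := hy.trans h1
    rw [tf_sub, Real.enorm_eq_ofReal_abs] at h3
    exact (ENNReal.ofReal_le_ofReal_iff (by positivity)).1 h3
  have hsum : ∀ᵐ y ∂(volume : Measure (Torus (d' + 1))), ∑ i : Idx d' q, |err x ψ i y| ≤ K * δ := by
    have := (ae_all_iff).2 hsg
    filter_upwards [this] with y hy
    have h4 := hy (fun i => decide (0 ≤ err x ψ i y))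
    have h5 : ∀ i : Idx d' q, sg (decide (0 ≤ err x ψ i y)) * err x ψ i y = |err x ψ i y| := by
      intro i
      by_cases h : 0 ≤ err x ψ i y
      · simp [sg, h, abs_of_nonneg h]
      · have h' : err x ψ i y < 0 := not_le.1 h
        simp [sg, h, abs_of_neg h']
    simp only [h5] at h4
    exact (le_abs_self _).trans h4
  have herri : ∀ i : Idx d' q, Integrable (err x ψ i) volume := fun i =>
    (err_memLp hψL i).integrable le_top
  have hLdef : (fam d' q).L = 2 ^ ((d' + 1) * q) / 2 ^ (d' + 1) := rfl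
  have hL0 : 0 < (fam d' q).L := (fam d' q).Lpos
  have hfin := hcore q m (fun i y => (fam d' q).L * |err x ψ i y|) (fun _ => 0)
    (fun i l => (fam d' q).L * phi (shp q i.1) (cen i) (x l)) ψ
    (fun i => ((err_measurable hψm i).abs).const_mul _)
    (fun i y => mul_nonneg hL0.le (abs_nonneg _))
    (fun i => ((herri i).abs).const_mul _) ?_ measurable_const (fun _ => le_refl _)
    (integrable_zero _ _ _) (by simp; positivity)
    (fun l => (hψL l).integrable le_top) ?_
  · rw [← hM] at hfin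
    linarith
  · have e1 : ∑ i : Idx d' q, ∫ y, (fam d' q).L * |err x ψ i y|
        = (fam d' q).L * ∫ y, ∑ i : Idx d' q, |err x ψ i y| := by
      rw [integral_finsetSum _ (fun i _ => (herri i).abs), Finset.mul_sum]
      exact Finset.sum_congr rfl (fun i _ => integral_const_mul _ _)
    have e2 : ∫ y, ∑ i : Idx d' q, |err x ψ i y| ≤ K * δ * V := by
      calc ∫ y, ∑ i : Idx d' q, |err x ψ i y| ≤ ∫ _y : Torus (d' + 1), K * δ :=
            integral_mono_ae (integrable_finsetSum _ (fun i _ => (herri i).abs))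
              (integrable_const _) hsum
        _ = K * δ * V := by rw [integral_const, smul_eq_mul, mul_comm]
    rw [e1, hLdef]
    calc 2 ^ ((d' + 1) * q) / 2 ^ (d' + 1) * ∫ y, ∑ i : Idx d' q, |err x ψ i y|
        ≤ 2 ^ ((d' + 1) * q) / 2 ^ (d' + 1) * (K * δ * V) :=
          mul_le_mul_of_nonneg_left e2 (by positivity)
      _ = ε * (M * 2 ^ ((d' + 1) * q)) * (V / (V + 1)) := by
          rw [hKδ]; field_simp
      _ ≤ ε * (M * 2 ^ ((d' + 1) * q)) * 1 := by
          refine mul_le_mul_of_nonneg_left ?_ (by positivity)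
          rw [div_le_one (by linarith)]; linarith
      _ = _ := by rw [mul_one]
  · intro i y
    have : (fam d' q).L * phi (shp q i.1) (cen i) y -
        ∑ l, (fam d' q).L * phi (shp q i.1) (cen i) (x l) * ψ l y = (fam d' q).L * err x ψ i y := by
      unfold err
      rw [mul_sub, Finset.mul_sum]
      congr 1
      exact Finset.sum_congr rfl (fun l _ => by ring)
    rw [this, abs_mul, abs_of_pos hL0, add_zero]

end Pool.Agent.Helper218_SB
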