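import Mathlib

namespace Pool.Agent.Helper218_SB

open MeasureTheory Set
open scoped ENNReal

/-- Tonelli for products of functions of one variable. -/
theorem lintegral_fin_prod : ∀ {n : ℕ} {E : Fin n → Type} {_mE : ∀ i, MeasurableSpace (E i)}
    {μ : (i : Fin n) → Measure (E i)} [∀ i, SigmaFinite (μ i)]
    (f : (i : Fin n) → E i → ℝ≥0∞) (_ : ∀ i, Measurable (f i)),
    ∫⁻ x, ∏ i, f i (x i) ∂(Measure.pi μ) = ∏ i, ∫⁻ x, f i x ∂(μ i) := by
  intro n
  induction n with
  | zero => intro E mE μ _ f hf; simp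
  | succ n ih =>
    intro E mE μ _ f hf
    have hmp := (measurePreserving_piFinSuccAbove μ 0).symm
    rw [← hmp.lintegral_comp_emb (MeasurableEquiv.measurableEmbedding _)]
    simp_rw [MeasurableEquiv.piFinSuccAbove_symm_apply, Fin.insertNthEquiv,
        Fin.prod_univ_succ, Fin.insertNth_zero]
    simp only [Fin.zero_succAbove]
    have h1 : Measurable (fun (x : (j : Fin n) → E (Fin.succ j)) => ∏ j, f (Fin.succ j) (x j)) :=
      Finset.measurable_prod _ (fun j _ => (hf _).comp (measurable_pi_apply j))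
    have h2 := lintegral_prod_mul (μ := μ 0) (ν := Measure.pi (fun i : Fin n => μ i.succ))
      (f := f 0) (g := fun x => ∏ j, f (Fin.succ j) (x j)) (hf 0).aemeasurable h1.aemeasurable
    rw [ih (fun i => f i.succ) (fun i => hf _)] at h2
    rw [← h2]
    rfl

/-- `min(1, (2^s t)^k)` -/
noncomputable def Th (k s : ℕ) (t : ℝ) : ℝ := min 1 ((2 ^ s * t) ^ k)

theorem Th_nonneg (k s : ℕ) {t : ℝ} (ht : 0 ≤ t) : 0 ≤ Th k s t := le_min zero_le_one (by positivity)
theorem Th_le_one (k s : ℕ) (t : ℝ) : Th k s t ≤ 1 := min_le_left _ _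
theorem Th_mono (k s : ℕ) {t t' : ℝ} (ht : 0 ≤ t) (h : t ≤ t') : Th k s t ≤ Th k s t' := by
  unfold Th
  refine min_le_min le_rfl ?_
  exact pow_le_pow_left₀ (by positivity) (mul_le_mul_of_nonneg_left h (by positivity)) _

/-- a telescoping bound -/
theorem tele (b z : ℝ) (hb : 1 < b) (hz : 0 < z) :
    min z z⁻¹ ≤ (2 * (1 + b) / (b - 1)) * (b * z / (1 + b * z) - z / (1 + z)) := by
  have hb1 : 0 < b - 1 := by linarith
  have e : b * z / (1 + b * z) - z / (1 + z) = (b - 1) * z / ((1 + b * z) * (1 + z)) := by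
    have h1 : (1 + b * z) ≠ 0 := by positivity
    have h2 : (1 + z) ≠ 0 := by positivity
    field_simp
    ring
  have e2 : (2 * (1 + b) / (b - 1)) * ((b - 1) * z / ((1 + b * z) * (1 + z)))
      = 2 * (1 + b) * z / ((1 + b * z) * (1 + z)) := by
    have h1 : (1 + b * z) ≠ 0 := by positivity
    have h2 : (1 + z) ≠ 0 := by positivity
    field_simp
  rw [e, e2, le_div_iff₀ (by positivity)]
  rcases le_total z 1 with h | h
  · have h1 : min z z⁻¹ ≤ z := min_le_left _ _
    have h2 : (1 + b * z) * (1 + z) ≤ 2 * (1 + b) := by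
      have a1 : 1 + b * z ≤ 1 + b := by nlinarith
      have a2 : 1 + z ≤ 2 := by linarith
      calc (1 + b * z) * (1 + z) ≤ (1 + b) * 2 := mul_le_mul a1 a2 (by positivity) (by positivity)
        _ = _ := by ring
    calc min z z⁻¹ * ((1 + b * z) * (1 + z)) ≤ z * (2 * (1 + b)) :=
          mul_le_mul h1 h2 (by positivity) hz.le
      _ = _ := by ring
  · have h1 : min z z⁻¹ ≤ z⁻¹ := min_le_right _ _
    have h2 : (1 + b * z) * (1 + z) ≤ 2 * (1 + b) * z * z := by
      have a1 : 1 + b * z ≤ (1 + b) * z := by nlinarith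
      have a2 : 1 + z ≤ 2 * z := by linarith
      calc (1 + b * z) * (1 + z) ≤ ((1 + b) * z) * (2 * z) :=
            mul_le_mul a1 a2 (by positivity) (by positivity)
        _ = _ := by ring
    calc min z z⁻¹ * ((1 + b * z) * (1 + z)) ≤ z⁻¹ * (2 * (1 + b) * z * z) :=
          mul_le_mul h1 h2 (by positivity) (by positivity)
      _ = _ := by field_simp

/-- the summed bound over scales -/
theorem exists_sum_scale (k : ℕ) (r : ℝ) (hr : 0 < r) (hk : r < k) :
    ∃ C : ℝ, 1 ≤ C ∧ ∀ (t : ℝ), 0 < t → ∀ q : ℕ,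
      ∑ v ∈ Finset.range (q + 1), (2:ℝ) ^ (-(r * v)) * (t ^ (-r) * Th k v t) ≤ C := by
  set δ : ℝ := min r (k - r) with hδ
  have hδ0 : 0 < δ := lt_min hr (by linarith)
  set b : ℝ := 2 ^ δ with hb
  have hb1 : 1 < b := Real.one_lt_rpow (by norm_num) hδ0
  have hD1 : 1 ≤ 2 * (1 + b) / (b - 1) := by
    rw [le_div_iff₀ (by linarith)]; linarith
  refine ⟨2 * (1 + b) / (b - 1), hD1, ?_⟩
  intro t ht q
  set Γ : ℕ → ℝ := fun v => (b ^ v * t ^ δ) / (1 + b ^ v * t ^ δ) with hΓ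
  have hterm : ∀ v : ℕ, (2:ℝ) ^ (-(r * v)) * (t ^ (-r) * Th k v t)
      ≤ (2 * (1 + b) / (b - 1)) * (Γ (v + 1) - Γ v) := by
    intro v
    set y : ℝ := 2 ^ v * t with hy
    have hy0 : 0 < y := by positivity
    have e1 : (2:ℝ) ^ (-(r * v)) * (t ^ (-r) * Th k v t) = y ^ (-r) * min 1 (y ^ k) := by
      rw [hy, Real.mul_rpow (by positivity) ht.le, ← Real.rpow_natCast 2 v, ← Real.rpow_mul (by norm_num)]
      unfold Th
      rw [← Real.rpow_natCast 2 v]
      ring_nf
    have hz0 : 0 < y ^ δ := Real.rpow_pos_of_pos hy0 _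
    have e2 : y ^ (-r) * min 1 (y ^ k) ≤ min (y ^ δ) (y ^ δ)⁻¹ := by
      rcases le_total y 1 with h | h
      · have h1 : y ^ k ≤ 1 := pow_le_one₀ hy0.le h
        rw [min_eq_right h1, ← Real.rpow_natCast y k, ← Real.rpow_add hy0]
        have h2 : y ^ (-r + (k:ℝ)) ≤ y ^ δ :=
          Real.rpow_le_rpow_of_exponent_ge hy0 h (by
            have := min_le_right r ((k:ℝ) - r); linarith)
        have h3 : y ^ δ ≤ 1 := Real.rpow_le_one hy0.le h hδ0.le
        refine le_min h2 (h2.trans ?_)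
        exact h3.trans ((one_le_inv₀ hz0).2 h3)
      · have h1 : 1 ≤ y ^ k := one_le_pow₀ h
        rw [min_eq_left h1, mul_one]
        have h2 : y ^ (-r) ≤ y ^ (-δ) :=
          Real.rpow_le_rpow_of_exponent_le h (by
            have := min_le_left r ((k:ℝ) - r); linarith)
        rw [Real.rpow_neg hy0.le δ] at h2
        have h3 : 1 ≤ y ^ δ := Real.one_le_rpow h hδ0.le
        refine le_min (h2.trans ?_) h2
        exact (inv_le_one_of_one_le₀ h3).trans h3
    have e3 : y ^ δ = b ^ v * t ^ δ := by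
      rw [hy, Real.mul_rpow (by positivity) ht.le, hb, ← Real.rpow_natCast 2 v,
        ← Real.rpow_mul (by norm_num), ← Real.rpow_natCast (2 ^ δ) v, ← Real.rpow_mul (by norm_num),
        mul_comm δ]
    rw [e1]
    refine e2.trans ?_
    have := tele b (y ^ δ) hb1 hz0
    refine this.trans (le_of_eq ?_)
    simp only [hΓ]
    rw [e3, pow_succ]
    ring_nf
  calc ∑ v ∈ Finset.range (q + 1), (2:ℝ) ^ (-(r * v)) * (t ^ (-r) * Th k v t)
      ≤ ∑ v ∈ Finset.range (q + 1), (2 * (1 + b) / (b - 1)) * (Γ (v + 1) - Γ v) :=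
        Finset.sum_le_sum (fun v _ => hterm v)
    _ = (2 * (1 + b) / (b - 1)) * (Γ (q + 1) - Γ 0) := by
        rw [← Finset.mul_sum, Finset.sum_range_sub]
    _ ≤ (2 * (1 + b) / (b - 1)) * 1 := by
        refine mul_le_mul_of_nonneg_left ?_ (by linarith)
        have h0 : 0 ≤ Γ 0 := by positivity
        have h1 : Γ (q + 1) ≤ 1 := by
          simp only [hΓ]
          rw [div_le_one (by positivity)]
          linarith
        linarith
    _ = _ := mul_one _

/-- the geometric sum -/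
theorem exists_sum_geom (r : ℝ) (hr : 0 < r) :
    ∃ C : ℝ, 1 ≤ C ∧ ∀ q : ℕ, ∑ v ∈ Finset.range (q + 1), (2:ℝ) ^ (-(r * v)) ≤ C := by
  set a : ℝ := 2 ^ (-r) with ha
  have ha0 : 0 < a := by positivity
  have ha1 : a < 1 := Real.rpow_lt_one_of_one_lt_of_neg (by norm_num) (by linarith)
  refine ⟨(1 - a)⁻¹, ?_, ?_⟩
  · rw [one_le_inv₀ (by linarith)]; linarith
  · intro q
    have : ∀ v : ℕ, (2:ℝ) ^ (-(r * v)) = a ^ v := by
      intro v
      rw [ha, ← Real.rpow_natCast, ← Real.rpow_mul (by norm_num)]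
      ring_nf
    simp_rw [this]
    calc ∑ v ∈ Finset.range (q + 1), a ^ v ≤ ∑' v, a ^ v :=
          (summable_geometric_of_lt_one ha0.le ha1).sum_le_tsum _ (fun _ _ => by positivity)
      _ = (1 - a)⁻¹ := tsum_geometric_of_lt_one ha0.le ha1

/-- the integral bound -/
theorem exists_lintegral_scale (k : ℕ) (r : ℝ) (hr : 0 < r) (hk : r < k) :
    ∃ C : ℝ, 1 ≤ C ∧ ∀ s : ℕ,
      ∫⁻ t in Ioo 0 (2 * Real.pi), ENNReal.ofReal (t ^ (-r - 1) * Th k s t)
        ≤ ENNReal.ofReal (C * 2 ^ (r * s)) := by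
  refine ⟨1 + 1 / (k - r) + 1 / r, ?_, ?_⟩
  · have : 0 < (k:ℝ) - r := by linarith
    have : 0 ≤ 1 / ((k:ℝ) - r) + 1 / r := by positivity
    linarith
  intro s
  set t0 : ℝ := (2:ℝ) ^ (-(s:ℝ)) with ht0
  have ht0' : 0 < t0 := by positivity
  have hkr : 0 < (k:ℝ) - r := by linarith
  have hsub : Ioo (0:ℝ) (2 * Real.pi) ⊆ Ioc 0 t0 ∪ Ioi t0 := by
    intro t ht
    rcases le_or_gt t t0 with h | h
    · exact Or.inl ⟨ht.1, h⟩
    · exact Or.inr h
  have h1 : ∫⁻ t in Ioc 0 t0, ENNReal.ofReal (t ^ (-r - 1) * Th k s t)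
      ≤ ENNReal.ofReal (2 ^ (r * s) / (k - r)) := by
    have hle : ∀ t ∈ Ioc 0 t0, ENNReal.ofReal (t ^ (-r - 1) * Th k s t)
        ≤ ENNReal.ofReal (2 ^ ((s:ℝ) * k) * t ^ ((k:ℝ) - r - 1)) := by
      intro t ht
      apply ENNReal.ofReal_le_ofReal
      have e : (2:ℝ) ^ ((s:ℝ) * k) * t ^ ((k:ℝ) - r - 1) = t ^ (-r - 1) * (2 ^ s * t) ^ k := by
        rw [mul_pow, ← Real.rpow_natCast 2 s, ← Real.rpow_natCast _ k, ← Real.rpow_mul (by norm_num),
          ← Real.rpow_natCast t k]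
        have : t ^ ((k:ℝ) - r - 1) = t ^ (-r - 1) * t ^ (k:ℝ) := by
          rw [← Real.rpow_add ht.1]; ring_nf
        rw [this]; ring
      rw [e]
      exact mul_le_mul_of_nonneg_left (min_le_right _ _) (Real.rpow_nonneg ht.1.le _)
    refine (setLIntegral_mono_ae (by fun_prop) (Filter.Eventually.of_forall hle)).trans ?_
    have hint : IntegrableOn (fun t : ℝ => 2 ^ ((s:ℝ) * k) * t ^ ((k:ℝ) - r - 1)) (Ioc 0 t0) := by
      have := (intervalIntegral.intervalIntegrable_rpow' (a := 0) (b := t0)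
        (r := (k:ℝ) - r - 1) (by linarith)).const_mul (2 ^ ((s:ℝ) * k))
      rwa [intervalIntegrable_iff_integrableOn_Ioc_of_le ht0'.le] at this
    rw [← ofReal_integral_eq_lintegral_ofReal hint
      ((ae_restrict_iff' measurableSet_Ioc).2 (Filter.Eventually.of_forall (fun t ht =>
        mul_nonneg (by positivity) (Real.rpow_nonneg ht.1.le _))))]
    apply ENNReal.ofReal_le_ofReal
    rw [← intervalIntegral.integral_of_le ht0'.le, intervalIntegral.integral_const_mul,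
      integral_rpow (Or.inl (by linarith))]
    rw [Real.zero_rpow (by linarith : (k:ℝ) - r - 1 + 1 ≠ 0), sub_zero]
    have e2 : (k:ℝ) - r - 1 + 1 = k - r := by ring
    rw [e2, ht0, ← Real.rpow_mul (by norm_num), ← mul_div_assoc, ← Real.rpow_add (by norm_num)]
    apply le_of_eq
    congr 2
    ring
  have h2 : ∫⁻ t in Ioi t0, ENNReal.ofReal (t ^ (-r - 1) * Th k s t)
      ≤ ENNReal.ofReal (2 ^ (r * s) / r) := by
    have hle : ∀ t ∈ Ioi t0, ENNReal.ofReal (t ^ (-r - 1) * Th k s t)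
        ≤ ENNReal.ofReal (t ^ (-r - 1)) := by
      intro t ht
      apply ENNReal.ofReal_le_ofReal
      have h0 : 0 < t := ht0'.trans ht
      calc t ^ (-r - 1) * Th k s t ≤ t ^ (-r - 1) * 1 :=
            mul_le_mul_of_nonneg_left (Th_le_one _ _ _) (Real.rpow_nonneg h0.le _)
        _ = _ := mul_one _
    refine (setLIntegral_mono_ae (by fun_prop) (Filter.Eventually.of_forall hle)).trans ?_
    have hint : IntegrableOn (fun t : ℝ => t ^ (-r - 1)) (Ioi t0) :=
      integrableOn_Ioi_rpow_of_lt (by linarith) ht0'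
    rw [← ofReal_integral_eq_lintegral_ofReal hint
      ((ae_restrict_iff' measurableSet_Ioi).2 (Filter.Eventually.of_forall (fun t ht =>
        (Real.rpow_nonneg (ht0'.trans ht).le _))))]
    apply ENNReal.ofReal_le_ofReal
    rw [integral_Ioi_rpow_of_lt (by linarith) ht0']
    have e2 : -r - 1 + 1 = -r := by ring
    rw [e2, ht0, ← Real.rpow_mul (by norm_num)]
    apply le_of_eq
    rw [neg_div_neg_eq]
    congr 2
    ring
  calc ∫⁻ t in Ioo 0 (2 * Real.pi), ENNReal.ofReal (t ^ (-r - 1) * Th k s t)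
      ≤ ∫⁻ t in Ioc 0 t0 ∪ Ioi t0, ENNReal.ofReal (t ^ (-r - 1) * Th k s t) :=
        lintegral_mono_set hsub
    _ ≤ (∫⁻ t in Ioc 0 t0, ENNReal.ofReal (t ^ (-r - 1) * Th k s t))
        + ∫⁻ t in Ioi t0, ENNReal.ofReal (t ^ (-r - 1) * Th k s t) := lintegral_union_le _ _ _
    _ ≤ ENNReal.ofReal (2 ^ (r * s) / (k - r)) + ENNReal.ofReal (2 ^ (r * s) / r) :=
        add_le_add h1 h2
    _ = ENNReal.ofReal (2 ^ (r * s) / (k - r) + 2 ^ (r * s) / r) :=
        (ENNReal.ofReal_add (by positivity) (by positivity)).symm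
    _ ≤ ENNReal.ofReal ((1 + 1 / (k - r) + 1 / r) * 2 ^ (r * s)) := by
        apply ENNReal.ofReal_le_ofReal
        have : (0:ℝ) < 2 ^ (r * s) := by positivity
        have e : (1 + 1 / (k - r) + 1 / r) * (2:ℝ) ^ (r * s)
            = 2 ^ (r * s) + (2 ^ (r * s) / (k - r) + 2 ^ (r * s) / r) := by ring
        rw [e]; linarith

end Pool.Agent.Helper218_SB
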