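import Pool.Agent.Helper218_SB.Defs

namespace Pool.Agent.Helper218_SB

open MeasureTheory Set
open scoped ENNReal

variable {𝕜 : Type} [RCLike 𝕜] {d : ℕ}

theorem mixedDiff_const_mul (k : ℕ) (e : Finset (Fin d)) (h : Fin d → ℝ) (a : 𝕜)
    (f : Torus d → 𝕜) : mixedDiff k e h (fun x => a * f x) = a • mixedDiff k e h f := by
  funext x
  simp only [mixedDiff, Pi.smul_apply, smul_eq_mul, Finset.mul_sum]
  refine Finset.sum_congr rfl (fun j _ => ?_)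
  ring

theorem mixedModulus_const_mul_le (k : ℕ) (e : Finset (Fin d)) (p : ℝ≥0∞) (a : 𝕜)
    (f : Torus d → 𝕜) (t : Fin d → ℝ) :
    mixedModulus k e p (fun x => a * f x) t ≤ ‖a‖ₑ * mixedModulus k e p f t := by
  unfold mixedModulus
  refine iSup₂_le (fun h hh => ?_)
  rw [mixedDiff_const_mul, eLpNorm_const_smul]
  refine mul_le_mul_right ?_ _
  exact le_iSup₂ (f := fun (h : Fin d → ℝ) (_ : ∀ i ∈ e, |h i| < t i) =>
    eLpNorm (mixedDiff k e h f) p volume) h hh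

theorem besovSemi_const_mul_le (k : ℕ) (r : ℝ) (p θ : ℝ≥0∞) (hθ : 1 ≤ θ) (e : Finset (Fin d))
    (a : 𝕜) (f : Torus d → 𝕜) :
    besovSemi k r p θ e (fun x => a * f x) ≤ ‖a‖ₑ * besovSemi k r p θ e f := by
  unfold besovSemi
  by_cases hθi : θ = ∞
  · simp only [hθi, if_true]
    refine iSup₂_le (fun t ht => ?_)
    calc (∏ i ∈ e, ENNReal.ofReal ((t i) ^ (-r))) * mixedModulus k e p (fun x => a * f x) t
        ≤ (∏ i ∈ e, ENNReal.ofReal ((t i) ^ (-r))) * (‖a‖ₑ * mixedModulus k e p f t) :=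
          mul_le_mul_right (mixedModulus_const_mul_le k e p a f t) _
      _ = ‖a‖ₑ * ((∏ i ∈ e, ENNReal.ofReal ((t i) ^ (-r))) * mixedModulus k e p f t) := by ring
      _ ≤ _ := by
        refine mul_le_mul_right ?_ _
        exact le_iSup₂ (f := fun (t : Fin d → ℝ) (_ : ∀ i, t i ∈ Set.Ioo 0 (2 * Real.pi)) =>
          (∏ i ∈ e, ENNReal.ofReal ((t i) ^ (-r))) * mixedModulus k e p f t) t ht
  · simp only [hθi, if_false]
    have hϑ : 1 ≤ θ.toReal := by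
      rw [← ENNReal.toReal_one]
      exact ENNReal.toReal_mono hθi hθ
    have hϑ0 : 0 < θ.toReal := by linarith
    set ϑ := θ.toReal with hϑdef
    have h1 : ∫⁻ t in Set.univ.pi (fun _ : Fin d => Set.Ioo 0 (2 * Real.pi)),
        mixedModulus k e p (fun x => a * f x) t ^ ϑ *
        ∏ i ∈ e, ENNReal.ofReal ((t i) ^ (-(ϑ * r) - 1))
        ≤ ‖a‖ₑ ^ ϑ * ∫⁻ t in Set.univ.pi (fun _ : Fin d => Set.Ioo 0 (2 * Real.pi)),
        mixedModulus k e p f t ^ ϑ *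
        ∏ i ∈ e, ENNReal.ofReal ((t i) ^ (-(ϑ * r) - 1)) := by
      rw [← lintegral_const_mul' _ _ (ENNReal.rpow_ne_top_of_nonneg hϑ0.le enorm_ne_top)]
      refine lintegral_mono (fun t => ?_)
      simp only
      rw [← mul_assoc, ← ENNReal.mul_rpow_of_nonneg _ _ hϑ0.le]
      exact mul_le_mul_left (ENNReal.rpow_le_rpow (mixedModulus_const_mul_le k e p a f t) hϑ0.le) _
    refine (ENNReal.rpow_le_rpow h1 (by positivity)).trans ?_
    rw [ENNReal.mul_rpow_of_nonneg _ _ (by positivity), ← ENNReal.rpow_mul,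
      mul_one_div_cancel hϑ0.ne', ENNReal.rpow_one]

theorem besovNorm_const_mul_le (k : ℕ) (r : ℝ) (p θ : ℝ≥0∞) (hθ : 1 ≤ θ)
    (a : 𝕜) (f : Torus d → 𝕜) :
    besovNorm k r p θ (fun x => a * f x) ≤ ‖a‖ₑ * besovNorm k r p θ f := by
  unfold besovNorm
  rw [Finset.mul_sum]
  exact Finset.sum_le_sum (fun e _ => besovSemi_const_mul_le k r p θ hθ e a f)

/-- If the sampling number is small, a real sampling operator recovers all real functions. -/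
theorem exists_of_samplingNumber_lt {k : ℕ} {r : ℝ} {p θ : ℝ≥0∞} (hθ : 1 ≤ θ) {m : ℕ}
    {δ : ℝ≥0∞} (h : samplingNumber m (besovClass 𝕜 d k r p θ) p < δ) :
    ∃ (x : Fin m → Torus d) (ψ : Fin m → Torus d → ℝ), (∀ j, Measurable (ψ j)) ∧
      (∀ j, MemLp (ψ j) p volume) ∧
      ∀ (K : ℝ) (f : Torus d → ℝ), 0 < K → Continuous f →
        besovNorm k r p θ (fun x => ((f x : ℝ) : 𝕜)) ≤ ENNReal.ofReal K →
        eLpNorm (fun y => f y - ∑ j, f (x j) * ψ j y) p volume ≤ ENNReal.ofReal K * δ := by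
  unfold samplingNumber at h
  simp only [iInf_lt_iff] at h
  obtain ⟨x, ψ₀, hψ₀, h⟩ := h
  have hm : ∀ j, Measurable (fun y => RCLike.re ((hψ₀ j).1.mk (ψ₀ j) y)) := fun j =>
    RCLike.measurable_re.comp (hψ₀ j).1.stronglyMeasurable_mk.measurable
  have hL : ∀ j, MemLp (fun y => RCLike.re ((hψ₀ j).1.mk (ψ₀ j) y)) p volume := fun j =>
    ((memLp_congr_ae (hψ₀ j).1.ae_eq_mk).1 (hψ₀ j)).re
  refine ⟨x, fun j y => RCLike.re ((hψ₀ j).1.mk (ψ₀ j) y), hm, hL, ?_⟩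
  intro K f hK hf hfK
  set F : Torus d → 𝕜 := fun y => ((K⁻¹ : ℝ) : 𝕜) * ((f y : ℝ) : 𝕜) with hF
  have hFc : F ∈ besovClass 𝕜 d k r p θ := by
    refine ⟨continuous_const.mul (RCLike.continuous_ofReal.comp hf), ?_⟩
    refine (besovNorm_const_mul_le k r p θ hθ _ _).trans ?_
    calc ‖((K⁻¹ : ℝ) : 𝕜)‖ₑ * besovNorm k r p θ (fun x => ((f x : ℝ) : 𝕜))
        ≤ ‖((K⁻¹ : ℝ) : 𝕜)‖ₑ * ENNReal.ofReal K := mul_le_mul_right hfK _
      _ = 1 := by
        have e1 : ‖((K⁻¹ : ℝ) : 𝕜)‖ₑ = ENNReal.ofReal K⁻¹ := by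
          rw [← ofReal_norm, RCLike.norm_ofReal, abs_of_pos (inv_pos.2 hK)]
        rw [e1, ← ENNReal.ofReal_mul (inv_pos.2 hK).le, inv_mul_cancel₀ hK.ne', ENNReal.ofReal_one]
      _ ≤ 1 := le_refl _
  have h1 : eLpNorm (fun y => F y - ∑ j, F (x j) * ψ₀ j y) p volume ≤ δ :=
    (le_iSup₂ (f := fun (f : Torus d → 𝕜) (_ : f ∈ besovClass 𝕜 d k r p θ) =>
      eLpNorm (fun y => f y - ∑ j, f (x j) * ψ₀ j y) p volume) F hFc).trans h.le
  have hae : ∀ᵐ y ∂(volume : Measure (Torus d)), ∀ j, ψ₀ j y = (hψ₀ j).1.mk (ψ₀ j) y := by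
    rw [ae_all_iff]
    exact fun j => (hψ₀ j).1.ae_eq_mk
  have h2 : eLpNorm (fun y => f y - ∑ j, f (x j) * RCLike.re ((hψ₀ j).1.mk (ψ₀ j) y)) p volume
      ≤ eLpNorm (((K : ℝ) : 𝕜) • (fun y => F y - ∑ j, F (x j) * ψ₀ j y)) p volume := by
    refine eLpNorm_mono_ae ?_
    filter_upwards [hae] with y hy
    have e2 : (((K : ℝ) : 𝕜) • (fun y => F y - ∑ j, F (x j) * ψ₀ j y)) y
        = ((f y : ℝ) : 𝕜) - ∑ j, ((f (x j) : ℝ) : 𝕜) * ψ₀ j y := by
      have hKK : ((K : ℝ) : 𝕜) * ((K⁻¹ : ℝ) : 𝕜) = 1 := by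
        rw [← RCLike.ofReal_mul, mul_inv_cancel₀ hK.ne', RCLike.ofReal_one]
      simp only [Pi.smul_apply, smul_eq_mul, hF, mul_sub, Finset.mul_sum]
      congr 1
      · rw [← mul_assoc, hKK, one_mul]
      · refine Finset.sum_congr rfl (fun j _ => ?_)
        rw [← mul_assoc, ← mul_assoc, hKK, one_mul]
    rw [e2]
    have e3 : f y - ∑ j, f (x j) * RCLike.re ((hψ₀ j).1.mk (ψ₀ j) y)
        = RCLike.re (((f y : ℝ) : 𝕜) - ∑ j, ((f (x j) : ℝ) : 𝕜) * ψ₀ j y) := by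
      rw [map_sub, RCLike.ofReal_re, map_sum]
      congr 1
      refine Finset.sum_congr rfl (fun j _ => ?_)
      rw [RCLike.re_ofReal_mul, hy j]
    rw [e3, Real.norm_eq_abs]
    exact RCLike.abs_re_le_norm _
  refine h2.trans ?_
  rw [eLpNorm_const_smul]
  have e4 : ‖((K : ℝ) : 𝕜)‖ₑ = ENNReal.ofReal K := by
    rw [← ofReal_norm, RCLike.norm_ofReal, abs_of_pos hK]
  rw [e4]
  exact mul_le_mul_right h1 _

end Pool.Agent.Helper218_SB
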