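import Pool.Agent.Helper218_SB.Family
import Pool.Agent.Helper218_SB.Numeric

namespace Pool.Agent.Helper218_SB

open MeasureTheory Set
open scoped ENNReal

section general

variable {d : ℕ}

/-- shift vector -/
noncomputable def shv (h : Fin d → ℝ) (j : Fin d → ℕ) : Torus d :=
  fun i => (((j i : ℝ) * h i : ℝ) : AddCircle (2 * Real.pi))

/-- index set of the mixed difference -/
def jset (k : ℕ) (e : Finset (Fin d)) : Finset (Fin d → ℕ) :=
  Fintype.piFinset (fun i => if i ∈ e then Finset.range (k + 1) else {0})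

theorem mixedDiff_ofReal {𝕜 : Type} [RCLike 𝕜] (k : ℕ) (e : Finset (Fin d)) (h : Fin d → ℝ)
    (f : Torus d → ℝ) (x : Torus d) :
    mixedDiff k e h (fun y => ((f y : ℝ) : 𝕜)) x = ((mixedDiff k e h f x : ℝ) : 𝕜) := by
  simp only [mixedDiff]
  push_cast
  rfl

theorem mixedDiff_phi (k : ℕ) (e : Finset (Fin d)) (h : Fin d → ℝ) (s : Fin d → ℕ)
    (c x : Torus d) :
    mixedDiff k e h (phi s c) x = ∏ i, (if i ∈ e then diff1 k (phi1 (s i))
      (fun j => (x i - c i) + (((j : ℝ) * h i : ℝ) : AddCircle (2 * Real.pi)))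
      else phi1 (s i) (x i - c i)) := by
  classical
  have h1 : ∀ j ∈ jset k e,
      (∏ i ∈ e, (-1 : ℝ) ^ (k - j i) * (k.choose (j i) : ℝ)) * phi s c (x + shv h j)
      = ∏ i, ((if i ∈ e then (-1 : ℝ) ^ (k - j i) * (k.choose (j i) : ℝ) else 1) *
        phi1 (s i) (x i + (((j i : ℝ) * h i : ℝ) : AddCircle (2 * Real.pi)) - c i)) := by
    intro j _
    symm
    rw [Finset.prod_mul_distrib, Finset.prod_ite_mem, Finset.univ_inter]
    rfl
  have h2 : mixedDiff k e h (phi s c) x = ∑ j ∈ jset k e,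
      (∏ i ∈ e, (-1 : ℝ) ^ (k - j i) * (k.choose (j i) : ℝ)) * phi s c (x + shv h j) := rfl
  rw [h2, Finset.sum_congr rfl h1]
  unfold jset
  rw [← Finset.prod_univ_sum (t := fun i => if i ∈ e then Finset.range (k + 1) else {0})
    (f := fun i j => ((if i ∈ e then (-1 : ℝ) ^ (k - j) * (k.choose j : ℝ) else 1) *
        phi1 (s i) (x i + (((j : ℝ) * h i : ℝ) : AddCircle (2 * Real.pi)) - c i)))]
  refine Finset.prod_congr rfl (fun i _ => ?_)
  by_cases hi : i ∈ e
  · simp only [hi, if_true, diff1]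
    refine Finset.sum_congr rfl (fun j _ => ?_)
    congr 2
    abel
  · simp [hi]

/-- pointwise bound for mixed differences of a bump -/
theorem abs_mixedDiff_phi_le {k : ℕ} {C : ℝ} (hC1 : 1 ≤ C)
    (hC : ∀ (s : ℕ) (y : AddCircle (2 * Real.pi)) (h : ℝ),
      |diff1 k (phi1 s) (fun j => y + (((j : ℝ) * h : ℝ) : AddCircle (2 * Real.pi)))|
      ≤ C * min 1 ((2 ^ s * |h|) ^ k))
    (e : Finset (Fin d)) (h : Fin d → ℝ) (s : Fin d → ℕ) (c x : Torus d) :
    |mixedDiff k e h (phi s c) x| ≤ C ^ d * (∏ i ∈ e, Th k (s i) |h i|) *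
      ∑ j ∈ jset k e, (box s c).indicator (fun _ => (1:ℝ)) (x + shv h j) := by
  classical
  have hC0 : 0 ≤ C := by linarith
  have hTh : 0 ≤ ∏ i ∈ e, Th k (s i) |h i| :=
    Finset.prod_nonneg (fun i _ => Th_nonneg _ _ (abs_nonneg _))
  by_cases hex : ∃ j ∈ jset k e, x + shv h j ∈ box s c
  · obtain ⟨j0, hj0, hx0⟩ := hex
    have h1 : (1:ℝ) ≤ ∑ j ∈ jset k e, (box s c).indicator (fun _ => (1:ℝ)) (x + shv h j) := by
      calc (1:ℝ) = (box s c).indicator (fun _ => (1:ℝ)) (x + shv h j0) := by simp [hx0]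
        _ ≤ _ := Finset.single_le_sum
          (f := fun j => (box s c).indicator (fun _ => (1:ℝ)) (x + shv h j))
          (fun j _ => Set.indicator_nonneg (fun _ _ => zero_le_one) _) hj0
    have h2 : |mixedDiff k e h (phi s c) x| ≤ C ^ d * (∏ i ∈ e, Th k (s i) |h i|) := by
      rw [mixedDiff_phi, Finset.abs_prod]
      calc ∏ i, |if i ∈ e then diff1 k (phi1 (s i))
            (fun j => (x i - c i) + (((j : ℝ) * h i : ℝ) : AddCircle (2 * Real.pi)))
            else phi1 (s i) (x i - c i)|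
          ≤ ∏ i, (C * (if i ∈ e then Th k (s i) |h i| else 1)) := by
            refine Finset.prod_le_prod (fun _ _ => abs_nonneg _) (fun i _ => ?_)
            by_cases hi : i ∈ e
            · simp only [hi, if_true]
              exact hC (s i) (x i - c i) (h i)
            · simp only [hi, if_false, mul_one]
              exact (phi1_abs_le_one _ _).trans hC1
        _ = C ^ d * (∏ i ∈ e, Th k (s i) |h i|) := by
            rw [Finset.prod_mul_distrib, Finset.prod_ite_mem, Finset.univ_inter]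
            simp
    calc |mixedDiff k e h (phi s c) x| ≤ C ^ d * (∏ i ∈ e, Th k (s i) |h i|) * 1 := by
          rw [mul_one]; exact h2
      _ ≤ _ := mul_le_mul_of_nonneg_left h1 (by positivity)
  · push Not at hex
    have h0 : mixedDiff k e h (phi s c) x = 0 := by
      have h2 : mixedDiff k e h (phi s c) x = ∑ j ∈ jset k e,
        (∏ i ∈ e, (-1 : ℝ) ^ (k - j i) * (k.choose (j i) : ℝ)) * phi s c (x + shv h j) := rfl
      rw [h2]
      refine Finset.sum_eq_zero (fun j hj => ?_)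
      rw [phi_zero s c _ (hex j hj), mul_zero]
    rw [h0, abs_zero]
    refine mul_nonneg (by positivity) (Finset.sum_nonneg (fun j _ =>
      Set.indicator_nonneg (fun _ _ => zero_le_one) _))

theorem card_jset_le (k : ℕ) (e : Finset (Fin d)) : (jset k e).card ≤ (k + 1) ^ d := by
  unfold jset
  rw [Fintype.card_piFinset]
  calc ∏ i, (if i ∈ e then Finset.range (k + 1) else {0}).card ≤ ∏ _i : Fin d, (k + 1) := by
        refine Finset.prod_le_prod' (fun i _ => ?_)
        by_cases hi : i ∈ e <;> simp [hi]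
    _ = (k + 1) ^ d := by simp

/-- translation invariance -/
theorem eLpNorm_comp_add {E : Type*} [NormedAddCommGroup E] (p : ℝ≥0∞) (g : Torus d → E)
    (hg : AEStronglyMeasurable g volume) (v : Torus d) :
    eLpNorm (fun x => g (x + v)) p volume = eLpNorm g p volume :=
  eLpNorm_comp_measurePreserving hg (measurePreserving_add_right volume v)

end general

variable {d' q : ℕ}

/-- the test function with coefficients `c` -/
noncomputable def tf (q : ℕ) (c : Idx d' q → ℝ) (x : Torus (d' + 1)) : ℝ :=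
  ∑ i, c i * phi (shp q i.1) (cen i) x

theorem tf_continuous (c : Idx d' q → ℝ) : Continuous (tf q c) :=
  continuous_finsetSum _ (fun i _ => continuous_const.mul (phi_continuous _ _))

theorem mixedDiff_tf (k : ℕ) (e : Finset (Fin (d' + 1))) (h : Fin (d' + 1) → ℝ)
    (c : Idx d' q → ℝ) (x : Torus (d' + 1)) :
    mixedDiff k e h (tf q c) x = ∑ i, c i * mixedDiff k e h (phi (shp q i.1) (cen i)) x := by
  simp only [mixedDiff, tf, Finset.mul_sum]
  rw [Finset.sum_comm]
  refine Finset.sum_congr rfl (fun i _ => Finset.sum_congr rfl (fun j _ => ?_))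
  ring

/-- the majorant in one shape -/
noncomputable def Wf (c : Idx d' q → ℝ) (a : Fin d' → Fin (q + 1)) (x : Torus (d' + 1)) : ℝ :=
  ∑ l : ((i : Fin (d' + 1)) → Fin (2 ^ shp q a i)),
    |c ⟨a, l⟩| * (box (shp q a) (cen ⟨a, l⟩)).indicator (fun _ => (1:ℝ)) x

theorem Wf_measurable (c : Idx d' q → ℝ) (a : Fin d' → Fin (q + 1)) : Measurable (Wf c a) :=
  Finset.measurable_sum _ (fun _ _ => measurable_const.mul
    (measurable_const.indicator (measurableSet_box _ _)))

theorem eLpNorm_mixedDiff_tf_le {k : ℕ} {C : ℝ} (hC1 : 1 ≤ C)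
    (hC : ∀ (s : ℕ) (y : AddCircle (2 * Real.pi)) (h : ℝ),
      |diff1 k (phi1 s) (fun j => y + (((j : ℝ) * h : ℝ) : AddCircle (2 * Real.pi)))|
      ≤ C * min 1 ((2 ^ s * |h|) ^ k))
    (p : ℝ≥0∞) (hp : 1 ≤ p) (c : Idx d' q → ℝ) (hc : ∀ a, eLpNorm (Wf c a) p volume ≤ 1)
    (e : Finset (Fin (d' + 1))) (h : Fin (d' + 1) → ℝ) :
    eLpNorm (mixedDiff k e h (tf q c)) p volume ≤
      ENNReal.ofReal ((C ^ (d' + 1) * (k + 1) ^ (d' + 1)) *
        ∑ a : Fin d' → Fin (q + 1), ∏ i ∈ e, Th k (shp q a i) |h i|) := by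
  classical
  have hC0 : 0 ≤ C := by linarith
  set T : (Fin d' → Fin (q + 1)) → ℝ := fun a => ∏ i ∈ e, Th k (shp q a i) |h i| with hT
  have hT0 : ∀ a, 0 ≤ T a := fun a =>
    Finset.prod_nonneg (fun i _ => Th_nonneg _ _ (abs_nonneg _))
  set Dm : Torus (d' + 1) → ℝ := fun x => ∑ a, (C ^ (d' + 1) * T a) *
    ∑ j ∈ jset k e, Wf c a (x + shv h j) with hDm
  have hpt : ∀ x, ‖mixedDiff k e h (tf q c) x‖ ≤ Dm x := by
    intro x
    rw [Real.norm_eq_abs, mixedDiff_tf, Fintype.sum_sigma]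
    refine (Finset.abs_sum_le_sum_abs _ _).trans (Finset.sum_le_sum (fun a _ => ?_))
    refine (Finset.abs_sum_le_sum_abs _ _).trans ?_
    calc ∑ l : ((i : Fin (d' + 1)) → Fin (2 ^ shp q a i)),
          |c ⟨a, l⟩ * mixedDiff k e h (phi (shp q a) (cen ⟨a, l⟩)) x|
        ≤ ∑ l : ((i : Fin (d' + 1)) → Fin (2 ^ shp q a i)), |c ⟨a, l⟩| *
          (C ^ (d' + 1) * T a *
            ∑ j ∈ jset k e, (box (shp q a) (cen ⟨a, l⟩)).indicator (fun _ => (1:ℝ)) (x + shv h j)) := by
          refine Finset.sum_le_sum (fun l _ => ?_)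
          rw [abs_mul]
          exact mul_le_mul_of_nonneg_left (abs_mixedDiff_phi_le hC1 hC e h (shp q a) _ x)
            (abs_nonneg _)
      _ = C ^ (d' + 1) * T a * ∑ j ∈ jset k e, Wf c a (x + shv h j) := by
          simp only [Wf]
          rw [Finset.sum_comm, Finset.mul_sum]
          refine Finset.sum_congr rfl (fun l _ => ?_)
          rw [← Finset.mul_sum]
          ring
  refine (eLpNorm_mono_real hpt).trans ?_
  have hWm : ∀ a j, AEStronglyMeasurable (fun x => Wf c a (x + shv h j)) volume := fun a j =>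
    ((Wf_measurable c a).comp (measurable_id.add_const _)).aestronglyMeasurable
  have h1 : eLpNorm Dm p volume ≤ ∑ a, eLpNorm (fun x => (C ^ (d' + 1) * T a) *
    ∑ j ∈ jset k e, Wf c a (x + shv h j)) p volume := by
    have e1 : Dm = ∑ a, (fun x => (C ^ (d' + 1) * T a) *
      ∑ j ∈ jset k e, Wf c a (x + shv h j)) := by
      funext x; simp [hDm, Finset.sum_apply]
    rw [e1]
    refine eLpNorm_sum_le (fun a _ => ?_) hp
    refine AEStronglyMeasurable.const_mul ?_ _
    have : (fun x => ∑ j ∈ jset k e, Wf c a (x + shv h j))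
        = ∑ j ∈ jset k e, (fun x => Wf c a (x + shv h j)) := by
      funext x; simp [Finset.sum_apply]
    rw [this]
    exact Finset.aestronglyMeasurable_sum _ (fun j _ => hWm a j)
  refine h1.trans ?_
  have h2 : ∀ a, eLpNorm (fun x => (C ^ (d' + 1) * T a) *
    ∑ j ∈ jset k e, Wf c a (x + shv h j)) p volume
      ≤ ENNReal.ofReal ((C ^ (d' + 1) * (k + 1) ^ (d' + 1)) * T a) := by
    intro a
    have e2 : (fun x => (C ^ (d' + 1) * T a) * ∑ j ∈ jset k e, Wf c a (x + shv h j))
        = (C ^ (d' + 1) * T a) • ∑ j ∈ jset k e, (fun x => Wf c a (x + shv h j)) := by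
      funext x; simp [Finset.sum_apply]
    rw [e2, eLpNorm_const_smul]
    have h3 : eLpNorm (∑ j ∈ jset k e, (fun x => Wf c a (x + shv h j))) p volume
        ≤ ((k + 1 : ℕ) ^ (d' + 1) : ℕ) := by
      refine (eLpNorm_sum_le (fun j _ => hWm a j) hp).trans ?_
      calc ∑ j ∈ jset k e, eLpNorm (fun x => Wf c a (x + shv h j)) p volume
          ≤ ∑ _j ∈ jset k e, (1:ℝ≥0∞) := by
            refine Finset.sum_le_sum (fun j _ => ?_)
            rw [eLpNorm_comp_add p (Wf c a) (Wf_measurable c a).aestronglyMeasurable]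
            exact hc a
        _ = ((jset k e).card : ℝ≥0∞) := by simp
        _ ≤ _ := by exact_mod_cast card_jset_le k e
    have e3 : ‖(C ^ (d' + 1) * T a)‖ₑ = ENNReal.ofReal (C ^ (d' + 1) * T a) :=
      Real.enorm_of_nonneg (mul_nonneg (by positivity) (hT0 a))
    rw [e3]
    calc ENNReal.ofReal (C ^ (d' + 1) * T a) * eLpNorm (∑ j ∈ jset k e, (fun x => Wf c a (x + shv h j))) p volume
        ≤ ENNReal.ofReal (C ^ (d' + 1) * T a) * ((k + 1 : ℕ) ^ (d' + 1) : ℕ) :=
          mul_le_mul_right h3 _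
      _ = ENNReal.ofReal (C ^ (d' + 1) * T a) * ENNReal.ofReal (((k + 1 : ℕ) ^ (d' + 1) : ℕ) : ℝ) := by
          rw [ENNReal.ofReal_natCast]
      _ = ENNReal.ofReal ((C ^ (d' + 1) * (k + 1) ^ (d' + 1)) * T a) := by
          rw [← ENNReal.ofReal_mul (mul_nonneg (by positivity) (hT0 a))]
          congr 1
          push_cast
          ring
  calc ∑ a, eLpNorm (fun x => (C ^ (d' + 1) * T a) *
        ∑ j ∈ jset k e, Wf c a (x + shv h j)) p volume
      ≤ ∑ a, ENNReal.ofReal ((C ^ (d' + 1) * (k + 1) ^ (d' + 1)) * T a) :=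
        Finset.sum_le_sum (fun a _ => h2 a)
    _ = ENNReal.ofReal (∑ a, (C ^ (d' + 1) * (k + 1) ^ (d' + 1)) * T a) := by
        rw [ENNReal.ofReal_sum_of_nonneg (fun a _ => mul_nonneg (by positivity) (hT0 a))]
    _ = _ := by rw [Finset.mul_sum]

end Pool.Agent.Helper218_SB
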