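import Mathlib

namespace Pool.Agent.Helper218_SB

/-- Trace versus rank: if a square matrix `A` factors through `ℝ^m`, then
`(tr A)² ≤ m ‖A‖²_HS`. -/
theorem sq_trace_le {ι : Type*} [Fintype ι] [DecidableEq ι] {m : ℕ}
    (P : ι → Fin m → ℝ) (Q : Fin m → ι → ℝ) :
    (∑ i, ∑ l, P i l * Q l i) ^ 2 ≤ m * ∑ i, ∑ j, (∑ l, P i l * Q l j) ^ 2 := by
  classical
  set p : Fin m → EuclideanSpace ℝ ι := fun l => WithLp.toLp 2 (fun i => P i l) with hp
  set W : Submodule ℝ (EuclideanSpace ℝ ι) := Submodule.span ℝ (Set.range p) with hW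
  have hfin : Module.finrank ℝ W ≤ m := by
    have := finrank_range_le_card (R := ℝ) p
    simpa [Set.finrank] using this
  set b := stdOrthonormalBasis ℝ W with hb
  -- the columns
  set v : ι → EuclideanSpace ℝ ι := fun j => ∑ l, Q l j • p l with hv
  have hvW : ∀ j, v j ∈ W := fun j => by
    refine Submodule.sum_mem _ (fun l _ => Submodule.smul_mem _ _ (Submodule.subset_span ⟨l, rfl⟩))
  have hvi : ∀ i j, (v j) i = ∑ l, P i l * Q l j := fun i j => by
    simp [hv, hp, mul_comm]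
  have hexp : ∀ j, v j = ∑ a, inner ℝ ((b a : W) : EuclideanSpace ℝ ι) (v j) • ((b a : W) : EuclideanSpace ℝ ι) := by
    intro j
    have h := b.sum_repr' ⟨v j, hvW j⟩
    have h2 := congrArg (Subtype.val) h
    rw [Submodule.coe_sum] at h2
    exact h2.symm
  have htr : ∑ i, ∑ l, P i l * Q l i = ∑ i, ∑ a, inner ℝ ((b a : W) : EuclideanSpace ℝ ι) (v i) * ((b a : W) : EuclideanSpace ℝ ι) i := by
    refine Finset.sum_congr rfl (fun i _ => ?_)
    rw [← hvi i i]
    conv_lhs => rw [hexp i]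
    simp
  rw [htr]
  rw [← Finset.sum_product']
  refine (Finset.sum_mul_sq_le_sq_mul_sq _ _ _).trans ?_
  rw [Finset.sum_product, Finset.sum_product]
  have h1 : ∑ i : ι, ∑ a, (inner ℝ ((b a : W) : EuclideanSpace ℝ ι) (v i)) ^ 2 = ∑ i, ∑ j, (∑ l, P i l * Q l j) ^ 2 := by
    rw [Finset.sum_comm (f := fun i j => (∑ l, P i l * Q l j) ^ 2)]
    refine Finset.sum_congr rfl (fun j _ => ?_)
    have h := b.sum_sq_norm_inner_right ⟨v j, hvW j⟩
    simp only [Submodule.coe_inner, Real.norm_eq_abs, sq_abs] at h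
    rw [h]
    rw [Submodule.coe_norm, EuclideanSpace.norm_sq_eq]
    simp only [Real.norm_eq_abs, sq_abs]
    refine Finset.sum_congr rfl (fun i _ => ?_)
    rw [hvi]
  have h2 : ∑ i : ι, ∑ a, (((b a : W) : EuclideanSpace ℝ ι) i) ^ 2 = (Module.finrank ℝ W : ℝ) := by
    rw [Finset.sum_comm]
    have : ∀ a, ∑ i : ι, (((b a : W) : EuclideanSpace ℝ ι) i) ^ 2 = 1 := by
      intro a
      have h := b.orthonormal.1 a
      have h' : ‖((b a : W) : EuclideanSpace ℝ ι)‖ ^ 2 = 1 := by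
        rw [← Submodule.coe_norm, h]; norm_num
      rw [EuclideanSpace.norm_sq_eq] at h'
      simpa [Real.norm_eq_abs, sq_abs] using h'
    simp [this]
  simp only at h1 h2 ⊢
  rw [h1, h2, mul_comm]
  refine mul_le_mul_of_nonneg_right (by exact_mod_cast hfin) (by positivity)

end Pool.Agent.Helper218_SB
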