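import Pool.Agent.Helper218_SB.UMain

namespace Pool.Agent.Helper218_SB

open MeasureTheory Set
open scoped ENNReal

variable {d : ℕ}

theorem mixedModulus_mono {𝕜 : Type} [RCLike 𝕜] (k : ℕ) (e : Finset (Fin d)) (p : ℝ≥0∞)
    (f : Torus d → 𝕜) {t t' : Fin d → ℝ} (h : ∀ i ∈ e, t i ≤ t' i) :
    mixedModulus k e p f t ≤ mixedModulus k e p f t' := by
  unfold mixedModulus
  refine iSup₂_le (fun v hv => ?_)
  exact le_iSup₂ (f := fun (h : Fin d → ℝ) (_ : ∀ i ∈ e, |h i| < t' i) =>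
    eLpNorm (mixedDiff k e h f) p volume) v (fun i hi => (hv i hi).trans_le (h i hi))

/-- dyadic box in the parameter space -/
def Bu (u : Fin d → ℕ) : Set (Fin d → ℝ) :=
  Set.univ.pi (fun i => Set.Ioo ((1/2:ℝ) ^ (u i)) (2 * (1/2) ^ (u i)))

theorem measurableSet_Bu (u : Fin d → ℕ) : MeasurableSet (Bu u) :=
  MeasurableSet.univ_pi (fun _ => measurableSet_Ioo)

theorem Bu_subset (u : Fin d → ℕ) :
    Bu u ⊆ Set.univ.pi (fun _ : Fin d => Set.Ioo 0 (2 * Real.pi)) := by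
  intro t ht i hi
  have h := ht i hi
  have hpi := Real.pi_gt_three
  have h1 : (0:ℝ) < (1/2) ^ (u i) := by positivity
  have h2 : (1/2:ℝ) ^ (u i) ≤ 1 := half_pow_le _
  exact ⟨h1.trans h.1, by linarith [h.2]⟩

theorem Bu_disjoint : Pairwise (Function.onFun Disjoint (Bu (d := d))) := by
  intro u v huv
  obtain ⟨i, hi⟩ : ∃ i, u i ≠ v i := by
    by_contra hcon
    push Not at hcon
    exact huv (funext hcon)
  show Disjoint (Bu u) (Bu v)
  rw [Set.disjoint_left]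
  intro t htu htv
  have h1 := htu i (mem_univ i)
  have h2 := htv i (mem_univ i)
  have key : ∀ a b : ℕ, a < b → 2 * (1/2:ℝ) ^ b ≤ (1/2) ^ a := by
    intro a b hab
    have : (1/2:ℝ) ^ b ≤ (1/2) ^ (a + 1) := pow_le_pow_of_le_one (by norm_num) (by norm_num) hab
    rw [pow_succ] at this
    linarith
  rcases Nat.lt_or_gt_of_ne hi with h | h
  · have := key _ _ h
    linarith [h1.1, h2.2]
  · have := key _ _ h
    linarith [h2.1, h1.2]

theorem volume_Bu (u : Fin d → ℕ) : volume (Bu u) = ENNReal.ofReal (∏ i, (1/2:ℝ) ^ (u i)) := by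
  unfold Bu
  rw [volume_pi_pi, ENNReal.ofReal_prod_of_nonneg (fun i _ => by positivity)]
  refine Finset.prod_congr rfl (fun i _ => ?_)
  rw [Real.volume_Ioo]
  congr 1
  ring

/-- Discretisation of the Besov seminorms, `θ < ∞`. -/
theorem tsum_modulus_le {𝕜 : Type} [RCLike 𝕜] (k : ℕ) (r : ℝ) (hr : 0 < r) (p : ℝ≥0∞)
    (ϑ : ℝ) (hϑ : 1 ≤ ϑ) (f : Torus d → 𝕜) :
    ∑' u : Fin d → ℕ, (ENNReal.ofReal (∏ i, (2:ℝ) ^ (r * u i)) *
      mixedModulus k (supp u) p f (fun i => (1/2) ^ (u i))) ^ ϑ ≤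
    ENNReal.ofReal ((2 ^ (ϑ * r + 1)) ^ d) * ∑ e : Finset (Fin d),
      ∫⁻ t in Set.univ.pi (fun _ : Fin d => Set.Ioo 0 (2 * Real.pi)),
        mixedModulus k e p f t ^ ϑ * ∏ i ∈ e, ENNReal.ofReal ((t i) ^ (-(ϑ * r) - 1)) := by
  classical
  have hϑ0 : 0 < ϑ := by linarith
  set I : Finset (Fin d) → (Fin d → ℝ) → ℝ≥0∞ := fun e t =>
    mixedModulus k e p f t ^ ϑ * ∏ i ∈ e, ENNReal.ofReal ((t i) ^ (-(ϑ * r) - 1)) with hI
  have h1 : ∀ u : Fin d → ℕ, (ENNReal.ofReal (∏ i, (2:ℝ) ^ (r * u i)) *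
      mixedModulus k (supp u) p f (fun i => (1/2) ^ (u i))) ^ ϑ ≤
      ENNReal.ofReal ((2 ^ (ϑ * r + 1)) ^ d) * ∫⁻ t in Bu u, I (supp u) t := by
    intro u
    set W := mixedModulus k (supp u) p f (fun i => (1/2) ^ (u i)) with hW
    have h2 : ∀ t ∈ Bu u, W ^ ϑ * ∏ i ∈ supp u,
        ENNReal.ofReal ((2 * (1/2:ℝ) ^ (u i)) ^ (-(ϑ * r) - 1)) ≤ I (supp u) t := by
      intro t ht
      refine mul_le_mul' (ENNReal.rpow_le_rpow ?_ hϑ0.le) (Finset.prod_le_prod' (fun i _ => ?_))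
      · exact mixedModulus_mono k _ p f (fun i _ => (ht i (mem_univ i)).1.le)
      · apply ENNReal.ofReal_le_ofReal
        have h3 := ht i (mem_univ i)
        have h4 : (0:ℝ) < (1/2) ^ (u i) := by positivity
        exact Real.rpow_le_rpow_of_nonpos (h4.trans h3.1) h3.2.le (by nlinarith)
    have h5 : (W ^ ϑ * ∏ i ∈ supp u, ENNReal.ofReal ((2 * (1/2:ℝ) ^ (u i)) ^ (-(ϑ * r) - 1))) *
        volume (Bu u) ≤ ∫⁻ t in Bu u, I (supp u) t := by
      rw [← setLIntegral_const]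
      exact setLIntegral_mono' (measurableSet_Bu u) h2
    refine le_trans ?_ (mul_le_mul_right h5 _)
    rw [ENNReal.mul_rpow_of_nonneg _ _ hϑ0.le, volume_Bu,
      ENNReal.ofReal_rpow_of_nonneg (Finset.prod_nonneg (fun i _ => by positivity)) hϑ0.le,
      ← ENNReal.ofReal_prod_of_nonneg (fun i _ => by positivity)]
    set A : ℝ := ∏ i ∈ supp u, (2 * (1/2:ℝ) ^ (u i)) ^ (-(ϑ * r) - 1) with hA
    have hA0 : 0 ≤ A := Finset.prod_nonneg (fun i _ => by positivity)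
    have e1 : ENNReal.ofReal ((2 ^ (ϑ * r + 1)) ^ d) * (W ^ ϑ * ENNReal.ofReal A *
        ENNReal.ofReal (∏ i, (1/2:ℝ) ^ (u i)))
        = ENNReal.ofReal ((2 ^ (ϑ * r + 1)) ^ d * A * ∏ i, (1/2:ℝ) ^ (u i)) * W ^ ϑ := by
      rw [ENNReal.ofReal_mul (by positivity), ENNReal.ofReal_mul (by positivity)]
      ring
    rw [e1]
    refine mul_le_mul_left (ENNReal.ofReal_le_ofReal ?_) _
    -- real inequality
    have e2 : A = ∏ i, (if i ∈ supp u then (2 * (1/2:ℝ) ^ (u i)) ^ (-(ϑ * r) - 1) else 1) := by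
      rw [hA, Finset.prod_ite_mem, Finset.univ_inter]
    have e3 : (2 ^ (ϑ * r + 1)) ^ d = ∏ _i : Fin d, (2:ℝ) ^ (ϑ * r + 1) := by simp
    rw [e2, e3, ← Finset.prod_mul_distrib, ← Finset.prod_mul_distrib,
      ← Real.finsetProd_rpow _ _ (fun i _ => by positivity)]
    refine Finset.prod_le_prod (fun i _ => by positivity) (fun i _ => ?_)
    have hbase : (1/2:ℝ) ^ (u i) = (2:ℝ) ^ (-(u i : ℝ)) := by
      rw [Real.rpow_neg (by norm_num), Real.rpow_natCast, div_pow, one_pow, one_div]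
    by_cases hi : i ∈ supp u
    · simp only [hi, if_true]
      have h6 : (2 * (1/2:ℝ) ^ (u i)) = (2:ℝ) ^ (1 - (u i : ℝ)) := by
        rw [hbase, Real.rpow_sub (by norm_num), Real.rpow_one, Real.rpow_neg (by norm_num)]
        ring
      rw [h6, hbase, ← Real.rpow_mul (by norm_num), ← Real.rpow_mul (by norm_num),
        ← Real.rpow_add (by norm_num), ← Real.rpow_add (by norm_num)]
      apply le_of_eq
      congr 1
      ring
    · have hui : u i = 0 := by simpa [supp] using hi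
      simp only [hi, if_false, hui]
      simp only [Nat.cast_zero, mul_zero, Real.rpow_zero, Real.one_rpow, pow_zero, mul_one]
      exact Real.one_le_rpow (by norm_num) (by positivity)
  calc ∑' u : Fin d → ℕ, (ENNReal.ofReal (∏ i, (2:ℝ) ^ (r * u i)) *
      mixedModulus k (supp u) p f (fun i => (1/2) ^ (u i))) ^ ϑ
      ≤ ∑' u : Fin d → ℕ, ENNReal.ofReal ((2 ^ (ϑ * r + 1)) ^ d) *
        ∑ e : Finset (Fin d), ∫⁻ t in Bu u, I e t := by
        refine ENNReal.tsum_le_tsum (fun u => (h1 u).trans (mul_le_mul_right ?_ _))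
        exact Finset.single_le_sum (f := fun e => ∫⁻ t in Bu u, I e t)
          (fun _ _ => zero_le) (Finset.mem_univ (supp u))
    _ = ENNReal.ofReal ((2 ^ (ϑ * r + 1)) ^ d) *
        ∑ e : Finset (Fin d), ∑' u : Fin d → ℕ, ∫⁻ t in Bu u, I e t := by
        rw [ENNReal.tsum_mul_left]
        congr 1
        exact Summable.tsum_finsetSum (fun e _ => ENNReal.summable)
    _ ≤ _ := by
        refine mul_le_mul_right (Finset.sum_le_sum (fun e _ => ?_)) _
        rw [← lintegral_iUnion (fun u => measurableSet_Bu u) Bu_disjoint]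
        exact lintegral_mono_set (Set.iUnion_subset (fun u => Bu_subset u))

end Pool.Agent.Helper218_SB
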