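import Pool.Agent.Helper218_SB.UBesov

namespace Pool.Agent.Helper218_SB

open MeasureTheory Set
open scoped ENNReal

variable {d : ℕ}

theorem semi_le_norm {𝕜 : Type} [RCLike 𝕜] (k : ℕ) (r : ℝ) (p θ : ℝ≥0∞) (e : Finset (Fin d))
    (f : Torus d → 𝕜) : besovSemi k r p θ e f ≤ besovNorm k r p θ f :=
  Finset.single_le_sum (f := fun e => besovSemi k r p θ e f) (fun _ _ => zero_le)
    (Finset.mem_univ e)

/-- the weighted moduli at dyadic scales are in the unit ball of `ℓ_θ`, up to a constant -/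
theorem exists_seq_bound (d : ℕ) (r : ℝ) (hr : 0 < r) (θ : ℝ≥0∞) (hθ : 1 ≤ θ) :
    ∃ C : ℝ, 1 ≤ C ∧ ∀ (𝕜 : Type) [RCLike 𝕜] (k : ℕ) (p : ℝ≥0∞) (f : Torus d → 𝕜),
      besovNorm k r p θ f ≤ 1 →
      (θ ≠ ∞ → ∑' u : Fin d → ℕ, (ENNReal.ofReal (∏ i, (2:ℝ) ^ (r * u i)) *
        mixedModulus k (supp u) p f (fun i => (1/2) ^ (u i))) ^ θ.toReal ≤ ENNReal.ofReal C) ∧
      (∀ u : Fin d → ℕ, ENNReal.ofReal (∏ i, (2:ℝ) ^ (r * u i)) *
        mixedModulus k (supp u) p f (fun i => (1/2) ^ (u i)) ≤ ENNReal.ofReal C) := by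
  classical
  by_cases hθi : θ = ∞
  · refine ⟨1, le_rfl, ?_⟩
    intro 𝕜 _ k p f hf
    refine ⟨fun h => absurd hθi h, fun u => ?_⟩
    rw [ENNReal.ofReal_one]
    refine le_trans ?_ ((semi_le_norm k r p θ (supp u) f).trans hf)
    simp only [besovSemi, hθi, if_true]
    have hpi := Real.pi_gt_three
    have h1 : ∀ i, (1/2:ℝ) ^ (u i) ∈ Set.Ioo 0 (2 * Real.pi) := fun i =>
      ⟨by positivity, by linarith [half_pow_le (u i)]⟩
    refine le_trans (le_of_eq ?_) (le_iSup₂ (f := fun (t : Fin d → ℝ)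
      (_ : ∀ i, t i ∈ Set.Ioo 0 (2 * Real.pi)) =>
      (∏ i ∈ supp u, ENNReal.ofReal ((t i) ^ (-r))) * mixedModulus k (supp u) p f t)
      (fun i => (1/2) ^ (u i)) h1)
    congr 1
    rw [ENNReal.ofReal_prod_of_nonneg (fun i _ => by positivity)]
    have e2 : ∏ i ∈ supp u, ENNReal.ofReal (((1/2:ℝ) ^ (u i)) ^ (-r))
        = ∏ i, (if i ∈ supp u then ENNReal.ofReal (((1/2:ℝ) ^ (u i)) ^ (-r)) else 1) := by
      rw [Finset.prod_ite_mem, Finset.univ_inter]
    rw [e2]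
    refine Finset.prod_congr rfl (fun i _ => ?_)
    by_cases hi : i ∈ supp u
    · simp only [hi, if_true]
      congr 1
      have hbase : (1/2:ℝ) ^ (u i) = (2:ℝ) ^ (-(u i : ℝ)) := by
        rw [Real.rpow_neg (by norm_num), Real.rpow_natCast, div_pow, one_pow, one_div]
      rw [hbase, ← Real.rpow_mul (by norm_num)]
      congr 1
      ring
    · have hui : u i = 0 := by simpa [supp] using hi
      simp [hi, hui]
  · set ϑ := θ.toReal with hϑdef
    have hϑ : 1 ≤ ϑ := by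
      rw [← ENNReal.toReal_one]
      exact ENNReal.toReal_mono hθi hθ
    have hϑ0 : 0 < ϑ := by linarith
    set C : ℝ := (2 ^ (ϑ * r + 1)) ^ d * 2 ^ d with hC
    have hC1 : 1 ≤ C := by
      have h1 : (1:ℝ) ≤ 2 ^ (ϑ * r + 1) := Real.one_le_rpow (by norm_num) (by positivity)
      have h2 : (1:ℝ) ≤ (2 ^ (ϑ * r + 1)) ^ d := one_le_pow₀ h1
      have h3 : (1:ℝ) ≤ 2 ^ d := one_le_pow₀ (by norm_num)
      rw [hC]; nlinarith
    refine ⟨C, hC1, ?_⟩
    intro 𝕜 _ k p f hf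
    have hI : ∀ e : Finset (Fin d), ∫⁻ t in Set.univ.pi (fun _ : Fin d => Set.Ioo 0 (2 * Real.pi)),
        mixedModulus k e p f t ^ ϑ * ∏ i ∈ e, ENNReal.ofReal ((t i) ^ (-(ϑ * r) - 1)) ≤ 1 := by
      intro e
      have h1 := (semi_le_norm k r p θ e f).trans hf
      simp only [besovSemi, hθi, if_false] at h1
      rw [← hϑdef] at h1
      have h2 := ENNReal.rpow_le_rpow h1 hϑ0.le
      rw [← ENNReal.rpow_mul, one_div_mul_cancel hϑ0.ne', ENNReal.rpow_one, ENNReal.one_rpow] at h2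
      exact h2
    have hmain : ∑' u : Fin d → ℕ, (ENNReal.ofReal (∏ i, (2:ℝ) ^ (r * u i)) *
        mixedModulus k (supp u) p f (fun i => (1/2) ^ (u i))) ^ ϑ ≤ ENNReal.ofReal C := by
      refine (tsum_modulus_le k r hr p ϑ hϑ f).trans ?_
      calc _ ≤ ENNReal.ofReal ((2 ^ (ϑ * r + 1)) ^ d) * ∑ _e : Finset (Fin d), (1:ℝ≥0∞) :=
            mul_le_mul_right (Finset.sum_le_sum (fun e _ => hI e)) _
        _ = ENNReal.ofReal C := by
            rw [hC, ENNReal.ofReal_mul (by positivity)]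
            congr 1
            simp only [Finset.sum_const, Finset.card_univ, Fintype.card_finset, Fintype.card_fin,
              nsmul_eq_mul, mul_one]
            rw [← ENNReal.ofReal_natCast]
            congr 1
            push_cast
            rfl
    refine ⟨fun _ => hmain, fun u => ?_⟩
    have h3 := (ENNReal.le_tsum u).trans hmain
    have h4 := ENNReal.rpow_le_rpow h3 (by positivity : (0:ℝ) ≤ 1 / ϑ)
    rw [← ENNReal.rpow_mul, mul_one_div_cancel hϑ0.ne', ENNReal.rpow_one] at h4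
    refine h4.trans ?_
    rw [ENNReal.ofReal_rpow_of_nonneg (by linarith) (by positivity)]
    apply ENNReal.ofReal_le_ofReal
    calc C ^ (1 / ϑ) ≤ C ^ (1:ℝ) := by
          apply Real.rpow_le_rpow_of_exponent_le hC1
          rw [div_le_one hϑ0]; exact hϑ
      _ = C := Real.rpow_one C

/-- comparison of two functions by their differences -/
theorem besovNorm_mono_of {𝕜 𝕜' : Type} [RCLike 𝕜] [RCLike 𝕜'] (k : ℕ) (r : ℝ) (p θ : ℝ≥0∞)
    (f : Torus d → 𝕜) (g : Torus d → 𝕜')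
    (h : ∀ e h x, ‖mixedDiff k e h g x‖ ≤ ‖mixedDiff k e h f x‖) :
    besovNorm k r p θ g ≤ besovNorm k r p θ f := by
  have hM : ∀ e t, mixedModulus k e p g t ≤ mixedModulus k e p f t := by
    intro e t
    unfold mixedModulus
    exact iSup₂_mono (fun v _ => eLpNorm_mono (h e v))
  unfold besovNorm
  refine Finset.sum_le_sum (fun e _ => ?_)
  unfold besovSemi
  split_ifs
  · exact iSup₂_mono (fun t _ => mul_le_mul_right (hM e t) _)
  · refine ENNReal.rpow_le_rpow (lintegral_mono (fun t => ?_)) (by positivity)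
    exact mul_le_mul_left (ENNReal.rpow_le_rpow (hM e t) ENNReal.toReal_nonneg) _

theorem coef_ofReal {𝕜 : Type} [RCLike 𝕜] (k : ℕ) (e : Finset (Fin d)) (j : Fin d → ℕ) :
    (∏ i ∈ e, (-1 : 𝕜) ^ (k - j i) * (k.choose (j i) : 𝕜))
      = ((∏ i ∈ e, (-1 : ℝ) ^ (k - j i) * (k.choose (j i) : ℝ) : ℝ) : 𝕜) := by
  push_cast
  rfl

theorem mixedDiff_re {𝕜 : Type} [RCLike 𝕜] (k : ℕ) (e : Finset (Fin d)) (h : Fin d → ℝ)
    (f : Torus d → 𝕜) (x : Torus d) :
    mixedDiff k e h (fun y => RCLike.re (f y)) x = RCLike.re (mixedDiff k e h f x) := by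
  unfold mixedDiff
  rw [map_sum]
  refine Finset.sum_congr rfl (fun j _ => ?_)
  rw [coef_ofReal (𝕜 := 𝕜), RCLike.re_ofReal_mul]

theorem mixedDiff_im {𝕜 : Type} [RCLike 𝕜] (k : ℕ) (e : Finset (Fin d)) (h : Fin d → ℝ)
    (f : Torus d → 𝕜) (x : Torus d) :
    mixedDiff k e h (fun y => RCLike.im (f y)) x = RCLike.im (mixedDiff k e h f x) := by
  unfold mixedDiff
  rw [map_sum]
  refine Finset.sum_congr rfl (fun j _ => ?_)
  rw [coef_ofReal (𝕜 := 𝕜), RCLike.im_ofReal_mul]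

theorem besovNorm_re_le {𝕜 : Type} [RCLike 𝕜] (k : ℕ) (r : ℝ) (p θ : ℝ≥0∞) (f : Torus d → 𝕜) :
    besovNorm k r p θ (fun y => RCLike.re (f y)) ≤ besovNorm k r p θ f :=
  besovNorm_mono_of k r p θ f _ (fun e h x => by
    rw [mixedDiff_re, Real.norm_eq_abs]; exact RCLike.abs_re_le_norm _)

theorem besovNorm_im_le {𝕜 : Type} [RCLike 𝕜] (k : ℕ) (r : ℝ) (p θ : ℝ≥0∞) (f : Torus d → 𝕜) :
    besovNorm k r p θ (fun y => RCLike.im (f y)) ≤ besovNorm k r p θ f :=
  besovNorm_mono_of k r p θ f _ (fun e h x => by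
    rw [mixedDiff_im, Real.norm_eq_abs]; exact RCLike.abs_im_le_norm _)

/-- the norm of `f` itself -/
theorem modulus_zero {𝕜 : Type} [RCLike 𝕜] (k : ℕ) (p : ℝ≥0∞) (f : Torus d → 𝕜) :
    eLpNorm f p volume ≤ mixedModulus k (supp (0 : Fin d → ℕ)) p f
      (fun i => (1/2) ^ ((0 : Fin d → ℕ) i)) := by
  have hs : supp (0 : Fin d → ℕ) = ∅ := by simp [supp]
  unfold mixedModulus
  refine le_trans (le_of_eq ?_) (le_iSup₂ (f := fun (h : Fin d → ℝ)
    (_ : ∀ i ∈ supp (0 : Fin d → ℕ), |h i| < (1/2) ^ ((0 : Fin d → ℕ) i)) =>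
    eLpNorm (mixedDiff k (supp (0 : Fin d → ℕ)) h f) p volume) (fun _ => 0) (by simp [hs]))
  congr 1
  funext x
  rw [hs]
  unfold mixedDiff
  have h1 : Fintype.piFinset (fun i : Fin d => if i ∈ (∅ : Finset (Fin d)) then
      Finset.range (k + 1) else {0}) = {fun _ => 0} := by
    ext j
    simp [funext_iff]
  rw [h1]
  have h2 : (fun i : Fin d => (((((fun _ => 0 : Fin d → ℕ) i : ℕ) : ℝ) * 0 : ℝ) :
      AddCircle (2 * Real.pi))) = 0 := by
    funext i; simp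
  simp only [Finset.sum_singleton, Finset.prod_empty, one_mul]
  rw [h2, add_zero]

end Pool.Agent.Helper218_SB
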