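import Pool.Agent.Helper218_SB.UNorm

namespace Pool.Agent.Helper218_SB

open MeasureTheory Set
open scoped ENNReal

variable {d : ℕ}

theorem sum_choose_succ (k : ℕ) : ∑ j ∈ Finset.range k, (k.choose (j + 1) : ℝ) ≤ 2 ^ k := by
  have h5 := Nat.sum_range_choose k
  rw [Finset.sum_range_succ'] at h5
  have h6 : ∑ j ∈ Finset.range k, k.choose (j + 1) ≤ 2 ^ k := by omega
  exact_mod_cast h6

theorem alt_sum_choose {k : ℕ} (hk : 1 ≤ k) :
    ∑ j ∈ Finset.range k, ((-1 : ℝ) ^ j * (k.choose (j + 1) : ℝ)) = 1 := by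
  have h := Int.alternating_sum_range_choose_of_ne (n := k) (by omega)
  rw [Finset.sum_range_succ'] at h
  have h2 : (∑ j ∈ Finset.range k, ((-1 : ℤ) ^ j * (k.choose (j + 1) : ℤ))) = 1 := by
    have e : ∀ j ∈ Finset.range k, (-1 : ℤ) ^ (j + 1) * (k.choose (j + 1) : ℤ)
        = -((-1 : ℤ) ^ j * (k.choose (j + 1) : ℤ)) := fun j _ => by ring
    rw [Finset.sum_congr rfl e, Finset.sum_neg_distrib] at h
    simp only [pow_zero, Nat.choose_zero_right, Nat.cast_one, mul_one] at h
    linarith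
  exact_mod_cast h2

theorem integral_vv {k : ℕ} (hk : 1 ≤ k) (u : ℕ) : ∫ w, vv k u w = 1 := by
  unfold vv
  have hint : ∀ j ∈ Finset.range k, Integrable (fun w => ((-1 : ℝ) ^ j * (k.choose (j + 1) : ℝ)) *
      bt ((j + 1) * hh k u) w) volume :=
    fun j _ => int_cont (continuous_const.mul (bt_continuous _))
  rw [integral_finsetSum _ hint]
  refine Eq.trans (Finset.sum_congr rfl (fun j hj => ?_)) (alt_sum_choose hk)
  have hj := Finset.mem_range.1 hj
  have h3 := jhh_le hk u hj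
  have h4 := half_pow_le u
  rw [integral_const_mul, integral_bt_one (mul_pos (by positivity) (hh_pos hk u)) (by linarith),
    mul_one]

theorem integral_abs_vv {k : ℕ} (hk : 1 ≤ k) (u : ℕ) : ∫ w, |vv k u w| ≤ 2 ^ k := by
  have h1 : ∀ w, |vv k u w| ≤ ∑ j ∈ Finset.range k, (k.choose (j + 1) : ℝ) *
      bt ((j + 1) * hh k u) w := by
    intro w
    unfold vv
    refine (Finset.abs_sum_le_sum_abs _ _).trans (Finset.sum_le_sum (fun j _ => ?_))
    rw [abs_mul, abs_mul, abs_pow, abs_neg, abs_one, one_pow, one_mul,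
        abs_of_nonneg (Nat.cast_nonneg _ : (0:ℝ) ≤ (k.choose (j + 1) : ℝ)),
        abs_of_nonneg (bt_nonneg (mul_pos (by positivity) (hh_pos hk u)) w)]
  have hint : ∀ j ∈ Finset.range k, Integrable (fun w => (k.choose (j + 1) : ℝ) *
      bt ((j + 1) * hh k u) w) volume :=
    fun j _ => int_cont (continuous_const.mul (bt_continuous _))
  calc ∫ w, |vv k u w| ≤ ∫ w, ∑ j ∈ Finset.range k, (k.choose (j + 1) : ℝ) *
        bt ((j + 1) * hh k u) w :=
        integral_mono (int_cont (vv_continuous k u).abs) (integrable_finsetSum _ hint) h1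
    _ = ∑ j ∈ Finset.range k, (k.choose (j + 1) : ℝ) := by
        rw [integral_finsetSum _ hint]
        refine Finset.sum_congr rfl (fun j hj => ?_)
        have hj := Finset.mem_range.1 hj
        have h3 := jhh_le hk u hj
        have h4 := half_pow_le u
        rw [integral_const_mul, integral_bt_one (mul_pos (by positivity) (hh_pos hk u))
          (by linarith), mul_one]
    _ ≤ 2 ^ k := sum_choose_succ k

theorem integral_abs_prod_vv {k : ℕ} (hk : 1 ≤ k) (u : ℕ) :
    ∫ w : Torus d, |∏ i, vv k u (w i)| ≤ (2 ^ k) ^ d := by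
  have h : ∀ w : Torus d, |∏ i, vv k u (w i)| = ∏ i, |vv k u (w i)| := fun w => Finset.abs_prod _ _
  simp_rw [h]
  rw [integral_fintype_prod_volume_eq_prod (fun _ : Fin d => fun w => |vv k u w|)]
  calc ∏ _i : Fin d, ∫ w, |vv k u w| ≤ ∏ _i : Fin d, (2:ℝ) ^ k :=
        Finset.prod_le_prod (fun _ _ => integral_nonneg (fun _ => abs_nonneg _))
          (fun _ _ => integral_abs_vv hk u)
    _ = _ := by simp

theorem integral_prod_vv {k : ℕ} (hk : 1 ≤ k) (u : ℕ) : ∫ w : Torus d, ∏ i, vv k u (w i) = 1 := by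
  rw [integral_fintype_prod_volume_eq_prod (fun _ : Fin d => vv k u)]
  simp [integral_vv hk]

/-- the mollifiers approximate -/
theorem abs_Vm_sub_le {k : ℕ} (hk : 1 ≤ k) (N : ℕ) {f : Torus d → ℝ} (hf : Continuous f) {ε : ℝ}
    (hε : 0 ≤ ε) (hN : ∀ y w : Torus d, (∀ i, ‖w i‖ < (1/2) ^ N) → |f (y + w) - f y| ≤ ε) (y : Torus d) :
    |Vm k N f y - f y| ≤ (2 ^ k) ^ d * ε := by
  have e1 : Vm k N f y - f y = ∫ w : Torus d, (∏ i, vv k N (w i)) * (f (y + w) - f y) := by
    have h1 : ∫ w : Torus d, (∏ i, vv k N (w i)) * f y = f y := by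
      rw [integral_mul_const, integral_prod_vv hk, one_mul]
    have i1 : Integrable (fun w : Torus d => (∏ i, vv k N (w i)) * f (y + w)) volume :=
      int_cont ((prod_vv_continuous k N).mul (hf.comp (continuous_const.add continuous_id)))
    have i2 : Integrable (fun w : Torus d => (∏ i, vv k N (w i)) * f y) volume :=
      int_cont ((prod_vv_continuous k N).mul continuous_const)
    unfold Vm
    simp_rw [mul_sub]
    rw [integral_sub i1 i2, h1]
  rw [e1]
  have h2 : |∫ w : Torus d, (∏ i, vv k N (w i)) * (f (y + w) - f y)| ≤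
      ∫ w : Torus d, |∏ i, vv k N (w i)| * ε := by
    rw [← Real.norm_eq_abs]
    refine norm_integral_le_of_norm_le ((int_cont (prod_vv_continuous k N)).abs.mul_const _)
      (Filter.Eventually.of_forall (fun w => ?_))
    rw [Real.norm_eq_abs, abs_mul]
    by_cases h : ∀ i, ‖w i‖ < (1/2) ^ N
    · exact mul_le_mul_of_nonneg_left (hN y w h) (abs_nonneg _)
    · push Not at h
      obtain ⟨i, hi⟩ := h
      rw [Finset.prod_eq_zero (Finset.mem_univ i) (vv_zero hk N _ hi)]
      simp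
  refine h2.trans ?_
  rw [integral_mul_const]
  exact mul_le_mul_of_nonneg_right (integral_abs_prod_vv hk N) hε

/-- uniform continuity -/
theorem exists_unif {f : Torus d → ℝ} (hf : Continuous f) {ε : ℝ} (hε : 0 < ε) : ∃ δ : ℝ, 0 < δ ∧
    ∀ y w : Torus d, (∀ i, ‖w i‖ < δ) → |f (y + w) - f y| ≤ ε := by
  have h1 : UniformContinuous f := CompactSpace.uniformContinuous_of_continuous hf
  obtain ⟨δ, hδ, h2⟩ := Metric.uniformContinuous_iff.1 h1 ε hε
  refine ⟨δ, hδ, fun y w hw => ?_⟩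
  have h3 : dist (y + w) y < δ := by
    rw [dist_pi_lt_iff hδ]
    intro i
    rw [dist_eq_norm, Pi.add_apply, add_sub_cancel_left]
    exact hw i
  have := h2 h3
  rw [Real.dist_eq] at this
  exact this.le

theorem exists_mollify {k : ℕ} (hk : 1 ≤ k) {f : Torus d → ℝ} (hf : Continuous f) {ε : ℝ}
    (hε : 0 < ε) : ∃ M : ℕ, ∀ y, |f y - Vm k (M + 1) (Vm k (M + 2) f) y| ≤ ε := by
  set L : ℝ := (2 ^ k) ^ d with hL
  have hL1 : 1 ≤ L := one_le_pow₀ (one_le_pow₀ (by norm_num))
  obtain ⟨δ, hδ, h1⟩ := exists_unif hf (ε := ε / (2 * L * L)) (by positivity)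
  obtain ⟨M, hM⟩ := exists_pow_lt_of_lt_one hδ (by norm_num : (1/2:ℝ) < 1)
  have hη : 0 ≤ ε / (2 * L * L) := by positivity
  have hpow : ∀ j, (1/2:ℝ) ^ (M + j) ≤ (1/2) ^ M := fun j =>
    pow_le_pow_of_le_one (by norm_num) (by norm_num) (Nat.le_add_right _ _)
  have h2 : ∀ j, ∀ y w : Torus d, (∀ i, ‖w i‖ < (1/2) ^ (M + j)) → |f (y + w) - f y| ≤ ε / (2 * L * L) :=
    fun j y w hw => h1 y w (fun i => (hw i).trans_le ((hpow j).trans hM.le))
  refine ⟨M, fun y => ?_⟩
  have a1 := abs_Vm_sub_le hk (M + 1) hf hη (h2 1) y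
  have a2 : ∀ z, |Vm k (M + 2) f z - f z| ≤ L * (ε / (2 * L * L)) := abs_Vm_sub_le hk (M + 2) hf hη (h2 2)
  have a3 : |Vm k (M + 1) (fun z => Vm k (M + 2) f z + (-1) * f z) y| ≤ L * (L * (ε / (2 * L * L))) := by
    refine (abs_Vm_le k (M + 1) (L * (ε / (2 * L * L))) (fun z => ?_) y).trans ?_
    · have : Vm k (M + 2) f z + (-1) * f z = Vm k (M + 2) f z - f z := by ring
      rw [this]; exact a2 z
    · exact mul_le_mul_of_nonneg_right (integral_abs_prod_vv hk (M + 1)) (by positivity)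
  have hb := isBL_Vm k (M + 1) y
  have e1 : Vm k (M + 1) (fun z => Vm k (M + 2) f z + (-1) * f z) y
      = Vm k (M + 1) (Vm k (M + 2) f) y - Vm k (M + 1) f y := by
    rw [hb.add _ (fun z => (-1) * f z) (Vm_continuous k (M + 2) hf) (continuous_const.mul hf),
      hb.smul (-1) f hf]
    ring
  rw [e1] at a3
  have e2 : f y - Vm k (M + 1) (Vm k (M + 2) f) y
      = -(Vm k (M + 1) (Vm k (M + 2) f) y - Vm k (M + 1) f y) - (Vm k (M + 1) f y - f y) := by ring
  rw [e2]
  have h6 : L * (L * (ε / (2 * L * L))) = ε / 2 := by field_simp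
  have h7 : L * (ε / (2 * L * L)) ≤ ε / 2 := by
    have h8 : L * (ε / (2 * L * L)) = ε / 2 / L := by field_simp
    rw [h8, div_le_iff₀ (by linarith)]
    nlinarith
  calc |-(Vm k (M + 1) (Vm k (M + 2) f) y - Vm k (M + 1) f y) - (Vm k (M + 1) f y - f y)|
      ≤ |-(Vm k (M + 1) (Vm k (M + 2) f) y - Vm k (M + 1) f y)| + |Vm k (M + 1) f y - f y| :=
        abs_sub _ _
    _ = |Vm k (M + 1) (Vm k (M + 2) f) y - Vm k (M + 1) f y| + |Vm k (M + 1) f y - f y| := by
        rw [abs_neg]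
    _ ≤ ε / 2 + ε / 2 := by
        refine add_le_add (a3.trans_eq h6) (a1.trans h7)
    _ = ε := by ring

/-- the interpolation operators approximate -/
theorem exists_interp {k : ℕ} (hk : 1 ≤ k) {f : Torus d → ℝ} (hf : Continuous f) {ε : ℝ}
    (hε : 0 < ε) (n : ℕ) : ∃ N : ℕ, n ≤ N ∧ ∀ x, |f x - Im k N f x| ≤ ε := by
  obtain ⟨C, hC1, hC⟩ := exists_lb_bound k
  have hk0 : (0:ℝ) < k := by exact_mod_cast hk
  have hk1 : (1:ℝ) ≤ k := by exact_mod_cast hk
  set L : ℝ := (k * C) ^ d with hL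
  have hkC : 1 ≤ k * C := by nlinarith
  have hL1 : 1 ≤ L := one_le_pow₀ hkC
  obtain ⟨δ, hδ, h1⟩ := exists_unif hf (ε := ε / L) (by positivity)
  have hpi := Real.pi_pos
  obtain ⟨N0, hN0⟩ := exists_pow_lt_of_lt_one (x := δ / (2 * Real.pi * k)) (by positivity)
    (by norm_num : (1/2:ℝ) < 1)
  refine ⟨max n N0, le_max_left _ _, fun x => ?_⟩
  set N := max n N0 with hN
  have hpow : (1/2:ℝ) ^ N < δ / (2 * Real.pi * k) :=
    (pow_le_pow_of_le_one (by norm_num) (by norm_num) (le_max_right _ _)).trans_lt hN0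
  have hsum1 : ∑ j : Fin d → Fin k, ∏ i, lb k (j i) (fr N (x i)) = 1 := by
    rw [← Fintype.piFinset_univ, ← Finset.prod_univ_sum (t := fun _ : Fin d => (Finset.univ : Finset (Fin k)))
      (f := fun i (j : Fin k) => lb k j (fr N (x i)))]
    refine Finset.prod_eq_one (fun i _ => ?_)
    have := lb_moment k (fr N (x i)) 0 (by omega)
    simp only [pow_zero, mul_one] at this
    rw [← this, Finset.sum_range]
  have e1 : f x - Im k N f x = ∑ j : Fin d → Fin k, (∏ i, lb k (j i) (fr N (x i))) *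
      (f x - f (x + fun i => ((2 * Real.pi / 2 ^ N * ((j i : ℕ) - fr N (x i)) : ℝ) :
        AddCircle (2 * Real.pi)))) := by
    rw [Finset.sum_congr rfl (fun j _ => mul_sub _ _ _), Finset.sum_sub_distrib,
      ← Finset.sum_mul, hsum1, one_mul]
    rfl
  rw [e1]
  have hterm : ∀ j ∈ (Finset.univ : Finset (Fin d → Fin k)), |(∏ i, lb k (j i) (fr N (x i))) *
      (f x - f (x + fun i => ((2 * Real.pi / 2 ^ N * ((j i : ℕ) - fr N (x i)) : ℝ) :
        AddCircle (2 * Real.pi))))| ≤ C ^ d * (ε / L) := by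
    intro j _
    rw [abs_mul]
    refine mul_le_mul ?_ ?_ (abs_nonneg _) (by positivity)
    · rw [Finset.abs_prod]
      calc ∏ i, |lb k (j i) (fr N (x i))| ≤ ∏ _i : Fin d, C :=
            Finset.prod_le_prod (fun _ _ => abs_nonneg _)
              (fun i _ => hC _ _ (j i).2 (fr_nonneg _ _) (fr_lt_one _ _).le)
        _ = C ^ d := by simp
    · rw [abs_sub_comm]
      apply h1
      intro i
      have h2 : ‖((2 * Real.pi / 2 ^ N * ((j i : ℕ) - fr N (x i)) : ℝ) : AddCircle (2 * Real.pi))‖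
          ≤ |2 * Real.pi / 2 ^ N * ((j i : ℕ) - fr N (x i))| := QuotientAddGroup.norm_mk_le_norm
      have h3 : |(((j i : ℕ) : ℝ)) - fr N (x i)| ≤ k := by
        have hj : (((j i : ℕ)):ℝ) ≤ k := by exact_mod_cast (j i).2.le
        have hj0 : (0:ℝ) ≤ (((j i : ℕ)):ℝ) := Nat.cast_nonneg _
        have h0 := fr_nonneg N (x i)
        have h1 := fr_lt_one N (x i)
        rw [abs_le]; constructor <;> linarith
      refine h2.trans_lt ?_
      rw [abs_mul, abs_of_pos (by positivity)]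
      calc 2 * Real.pi / 2 ^ N * |(((j i : ℕ) : ℝ)) - fr N (x i)|
          ≤ 2 * Real.pi / 2 ^ N * k := mul_le_mul_of_nonneg_left h3 (by positivity)
        _ = 2 * Real.pi * k * (1/2) ^ N := by rw [div_pow, one_pow]; ring
        _ < 2 * Real.pi * k * (δ / (2 * Real.pi * k)) := mul_lt_mul_of_pos_left hpow (by positivity)
        _ = δ := by field_simp
  calc _ ≤ ∑ _j : Fin d → Fin k, C ^ d * (ε / L) :=
        (Finset.abs_sum_le_sum_abs _ _).trans (Finset.sum_le_sum hterm)
    _ = L * (ε / L) := by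
        rw [Finset.sum_const, nsmul_eq_mul]
        simp only [Finset.card_univ, Fintype.card_pi, Fintype.card_fin, Finset.prod_const]
        rw [hL, mul_pow]
        push_cast
        ring
    _ = ε := by field_simp

theorem exists_Em_bound {k : ℕ} (hk : 1 ≤ k) (d : ℕ) : ∃ C : ℝ, 1 ≤ C ∧ ∀ (s : Fin d → ℕ)
    (f : Torus d → ℝ) (ε : ℝ), (∀ x, |f x| ≤ ε) → ∀ x, |Em k s f x| ≤ C * ε := by
  obtain ⟨C, hC1, hC⟩ := exists_cc_bound k
  have hk1 : (1:ℝ) ≤ k := by exact_mod_cast hk
  refine ⟨(2 * k * C) ^ d, one_le_pow₀ (by nlinarith), ?_⟩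
  intro s f ε hf x
  have hε : 0 ≤ ε := (abs_nonneg _).trans (hf x)
  unfold Em
  calc _ ≤ ∑ _a : Fin d → AA k, C ^ d * ε := by
        refine (Finset.abs_sum_le_sum_abs _ _).trans (Finset.sum_le_sum (fun a _ => ?_))
        rw [abs_mul]
        refine mul_le_mul ?_ (hf _) (abs_nonneg _) (by positivity)
        rw [Finset.abs_prod]
        calc ∏ i, |cc k (s i) (a i) (x i)| ≤ ∏ _i : Fin d, C :=
              Finset.prod_le_prod (fun _ _ => abs_nonneg _) (fun i _ => hC _ _ _)
          _ = C ^ d := by simp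
    _ = _ := by
        rw [Finset.sum_const, nsmul_eq_mul]
        simp only [Finset.card_univ, Fintype.card_pi, Fintype.card_prod, Fintype.card_bool,
          Fintype.card_fin, Finset.prod_const]
        rw [mul_pow]
        push_cast
        ring

theorem Em_measurable (k : ℕ) (s : Fin d → ℕ) {f : Torus d → ℝ} (hf : Continuous f) :
    Measurable (Em k s f) := by
  unfold Em
  refine Finset.measurable_sum _ (fun a _ => ?_)
  refine (Finset.measurable_prod _ (fun i _ => (cc_measurable k (s i) (a i)).comp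
    (measurable_pi_apply i))).mul ?_
  refine hf.measurable.comp (measurable_id.add (measurable_pi_lambda _ (fun i => ?_)))
  exact coe_measurable.comp ((tt_measurable k (s i) (a i)).comp (measurable_pi_apply i))

end Pool.Agent.Helper218_SB
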