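import Pool.Agent.Helper218_SB.USum
import Pool.Agent.Helper218_SB.UBesov2

namespace Pool.Agent.Helper218_SB

open MeasureTheory Set
open scoped ENNReal

/-- the weighted moduli -/
noncomputable def cu {d : ℕ} (top : Bool) (k : ℕ) (r : ℝ) (f : Torus d → ℝ) (u : Fin d → ℕ) : ℝ≥0∞ :=
  ENNReal.ofReal (∏ i, (2:ℝ) ^ (r * u i)) * Mo top k u f

/-- weights between multi-levels -/
noncomputable def Be {d : ℕ} (top : Bool) (r C : ℝ) (k : ℕ) (s u : Fin d → ℕ) : ℝ≥0∞ :=
  ∏ i, be top r C k (s i) (u i)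

theorem weight_eq {d : ℕ} (top : Bool) {r C : ℝ} (hC : 1 ≤ C) (k : ℕ) (s u : Fin d → ℕ)
    (f : Torus d → ℝ) :
    (∏ i, ENNReal.ofReal (C * ww top k (s i) (u i))) * (2 ^ d * Mo top k u f)
      = 2 ^ d * (ENNReal.ofReal (((2:ℝ) ^ (-r)) ^ (∑ i, s i)) * (Be top r C k s u * cu top k r f u)) := by
  unfold Be be cu
  have e1 : ∏ i, ENNReal.ofReal (C * ww top k (s i) (u i))
      = ENNReal.ofReal (((2:ℝ) ^ (-r)) ^ (∑ i, s i)) * ((∏ i, ENNReal.ofReal ((2:ℝ) ^ (r * s i) *
        (C * ww top k (s i) (u i)) * (2:ℝ) ^ (-(r * u i)))) *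
        ENNReal.ofReal (∏ i, (2:ℝ) ^ (r * u i))) := by
    rw [← Finset.prod_pow_eq_pow_sum, ENNReal.ofReal_prod_of_nonneg (fun i _ => by positivity),
      ENNReal.ofReal_prod_of_nonneg (fun i _ => by positivity), ← Finset.prod_mul_distrib,
      ← Finset.prod_mul_distrib]
    refine Finset.prod_congr rfl (fun i _ => ?_)
    have hw := ww_nonneg top k (s i) (u i)
    rw [← ENNReal.ofReal_mul (by positivity), ← ENNReal.ofReal_mul (by positivity)]
    congr 1
    have a1 : ((2:ℝ) ^ (-r)) ^ (s i) * (2:ℝ) ^ (r * s i) = 1 := by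
      rw [← Real.rpow_natCast, ← Real.rpow_mul (by norm_num), ← Real.rpow_add (by norm_num)]
      rw [show -r * (s i : ℝ) + r * (s i : ℝ) = 0 by ring, Real.rpow_zero]
    have a2 : (2:ℝ) ^ (-(r * u i)) * (2:ℝ) ^ (r * u i) = 1 := by
      rw [← Real.rpow_add (by norm_num)]
      rw [show -(r * (u i : ℝ)) + r * (u i : ℝ) = 0 by ring, Real.rpow_zero]
    calc C * ww top k (s i) (u i)
        = (((2:ℝ) ^ (-r)) ^ (s i) * (2:ℝ) ^ (r * s i)) * (C * ww top k (s i) (u i)) *
          ((2:ℝ) ^ (-(r * u i)) * (2:ℝ) ^ (r * u i)) := by rw [a1, a2]; ring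
      _ = _ := by ring
  rw [e1]
  ring

theorem Be_sum_left {d : ℕ} (top : Bool) {r C K : ℝ} {k : ℕ}
    (hK : ∀ u, ∑' s, be top r C k s u ≤ ENNReal.ofReal K) (u : Fin d → ℕ) :
    ∑' s : Fin d → ℕ, Be top r C k s u ≤ ENNReal.ofReal K ^ d := by
  unfold Be
  refine (tsum_prod_le d (fun i v => be top r C k v (u i))).trans ?_
  calc ∏ i, ∑' v, be top r C k v (u i) ≤ ∏ _i : Fin d, ENNReal.ofReal K :=
        Finset.prod_le_prod' (fun i _ => hK (u i))
    _ = _ := by simp

theorem Be_sum_right {d : ℕ} (top : Bool) {r C K : ℝ} {k : ℕ}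
    (hK : ∀ s, ∑' u, be top r C k s u ≤ ENNReal.ofReal K) (s : Fin d → ℕ) :
    ∑' u : Fin d → ℕ, Be top r C k s u ≤ ENNReal.ofReal K ^ d := by
  unfold Be
  refine (tsum_prod_le d (fun i v => be top r C k (s i) v)).trans ?_
  calc ∏ i, ∑' v, be top r C k (s i) v ≤ ∏ _i : Fin d, ENNReal.ofReal K :=
        Finset.prod_le_prod' (fun i _ => hK (s i))
    _ = _ := by simp

/-- the basic bound for the error -/
theorem exists_basic (top : Bool) {k : ℕ} (hk : 1 ≤ k) (r : ℝ) : ∃ C : ℝ, 1 ≤ C ∧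
    ∀ (d n : ℕ) (f : Torus d → ℝ), Continuous f →
      NN top (fun x => ‖f x - Tn k n f x‖ₑ) ≤ 2 ^ d * ∑' s : Fin d → ℕ, ∑' u : Fin d → ℕ,
        (if n < ∑ i, s i then ENNReal.ofReal (((2:ℝ) ^ (-r)) ^ (∑ i, s i)) else 0) *
          (Be top r C k s u * cu top k r f u) := by
  obtain ⟨C, hC1, hC⟩ := exists_NN_Em_le hk top
  refine ⟨C, hC1, ?_⟩
  intro d n f hf
  refine (NN_sub_Tn_le hk top n hf).trans ?_
  rw [← ENNReal.tsum_mul_left]
  refine ENNReal.tsum_le_tsum (fun s => ?_)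
  by_cases h : n < ∑ i, s i
  · simp only [h, if_true]
    refine (hC d s f hf).trans (le_of_eq ?_)
    rw [← ENNReal.tsum_mul_left]
    exact tsum_congr (fun u => weight_eq top hC1 k s u f)
  · simp only [h, if_false]
    exact zero_le

/-- **The error of the Smolyak operator.** -/
theorem exists_err (top : Bool) (d' : ℕ) {k : ℕ} {r : ℝ} (hr : 0 < r) (hr1 : top = false → 1 < r)
    (hk : r < k) (θ : ℝ≥0∞) (hθ : 1 ≤ θ) : ∃ C : ℝ, 1 ≤ C ∧
    ∀ (n : ℕ) (f : Torus (d' + 1) → ℝ), Continuous f → besovNorm k r (pp top) θ f ≤ 1 →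
      NN top (fun x => ‖f x - Tn k n f x‖ₑ) ≤
        ENNReal.ofReal (C * (((2:ℝ) ^ (-r)) ^ n * (((n:ℝ) + 1) ^ d') ^ (1 - (θ⁻¹).toReal))) := by
  have hk1 : 1 ≤ k := by
    by_contra h
    have : k = 0 := by omega
    subst this
    simp at hk
    linarith
  obtain ⟨C, hC1, hC⟩ := exists_basic top hk1 r
  obtain ⟨K, hK1, hKl, hKr⟩ := exists_be_sum top hr hr1 hk hC1
  obtain ⟨Cs, hCs1, hCs⟩ := exists_seq_bound (d' + 1) r hr θ hθ
  set x : ℝ := (2:ℝ) ^ (-r) with hx
  have hx0 : 0 < x := by positivity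
  have hx1 : x < 1 := Real.rpow_lt_one_of_one_lt_of_neg (by norm_num) (by linarith)
  set D : ℕ := d' + 1 with hD
  have hK0 : 0 ≤ K := by linarith
  have h2D : (2:ℝ≥0∞) ^ D = ENNReal.ofReal (2 ^ D) := by
    rw [ENNReal.ofReal_pow (by norm_num)]
    congr 1
    norm_num
  have hKD : ENNReal.ofReal K ^ D = ENNReal.ofReal (K ^ D) := (ENNReal.ofReal_pow hK0 D).symm
  rcases eq_or_ne θ 1 with h1 | h1
  · -- θ = 1
    subst h1
    refine ⟨2 ^ D * (K ^ D * Cs), ?_, ?_⟩
    · have a1 : (1:ℝ) ≤ 2 ^ D := one_le_pow₀ (by norm_num)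
      have a2 : (1:ℝ) ≤ K ^ D := one_le_pow₀ hK1
      have a3 : 1 ≤ K ^ D * Cs := by nlinarith
      nlinarith
    intro n f hf hn
    refine (hC D n f hf).trans ?_
    have hsum := (hCs ℝ k (pp top) f hn).1 (by simp)
    simp only [ENNReal.toReal_one, ENNReal.rpow_one] at hsum
    have hcu : ∑' u : Fin D → ℕ, cu top k r f u ≤ ENNReal.ofReal Cs := hsum
    calc (2:ℝ≥0∞) ^ D * ∑' s : Fin D → ℕ, ∑' u : Fin D → ℕ,
          (if n < ∑ i, s i then ENNReal.ofReal (x ^ (∑ i, s i)) else 0) *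
          (Be top r C k s u * cu top k r f u)
        ≤ (2:ℝ≥0∞) ^ D * ∑' s : Fin D → ℕ, ∑' u : Fin D → ℕ,
          ENNReal.ofReal (x ^ n) * (Be top r C k s u * cu top k r f u) := by
          refine mul_le_mul_right (ENNReal.tsum_le_tsum (fun s => ENNReal.tsum_le_tsum (fun u =>
            mul_le_mul_left ?_ _))) _
          split_ifs with h
          · apply ENNReal.ofReal_le_ofReal
            exact pow_le_pow_of_le_one hx0.le hx1.le h.le
          · exact zero_le
      _ = (2:ℝ≥0∞) ^ D * (ENNReal.ofReal (x ^ n) * ∑' u : Fin D → ℕ, cu top k r f u *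
          ∑' s : Fin D → ℕ, Be top r C k s u) := by
          congr 1
          rw [ENNReal.tsum_comm]
          have e5 : ∀ u : Fin D → ℕ, ∑' s : Fin D → ℕ,
              ENNReal.ofReal (x ^ n) * (Be top r C k s u * cu top k r f u)
              = ENNReal.ofReal (x ^ n) * (cu top k r f u * ∑' s : Fin D → ℕ, Be top r C k s u) := by
            intro u
            rw [ENNReal.tsum_mul_left, ENNReal.tsum_mul_right, mul_comm (cu top k r f u)]
          simp_rw [e5]
          exact ENNReal.tsum_mul_left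
      _ ≤ (2:ℝ≥0∞) ^ D * (ENNReal.ofReal (x ^ n) * ∑' u : Fin D → ℕ, cu top k r f u *
          ENNReal.ofReal K ^ D) := by
          refine mul_le_mul_right (mul_le_mul_right (ENNReal.tsum_le_tsum (fun u =>
            mul_le_mul_right (Be_sum_left top hKl u) _)) _) _
      _ ≤ (2:ℝ≥0∞) ^ D * (ENNReal.ofReal (x ^ n) * (ENNReal.ofReal Cs * ENNReal.ofReal K ^ D)) := by
          rw [ENNReal.tsum_mul_right]
          exact mul_le_mul_right (mul_le_mul_right (mul_le_mul_left hcu _) _) _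
      _ = _ := by
          rw [h2D, hKD, ← ENNReal.ofReal_mul (by linarith), ← ENNReal.ofReal_mul (by positivity),
            ← ENNReal.ofReal_mul (by positivity)]
          congr 1
          simp only [inv_one, ENNReal.toReal_one, sub_self, Real.rpow_zero]
          ring
  rcases eq_or_ne θ ∞ with h2 | h2
  · -- θ = ∞
    subst h2
    obtain ⟨Ct, hCt1, hCt⟩ := exists_Rt hx0 hx1 d'
    refine ⟨2 ^ D * (Cs * K ^ D * Ct), ?_, ?_⟩
    · have a1 : (1:ℝ) ≤ 2 ^ D := one_le_pow₀ (by norm_num)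
      have a2 : (1:ℝ) ≤ K ^ D := one_le_pow₀ hK1
      have a3 : 1 ≤ Cs * K ^ D := by nlinarith
      have a4 : 1 ≤ Cs * K ^ D * Ct := by nlinarith
      nlinarith
    intro n f hf hn
    refine (hC D n f hf).trans ?_
    have hsup := (hCs ℝ k (pp top) f hn).2
    have hcu : ∀ u : Fin D → ℕ, cu top k r f u ≤ ENNReal.ofReal Cs := hsup
    calc (2:ℝ≥0∞) ^ D * ∑' s : Fin D → ℕ, ∑' u : Fin D → ℕ,
          (if n < ∑ i, s i then ENNReal.ofReal (x ^ (∑ i, s i)) else 0) *
          (Be top r C k s u * cu top k r f u)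
        ≤ (2:ℝ≥0∞) ^ D * ∑' s : Fin D → ℕ,
          (if n < ∑ i, s i then ENNReal.ofReal (x ^ (∑ i, s i)) else 0) *
          (ENNReal.ofReal Cs * ENNReal.ofReal K ^ D) := by
          refine mul_le_mul_right (ENNReal.tsum_le_tsum (fun s => ?_)) _
          rw [ENNReal.tsum_mul_left]
          refine mul_le_mul_right ?_ _
          calc ∑' u : Fin D → ℕ, Be top r C k s u * cu top k r f u
              ≤ ∑' u : Fin D → ℕ, Be top r C k s u * ENNReal.ofReal Cs :=
                ENNReal.tsum_le_tsum (fun u => mul_le_mul_right (hcu u) _)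
            _ = (∑' u : Fin D → ℕ, Be top r C k s u) * ENNReal.ofReal Cs := ENNReal.tsum_mul_right
            _ ≤ ENNReal.ofReal K ^ D * ENNReal.ofReal Cs :=
                mul_le_mul_left (Be_sum_right top hKr s) _
            _ = _ := mul_comm _ _
      _ = (2:ℝ≥0∞) ^ D * (Rt x D n * (ENNReal.ofReal Cs * ENNReal.ofReal K ^ D)) := by
          rw [ENNReal.tsum_mul_right]
          rfl
      _ ≤ (2:ℝ≥0∞) ^ D * (ENNReal.ofReal (Ct * (x ^ n * ((n:ℝ) + 1) ^ d')) *
          (ENNReal.ofReal Cs * ENNReal.ofReal K ^ D)) :=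
          mul_le_mul_right (mul_le_mul_left (hCt n) _) _
      _ = _ := by
          rw [h2D, hKD, ← ENNReal.ofReal_mul (by linarith), ← ENNReal.ofReal_mul (by positivity),
            ← ENNReal.ofReal_mul (by positivity)]
          congr 1
          simp only [ENNReal.inv_top, ENNReal.toReal_zero, sub_zero, Real.rpow_one]
          ring
  · -- 1 < θ < ∞
    set ϑ : ℝ := θ.toReal with hϑ
    have hϑ1 : 1 < ϑ := by
      rw [hϑ, ← ENNReal.toReal_one]
      exact (ENNReal.toReal_lt_toReal ENNReal.one_ne_top h2).2 (lt_of_le_of_ne hθ (Ne.symm h1))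
    have hϑ0 : 0 < ϑ := by linarith
    have hinv : (θ⁻¹).toReal = 1 / ϑ := by rw [ENNReal.toReal_inv, one_div]
    set q : ℝ := Real.conjExponent ϑ with hq
    have hconj : ϑ.HolderConjugate q := Real.HolderConjugate.conjExponent hϑ1
    have hq1 : 1 < q := hconj.symm.lt
    have hq0 : 0 < q := by linarith
    have hadd : 1 / q + 1 / ϑ = 1 := by
      have := hconj.inv_add_inv_eq_one
      rw [one_div, one_div]; linarith
    set y : ℝ := x ^ q with hy
    have hy0 : 0 < y := Real.rpow_pos_of_pos hx0 _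
    have hy1 : y < 1 := Real.rpow_lt_one hx0.le hx1 hq0
    obtain ⟨Ct, hCt1, hCt⟩ := exists_Rt hy0 hy1 d'
    set C2 : ℝ := (K ^ D * Ct) ^ (1 / q) with hC2
    set C3 : ℝ := (K ^ D * Cs) ^ (1 / ϑ) with hC3
    have hKD1 : (1:ℝ) ≤ K ^ D := one_le_pow₀ hK1
    refine ⟨2 ^ D * (C2 * C3), ?_, ?_⟩
    · have a1 : (1:ℝ) ≤ 2 ^ D := one_le_pow₀ (by norm_num)
      have a2 : (1:ℝ) ≤ C2 := Real.one_le_rpow (by nlinarith) (by positivity)
      have a3 : (1:ℝ) ≤ C3 := Real.one_le_rpow (by nlinarith) (by positivity)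
      have a4 : 1 ≤ C2 * C3 := by nlinarith
      nlinarith
    intro n f hf hn
    refine (hC D n f hf).trans ?_
    have hsum := (hCs ℝ k (pp top) f hn).1 h2
    have hcu : ∑' u : Fin D → ℕ, (cu top k r f u) ^ ϑ ≤ ENNReal.ofReal Cs := hsum
    set α := (Fin D → ℕ) × (Fin D → ℕ) with hα
    set f1 : α → ℝ≥0∞ := fun p =>
      (if n < ∑ i, p.1 i then ENNReal.ofReal (x ^ (∑ i, p.1 i)) else 0) *
        (Be top r C k p.1 p.2) ^ (1 / q) with hf1
    set f2 : α → ℝ≥0∞ := fun p => (Be top r C k p.1 p.2) ^ (1 / ϑ) * cu top k r f p.2 with hf2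
    have e1 : ∑' s : Fin D → ℕ, ∑' u : Fin D → ℕ,
          (if n < ∑ i, s i then ENNReal.ofReal (x ^ (∑ i, s i)) else 0) *
          (Be top r C k s u * cu top k r f u) = ∑' p : α, f1 p * f2 p := by
      rw [← ENNReal.tsum_prod]
      refine tsum_congr (fun p => ?_)
      simp only [hf1, hf2]
      have : Be top r C k p.1 p.2 = (Be top r C k p.1 p.2) ^ (1 / q) *
          (Be top r C k p.1 p.2) ^ (1 / ϑ) := by
        rw [← ENNReal.rpow_add_of_nonneg _ _ (by positivity) (by positivity), hadd, ENNReal.rpow_one]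
      calc _ = (if n < ∑ i, p.1 i then ENNReal.ofReal (x ^ (∑ i, p.1 i)) else 0) *
            (((Be top r C k p.1 p.2) ^ (1 / q) * (Be top r C k p.1 p.2) ^ (1 / ϑ)) *
              cu top k r f p.2) := by rw [← this]
        _ = _ := by ring
    have hH : ∑' p : α, f1 p * f2 p ≤ (∑' p : α, (f1 p) ^ q) ^ (1 / q) *
        (∑' p : α, (f2 p) ^ ϑ) ^ (1 / ϑ) := by
      have := ENNReal.lintegral_mul_le_Lp_mul_Lq (μ := (Measure.count : Measure α)) hconj.symm
        (f := f1) (g := f2) (measurable_of_countable f1).aemeasurable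
        (measurable_of_countable f2).aemeasurable
      simp only [lintegral_count] at this
      simpa using this
    have hF1 : ∑' p : α, (f1 p) ^ q ≤ ENNReal.ofReal (K ^ D * (Ct * (y ^ n * ((n:ℝ) + 1) ^ d'))) := by
      rw [ENNReal.tsum_prod (f := fun s u => (f1 (s, u)) ^ q)]
      have e2 : ∀ s u : Fin D → ℕ, (f1 (s, u)) ^ q =
          (if n < ∑ i, s i then ENNReal.ofReal (y ^ (∑ i, s i)) else 0) * Be top r C k s u := by
        intro s u
        simp only [hf1]
        rw [ENNReal.mul_rpow_of_nonneg _ _ hq0.le, ← ENNReal.rpow_mul, one_div_mul_cancel hq0.ne',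
          ENNReal.rpow_one]
        congr 1
        split_ifs
        · rw [ENNReal.ofReal_rpow_of_nonneg (by positivity) hq0.le]
          congr 1
          rw [hy, ← Real.rpow_natCast x, ← Real.rpow_mul hx0.le, ← Real.rpow_natCast (x ^ q),
            ← Real.rpow_mul hx0.le, mul_comm]
        · exact ENNReal.zero_rpow_of_pos hq0
      simp_rw [e2, ENNReal.tsum_mul_left]
      calc ∑' s : Fin D → ℕ, (if n < ∑ i, s i then ENNReal.ofReal (y ^ (∑ i, s i)) else 0) *
            ∑' u : Fin D → ℕ, Be top r C k s u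
          ≤ ∑' s : Fin D → ℕ, (if n < ∑ i, s i then ENNReal.ofReal (y ^ (∑ i, s i)) else 0) *
            ENNReal.ofReal (K ^ D) := by
            refine ENNReal.tsum_le_tsum (fun s => mul_le_mul_right ?_ _)
            rw [← hKD]; exact Be_sum_right top hKr s
        _ = Rt y D n * ENNReal.ofReal (K ^ D) := by rw [ENNReal.tsum_mul_right]; rfl
        _ ≤ ENNReal.ofReal (Ct * (y ^ n * ((n:ℝ) + 1) ^ d')) * ENNReal.ofReal (K ^ D) :=
            mul_le_mul_left (hCt n) _
        _ = _ := by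
            rw [← ENNReal.ofReal_mul (by positivity)]
            congr 1
            ring
    have hF2 : ∑' p : α, (f2 p) ^ ϑ ≤ ENNReal.ofReal (K ^ D * Cs) := by
      rw [ENNReal.tsum_prod (f := fun s u => (f2 (s, u)) ^ ϑ), ENNReal.tsum_comm]
      have e2 : ∀ s u : Fin D → ℕ, (f2 (s, u)) ^ ϑ = Be top r C k s u * (cu top k r f u) ^ ϑ := by
        intro s u
        simp only [hf2]
        rw [ENNReal.mul_rpow_of_nonneg _ _ hϑ0.le, ← ENNReal.rpow_mul, one_div_mul_cancel hϑ0.ne',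
          ENNReal.rpow_one]
      simp_rw [e2, ENNReal.tsum_mul_right]
      calc ∑' u : Fin D → ℕ, (∑' s : Fin D → ℕ, Be top r C k s u) * (cu top k r f u) ^ ϑ
          ≤ ∑' u : Fin D → ℕ, ENNReal.ofReal (K ^ D) * (cu top k r f u) ^ ϑ := by
            refine ENNReal.tsum_le_tsum (fun u => mul_le_mul_left ?_ _)
            rw [← hKD]; exact Be_sum_left top hKl u
        _ = ENNReal.ofReal (K ^ D) * ∑' u : Fin D → ℕ, (cu top k r f u) ^ ϑ :=
            ENNReal.tsum_mul_left
        _ ≤ ENNReal.ofReal (K ^ D) * ENNReal.ofReal Cs := mul_le_mul_right hcu _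
        _ = _ := by rw [← ENNReal.ofReal_mul (by positivity)]
    rw [e1]
    calc (2:ℝ≥0∞) ^ D * ∑' p : α, f1 p * f2 p
        ≤ (2:ℝ≥0∞) ^ D * ((ENNReal.ofReal (K ^ D * (Ct * (y ^ n * ((n:ℝ) + 1) ^ d')))) ^ (1 / q) *
          (ENNReal.ofReal (K ^ D * Cs)) ^ (1 / ϑ)) := by
          refine mul_le_mul_right (hH.trans ?_) _
          exact mul_le_mul' (ENNReal.rpow_le_rpow hF1 (by positivity))
            (ENNReal.rpow_le_rpow hF2 (by positivity))
      _ = _ := by
          rw [ENNReal.ofReal_rpow_of_nonneg (by positivity) (by positivity),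
            ENNReal.ofReal_rpow_of_nonneg (by positivity) (by positivity), h2D,
            ← ENNReal.ofReal_mul (by positivity), ← ENNReal.ofReal_mul (by positivity)]
          congr 1
          have e3 : (K ^ D * (Ct * (y ^ n * ((n:ℝ) + 1) ^ d'))) ^ (1 / q)
              = C2 * (x ^ n * (((n:ℝ) + 1) ^ d') ^ (1 / q)) := by
            rw [← mul_assoc, Real.mul_rpow (by positivity) (by positivity),
              Real.mul_rpow (x := y ^ n) (by positivity) (by positivity)]
            congr 2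
            rw [hy, ← Real.rpow_natCast (x ^ q), ← Real.rpow_mul hx0.le, ← Real.rpow_mul hx0.le,
              ← Real.rpow_natCast x]
            congr 1
            field_simp
          rw [e3, hinv, show (1:ℝ) - 1 / ϑ = 1 / q by linarith]
          ring

end Pool.Agent.Helper218_SB
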