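import Mathlib

namespace Pool.Agent.Helper218_SB

open scoped ENNReal

/-- From the bounds at the levels `n` to a bound for all `m ≥ 2`. -/
theorem exists_upper_all (d' A : ℕ) (hA : 1 ≤ A) (r t : ℝ) (hr : 0 < r) (ht1 : t ≤ 1)
    (a : ℕ → ℝ≥0∞)
    (h : ∃ C : ℝ, 1 ≤ C ∧
      (∀ n m : ℕ, A * ((n + 1) ^ d' * 2 ^ (n + 1)) ≤ m →
        a m ≤ ENNReal.ofReal (C * (((2:ℝ) ^ (-r)) ^ n * (((n:ℝ) + 1) ^ d') ^ (1 - t)))) ∧
      (∀ m : ℕ, a m ≤ ENNReal.ofReal C)) :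
    ∃ C : ℝ, 0 < C ∧ ∀ m : ℕ, 2 ≤ m →
      a m ≤ ENNReal.ofReal (C * ((m : ℝ) ^ (-r) * (Real.log m) ^ (d' * (r + 1 - t)))) := by
  obtain ⟨C, hC1, hlev, htriv⟩ := h
  set s : ℝ := d' * (r + 1 - t) with hs
  have hs0 : 0 ≤ s := mul_nonneg (Nat.cast_nonneg _) (by linarith)
  have hl2 : 0 < Real.log 2 := Real.log_pos (by norm_num)
  have hAr : (1:ℝ) ≤ A := by exact_mod_cast hA
  set C1 : ℝ := C * (2 * (A:ℝ)) ^ r / (Real.log 2) ^ s with hC1'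
  set C2 : ℝ := C * (4 * (A:ℝ)) ^ r * (2 / Real.log 2) ^ s with hC2'
  have hC10 : 0 < C1 := by
    have : 0 < (Real.log 2) ^ s := Real.rpow_pos_of_pos hl2 _
    positivity
  have hC20 : 0 < C2 := by positivity
  refine ⟨C1 + C2, by positivity, ?_⟩
  intro m hm
  have hm0 : (0:ℝ) < m := by exact_mod_cast (by omega : 0 < m)
  have hm2 : (2:ℝ) ≤ m := by exact_mod_cast hm
  have hlogm : Real.log 2 ≤ Real.log m := Real.log_le_log (by norm_num) hm2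
  have hlogm0 : 0 < Real.log m := hl2.trans_le hlogm
  have hφ0 : 0 ≤ (m : ℝ) ^ (-r) * (Real.log m) ^ s := by positivity
  have hmr : (m:ℝ) ^ (-r) * (m:ℝ) ^ r = 1 := by rw [← Real.rpow_add hm0]; simp
  by_cases hsmall : m < 2 * A
  · refine (htriv m).trans (ENNReal.ofReal_le_ofReal ?_)
    have hmA : (m:ℝ) ≤ 2 * A := by exact_mod_cast hsmall.le
    have h1 : (m:ℝ) ^ r ≤ (2 * (A:ℝ)) ^ r := Real.rpow_le_rpow hm0.le hmA hr.le
    have h2 : (Real.log 2) ^ s ≤ (Real.log m) ^ s := Real.rpow_le_rpow hl2.le hlogm hs0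
    have h20 : 0 < (Real.log 2) ^ s := Real.rpow_pos_of_pos hl2 _
    have hmr0 : 0 < (m:ℝ) ^ (-r) := Real.rpow_pos_of_pos hm0 _
    calc C = C * ((m:ℝ) ^ (-r) * (m:ℝ) ^ r) * ((Real.log 2) ^ s / (Real.log 2) ^ s) := by
          rw [hmr, div_self h20.ne']; ring
      _ = C * (m:ℝ) ^ r / (Real.log 2) ^ s * ((m:ℝ) ^ (-r) * (Real.log 2) ^ s) := by ring
      _ ≤ C * (2 * (A:ℝ)) ^ r / (Real.log 2) ^ s * ((m:ℝ) ^ (-r) * (Real.log m) ^ s) := by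
          refine mul_le_mul ?_ (mul_le_mul_of_nonneg_left h2 hmr0.le) (by positivity) (by positivity)
          exact div_le_div_of_nonneg_right (mul_le_mul_of_nonneg_left h1 (by linarith)) h20.le
      _ ≤ (C1 + C2) * ((m:ℝ) ^ (-r) * (Real.log m) ^ s) := by
          refine mul_le_mul_of_nonneg_right ?_ hφ0
          linarith
  · push Not at hsmall
    have hex : ∃ q : ℕ, m < A * ((q + 1) ^ d' * 2 ^ (q + 1)) := by
      refine ⟨m, ?_⟩
      have h1 : m < 2 ^ (m + 1) := (Nat.lt_succ_self m).trans (Nat.lt_two_pow_self)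
      have h2 : 1 ≤ (m + 1) ^ d' := Nat.one_le_pow _ _ (by omega)
      calc m < 2 ^ (m + 1) := h1
        _ = 1 * (1 * 2 ^ (m + 1)) := by ring
        _ ≤ A * ((m + 1) ^ d' * 2 ^ (m + 1)) :=
            Nat.mul_le_mul hA (Nat.mul_le_mul_right _ h2)
    classical
    set q := Nat.find hex with hq
    have hq1 : m < A * ((q + 1) ^ d' * 2 ^ (q + 1)) := Nat.find_spec hex
    have hq0 : q ≠ 0 := by
      intro h0
      rw [h0] at hq1
      simp at hq1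
      omega
    obtain ⟨p, hp⟩ : ∃ p, q = p + 1 := Nat.exists_eq_succ_of_ne_zero hq0
    have hq2 : A * ((p + 1) ^ d' * 2 ^ (p + 1)) ≤ m :=
      not_lt.1 (Nat.find_min hex (m := p) (by omega))
    refine (hlev p m hq2).trans (ENNReal.ofReal_le_ofReal ?_)
    have hqr : ((p:ℝ) + 1) = q := by rw [hp]; push_cast; rfl
    rw [hqr]
    have hqpos : (1:ℝ) ≤ q := by rw [← hqr]; have : (0:ℝ) ≤ p := Nat.cast_nonneg _; linarith
    have hq0r : (0:ℝ) < (q:ℝ) + 1 := by linarith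
    -- the power of two
    have hq1r : (m:ℝ) ≤ A * (((q:ℝ) + 1) ^ d' * 2 ^ (q + 1)) := by exact_mod_cast hq1.le
    have h1 : (m:ℝ) ^ r ≤ (4 * (A:ℝ)) ^ r * (((q:ℝ) + 1) ^ (d' * r) * ((2:ℝ) ^ r) ^ p) := by
      have e1 : (A:ℝ) * (((q:ℝ) + 1) ^ d' * 2 ^ (q + 1)) = (4 * A) * (((q:ℝ) + 1) ^ d' * 2 ^ p) := by
        rw [hp, pow_succ, pow_succ]; ring
      rw [e1] at hq1r
      have h2 := Real.rpow_le_rpow hm0.le hq1r hr.le
      rw [Real.mul_rpow (x := 4 * (A:ℝ)) (by positivity) (by positivity),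
        Real.mul_rpow (x := ((q:ℝ) + 1) ^ d') (by positivity) (by positivity)] at h2
      have e2 : (((q:ℝ) + 1) ^ d') ^ r = ((q:ℝ) + 1) ^ (d' * r) := by
        rw [← Real.rpow_natCast, ← Real.rpow_mul hq0r.le]
      have e3 : ((2:ℝ) ^ p) ^ r = ((2:ℝ) ^ r) ^ p := by
        rw [← Real.rpow_natCast 2 p, ← Real.rpow_mul (by norm_num), ← Real.rpow_natCast ((2:ℝ) ^ r),
          ← Real.rpow_mul (by norm_num), mul_comm]
      rw [e2, e3] at h2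
      exact h2
    have hx : ((2:ℝ) ^ (-r)) ^ p * ((2:ℝ) ^ r) ^ p = 1 := by
      rw [← mul_pow, ← Real.rpow_add (by norm_num)]; simp
    have hmr0 : 0 < (m:ℝ) ^ (-r) := Real.rpow_pos_of_pos hm0 _
    have h3 : ((2:ℝ) ^ (-r)) ^ p ≤ (4 * (A:ℝ)) ^ r * ((m:ℝ) ^ (-r) * ((q:ℝ) + 1) ^ (d' * r)) := by
      calc ((2:ℝ) ^ (-r)) ^ p = ((2:ℝ) ^ (-r)) ^ p * (m:ℝ) ^ (-r) * (m:ℝ) ^ r := by
            rw [mul_assoc, hmr, mul_one]
        _ ≤ ((2:ℝ) ^ (-r)) ^ p * (m:ℝ) ^ (-r) *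
            ((4 * (A:ℝ)) ^ r * (((q:ℝ) + 1) ^ (d' * r) * ((2:ℝ) ^ r) ^ p)) :=
            mul_le_mul_of_nonneg_left h1 (by positivity)
        _ = (4 * (A:ℝ)) ^ r * ((m:ℝ) ^ (-r) * ((q:ℝ) + 1) ^ (d' * r)) *
            (((2:ℝ) ^ (-r)) ^ p * ((2:ℝ) ^ r) ^ p) := by ring
        _ = _ := by rw [hx, mul_one]
    have h4 : ((q:ℝ) ^ d') ^ (1 - t) ≤ ((q:ℝ) + 1) ^ (d' * (1 - t)) := by
      rw [← Real.rpow_natCast, ← Real.rpow_mul (by linarith)]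
      exact Real.rpow_le_rpow (by linarith) (by linarith)
        (mul_nonneg (Nat.cast_nonneg _) (by linarith))
    have hlog : (q:ℝ) + 1 ≤ 2 / Real.log 2 * Real.log m := by
      have h5 : 2 ^ q ≤ m := by
        have h6 : 1 ≤ (p + 1) ^ d' := Nat.one_le_pow _ _ (by omega)
        calc 2 ^ q = 1 * (1 * 2 ^ (p + 1)) := by rw [hp]; ring
          _ ≤ A * ((p + 1) ^ d' * 2 ^ (p + 1)) := Nat.mul_le_mul hA (Nat.mul_le_mul_right _ h6)
          _ ≤ m := hq2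
      have h5r : (2:ℝ) ^ q ≤ m := by exact_mod_cast h5
      have h7 : q * Real.log 2 ≤ Real.log m := by
        rw [← Real.log_pow]; exact Real.log_le_log (by positivity) h5r
      rw [div_mul_eq_mul_div, le_div_iff₀ hl2]
      nlinarith
    have h8 : ((q:ℝ) + 1) ^ s ≤ (2 / Real.log 2) ^ s * (Real.log m) ^ s := by
      rw [← Real.mul_rpow (by positivity) hlogm0.le]
      exact Real.rpow_le_rpow hq0r.le hlog hs0
    have h9 : ((q:ℝ) + 1) ^ (d' * r) * ((q:ℝ) + 1) ^ (d' * (1 - t)) = ((q:ℝ) + 1) ^ s := by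
      rw [← Real.rpow_add hq0r]; congr 1; rw [hs]; ring
    calc C * (((2:ℝ) ^ (-r)) ^ p * ((q:ℝ) ^ d') ^ (1 - t))
        ≤ C * (((4 * (A:ℝ)) ^ r * ((m:ℝ) ^ (-r) * ((q:ℝ) + 1) ^ (d' * r))) *
          ((q:ℝ) + 1) ^ (d' * (1 - t))) := by
          refine mul_le_mul_of_nonneg_left ?_ (by linarith)
          exact mul_le_mul h3 h4 (by positivity) (by positivity)
      _ = C * (4 * (A:ℝ)) ^ r * (m:ℝ) ^ (-r) * ((q:ℝ) + 1) ^ s := by rw [← h9]; ring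
      _ ≤ C * (4 * (A:ℝ)) ^ r * (m:ℝ) ^ (-r) * ((2 / Real.log 2) ^ s * (Real.log m) ^ s) :=
          mul_le_mul_of_nonneg_left h8 (by positivity)
      _ = C2 * ((m:ℝ) ^ (-r) * (Real.log m) ^ s) := by rw [hC2']; ring
      _ ≤ _ := by
          refine mul_le_mul_of_nonneg_right ?_ hφ0
          linarith

end Pool.Agent.Helper218_SB
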