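import Pool.Agent.Helper218_SB.UMulti

namespace Pool.Agent.Helper218_SB

open MeasureTheory Set
open scoped ENNReal

variable {d : ℕ}

/-- product function -/
def pf (g : Fin d → AddCircle (2 * Real.pi) → ℝ) (x : Torus d) : ℝ := ∏ i, g i (x i)

theorem pf_continuous {g : Fin d → AddCircle (2 * Real.pi) → ℝ} (hg : ∀ i, Continuous (g i)) :
    Continuous (pf g) :=
  continuous_finsetProd _ (fun i _ => (hg i).comp (continuous_apply i))

theorem Em_pf (k : ℕ) (s : Fin d → ℕ) (g : Fin d → AddCircle (2 * Real.pi) → ℝ) (x : Torus d) :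
    Em k s (pf g) x = ∏ i, E1 k (s i) (g i) (x i) := by
  unfold Em E1 pf
  rw [Finset.prod_univ_sum, Fintype.piFinset_univ]
  refine Finset.sum_congr rfl (fun a _ => ?_)
  rw [← Finset.prod_mul_distrib]
  rfl

theorem Im_pf (k N : ℕ) (g : Fin d → AddCircle (2 * Real.pi) → ℝ) (x : Torus d) :
    Im k N (pf g) x = ∏ i, I1 k N (g i) (x i) := by
  unfold Im I1 pf
  rw [Finset.prod_univ_sum, Fintype.piFinset_univ]
  refine Finset.sum_congr rfl (fun a _ => ?_)
  rw [← Finset.prod_mul_distrib]
  rfl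

theorem Vm_pf (k N : ℕ) (g : Fin d → AddCircle (2 * Real.pi) → ℝ) (y : Torus d) :
    Vm k N (pf g) y = ∏ i, V1 k N (g i) (y i) := by
  unfold Vm V1 pf
  rw [← integral_fintype_prod_volume_eq_prod (fun i w => vv k N w * g i (y i + w))]
  congr 1
  funext w
  rw [← Finset.prod_mul_distrib]
  rfl

theorem Vm_pf' (k N : ℕ) (g : Fin d → AddCircle (2 * Real.pi) → ℝ) :
    Vm k N (pf g) = pf (fun i => V1 k N (g i)) := funext (fun y => Vm_pf k N g y)

theorem mixedDiff_pf (k : ℕ) (e : Finset (Fin d)) (h : Fin d → ℝ)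
    (g : Fin d → AddCircle (2 * Real.pi) → ℝ) (z : Torus d) :
    mixedDiff k e h (pf g) z = ∏ i, (if i ∈ e then diff1 k (g i)
      (fun j => z i + (((j : ℝ) * h i : ℝ) : AddCircle (2 * Real.pi)))
      else g i (z i)) := by
  classical
  have h1 : ∀ j ∈ jset k e,
      (∏ i ∈ e, (-1 : ℝ) ^ (k - j i) * (k.choose (j i) : ℝ)) * pf g (z + shv h j)
      = ∏ i, ((if i ∈ e then (-1 : ℝ) ^ (k - j i) * (k.choose (j i) : ℝ) else 1) *
        g i (z i + (((j i : ℝ) * h i : ℝ) : AddCircle (2 * Real.pi)))) := by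
    intro j _
    symm
    rw [Finset.prod_mul_distrib, Finset.prod_ite_mem, Finset.univ_inter]
    rfl
  have h2 : mixedDiff k e h (pf g) z = ∑ j ∈ jset k e,
      (∏ i ∈ e, (-1 : ℝ) ^ (k - j i) * (k.choose (j i) : ℝ)) * pf g (z + shv h j) := rfl
  rw [h2, Finset.sum_congr rfl h1]
  unfold jset
  rw [← Finset.prod_univ_sum (t := fun i => if i ∈ e then Finset.range (k + 1) else {0})
    (f := fun i j => ((if i ∈ e then (-1 : ℝ) ^ (k - j) * (k.choose j : ℝ) else 1) *
        g i (z i + (((j : ℝ) * h i : ℝ) : AddCircle (2 * Real.pi)))))]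
  refine Finset.prod_congr rfl (fun i _ => ?_)
  by_cases hi : i ∈ e
  · simp only [hi, if_true, diff1]
  · simp [hi]

theorem Dm_pf (k : ℕ) (u : Fin d → ℕ) (g : Fin d → AddCircle (2 * Real.pi) → ℝ) (z : Torus d) :
    Dm k u (pf g) z = ∏ i, D1 k (u i) (g i) (z i) := by
  unfold Dm D1
  rw [← integral_fintype_prod_volume_eq_prod (fun i (x : ℝ) => bn x * ∑ b : Bool, sc k (u i) b *
    (if u i = 0 then g i (z i) else diff1 k (g i)
      (fun j => z i + (((j : ℝ) * (st k (u i) b * x) : ℝ) : AddCircle (2 * Real.pi)))))]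
  congr 1
  funext x
  rw [Finset.prod_mul_distrib]
  congr 1
  rw [Finset.prod_univ_sum, Fintype.piFinset_univ]
  unfold Dk
  refine Finset.sum_congr rfl (fun b _ => ?_)
  rw [mixedDiff_pf, ← Finset.prod_mul_distrib]
  refine Finset.prod_congr rfl (fun i _ => ?_)
  congr 1
  by_cases hi : u i = 0
  · have h1 : i ∉ supp u := by simp [supp, hi]
    simp only [h1, if_false, hi, if_true]
  · have h1 : i ∈ supp u := by simp [supp, hi]
    simp only [h1, if_true, hi, if_false]

theorem D1_continuous {k : ℕ} (hk : 1 ≤ k) (u : ℕ) {g : AddCircle (2 * Real.pi) → ℝ}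
    (hg : Continuous g) : Continuous (D1 k u g) := by
  rcases u with _ | _ | u
  · have : D1 k 0 g = g := funext (fun z => D1_zero z)
    rw [this]; exact hg
  · have : D1 k 1 g = fun z => V1 k 2 g z - g z := funext (fun z => D1_one hk hg z)
    rw [this]; exact (V1_continuous k 2 hg).sub hg
  · have : D1 k (u + 2) g = fun z => V1 k (u + 3) g z - V1 k (u + 1) g z :=
      funext (fun z => D1_two hk u hg z)
    rw [this]; exact (V1_continuous k _ hg).sub (V1_continuous k _ hg)

theorem integral_kap (k s u : ℕ) {G : AddCircle (2 * Real.pi) → ℝ} (hG : Continuous G)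
    (x : AddCircle (2 * Real.pi)) :
    ∫ z, kap k s u x z * G z = E1 k s (V1 k (max u 1) G) x := by
  have h1 : ∀ y : AddCircle (2 * Real.pi), ∫ z, vv k (max u 1) (z - y) * G z = V1 k (max u 1) G y := by
    intro y
    unfold V1
    rw [← integral_add_left_eq_self (fun z => vv k (max u 1) (z - y) * G z) y]
    congr 1
    funext w
    rw [add_sub_cancel_left]
  unfold kap E1
  simp_rw [Finset.sum_mul]
  rw [integral_finsetSum]
  · refine Finset.sum_congr rfl (fun a _ => ?_)
    rw [← h1, ← integral_const_mul]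
    congr 1
    funext z
    ring
  · intro a _
    exact int_cont ((continuous_const.mul ((vv_continuous k _).comp
      (continuous_id.sub continuous_const))).mul hG)

/-- the one dimensional identity -/
theorem ident1 {k : ℕ} (hk : 1 ≤ k) (s M : ℕ) {g : AddCircle (2 * Real.pi) → ℝ} (hg : Continuous g)
    (x : AddCircle (2 * Real.pi)) :
    ∑ u ∈ Finset.range (M + 2), ∫ z, kap k s u x z * D1 k u g z
      = E1 k s (V1 k (M + 1) (V1 k (M + 2) g)) x := by
  rw [Finset.sum_congr rfl (fun u _ => integral_kap k s u (D1_continuous hk u hg) x)]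
  unfold E1
  rw [Finset.sum_comm]
  refine Finset.sum_congr rfl (fun a _ => ?_)
  rw [← Finset.mul_sum, tele1 hk M hg]

/-- telescoping of the interpolation operators -/
theorem sum_Em (k N : ℕ) {f : Torus d → ℝ} (hf : Continuous f) (x : Torus d) :
    ∑ s ∈ Fintype.piFinset (fun _ : Fin d => Finset.range (N + 1)), Em k s f x = Im k N f x := by
  refine IsBL.ext (Λ := fun f => ∑ s ∈ Fintype.piFinset (fun _ : Fin d => Finset.range (N + 1)),
    Em k s f x) (Λ' := fun f => Im k N f x) (IsBL.sum _ (fun s _ => isBL_Em k s x)) (isBL_Im k N x)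
    (fun g hg => ?_) hf
  show ∑ s ∈ Fintype.piFinset (fun _ : Fin d => Finset.range (N + 1)), Em k s (pf g) x
    = Im k N (pf g) x
  rw [Im_pf, Finset.sum_congr rfl (fun s _ => Em_pf k s g x)]
  rw [← Finset.prod_univ_sum (t := fun _ : Fin d => Finset.range (N + 1))
    (f := fun i s => E1 k s (g i) (x i))]
  exact Finset.prod_congr rfl (fun i _ => sum_E1 k N (g i) (x i))

/-- the kernel of the tensor product operators -/
noncomputable def Km (k : ℕ) (s u : Fin d → ℕ) (x z : Torus d) : ℝ :=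
  ∏ i, kap k (s i) (u i) (x i) (z i)

theorem Km_measurable (k : ℕ) (s u : Fin d → ℕ) :
    Measurable (fun p : Torus d × Torus d => Km k s u p.1 p.2) := by
  unfold Km
  refine Finset.measurable_prod _ (fun i _ => ?_)
  have h1 : Measurable (fun p : Torus d × Torus d => (p.1 i, p.2 i)) :=
    Measurable.prodMk ((measurable_pi_apply i).comp measurable_fst)
      ((measurable_pi_apply i).comp measurable_snd)
  have h2 := (kap_measurable k (s i) (u i)).comp h1
  exact h2

theorem Km_measurable_right (k : ℕ) (s u : Fin d → ℕ) (x : Torus d) :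
    Measurable (fun z : Torus d => Km k s u x z) := by
  have h1 : Measurable (fun z : Torus d => (x, z)) := Measurable.prodMk measurable_const measurable_id
  have h2 := (Km_measurable k s u).comp h1
  exact h2

theorem exists_Km_bound {k : ℕ} (hk : 1 ≤ k) (s u : Fin d → ℕ) : ∃ C : ℝ, 0 ≤ C ∧ ∀ x z,
    |Km k s u x z| ≤ C := by
  obtain ⟨C, hC1, hC⟩ := exists_kap_triv hk
  refine ⟨∏ i, (C * 2 ^ (u i)), Finset.prod_nonneg (fun i _ => by positivity), fun x z => ?_⟩
  unfold Km
  rw [Finset.abs_prod]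
  exact Finset.prod_le_prod (fun _ _ => abs_nonneg _) (fun i _ => hC _ _ _ _)

theorem Km_mul_integrable {k : ℕ} (hk : 1 ≤ k) (s u : Fin d → ℕ) (x : Torus d) {G : Torus d → ℝ}
    (hG : Continuous G) : Integrable (fun z => Km k s u x z * G z) volume := by
  obtain ⟨C, hC0, hC⟩ := exists_Km_bound hk s u
  obtain ⟨C', hC0', hC'⟩ := exists_abs_bound hG
  have hm : AEStronglyMeasurable (fun z => Km k s u x z * G z) volume :=
    ((Km_measurable_right k s u x).mul hG.measurable).aestronglyMeasurable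
  exact Integrable.of_bound hm (C * C') (Filter.Eventually.of_forall (fun z => by
    rw [Real.norm_eq_abs, abs_mul]
    exact mul_le_mul (hC x z) (hC' z) (abs_nonneg _) hC0))

/-- **The reproducing identity.** -/
theorem ident {k : ℕ} (hk : 1 ≤ k) (s : Fin d → ℕ) (M : ℕ) {f : Torus d → ℝ} (hf : Continuous f)
    (x : Torus d) :
    Em k s (Vm k (M + 1) (Vm k (M + 2) f)) x =
      ∑ u ∈ Fintype.piFinset (fun _ : Fin d => Finset.range (M + 2)),
        ∫ z, Km k s u x z * Dm k u f z := by
  have hV : ∀ N, ∀ (f : Torus d → ℝ), Continuous f → ∀ ε : ℝ, (∀ x, |f x| ≤ ε) → ∀ y,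
      |Vm k N f y| ≤ (∫ w : Torus d, |∏ i, vv k N (w i)|) * ε :=
    fun N f _ ε h y => abs_Vm_le k N ε h y
  have hB1 : IsBL (fun f : Torus d → ℝ => Em k s (Vm k (M + 1) (Vm k (M + 2) f)) x) := by
    have h1 : IsBL (fun f : Torus d → ℝ => Em k s (Vm k (M + 1) f) x) :=
      IsBL.comp (isBL_Em k s x) (fun f hf => Vm_continuous k (M + 1) hf)
        (fun y => isBL_Vm k (M + 1) y) (integral_nonneg (fun _ => abs_nonneg _)) (hV (M + 1))
    exact IsBL.comp h1 (fun f hf => Vm_continuous k (M + 2) hf)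
        (fun y => isBL_Vm k (M + 2) y) (integral_nonneg (fun _ => abs_nonneg _)) (hV (M + 2))
  have hB2 : IsBL (fun f : Torus d → ℝ =>
      ∑ u ∈ Fintype.piFinset (fun _ : Fin d => Finset.range (M + 2)),
        ∫ z, Km k s u x z * Dm k u f z) := by
    refine IsBL.sum _ (fun u _ => ?_)
    refine IsBL.integral (μ := volume) (K := fun z => Km k s u x z) (Λ := fun z f => Dm k u f z)
      (fun z => isBL_Dm k u z) (C := 2 ^ d * cD k (supp u))
      (mul_nonneg (by positivity) (cD_nonneg _ _)) (fun z f _ ε h => abs_Dm_le k u h z) ?_ ?_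
    · have := Km_mul_integrable hk s u x (G := fun _ => 1) continuous_const
      simpa using this
    · exact fun f hf => Km_mul_integrable hk s u x (Dm_continuous k u hf)
  refine IsBL.ext hB1 hB2 (fun g hg => ?_) hf
  show Em k s (Vm k (M + 1) (Vm k (M + 2) (pf g))) x =
      ∑ u ∈ Fintype.piFinset (fun _ : Fin d => Finset.range (M + 2)),
        ∫ z, Km k s u x z * Dm k u (pf g) z
  rw [Vm_pf', Vm_pf', Em_pf]
  have h2 : ∀ u : Fin d → ℕ, ∫ z, Km k s u x z * Dm k u (pf g) z
      = ∏ i, ∫ z, kap k (s i) (u i) (x i) z * D1 k (u i) (g i) z := by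
    intro u
    rw [← integral_fintype_prod_volume_eq_prod
      (fun i z => kap k (s i) (u i) (x i) z * D1 k (u i) (g i) z)]
    congr 1
    funext z
    rw [Dm_pf, Finset.prod_mul_distrib]
    rfl
  rw [Finset.sum_congr rfl (fun u _ => h2 u)]
  rw [← Finset.prod_univ_sum (t := fun _ : Fin d => Finset.range (M + 2))
    (f := fun i u => ∫ z, kap k (s i) u (x i) z * D1 k u (g i) z)]
  exact Finset.prod_congr rfl (fun i _ => (ident1 hk (s i) M (hg i) (x i)).symm)

end Pool.Agent.Helper218_SB
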