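import Pool.Agent.Helper218_SB.UMom

namespace Pool.Agent.Helper218_SB

open MeasureTheory Set
open scoped ENNReal

/-- lift of a point of the circle to `[0, 2π)` -/
noncomputable def lft (x : AddCircle (2 * Real.pi)) : ℝ :=
  (AddCircle.equivIco (2 * Real.pi) 0 x : ℝ)

theorem lft_measurable : Measurable lft :=
  measurable_subtype_coe.comp (AddCircle.measurableEquivIco (2 * Real.pi) 0).measurable

theorem coe_lft (x : AddCircle (2 * Real.pi)) : ((lft x : ℝ) : AddCircle (2 * Real.pi)) = x :=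
  (AddCircle.equivIco (2 * Real.pi) 0).symm_apply_apply x

theorem lft_nonneg (x : AddCircle (2 * Real.pi)) : 0 ≤ lft x :=
  (AddCircle.equivIco (2 * Real.pi) 0 x).2.1

theorem lft_lt (x : AddCircle (2 * Real.pi)) : lft x < 2 * Real.pi := by
  have := (AddCircle.equivIco (2 * Real.pi) 0 x).2.2
  have h : lft x < 0 + 2 * Real.pi := this
  linarith

/-- position relative to the grid of level `s` -/
noncomputable def ps (s : ℕ) (x : AddCircle (2 * Real.pi)) : ℝ := lft x * 2 ^ s / (2 * Real.pi)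

theorem ps_measurable (s : ℕ) : Measurable (ps s) := (lft_measurable.mul_const _).div_const _

theorem ps_nonneg (s : ℕ) (x) : 0 ≤ ps s x := by
  have := lft_nonneg x
  unfold ps; positivity

theorem ps_lt (s : ℕ) (x) : ps s x < 2 ^ s := by
  unfold ps
  rw [div_lt_iff₀ Real.two_pi_pos, mul_comm]
  exact mul_lt_mul_of_pos_left (lft_lt x) (by positivity)

/-- fractional part of the position -/
noncomputable def fr (s : ℕ) (x : AddCircle (2 * Real.pi)) : ℝ := Int.fract (ps s x)

/-- number of the cell -/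
noncomputable def cl (s : ℕ) (x : AddCircle (2 * Real.pi)) : ℕ := ⌊ps s x⌋₊

theorem fr_measurable (s : ℕ) : Measurable (fr s) := (ps_measurable s).fract
theorem cl_measurable (s : ℕ) : Measurable (cl s) := Nat.measurable_floor.comp (ps_measurable s)
theorem fr_nonneg (s : ℕ) (x) : 0 ≤ fr s x := Int.fract_nonneg _
theorem fr_lt_one (s : ℕ) (x) : fr s x < 1 := Int.fract_lt_one _

theorem cl_add_fr (s : ℕ) (x) : (cl s x : ℝ) + fr s x = ps s x := by
  unfold cl fr
  rw [natCast_floor_eq_intCast_floor (ps_nonneg s x)]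
  exact Int.floor_add_fract _

theorem cl_lt (s : ℕ) (x) : cl s x < 2 ^ s := by
  unfold cl
  rw [Nat.floor_lt (ps_nonneg s x)]
  push_cast
  exact ps_lt s x

/-- Lagrange basis on the nodes `0, …, k-1` -/
noncomputable def lb (k j : ℕ) (t : ℝ) : ℝ :=
  (Lagrange.basis (Finset.range k) (fun i : ℕ => (i:ℝ)) j).eval t

theorem lb_moment (k : ℕ) (t : ℝ) (i : ℕ) (hi : i < k) :
    ∑ j ∈ Finset.range k, lb k j t * ((j:ℝ) - t) ^ i = 0 ^ i := by
  classical
  have hinj : Set.InjOn (fun i : ℕ => (i:ℝ)) (Finset.range k) := fun a _ b _ h => by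
    have h' : (a:ℝ) = (b:ℝ) := h
    exact_mod_cast h'
  set P : Polynomial ℝ := (Polynomial.X - Polynomial.C t) ^ i with hP
  have hdeg : P.degree < (Finset.range k).card := by
    rw [hP, Polynomial.degree_pow, Polynomial.degree_X_sub_C, Finset.card_range]
    simpa using hi
  have h1 := Lagrange.eq_interpolate hinj hdeg
  have h2 := congrArg (Polynomial.eval t) h1
  rw [Lagrange.interpolate_apply, Polynomial.eval_finsetSum] at h2
  simp only [hP, Polynomial.eval_mul, Polynomial.eval_C, Polynomial.eval_pow, Polynomial.eval_sub,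
    Polynomial.eval_X, sub_self] at h2
  rw [h2]
  refine Finset.sum_congr rfl (fun j _ => ?_)
  rw [mul_comm]
  rfl

theorem exists_lb_bound (k : ℕ) : ∃ C : ℝ, 1 ≤ C ∧ ∀ j t, j < k → 0 ≤ t → t ≤ 1 → |lb k j t| ≤ C := by
  have h : ∀ j : ℕ, ∃ C : ℝ, ∀ t ∈ Set.Icc (0:ℝ) 1, ‖lb k j t‖ ≤ C := fun j =>
    isCompact_Icc.exists_bound_of_continuousOn (Polynomial.continuous _).continuousOn
  choose C hC using h
  refine ⟨1 + ∑ j ∈ Finset.range k, |C j|, ?_, ?_⟩
  · have : 0 ≤ ∑ j ∈ Finset.range k, |C j| := Finset.sum_nonneg (fun _ _ => abs_nonneg _)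
    linarith
  · intro j t hj h0 h1
    have h2 := hC j t ⟨h0, h1⟩
    have h3 : |C j| ≤ ∑ j ∈ Finset.range k, |C j| :=
      Finset.single_le_sum (f := fun j => |C j|) (fun _ _ => abs_nonneg _) (Finset.mem_range.2 hj)
    rw [Real.norm_eq_abs] at h2
    have h4 := le_abs_self (C j)
    linarith

/-- index set of the nodes of `η_s` -/
abbrev AA (k : ℕ) : Type := Bool × Fin k

/-- coefficients of the one dimensional operator `η_s = I_s - I_{s-1}` -/
noncomputable def cc (k s : ℕ) (a : AA k) (x : AddCircle (2 * Real.pi)) : ℝ :=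
  if a.1 then (if s = 0 then 0 else - lb k a.2 (fr (s - 1) x)) else lb k a.2 (fr s x)

/-- displacements of the nodes -/
noncomputable def tt (k s : ℕ) (a : AA k) (x : AddCircle (2 * Real.pi)) : ℝ :=
  if a.1 then 2 * Real.pi / 2 ^ (s - 1) * ((a.2 : ℕ) - fr (s - 1) x)
    else 2 * Real.pi / 2 ^ s * ((a.2 : ℕ) - fr s x)

theorem lb_measurable (k j : ℕ) : Measurable (lb k j) := (Polynomial.continuous _).measurable

theorem cc_measurable (k s : ℕ) (a : AA k) : Measurable (cc k s a) := by
  obtain ⟨b, j⟩ := a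
  unfold cc
  cases b
  · simp only [Bool.false_eq_true, if_false]
    exact (lb_measurable k j).comp (fr_measurable s)
  · by_cases hs : s = 0
    · simp [hs]
    · simp only [if_true, hs, if_false]
      exact ((lb_measurable k j).comp (fr_measurable (s - 1))).neg

theorem tt_measurable (k s : ℕ) (a : AA k) : Measurable (tt k s a) := by
  obtain ⟨b, j⟩ := a
  unfold tt
  cases b
  · simpa using (measurable_const.sub (fr_measurable s)).const_mul _
  · simpa using (measurable_const.sub (fr_measurable (s - 1))).const_mul _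

theorem exists_cc_bound (k : ℕ) : ∃ C : ℝ, 1 ≤ C ∧ ∀ s a x, |cc k s a x| ≤ C := by
  obtain ⟨C, hC1, hC⟩ := exists_lb_bound k
  refine ⟨C, hC1, ?_⟩
  rintro s ⟨b, j⟩ x
  unfold cc
  cases b
  · simpa using hC j _ j.2 (fr_nonneg s x) (fr_lt_one s x).le
  · by_cases hs : s = 0
    · simp [hs]; linarith
    · simpa [hs] using hC j _ j.2 (fr_nonneg (s - 1) x) (fr_lt_one (s - 1) x).le

theorem tt_bound (k s : ℕ) (a : AA k) (x) : |tt k s a x| ≤ 4 * Real.pi * k * (1/2) ^ s := by
  obtain ⟨b, j⟩ := a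
  have hj : ((j:ℕ):ℝ) ≤ k := by exact_mod_cast j.2.le
  have hk1 : (1:ℝ) ≤ k := by
    have : 1 ≤ k := by have := j.2; omega
    exact_mod_cast this
  have hpi := Real.pi_pos
  have hA : ∀ t : ℝ, 0 ≤ t → t < 1 → |((j:ℕ):ℝ) - t| ≤ k := by
    intro t h0 h1
    have hj0 : (0:ℝ) ≤ ((j:ℕ):ℝ) := Nat.cast_nonneg _
    rw [abs_le]; constructor <;> linarith
  unfold tt
  cases b
  · simp only [Bool.false_eq_true, if_false]
    rw [abs_mul, abs_of_pos (by positivity)]
    calc 2 * Real.pi / 2 ^ s * |((j:ℕ):ℝ) - fr s x| ≤ 2 * Real.pi / 2 ^ s * k :=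
          mul_le_mul_of_nonneg_left (hA _ (fr_nonneg s x) (fr_lt_one s x)) (by positivity)
      _ = 2 * Real.pi * k * (1/2) ^ s := by rw [div_pow, one_pow]; ring
      _ ≤ 4 * Real.pi * k * (1/2) ^ s := by
          have : 0 ≤ Real.pi * k * (1/2:ℝ) ^ s := by positivity
          linarith
  · simp only [if_true]
    rw [abs_mul, abs_of_pos (by positivity)]
    have h2 : 2 * Real.pi / 2 ^ (s - 1) ≤ 4 * Real.pi * (1/2) ^ s := by
      rcases Nat.eq_zero_or_pos s with h | h
      · subst h; simp; linarith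
      · obtain ⟨s', rfl⟩ : ∃ s', s = s' + 1 := ⟨s - 1, by omega⟩
        simp only [Nat.add_sub_cancel]
        rw [div_pow, one_pow, pow_succ]
        apply le_of_eq
        field_simp
        ring
    calc 2 * Real.pi / 2 ^ (s - 1) * |((j:ℕ):ℝ) - fr (s - 1) x|
        ≤ (4 * Real.pi * (1/2) ^ s) * k := by
          exact mul_le_mul h2 (hA _ (fr_nonneg _ x) (fr_lt_one _ x)) (abs_nonneg _) (by positivity)
      _ = _ := by ring

/-- moments of the coefficients -/
theorem cc_moment (k s : ℕ) (hs : s ≠ 0) (x) (i : ℕ) (hi : i < k) :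
    ∑ a : AA k, cc k s a x * (tt k s a x) ^ i = 0 := by
  have key : ∀ t A : ℝ, ∑ j : Fin k, lb k j t * (A * ((j:ℕ) - t)) ^ i = A ^ i * 0 ^ i := by
    intro t A
    rw [← lb_moment k t i hi, Finset.mul_sum, Finset.sum_range]
    refine Finset.sum_congr rfl (fun j _ => ?_)
    rw [mul_pow]; ring
  rw [Fintype.sum_prod_type, Fintype.sum_bool]
  simp only [cc, tt, if_true, Bool.false_eq_true, if_false, hs]
  have h1 := key (fr s x) (2 * Real.pi / 2 ^ s)
  have h2 := key (fr (s - 1) x) (2 * Real.pi / 2 ^ (s - 1))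
  simp only [neg_mul, Finset.sum_neg_distrib]
  rw [h1, h2]
  rcases Nat.eq_zero_or_pos i with h | h
  · subst h; simp
  · rw [zero_pow (by omega)]; simp

/-- the one dimensional operator `η_s` -/
noncomputable def E1 (k s : ℕ) (g : AddCircle (2 * Real.pi) → ℝ) (x : AddCircle (2 * Real.pi)) : ℝ :=
  ∑ a : AA k, cc k s a x * g (x + ((tt k s a x : ℝ) : AddCircle (2 * Real.pi)))

/-- the one dimensional interpolation operator of level `N` -/
noncomputable def I1 (k N : ℕ) (g : AddCircle (2 * Real.pi) → ℝ) (x : AddCircle (2 * Real.pi)) : ℝ :=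
  ∑ j : Fin k, lb k j (fr N x) *
    g (x + ((2 * Real.pi / 2 ^ N * ((j : ℕ) - fr N x) : ℝ) : AddCircle (2 * Real.pi)))

theorem E1_eq (k s : ℕ) (g : AddCircle (2 * Real.pi) → ℝ) (x : AddCircle (2 * Real.pi)) :
    E1 k s g x = I1 k s g x - (if s = 0 then 0 else I1 k (s - 1) g x) := by
  unfold E1 I1
  rw [Fintype.sum_prod_type, Fintype.sum_bool]
  simp only [cc, tt, if_true, Bool.false_eq_true, if_false]
  by_cases hs : s = 0
  · simp [hs]
  · simp only [hs, if_false, neg_mul, Finset.sum_neg_distrib]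
    ring

theorem sum_E1 (k N : ℕ) (g : AddCircle (2 * Real.pi) → ℝ) (x : AddCircle (2 * Real.pi)) :
    ∑ s ∈ Finset.range (N + 1), E1 k s g x = I1 k N g x := by
  induction N with
  | zero => simp [E1_eq]
  | succ N ih =>
    rw [Finset.sum_range_succ, ih, E1_eq]
    simp

end Pool.Agent.Helper218_SB
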