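import Pool.Agent.Helper218_SB.UTele

namespace Pool.Agent.Helper218_SB

open MeasureTheory Set
open scoped ENNReal

/-- kernel of `η_s V_u` -/
noncomputable def kap (k s u : ℕ) (x z : AddCircle (2 * Real.pi)) : ℝ :=
  ∑ a : AA k, cc k s a x * vv k (max u 1) (z - (x + ((tt k s a x : ℝ) : AddCircle (2 * Real.pi))))

theorem coe_measurable : Measurable (fun x : ℝ => (x : AddCircle (2 * Real.pi))) :=
  (AddCircle.continuous_mk' _).measurable

theorem kap_measurable (k s u : ℕ) :
    Measurable (fun p : AddCircle (2 * Real.pi) × AddCircle (2 * Real.pi) => kap k s u p.1 p.2) := by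
  unfold kap
  refine Finset.measurable_sum _ (fun a _ => ?_)
  refine ((cc_measurable k s a).comp measurable_fst).mul ?_
  refine (vv_continuous k _).measurable.comp ?_
  refine measurable_snd.sub (measurable_fst.add ?_)
  exact coe_measurable.comp ((tt_measurable k s a).comp measurable_fst)

theorem lintegral_le_of_supp {F : AddCircle (2 * Real.pi) → ℝ} {B ρ : ℝ}
    (z : AddCircle (2 * Real.pi)) (hB : 0 ≤ B) (hF : ∀ x, |F x| ≤ B)
    (h0 : ∀ x, ρ < ‖z - x‖ → F x = 0) : ∫⁻ x, ‖F x‖ₑ ≤ ENNReal.ofReal (B * (2 * ρ)) := by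
  have h1 : ∀ x, ‖F x‖ₑ ≤ (Metric.closedBall z ρ).indicator (fun _ => ENNReal.ofReal B) x := by
    intro x
    by_cases hx : x ∈ Metric.closedBall z ρ
    · rw [Set.indicator_of_mem hx, Real.enorm_eq_ofReal_abs]
      exact ENNReal.ofReal_le_ofReal (hF x)
    · rw [Set.indicator_of_notMem hx, h0 x]
      · simp
      · rw [Metric.mem_closedBall, not_le, dist_comm, dist_eq_norm] at hx
        exact hx
  calc ∫⁻ x, ‖F x‖ₑ ≤ ∫⁻ x, (Metric.closedBall z ρ).indicator (fun _ => ENNReal.ofReal B) x :=
        lintegral_mono h1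
    _ = ENNReal.ofReal B * volume (Metric.closedBall z ρ) := by
        rw [lintegral_indicator Metric.isClosed_closedBall.measurableSet, setLIntegral_const]
    _ ≤ ENNReal.ofReal B * ENNReal.ofReal (2 * ρ) := by
        rw [AddCircle.volume_closedBall]
        exact mul_le_mul_right (ENNReal.ofReal_le_ofReal (min_le_right _ _)) _
    _ = _ := by rw [← ENNReal.ofReal_mul hB]

theorem kap_zero {k : ℕ} (hk : 1 ≤ k) (s u : ℕ) (x z : AddCircle (2 * Real.pi))
    (h : (1/2) ^ u + 4 * Real.pi * k * (1/2) ^ s < ‖z - x‖) : kap k s u x z = 0 := by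
  unfold kap
  refine Finset.sum_eq_zero (fun a _ => ?_)
  rw [vv_zero hk, mul_zero]
  have h1 := tt_bound k s a x
  have h2 : ‖((tt k s a x : ℝ) : AddCircle (2 * Real.pi))‖ ≤ |tt k s a x| :=
    QuotientAddGroup.norm_mk_le_norm
  have h3 : ‖z - x‖ ≤ ‖z - (x + ((tt k s a x : ℝ) : AddCircle (2 * Real.pi)))‖ +
      ‖((tt k s a x : ℝ) : AddCircle (2 * Real.pi))‖ := by
    have : z - x = (z - (x + ((tt k s a x : ℝ) : AddCircle (2 * Real.pi)))) +
      ((tt k s a x : ℝ) : AddCircle (2 * Real.pi)) := by abel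
    calc ‖z - x‖ = ‖(z - (x + ((tt k s a x : ℝ) : AddCircle (2 * Real.pi)))) +
      ((tt k s a x : ℝ) : AddCircle (2 * Real.pi))‖ := by rw [← this]
      _ ≤ _ := norm_add_le _ _
  have h4 : (1/2:ℝ) ^ (max u 1) ≤ (1/2) ^ u :=
    pow_le_pow_of_le_one (by norm_num) (by norm_num) (le_max_left _ _)
  linarith

/-- trivial bound for the kernel -/
theorem exists_kap_triv {k : ℕ} (hk : 1 ≤ k) : ∃ C : ℝ, 1 ≤ C ∧ ∀ s u x z,
    |kap k s u x z| ≤ C * 2 ^ u := by
  obtain ⟨C, hC1, hC⟩ := exists_cc_bound k
  obtain ⟨B, hB1, hB⟩ := exists_vv_bound hk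
  have hk1 : (1:ℝ) ≤ k := by exact_mod_cast hk
  refine ⟨2 * k * (C * (B * 2)), ?_, ?_⟩
  · have h1 : 1 ≤ C * (B * 2) := by nlinarith
    nlinarith
  · intro s u x z
    have h2 : (2:ℝ) ^ (max u 1) ≤ 2 * 2 ^ u := by
      rcases Nat.eq_zero_or_pos u with h | h
      · subst h; norm_num
      · rw [max_eq_left (by omega : 1 ≤ u)]
        have : (0:ℝ) < 2 ^ u := by positivity
        linarith
    calc |kap k s u x z| ≤ ∑ a : AA k, |cc k s a x * vv k (max u 1)
          (z - (x + ((tt k s a x : ℝ) : AddCircle (2 * Real.pi))))| := Finset.abs_sum_le_sum_abs _ _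
      _ ≤ ∑ _a : AA k, C * (B * (2 * 2 ^ u)) := by
          refine Finset.sum_le_sum (fun a _ => ?_)
          rw [abs_mul]
          refine mul_le_mul (hC s a x) ?_ (abs_nonneg _) (by linarith)
          exact (hB _ _).trans (mul_le_mul_of_nonneg_left h2 (by linarith))
      _ = 2 * k * (C * (B * 2)) * 2 ^ u := by
          rw [Finset.sum_const, nsmul_eq_mul]
          simp only [Finset.card_univ, Fintype.card_prod, Fintype.card_bool, Fintype.card_fin]
          push_cast
          ring

/-- bound with cancellation -/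
theorem exists_kap_canc {k : ℕ} (hk : 1 ≤ k) : ∃ C : ℝ, 1 ≤ C ∧ ∀ s u x z, u ≤ s →
    |kap k s u x z| ≤ C * (2 ^ u * (1/2) ^ (k * (s - u))) := by
  obtain ⟨C, hC1, hC⟩ := exists_cc_bound k
  obtain ⟨B, hB1, hB⟩ := exists_bt_moment k
  obtain ⟨C3, hC31, hC3⟩ := exists_kap_triv hk
  have hk1 : (1:ℝ) ≤ k := by exact_mod_cast hk
  have hpi := Real.pi_gt_three
  set R : ℝ := 4 * Real.pi * k with hR
  have hR1 : 1 < R := by rw [hR]; nlinarith
  set C4 : ℝ := 2 ^ k * (B * (4 * k) * (2 * k * (C * (4 * k * R) ^ k))) with hC4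
  have hC40 : 0 ≤ C4 := by positivity
  refine ⟨C3 * R ^ k + C4, ?_, ?_⟩
  · have : (1:ℝ) ≤ R ^ k := one_le_pow₀ hR1.le
    nlinarith
  · intro s u x z hus
    have hY : (0:ℝ) < 2 ^ u * (1/2) ^ (k * (s - u)) := by positivity
    rcases le_or_gt (R * (1/2) ^ s) 1 with h | h
    · -- cancellation
      have hs : s ≠ 0 := by
        rintro rfl
        simp at h
        linarith
      have hτ : ∀ a ∈ (Finset.univ : Finset (AA k)), |tt k s a x| ≤ 1 := fun a _ =>
        (tt_bound k s a x).trans h
      have e1 : kap k s u x z = ∑ j ∈ Finset.range k, ((-1 : ℝ) ^ j * (k.choose (j + 1) : ℝ)) *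
          ∑ a : AA k, cc k s a x * bt ((j + 1) * hh k (max u 1))
            ((z - x) - ((tt k s a x : ℝ) : AddCircle (2 * Real.pi))) := by
        unfold kap vv
        simp_rw [Finset.mul_sum]
        rw [Finset.sum_comm]
        refine Finset.sum_congr rfl (fun j _ => Finset.sum_congr rfl (fun a _ => ?_))
        rw [sub_add_eq_sub_sub]
        ring
      have hmu : (2:ℝ) ^ (max u 1) ≤ 2 * 2 ^ u := by
        rcases Nat.eq_zero_or_pos u with h | h
        · subst h; norm_num
        · rw [max_eq_left (by omega : 1 ≤ u)]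
          have : (0:ℝ) < 2 ^ u := by positivity
          linarith
      have hterm : ∀ j ∈ Finset.range k, |((-1 : ℝ) ^ j * (k.choose (j + 1) : ℝ)) *
          ∑ a : AA k, cc k s a x * bt ((j + 1) * hh k (max u 1))
            ((z - x) - ((tt k s a x : ℝ) : AddCircle (2 * Real.pi)))|
          ≤ (k.choose (j + 1) : ℝ) * (B * (4 * k) * (2 * k * (C * (4 * k * R) ^ k)) *
            (2 ^ u * (1/2) ^ (k * (s - u)))) := by
        intro j hj
        have hj := Finset.mem_range.1 hj
        have hh0 := hh_pos hk (max u 1)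
        have ht : 0 < ((j:ℝ) + 1) * hh k (max u 1) := mul_pos (by positivity) hh0
        have ht1 : ((j:ℝ) + 1) * hh k (max u 1) ≤ 1 := by
          have := jhh_le hk (max u 1) hj
          have := half_pow_le (max u 1)
          linarith
        rw [abs_mul, abs_mul, abs_pow, abs_neg, abs_one, one_pow, one_mul,
          abs_of_nonneg (Nat.cast_nonneg _ : (0:ℝ) ≤ (k.choose (j + 1) : ℝ))]
        refine mul_le_mul_of_nonneg_left ?_ (Nat.cast_nonneg _)
        have h1 := hB Finset.univ _ ht ht1 (fun a => cc k s a x) (fun a => tt k s a x)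
          (fun i hi => cc_moment k s hs x i hi) hτ (z - x)
        refine h1.trans ?_
        have h3 : (((j:ℝ) + 1) * hh k (max u 1))⁻¹ ≤ 4 * k * 2 ^ u := by
          have h4 : hh k (max u 1) ≤ ((j:ℝ) + 1) * hh k (max u 1) := by
            have : (0:ℝ) ≤ (j:ℝ) * hh k (max u 1) := mul_nonneg (Nat.cast_nonneg _) hh0.le
            linarith
          calc (((j:ℝ) + 1) * hh k (max u 1))⁻¹ ≤ (hh k (max u 1))⁻¹ := inv_anti₀ hh0 h4
            _ = 2 * k * 2 ^ (max u 1) := by unfold hh; rw [div_pow, one_pow]; field_simp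
            _ ≤ 2 * k * (2 * 2 ^ u) := mul_le_mul_of_nonneg_left hmu (by positivity)
            _ = _ := by ring
        set ti := (((j:ℝ) + 1) * hh k (max u 1))⁻¹ with hti
        have hti0 : 0 < ti := inv_pos.2 ht
        have h5 : ∑ a : AA k, |cc k s a x| * (ti * |tt k s a x|) ^ k
            ≤ 2 * k * (C * ((4 * k * R) ^ k * (1/2) ^ (k * (s - u)))) := by
          have h6 : ∀ a : AA k, |cc k s a x| * (ti * |tt k s a x|) ^ k
              ≤ C * ((4 * k * R) ^ k * (1/2) ^ (k * (s - u))) := by
            intro a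
            refine mul_le_mul (hC s a x) ?_ (by positivity) (by linarith)
            have h7 : ti * |tt k s a x| ≤ (4 * k * R) * (1/2) ^ (s - u) := by
              calc ti * |tt k s a x| ≤ (4 * k * 2 ^ u) * (R * (1/2) ^ s) :=
                    mul_le_mul h3 (tt_bound k s a x) (abs_nonneg _) (by positivity)
                _ = (4 * k * R) * (1/2) ^ (s - u) := by
                    have e2 : (1/2:ℝ) ^ s = (1/2) ^ u * (1/2) ^ (s - u) := by
                      rw [← pow_add]; congr 1; omega
                    have e3 : (2:ℝ) ^ u * (1/2) ^ u = 1 := by rw [← mul_pow]; norm_num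
                    rw [e2]
                    calc 4 * (k:ℝ) * 2 ^ u * (R * ((1/2) ^ u * (1/2) ^ (s - u)))
                        = 4 * k * R * (1/2) ^ (s - u) * (2 ^ u * (1/2) ^ u) := by ring
                      _ = _ := by rw [e3, mul_one]
            calc (ti * |tt k s a x|) ^ k ≤ ((4 * k * R) * (1/2) ^ (s - u)) ^ k :=
                  pow_le_pow_left₀ (by positivity) h7 _
              _ = (4 * k * R) ^ k * (1/2) ^ (k * (s - u)) := by
                  rw [mul_pow ((4:ℝ) * k * R), ← pow_mul, mul_comm (s - u) k]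
          calc ∑ a : AA k, |cc k s a x| * (ti * |tt k s a x|) ^ k
              ≤ ∑ _a : AA k, C * ((4 * k * R) ^ k * (1/2) ^ (k * (s - u))) :=
                Finset.sum_le_sum (fun a _ => h6 a)
            _ = _ := by
                rw [Finset.sum_const, nsmul_eq_mul]
                simp only [Finset.card_univ, Fintype.card_prod, Fintype.card_bool, Fintype.card_fin]
                push_cast
                ring
        have hsum0 : 0 ≤ ∑ a : AA k, |cc k s a x| * (ti * |tt k s a x|) ^ k :=
          Finset.sum_nonneg (fun a _ => by positivity)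
        calc B * ti * ∑ a : AA k, |cc k s a x| * (ti * |tt k s a x|) ^ k
            ≤ B * (4 * k * 2 ^ u) * (2 * k * (C * ((4 * k * R) ^ k * (1/2) ^ (k * (s - u))))) := by
              refine mul_le_mul (mul_le_mul_of_nonneg_left h3 (by linarith)) h5 hsum0 (by positivity)
          _ = _ := by ring
      rw [e1]
      calc _ ≤ ∑ j ∈ Finset.range k, (k.choose (j + 1) : ℝ) * (B * (4 * k) *
            (2 * k * (C * (4 * k * R) ^ k)) * (2 ^ u * (1/2) ^ (k * (s - u)))) :=
            (Finset.abs_sum_le_sum_abs _ _).trans (Finset.sum_le_sum hterm)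
        _ = (∑ j ∈ Finset.range k, (k.choose (j + 1) : ℝ)) * (B * (4 * k) *
            (2 * k * (C * (4 * k * R) ^ k)) * (2 ^ u * (1/2) ^ (k * (s - u)))) := by
            rw [Finset.sum_mul]
        _ ≤ 2 ^ k * (B * (4 * k) *
            (2 * k * (C * (4 * k * R) ^ k)) * (2 ^ u * (1/2) ^ (k * (s - u)))) := by
            refine mul_le_mul_of_nonneg_right ?_ (by positivity)
            have h5 := Nat.sum_range_choose k
            rw [Finset.sum_range_succ'] at h5
            have h6 : ∑ j ∈ Finset.range k, k.choose (j + 1) ≤ 2 ^ k := by omega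
            exact_mod_cast h6
        _ = C4 * (2 ^ u * (1/2) ^ (k * (s - u))) := by rw [hC4]; ring
        _ ≤ _ := by
            refine mul_le_mul_of_nonneg_right ?_ hY.le
            have : 0 ≤ C3 * R ^ k := by positivity
            linarith
    · -- coarse level
      have h1 : (1:ℝ) ≤ R ^ k * (1/2) ^ (k * (s - u)) := by
        have h2 : (1:ℝ) ≤ R * (1/2) ^ (s - u) := by
          have h3 : (1/2:ℝ) ^ s ≤ (1/2) ^ (s - u) :=
            pow_le_pow_of_le_one (by norm_num) (by norm_num) (Nat.sub_le _ _)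
          have : R * (1/2) ^ s ≤ R * (1/2) ^ (s - u) := mul_le_mul_of_nonneg_left h3 (by linarith)
          linarith
        have h4 : (1:ℝ) ≤ (R * (1/2) ^ (s - u)) ^ k := one_le_pow₀ h2
        rwa [mul_pow, ← pow_mul, mul_comm (s - u) k] at h4
      calc |kap k s u x z| ≤ C3 * 2 ^ u := hC3 s u x z
        _ = C3 * 2 ^ u * 1 := (mul_one _).symm
        _ ≤ C3 * 2 ^ u * (R ^ k * (1/2) ^ (k * (s - u))) :=
            mul_le_mul_of_nonneg_left h1 (by positivity)
        _ = C3 * R ^ k * (2 ^ u * (1/2) ^ (k * (s - u))) := by ring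
        _ ≤ _ := by
            refine mul_le_mul_of_nonneg_right ?_ hY.le
            linarith

/-- weight for `p = 1` -/
noncomputable def w1 (k s u : ℕ) : ℝ := if u ≤ s then (1/2) ^ (k * (s - u)) else 2 ^ (u - s)

/-- weight for `p = ∞` -/
noncomputable def wi (k s u : ℕ) : ℝ := if u ≤ s then (1/2) ^ (k * (s - u)) else 1

theorem exists_kap_int {k : ℕ} (hk : 1 ≤ k) : ∃ C : ℝ, 1 ≤ C ∧ ∀ s u,
    (∀ z, ∫⁻ x, ‖kap k s u x z‖ₑ ≤ ENNReal.ofReal (C * w1 k s u)) ∧
    (∀ x, ∫⁻ z, ‖kap k s u x z‖ₑ ≤ ENNReal.ofReal (C * wi k s u)) := by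
  obtain ⟨C1, hC11, hC1⟩ := exists_kap_triv hk
  obtain ⟨C2, hC21, hC2⟩ := exists_kap_canc hk
  obtain ⟨C, hC1', hC⟩ := exists_cc_bound k
  obtain ⟨B, hB1, hB⟩ := exists_vv_bound hk
  have hk1 : (1:ℝ) ≤ k := by exact_mod_cast hk
  have hpi := Real.pi_gt_three
  set R : ℝ := 4 * Real.pi * k with hR
  have hR1 : 1 < R := by rw [hR]; nlinarith
  refine ⟨(C1 + C2) * (2 * (1 + R)) + 2 * k * (C * (B * 2)), ?_, ?_⟩
  · have h1 : 1 ≤ (C1 + C2) * (2 * (1 + R)) := by nlinarith
    have h2 : 0 ≤ 2 * k * (C * (B * 2)) := by positivity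
    linarith
  intro s u
  have hpow : (2:ℝ) ^ u * (1/2) ^ u = 1 := by rw [← mul_pow]; norm_num
  have hY : 0 ≤ 2 * k * (C * (B * 2)) := by positivity
  have hX : 0 ≤ C1 * (2 * (1 + R)) := by positivity
  have hX2 : 0 ≤ C2 * (2 * (1 + R)) := by positivity
  rcases le_or_gt u s with hus | hus
  · -- cancellation
    have hsupp : ∀ x z, (1 + R) * (1/2) ^ u < ‖z - x‖ → kap k s u x z = 0 := by
      intro x z h
      apply kap_zero hk
      have h3 : (1/2:ℝ) ^ s ≤ (1/2) ^ u := pow_le_pow_of_le_one (by norm_num) (by norm_num) hus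
      have : R * (1/2) ^ s ≤ R * (1/2) ^ u := mul_le_mul_of_nonneg_left h3 (by linarith)
      linarith
    have hfin : C2 * (2 ^ u * (1/2) ^ (k * (s - u))) * (2 * ((1 + R) * (1/2) ^ u))
        ≤ ((C1 + C2) * (2 * (1 + R)) + 2 * k * (C * (B * 2))) * (1/2) ^ (k * (s - u)) := by
      calc C2 * (2 ^ u * (1/2) ^ (k * (s - u))) * (2 * ((1 + R) * (1/2) ^ u))
          = C2 * (2 * (1 + R)) * (1/2) ^ (k * (s - u)) * (2 ^ u * (1/2) ^ u) := by ring
        _ = C2 * (2 * (1 + R)) * (1/2) ^ (k * (s - u)) := by rw [hpow, mul_one]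
        _ ≤ _ := by
            refine mul_le_mul_of_nonneg_right ?_ (by positivity)
            linarith
    constructor
    · intro z
      refine (lintegral_le_of_supp z (by positivity) (fun x => hC2 s u x z hus)
        (fun x hx => hsupp x z hx)).trans ?_
      apply ENNReal.ofReal_le_ofReal
      rw [w1, if_pos hus]
      exact hfin
    · intro x
      refine (lintegral_le_of_supp x (by positivity) (fun z => hC2 s u x z hus)
        (fun z hz => hsupp x z (by rwa [norm_sub_rev]))).trans ?_
      apply ENNReal.ofReal_le_ofReal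
      rw [wi, if_pos hus]
      exact hfin
  · constructor
    · intro z
      have hsupp : ∀ x, (1 + R) * (1/2) ^ s < ‖z - x‖ → kap k s u x z = 0 := by
        intro x h
        apply kap_zero hk
        have h3 : (1/2:ℝ) ^ u ≤ (1/2) ^ s := pow_le_pow_of_le_one (by norm_num) (by norm_num) hus.le
        linarith
      refine (lintegral_le_of_supp z (by positivity) (fun x => hC1 s u x z) hsupp).trans ?_
      apply ENNReal.ofReal_le_ofReal
      rw [w1, if_neg (by omega)]
      have e : (2:ℝ) ^ u * (1/2) ^ s = 2 ^ (u - s) := by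
        have e1 : (2:ℝ) ^ u = 2 ^ (u - s) * 2 ^ s := by rw [← pow_add]; congr 1; omega
        rw [e1, mul_assoc, ← mul_pow]
        norm_num
      calc C1 * 2 ^ u * (2 * ((1 + R) * (1/2) ^ s))
          = C1 * (2 * (1 + R)) * (2 ^ u * (1/2) ^ s) := by ring
        _ = C1 * (2 * (1 + R)) * 2 ^ (u - s) := by rw [e]
        _ ≤ _ := by
            refine mul_le_mul_of_nonneg_right ?_ (by positivity)
            linarith
    · intro x
      rw [wi, if_neg (by omega), mul_one]
      have hvvm : ∀ y : AddCircle (2 * Real.pi), Measurable (fun z => ‖vv k (max u 1) (z - y)‖ₑ) :=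
        fun y => ((vv_continuous k _).measurable.comp (measurable_id.sub_const y)).enorm
      have hvv : ∫⁻ w, ‖vv k (max u 1) w‖ₑ ≤ ENNReal.ofReal (B * 2) := by
        refine (lintegral_le_of_supp (ρ := (1/2) ^ (max u 1)) 0 (by positivity)
          (fun w => hB (max u 1) w) (fun w hw => ?_)).trans ?_
        · apply vv_zero hk
          rw [zero_sub, norm_neg] at hw
          exact hw.le
        · apply ENNReal.ofReal_le_ofReal
          have : (2:ℝ) ^ (max u 1) * (1/2) ^ (max u 1) = 1 := by rw [← mul_pow]; norm_num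
          nlinarith
      calc ∫⁻ z, ‖kap k s u x z‖ₑ ≤ ∫⁻ z, ∑ a : AA k, ENNReal.ofReal C *
            ‖vv k (max u 1) (z - (x + ((tt k s a x : ℝ) : AddCircle (2 * Real.pi))))‖ₑ := by
            refine lintegral_mono (fun z => ?_)
            unfold kap
            refine (enorm_sum_le _ _).trans (Finset.sum_le_sum (fun a _ => ?_))
            rw [enorm_mul]
            refine mul_le_mul_left ?_ _
            rw [Real.enorm_eq_ofReal_abs]
            exact ENNReal.ofReal_le_ofReal (hC s a x)
        _ = ∑ a : AA k, ENNReal.ofReal C * ∫⁻ w, ‖vv k (max u 1) w‖ₑ := by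
            rw [lintegral_finsetSum _ (fun a _ => (hvvm _).const_mul _)]
            refine Finset.sum_congr rfl (fun a _ => ?_)
            rw [lintegral_const_mul _ (hvvm _)]
            congr 1
            exact lintegral_sub_right_eq_self (fun z => ‖vv k (max u 1) z‖ₑ) _
        _ ≤ ∑ _a : AA k, ENNReal.ofReal C * ENNReal.ofReal (B * 2) :=
            Finset.sum_le_sum (fun a _ => mul_le_mul_right hvv _)
        _ = ENNReal.ofReal (2 * k * (C * (B * 2))) := by
            rw [Finset.sum_const, nsmul_eq_mul, ← ENNReal.ofReal_mul (by linarith),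
              ← ENNReal.ofReal_natCast, ← ENNReal.ofReal_mul (Nat.cast_nonneg _)]
            simp only [Finset.card_univ, Fintype.card_prod, Fintype.card_bool, Fintype.card_fin]
            congr 1
            push_cast
            ring
        _ ≤ _ := by
            apply ENNReal.ofReal_le_ofReal
            have : 0 ≤ (C1 + C2) * (2 * (1 + R)) := by positivity
            linarith

end Pool.Agent.Helper218_SB
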