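import Pool.Agent.Helper218_SB.UConv

namespace Pool.Agent.Helper218_SB

open MeasureTheory Set
open scoped ENNReal

variable {d : ℕ}

/-- the modulus at dyadic scales -/
noncomputable def Mo (top : Bool) (k : ℕ) (u : Fin d → ℕ) (f : Torus d → ℝ) : ℝ≥0∞ :=
  mixedModulus k (supp u) (pp top) f (fun i => (1/2) ^ (u i))

theorem NN_add_const (top : Bool) {F : Torus d → ℝ≥0∞} (c : ℝ≥0∞) :
    NN top (fun x => c + F x) ≤ (1 + volume (Set.univ : Set (Torus d))) * c + NN top F :=
  (NN_add top measurable_const).trans (add_le_add (NN_const top c) le_rfl)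

theorem small_const (d : ℕ) {ε : NNReal} (hε : 0 < ε) {C : ℝ} (hC : 1 ≤ C) :
    ∃ ε' : ℝ, 0 < ε' ∧ (1 + volume (Set.univ : Set (Torus d))) * ENNReal.ofReal (C * ε') ≤ ε := by
  set V : ℝ := volume.real (Set.univ : Set (Torus d)) with hV
  have hV0 : 0 ≤ V := measureReal_nonneg
  have hVe : volume (Set.univ : Set (Torus d)) = ENNReal.ofReal V := by
    rw [hV, measureReal_def, ENNReal.ofReal_toReal (measure_ne_top _ _)]
  have hε' : (0:ℝ) < ε := by exact_mod_cast hε
  refine ⟨ε / ((1 + V) * C), by positivity, ?_⟩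
  have h1 : (1 : ℝ≥0∞) = ENNReal.ofReal 1 := ENNReal.ofReal_one.symm
  rw [hVe, h1, ← ENNReal.ofReal_add zero_le_one hV0, ← ENNReal.ofReal_mul (by positivity)]
  have h2 : (1 + V) * (C * (ε / ((1 + V) * C))) = ε := by field_simp
  rw [h2, ENNReal.ofReal_coe_nnreal]

/-- The norm of `η_s f`. -/
theorem exists_NN_Em_le {k : ℕ} (hk : 1 ≤ k) (top : Bool) : ∃ C : ℝ, 1 ≤ C ∧
    ∀ (d : ℕ) (s : Fin d → ℕ) (f : Torus d → ℝ), Continuous f →
      NN top (fun x => ‖Em k s f x‖ₑ) ≤
        ∑' u : Fin d → ℕ, (∏ i, ENNReal.ofReal (C * ww top k (s i) (u i))) * (2 ^ d * Mo top k u f) := by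
  obtain ⟨C, hC1, hC⟩ := exists_NN_kernel hk top
  refine ⟨C, hC1, ?_⟩
  intro d s f hf
  refine ENNReal.le_of_forall_pos_le_add (fun ε hε _ => ?_)
  obtain ⟨B, hB1, hB⟩ := exists_Em_bound hk d
  obtain ⟨ε', hε', hε''⟩ := small_const d hε hB1
  obtain ⟨M, hM⟩ := exists_mollify hk hf hε'
  set X : Torus d → ℝ := Vm k (M + 1) (Vm k (M + 2) f) with hX
  have hXc : Continuous X := Vm_continuous _ _ (Vm_continuous _ _ hf)
  have h1 : ∀ x, ‖Em k s f x‖ₑ ≤ ENNReal.ofReal (B * ε') + ‖Em k s X x‖ₑ := by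
    intro x
    have hb := isBL_Em k s x
    have e1 : Em k s f x = Em k s (fun y => f y + (-1) * X y) x + Em k s X x := by
      rw [hb.add f (fun y => (-1) * X y) hf (continuous_const.mul hXc), hb.smul (-1) X hXc]
      ring
    have h2 : ‖Em k s (fun y => f y + (-1) * X y) x‖ₑ ≤ ENNReal.ofReal (B * ε') := by
      rw [Real.enorm_eq_ofReal_abs]
      apply ENNReal.ofReal_le_ofReal
      apply hB
      intro y
      have : f y + (-1) * X y = f y - X y := by ring
      rw [this]; exact hM y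
    calc ‖Em k s f x‖ₑ = ‖Em k s (fun y => f y + (-1) * X y) x + Em k s X x‖ₑ := by rw [e1]
      _ ≤ ‖Em k s (fun y => f y + (-1) * X y) x‖ₑ + ‖Em k s X x‖ₑ := enorm_add_le _ _
      _ ≤ _ := add_le_add h2 le_rfl
  have h3 : NN top (fun x => ‖Em k s X x‖ₑ) ≤
      ∑' u : Fin d → ℕ, (∏ i, ENNReal.ofReal (C * ww top k (s i) (u i))) * (2 ^ d * Mo top k u f) := by
    calc NN top (fun x => ‖Em k s X x‖ₑ)
        ≤ NN top (fun x => ∑ u ∈ Fintype.piFinset (fun _ : Fin d => Finset.range (M + 2)),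
          ‖∫ z, Km k s u x z * Dm k u f z‖ₑ) := by
          refine NN_mono top (fun x => ?_)
          rw [hX, ident hk s M hf x]
          exact enorm_sum_le _ _
      _ ≤ ∑ u ∈ Fintype.piFinset (fun _ : Fin d => Finset.range (M + 2)),
          NN top (fun x => ‖∫ z, Km k s u x z * Dm k u f z‖ₑ) := by
          refine NN_sum top _ (fun u _ => ?_)
          have hDm : Measurable (fun p : Torus d × Torus d => Km k s u p.1 p.2 * Dm k u f p.2) :=
            (Km_measurable k s u).mul ((Dm_continuous k u hf).measurable.comp measurable_snd)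
          have hsm := StronglyMeasurable.integral_prod_right'
            (ν := (volume : Measure (Torus d))) hDm.stronglyMeasurable
          exact hsm.measurable.enorm
      _ ≤ ∑ u ∈ Fintype.piFinset (fun _ : Fin d => Finset.range (M + 2)),
          (∏ i, ENNReal.ofReal (C * ww top k (s i) (u i))) * (2 ^ d * Mo top k u f) := by
          refine Finset.sum_le_sum (fun u _ => ?_)
          refine (hC d s u (Dm k u f) (Dm_continuous k u hf)).trans ?_
          exact mul_le_mul_right (NN_Dm_le hk top u hf) _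
      _ ≤ _ := ENNReal.sum_le_tsum _
  calc NN top (fun x => ‖Em k s f x‖ₑ)
      ≤ NN top (fun x => ENNReal.ofReal (B * ε') + ‖Em k s X x‖ₑ) := NN_mono top h1
    _ ≤ (1 + volume (Set.univ : Set (Torus d))) * ENNReal.ofReal (B * ε') +
        NN top (fun x => ‖Em k s X x‖ₑ) := NN_add_const top _
    _ ≤ ε + _ := add_le_add hε'' h3
    _ = _ := add_comm _ _

/-- the Smolyak operator -/
noncomputable def Tn (k n : ℕ) (f : Torus d → ℝ) (x : Torus d) : ℝ :=
  ∑ s ∈ (Fintype.piFinset (fun _ : Fin d => Finset.range (n + 1))).filter (fun s => ∑ i, s i ≤ n),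
    Em k s f x

theorem NN_sub_Tn_le {k : ℕ} (hk : 1 ≤ k) (top : Bool) (n : ℕ) {f : Torus d → ℝ}
    (hf : Continuous f) : NN top (fun x => ‖f x - Tn k n f x‖ₑ) ≤
      ∑' s : Fin d → ℕ, (if n < ∑ i, s i then NN top (fun x => ‖Em k s f x‖ₑ) else 0) := by
  classical
  refine ENNReal.le_of_forall_pos_le_add (fun ε hε _ => ?_)
  obtain ⟨ε', hε', hε''⟩ := small_const d hε le_rfl
  obtain ⟨N, hnN, hN⟩ := exists_interp hk hf hε' n
  set P : Finset (Fin d → ℕ) := Fintype.piFinset (fun _ : Fin d => Finset.range (N + 1)) with hP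
  have hfilter : P.filter (fun s => ∑ i, s i ≤ n) =
      (Fintype.piFinset (fun _ : Fin d => Finset.range (n + 1))).filter (fun s => ∑ i, s i ≤ n) := by
    ext s
    simp only [hP, Finset.mem_filter, Fintype.mem_piFinset, Finset.mem_range]
    constructor
    · rintro ⟨_, h⟩
      refine ⟨fun i => ?_, h⟩
      have := Finset.single_le_sum (f := s) (fun _ _ => Nat.zero_le _) (Finset.mem_univ i)
      omega
    · rintro ⟨h1, h⟩
      refine ⟨fun i => ?_, h⟩
      have := h1 i
      omega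
  have e1 : ∀ x, f x - Tn k n f x = (f x - Im k N f x) +
      ∑ s ∈ P.filter (fun s => ¬ ∑ i, s i ≤ n), Em k s f x := by
    intro x
    have h1 := sum_Em k N hf x
    rw [← hP, ← Finset.sum_filter_add_sum_filter_not P (fun s => ∑ i, s i ≤ n)] at h1
    unfold Tn
    rw [← hfilter, ← h1]
    ring
  have h2 : ∀ x, ‖f x - Tn k n f x‖ₑ ≤ ENNReal.ofReal (1 * ε') +
      ∑ s ∈ P.filter (fun s => ¬ ∑ i, s i ≤ n), ‖Em k s f x‖ₑ := by
    intro x
    rw [e1 x]
    refine (enorm_add_le _ _).trans (add_le_add ?_ (enorm_sum_le _ _))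
    rw [Real.enorm_eq_ofReal_abs, one_mul]
    exact ENNReal.ofReal_le_ofReal (hN x)
  calc NN top (fun x => ‖f x - Tn k n f x‖ₑ)
      ≤ NN top (fun x => ENNReal.ofReal (1 * ε') +
        ∑ s ∈ P.filter (fun s => ¬ ∑ i, s i ≤ n), ‖Em k s f x‖ₑ) := NN_mono top h2
    _ ≤ (1 + volume (Set.univ : Set (Torus d))) * ENNReal.ofReal (1 * ε') +
        NN top (fun x => ∑ s ∈ P.filter (fun s => ¬ ∑ i, s i ≤ n), ‖Em k s f x‖ₑ) :=
        NN_add_const top _
    _ ≤ ε + ∑ s ∈ P.filter (fun s => ¬ ∑ i, s i ≤ n), NN top (fun x => ‖Em k s f x‖ₑ) :=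
        add_le_add hε'' (NN_sum top _ (fun s _ => (Em_measurable k s hf).enorm))
    _ = ε + ∑ s ∈ P.filter (fun s => ¬ ∑ i, s i ≤ n),
        (if n < ∑ i, s i then NN top (fun x => ‖Em k s f x‖ₑ) else 0) := by
        congr 1
        refine Finset.sum_congr rfl (fun s hs => ?_)
        have : n < ∑ i, s i := not_le.1 (Finset.mem_filter.1 hs).2
        rw [if_pos this]
    _ ≤ ε + ∑' s : Fin d → ℕ, (if n < ∑ i, s i then NN top (fun x => ‖Em k s f x‖ₑ) else 0) :=
        add_le_add le_rfl (ENNReal.sum_le_tsum _)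
    _ = _ := add_comm _ _

end Pool.Agent.Helper218_SB
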