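import Pool.Agent.Helper218_SB.UInterp

namespace Pool.Agent.Helper218_SB

open MeasureTheory Set
open scoped ENNReal

/-- normalised bump on the line -/
noncomputable def bn (x : ℝ) : ℝ := bmp.normed volume x

theorem bn_nonneg (x : ℝ) : 0 ≤ bn x := bmp.nonneg_normed x
theorem bn_neg (x : ℝ) : bn (-x) = bn x := bmp.normed_neg x
theorem bn_continuous : Continuous bn := bmp.continuous_normed
theorem bn_integral : ∫ x, bn x = 1 := bmp.integral_normed
theorem bn_integrable : Integrable bn volume := bmp.integrable_normed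
theorem bn_contDiff (n : ℕ) : ContDiff ℝ n bn := bmp.contDiff_normed

theorem bn_zero (x : ℝ) (h : 1 ≤ |x|) : bn x = 0 := by
  by_contra hne
  have h1 : x ∈ Function.support (bmp.normed volume) := hne
  rw [bmp.support_normed_eq] at h1
  have e : bmp.rOut = 1 := rfl
  rw [e, Metric.mem_ball, Real.dist_eq, sub_zero] at h1
  linarith

theorem exists_bn_bound : ∃ C : ℝ, 1 ≤ C ∧ ∀ x, bn x ≤ C := by
  obtain ⟨C, hC⟩ := bn_continuous.bounded_above_of_compact_support
    (bmp.hasCompactSupport_normed (μ := volume))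
  refine ⟨max 1 C, le_max_left _ _, fun x => ?_⟩
  exact ((le_abs_self _).trans (hC x)).trans (le_max_right _ _)

theorem exists_bn_deriv_bound (k : ℕ) : ∃ C : ℝ, 1 ≤ C ∧ ∀ x, |iteratedDeriv k bn x| ≤ C := by
  have hc : Continuous (iteratedDeriv k bn) := (bn_contDiff k).continuous_iteratedDeriv k le_rfl
  have hs : HasCompactSupport (iteratedDeriv k bn) := by
    have h1 : HasCompactSupport bn := bmp.hasCompactSupport_normed
    have h2 := h1.iteratedFDeriv (𝕜 := ℝ) k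
    rw [iteratedDeriv_eq_equiv_comp]
    exact h2.comp_left (by simp)
  obtain ⟨A, hA⟩ := hc.bounded_above_of_compact_support hs
  refine ⟨max 1 A, le_max_left _ _, fun x => ?_⟩
  have := hA x
  rw [Real.norm_eq_abs] at this
  exact this.trans (le_max_right _ _)

/-- the bump on the circle at scale `t` -/
noncomputable def bt (t : ℝ) (w : AddCircle (2 * Real.pi)) : ℝ := t⁻¹ * bn (t⁻¹ * ‖w‖)

theorem bt_nonneg {t : ℝ} (ht : 0 < t) (w) : 0 ≤ bt t w :=
  mul_nonneg (inv_pos.2 ht).le (bn_nonneg _)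

theorem bt_continuous (t : ℝ) : Continuous (bt t) :=
  continuous_const.mul (bn_continuous.comp (continuous_const.mul continuous_norm))

theorem bt_zero {t : ℝ} (ht : 0 < t) (w : AddCircle (2 * Real.pi)) (h : t ≤ ‖w‖) : bt t w = 0 := by
  unfold bt
  rw [bn_zero, mul_zero]
  rw [abs_of_nonneg (mul_nonneg (inv_pos.2 ht).le (norm_nonneg _)), inv_mul_eq_div, le_div_iff₀ ht]
  linarith

/-- a point outside the fundamental interval is not close to zero -/
theorem norm_coe_ge (v : ℝ) (hv : |v| ≤ 3 * Real.pi / 2) (h : Real.pi < |v|) :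
    Real.pi / 2 ≤ ‖(v : AddCircle (2 * Real.pi))‖ := by
  have hpi := Real.pi_gt_three
  rw [AddCircle.norm_eq]
  set z := round ((2 * Real.pi)⁻¹ * v) with hz
  rcases eq_or_ne z 0 with h0 | h0
  · rw [h0]; simp; linarith
  · have h2 : (1:ℝ) ≤ |(z:ℝ)| := by
      rw [← Int.cast_abs]; exact_mod_cast Int.one_le_abs h0
    have h3 : |(z:ℝ) * (2 * Real.pi)| ≤ |v - z * (2 * Real.pi)| + |v| := by
      have : (z:ℝ) * (2 * Real.pi) = v - (v - z * (2 * Real.pi)) := by ring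
      rw [this]
      calc _ ≤ |v| + |v - z * (2 * Real.pi)| := by
            simpa [abs_sub_comm] using abs_sub v (v - z * (2 * Real.pi))
        _ = |v - (v - (v - z * (2 * Real.pi)))| + |v| := by
            rw [add_comm]; congr 2; ring
    rw [abs_mul, abs_of_pos Real.two_pi_pos] at h3
    nlinarith

theorem bt_coe {t : ℝ} (ht : 0 < t) (ht1 : t ≤ 1) (v : ℝ) (hv : |v| ≤ 3 * Real.pi / 2) :
    bt t (v : AddCircle (2 * Real.pi)) = t⁻¹ * bn (t⁻¹ * v) := by
  have hpi := Real.pi_gt_three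
  rcases le_or_gt |v| Real.pi with h | h
  · have e : ‖(v : AddCircle (2 * Real.pi))‖ = |v| := by
      rw [AddCircle.norm_coe_eq_abs_iff _ (by positivity)]
      rw [abs_of_pos Real.two_pi_pos]; linarith
    unfold bt
    rw [e]
    rcases abs_choice v with h' | h'
    · rw [h']
    · rw [h', mul_neg, bn_neg]
  · rw [bt_zero ht _ (by linarith [norm_coe_ge v hv h]), bn_zero, mul_zero]
    rw [abs_mul, abs_of_pos (inv_pos.2 ht), inv_mul_eq_div, le_div_iff₀ ht]
    linarith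

/-- change of variables between the circle and the line -/
theorem integral_bt {t : ℝ} (ht : 0 < t) (ht1 : t ≤ 1) (g : AddCircle (2 * Real.pi) → ℝ) :
    ∫ w, bt t w * g w = ∫ x : ℝ, bn x * g ((t * x : ℝ) : AddCircle (2 * Real.pi)) := by
  have hpi := Real.pi_gt_three
  rw [← AddCircle.integral_preimage (2 * Real.pi) (-Real.pi)]
  have e1 : ∀ a ∈ Set.Ioc (-Real.pi) (-Real.pi + 2 * Real.pi),
      bt t (a : AddCircle (2 * Real.pi)) * g (a : AddCircle (2 * Real.pi))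
      = t⁻¹ * bn (t⁻¹ * a) * g (a : AddCircle (2 * Real.pi)) := by
    intro a ha
    rw [bt_coe ht ht1]
    rw [abs_le]; constructor <;> linarith [ha.1, ha.2]
  rw [setIntegral_congr_fun measurableSet_Ioc e1, setIntegral_eq_integral_of_forall_compl_eq_zero]
  · have e2 : (fun x : ℝ => t⁻¹ * bn (t⁻¹ * x) * g (x : AddCircle (2 * Real.pi))) = fun x =>
        (fun y : ℝ => t⁻¹ * (bn y * g ((t * y : ℝ) : AddCircle (2 * Real.pi)))) (t⁻¹ * x) := by
      funext x
      simp only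
      rw [← mul_assoc t, mul_inv_cancel₀ ht.ne', one_mul, mul_assoc]
    have e3 := Measure.integral_comp_mul_left
      (fun y : ℝ => t⁻¹ * (bn y * g ((t * y : ℝ) : AddCircle (2 * Real.pi)))) t⁻¹
    rw [e2, e3, inv_inv, abs_of_pos ht, smul_eq_mul,
      integral_const_mul, ← mul_assoc, mul_inv_cancel₀ ht.ne', one_mul]
  · intro x hx
    rw [bn_zero, mul_zero, zero_mul]
    rw [abs_mul, abs_of_pos (inv_pos.2 ht), inv_mul_eq_div, le_div_iff₀ ht]
    by_contra hcon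
    push Not at hcon
    apply hx
    rw [one_mul] at hcon
    have := abs_lt.1 hcon
    constructor <;> linarith [this.1, this.2]

theorem integral_bt_one {t : ℝ} (ht : 0 < t) (ht1 : t ≤ 1) : ∫ w, bt t w = 1 := by
  have := integral_bt ht ht1 (fun _ => 1)
  simpa [bn_integral] using this

/-- Cancellation: a functional with vanishing moments applied to the bump. -/
theorem exists_bt_moment (k : ℕ) : ∃ C : ℝ, 1 ≤ C ∧ ∀ {A : Type} (s : Finset A) (t : ℝ),
    0 < t → t ≤ 1 → ∀ (c τ : A → ℝ), (∀ i < k, ∑ a ∈ s, c a * τ a ^ i = 0) → (∀ a ∈ s, |τ a| ≤ 1) →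
    ∀ y : AddCircle (2 * Real.pi),
      |∑ a ∈ s, c a * bt t (y - ((τ a : ℝ) : AddCircle (2 * Real.pi)))|
        ≤ C * t⁻¹ * ∑ a ∈ s, |c a| * (t⁻¹ * |τ a|) ^ k := by
  obtain ⟨C, hC1, hC⟩ := exists_bn_deriv_bound k
  refine ⟨C, hC1, ?_⟩
  intro A s t ht ht1 c τ hmom hτ y
  have hpi := Real.pi_gt_three
  obtain ⟨u, hu, rfl⟩ : ∃ u : ℝ, |u| ≤ Real.pi ∧ (u : AddCircle (2 * Real.pi)) = y := by
    have := (AddCircle.coe_image_Ico_eq (2 * Real.pi) (-Real.pi))
    have hy : y ∈ ((↑) : ℝ → AddCircle (2 * Real.pi)) '' Set.Ico (-Real.pi) (-Real.pi + 2 * Real.pi) := by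
      rw [this]; trivial
    obtain ⟨u, hu, rfl⟩ := hy
    refine ⟨u, abs_le.2 ⟨hu.1, by linarith [hu.2]⟩, rfl⟩
  have e1 : ∑ a ∈ s, c a * bt t ((u : AddCircle (2 * Real.pi)) - ((τ a : ℝ) : AddCircle (2 * Real.pi)))
      = t⁻¹ * ∑ a ∈ s, c a * bn (t⁻¹ * u + (-(t⁻¹ * τ a))) := by
    rw [Finset.mul_sum]
    refine Finset.sum_congr rfl (fun a ha => ?_)
    rw [← AddCircle.coe_sub, bt_coe ht ht1]
    · rw [show t⁻¹ * (u - τ a) = t⁻¹ * u + (-(t⁻¹ * τ a)) by ring]; ring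
    · calc |u - τ a| ≤ |u| + |τ a| := abs_sub _ _
        _ ≤ Real.pi + 1 := add_le_add hu (hτ a ha)
        _ ≤ _ := by linarith
  rw [e1, abs_mul, abs_of_pos (inv_pos.2 ht)]
  have h := abs_sum_moment_le s k C bn (bn_contDiff k) hC c (fun a => -(t⁻¹ * τ a)) (by
    intro i hi
    have : ∑ a ∈ s, c a * (-(t⁻¹ * τ a)) ^ i = (-t⁻¹) ^ i * ∑ a ∈ s, c a * τ a ^ i := by
      rw [Finset.mul_sum]
      refine Finset.sum_congr rfl (fun a _ => ?_)
      rw [← neg_mul, mul_pow]; ring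
    rw [this, hmom i hi, mul_zero]) (t⁻¹ * u)
  calc t⁻¹ * |∑ a ∈ s, c a * bn (t⁻¹ * u + (-(t⁻¹ * τ a)))|
      ≤ t⁻¹ * (C * ∑ a ∈ s, |c a| * |(-(t⁻¹ * τ a))| ^ k) :=
        mul_le_mul_of_nonneg_left h (inv_pos.2 ht).le
    _ = _ := by
        rw [← mul_assoc, mul_comm t⁻¹ C]
        congr 1
        refine Finset.sum_congr rfl (fun a _ => ?_)
        rw [abs_neg, abs_mul, abs_of_pos (inv_pos.2 ht)]

/-- step size -/
noncomputable def hh (k u : ℕ) : ℝ := (1/2) ^ u / (2 * k)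

theorem hh_pos {k : ℕ} (hk : 1 ≤ k) (u : ℕ) : 0 < hh k u := by
  have : (0:ℝ) < k := by exact_mod_cast hk
  unfold hh; positivity

theorem jhh_le {k : ℕ} (hk : 1 ≤ k) (u : ℕ) {j : ℕ} (hj : j < k) :
    ((j:ℝ) + 1) * hh k u ≤ (1/2) ^ u / 2 := by
  have hk0 : (0:ℝ) < k := by exact_mod_cast hk
  have hj' : (j:ℝ) + 1 ≤ k := by exact_mod_cast hj
  calc ((j:ℝ) + 1) * hh k u ≤ k * hh k u := mul_le_mul_of_nonneg_right hj' (hh_pos hk u).le
    _ = _ := by unfold hh; field_simp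

/-- the kernel of the mollifier `V_u` -/
noncomputable def vv (k u : ℕ) (w : AddCircle (2 * Real.pi)) : ℝ :=
  ∑ j ∈ Finset.range k, ((-1 : ℝ) ^ j * (k.choose (j + 1) : ℝ)) * bt ((j + 1) * hh k u) w

theorem vv_continuous (k u : ℕ) : Continuous (vv k u) :=
  continuous_finsetSum _ (fun _ _ => continuous_const.mul (bt_continuous _))

theorem half_pow_le (u : ℕ) : (1/2:ℝ) ^ u ≤ 1 := pow_le_one₀ (by norm_num) (by norm_num)

theorem vv_zero {k : ℕ} (hk : 1 ≤ k) (u : ℕ) (w : AddCircle (2 * Real.pi))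
    (h : (1/2 : ℝ) ^ u ≤ ‖w‖) : vv k u w = 0 := by
  refine Finset.sum_eq_zero (fun j hj => ?_)
  have hj := Finset.mem_range.1 hj
  have h0 : (0:ℝ) < (1/2) ^ u := by positivity
  rw [bt_zero (mul_pos (by positivity) (hh_pos hk u)) w (by linarith [jhh_le hk u hj]), mul_zero]

theorem exists_vv_bound {k : ℕ} (hk : 1 ≤ k) : ∃ C : ℝ, 1 ≤ C ∧ ∀ u w, |vv k u w| ≤ C * 2 ^ u := by
  obtain ⟨B, hB1, hB⟩ := exists_bn_bound
  have hk0 : (0:ℝ) < k := by exact_mod_cast hk
  have hk1 : (1:ℝ) ≤ k := by exact_mod_cast hk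
  refine ⟨2 ^ k * (2 * k * B), ?_, ?_⟩
  · have h1 : (1:ℝ) ≤ 2 ^ k := one_le_pow₀ (by norm_num)
    have h2 : 1 ≤ 2 * k * B := by nlinarith
    nlinarith
  · intro u w
    have hterm : ∀ j ∈ Finset.range k, |((-1 : ℝ) ^ j * (k.choose (j + 1) : ℝ)) *
        bt ((j + 1) * hh k u) w| ≤ (k.choose (j + 1) : ℝ) * (2 * k * B * 2 ^ u) := by
      intro j _
      have ht : 0 < ((j:ℝ) + 1) * hh k u := mul_pos (by positivity) (hh_pos hk u)
      rw [abs_mul, abs_mul, abs_pow, abs_neg, abs_one, one_pow, one_mul,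
        abs_of_nonneg (Nat.cast_nonneg _ : (0:ℝ) ≤ (k.choose (j + 1) : ℝ)),
        abs_of_nonneg (bt_nonneg ht w)]
      refine mul_le_mul_of_nonneg_left ?_ (Nat.cast_nonneg _)
      unfold bt
      have h3 : (((j:ℝ) + 1) * hh k u)⁻¹ ≤ 2 * k * 2 ^ u := by
        have h4 : hh k u ≤ ((j:ℝ) + 1) * hh k u := by
          have : (0:ℝ) ≤ (j:ℝ) * hh k u := mul_nonneg (Nat.cast_nonneg _) (hh_pos hk u).le
          linarith
        calc (((j:ℝ) + 1) * hh k u)⁻¹ ≤ (hh k u)⁻¹ := inv_anti₀ (hh_pos hk u) h4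
          _ = 2 * k * 2 ^ u := by unfold hh; rw [div_pow, one_pow]; field_simp
      calc (((j:ℝ) + 1) * hh k u)⁻¹ * bn ((((j:ℝ) + 1) * hh k u)⁻¹ * ‖w‖)
          ≤ (2 * k * 2 ^ u) * B := mul_le_mul h3 (hB _) (bn_nonneg _) (by positivity)
        _ = _ := by ring
    calc |vv k u w| ≤ ∑ j ∈ Finset.range k, (k.choose (j + 1) : ℝ) * (2 * k * B * 2 ^ u) :=
          (Finset.abs_sum_le_sum_abs _ _).trans (Finset.sum_le_sum hterm)
      _ = (∑ j ∈ Finset.range k, (k.choose (j + 1) : ℝ)) * (2 * k * B * 2 ^ u) := by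
          rw [Finset.sum_mul]
      _ ≤ 2 ^ k * (2 * k * B * 2 ^ u) := by
          refine mul_le_mul_of_nonneg_right ?_ (by positivity)
          have h5 := Nat.sum_range_choose k
          rw [Finset.sum_range_succ'] at h5
          have h6 : ∑ j ∈ Finset.range k, k.choose (j + 1) ≤ 2 ^ k := by omega
          exact_mod_cast h6
      _ = _ := by ring

end Pool.Agent.Helper218_SB
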