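import Pool.Agent.Helper218_SB.UMoll

namespace Pool.Agent.Helper218_SB

open MeasureTheory Set
open scoped ENNReal

/-- continuous functions on compact spaces are integrable -/
theorem int_cont {X : Type*} [TopologicalSpace X] [CompactSpace X] [MeasurableSpace X]
    [OpensMeasurableSpace X] {μ : Measure X} [IsFiniteMeasureOnCompacts μ]
    {f : X → ℝ} (hf : Continuous f) : Integrable f μ :=
  hf.integrable_of_hasCompactSupport (HasCompactSupport.of_compactSpace f)

theorem int_bn_mul {f : ℝ → ℝ} (hf : Continuous f) {C : ℝ} (hC : ∀ x, |f x| ≤ C) :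
    Integrable (fun x => bn x * f x) volume := by
  refine bn_integrable.mul_bdd (c := C) hf.aestronglyMeasurable
    (Filter.Eventually.of_forall (fun x => by rw [Real.norm_eq_abs]; exact hC x))

/-- the mollifier -/
noncomputable def V1 (k u : ℕ) (g : AddCircle (2 * Real.pi) → ℝ) (z : AddCircle (2 * Real.pi)) : ℝ :=
  ∫ w, vv k u w * g (z + w)

theorem exists_abs_bound {X : Type*} [TopologicalSpace X] [CompactSpace X] {g : X → ℝ}
    (hg : Continuous g) : ∃ C : ℝ, 0 ≤ C ∧ ∀ x, |g x| ≤ C := by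
  obtain ⟨C, hC⟩ := (isCompact_univ (X := X)).exists_bound_of_continuousOn hg.continuousOn
  refine ⟨max 0 C, le_max_left _ _, fun x => ?_⟩
  have := hC x (mem_univ x)
  rw [Real.norm_eq_abs] at this
  exact this.trans (le_max_right _ _)

theorem V1_continuous (k u : ℕ) {g : AddCircle (2 * Real.pi) → ℝ} (hg : Continuous g) :
    Continuous (V1 k u g) := by
  obtain ⟨C, hC0, hC⟩ := exists_abs_bound (X := AddCircle (2 * Real.pi) × AddCircle (2 * Real.pi))
    (g := fun p => vv k u p.2 * g (p.1 + p.2))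
    (((vv_continuous k u).comp continuous_snd).mul (hg.comp (continuous_fst.add continuous_snd)))
  refine continuous_of_dominated (F := fun z w => vv k u w * g (z + w)) (bound := fun _ => C)
    (fun z => ?_) (fun z => ?_) (integrable_const _) ?_
  · exact ((vv_continuous k u).mul (hg.comp (continuous_const.add continuous_id))).aestronglyMeasurable
  · exact Filter.Eventually.of_forall (fun w => by
      rw [Real.norm_eq_abs]; exact hC (z, w))
  · exact Filter.Eventually.of_forall (fun w =>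
      continuous_const.mul (hg.comp (continuous_id.add continuous_const)))

theorem diff1_expand (k : ℕ) (g : AddCircle (2 * Real.pi) → ℝ) (z : AddCircle (2 * Real.pi)) (h : ℝ) :
    ∑ j ∈ Finset.range k, ((-1 : ℝ) ^ j * (k.choose (j + 1) : ℝ)) *
      g (z + ((((j:ℝ) + 1) * h : ℝ) : AddCircle (2 * Real.pi)))
    = g z - (-1) ^ k * diff1 k g (fun j => z + (((j : ℝ) * h : ℝ) : AddCircle (2 * Real.pi))) := by
  unfold diff1
  rw [Finset.mul_sum, Finset.sum_range_succ']
  have e : ∀ j ∈ Finset.range (k + 1), (-1:ℝ) ^ k * ((-1) ^ (k - j)) = (-1) ^ j := by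
    intro j hj
    have hj : j ≤ k := Nat.lt_succ_iff.1 (Finset.mem_range.1 hj)
    obtain ⟨l, rfl⟩ := Nat.exists_eq_add_of_le hj
    rw [Nat.add_sub_cancel_left, pow_add, mul_assoc, ← mul_pow]
    norm_num
  have e0 := e 0 (by simp)
  simp only [Nat.sub_zero, pow_zero] at e0
  have e2 : (-1:ℝ) ^ k * ((-1) ^ (k - 0) * (k.choose 0 : ℝ) *
      g (z + (((((0:ℕ):ℝ)) * h : ℝ) : AddCircle (2 * Real.pi)))) = g z := by
    simp only [Nat.sub_zero, Nat.choose_zero_right, Nat.cast_one, mul_one, Nat.cast_zero, zero_mul]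
    rw [← mul_assoc, e0]
    simp
  rw [e2]
  have e3 : ∑ j ∈ Finset.range k, (-1:ℝ) ^ k * ((-1) ^ (k - (j + 1)) * (k.choose (j + 1) : ℝ) *
      g (z + ((((j + 1 : ℕ) : ℝ) * h : ℝ) : AddCircle (2 * Real.pi))))
      = - ∑ j ∈ Finset.range k, ((-1 : ℝ) ^ j * (k.choose (j + 1) : ℝ)) *
      g (z + ((((j:ℝ) + 1) * h : ℝ) : AddCircle (2 * Real.pi))) := by
    rw [← Finset.sum_neg_distrib]
    refine Finset.sum_congr rfl (fun j hj => ?_)
    have hj' := Finset.mem_range.1 hj
    have := e (j + 1) (Finset.mem_range.2 (by omega))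
    rw [← mul_assoc, ← mul_assoc, this, pow_succ]
    push_cast
    ring
  rw [e3]
  ring

theorem V1_eq {k : ℕ} (hk : 1 ≤ k) (u : ℕ) {g : AddCircle (2 * Real.pi) → ℝ} (hg : Continuous g)
    (z : AddCircle (2 * Real.pi)) :
    V1 k u g z = ∫ x : ℝ, bn x * (g z - (-1) ^ k * diff1 k g
      (fun j => z + (((j : ℝ) * (hh k u * x) : ℝ) : AddCircle (2 * Real.pi)))) := by
  obtain ⟨C, hC0, hC⟩ := exists_abs_bound hg
  have h1 : V1 k u g z = ∑ j ∈ Finset.range k, ((-1 : ℝ) ^ j * (k.choose (j + 1) : ℝ)) *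
      ∫ w, bt ((j + 1) * hh k u) w * g (z + w) := by
    unfold V1 vv
    simp_rw [Finset.sum_mul]
    rw [integral_finsetSum]
    · refine Finset.sum_congr rfl (fun j _ => ?_)
      rw [← integral_const_mul]
      congr 1
      funext w
      ring
    · intro j _
      exact int_cont ((continuous_const.mul (bt_continuous _)).mul
        (hg.comp (continuous_const.add continuous_id)))
  have h2 : ∀ j ∈ Finset.range k, ∫ w, bt ((j + 1) * hh k u) w * g (z + w)
      = ∫ x : ℝ, bn x * g (z + ((((j:ℝ) + 1) * (hh k u * x) : ℝ) : AddCircle (2 * Real.pi))) := by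
    intro j hj
    have hj := Finset.mem_range.1 hj
    have h3 := jhh_le hk u hj
    have h4 := half_pow_le u
    rw [integral_bt (mul_pos (by positivity) (hh_pos hk u)) (by linarith) (fun w => g (z + w))]
    congr 1
    funext x
    rw [mul_assoc]
  rw [h1, Finset.sum_congr rfl (fun j hj => by rw [h2 j hj])]
  have h5 : ∀ j : ℕ, Integrable (fun x : ℝ => bn x *
      g (z + ((((j:ℝ) + 1) * (hh k u * x) : ℝ) : AddCircle (2 * Real.pi)))) volume := by
    intro j
    refine int_bn_mul ?_ (fun x => hC _)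
    exact hg.comp (continuous_const.add ((AddCircle.continuous_mk' _).comp
      (continuous_const.mul (continuous_const.mul continuous_id))))
  have h6 : ∀ j ∈ Finset.range k, ((-1 : ℝ) ^ j * (k.choose (j + 1) : ℝ)) * ∫ x : ℝ, bn x *
      g (z + ((((j:ℝ) + 1) * (hh k u * x) : ℝ) : AddCircle (2 * Real.pi)))
      = ∫ x : ℝ, ((-1 : ℝ) ^ j * (k.choose (j + 1) : ℝ)) * (bn x *
      g (z + ((((j:ℝ) + 1) * (hh k u * x) : ℝ) : AddCircle (2 * Real.pi)))) := by
    intro j _
    rw [integral_const_mul]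
  rw [Finset.sum_congr rfl h6, ← integral_finsetSum _ (fun j _ => (h5 j).const_mul _)]
  congr 1
  funext x
  rw [← diff1_expand, Finset.mul_sum]
  refine Finset.sum_congr rfl (fun j _ => ?_)
  ring

end Pool.Agent.Helper218_SB
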