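import Pool.Agent.Helper218_SB.Circle

namespace Pool.Agent.Helper218_SB

open MeasureTheory Set
open scoped ENNReal

/-- A functional with vanishing moments applied to a smooth function. -/
theorem abs_sum_moment_le {A : Type*} (s : Finset A) : ∀ (n : ℕ) (M : ℝ) (g : ℝ → ℝ),
    ContDiff ℝ n g → (∀ x, |iteratedDeriv n g x| ≤ M) →
    ∀ (c σ : A → ℝ), (∀ i < n, ∑ a ∈ s, c a * σ a ^ i = 0) →
    ∀ p, |∑ a ∈ s, c a * g (p + σ a)| ≤ M * ∑ a ∈ s, |c a| * |σ a| ^ n := by
  intro n
  induction n with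
  | zero =>
    intro M g _ hM c σ _ p
    calc |∑ a ∈ s, c a * g (p + σ a)| ≤ ∑ a ∈ s, |c a * g (p + σ a)| :=
          Finset.abs_sum_le_sum_abs _ _
      _ ≤ ∑ a ∈ s, M * (|c a| * |σ a| ^ 0) := by
          refine Finset.sum_le_sum (fun a _ => ?_)
          rw [abs_mul, pow_zero, mul_one, mul_comm M]
          exact mul_le_mul_of_nonneg_left (by simpa using hM (p + σ a)) (abs_nonneg _)
      _ = _ := by rw [Finset.mul_sum]
  | succ n ih =>
    intro M g hg hM c σ hc p
    have hM0 : 0 ≤ M := (abs_nonneg _).trans (hM 0)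
    have hgd : Differentiable ℝ g := hg.differentiable (by simp)
    have hg' : ContDiff ℝ n (deriv g) := by
      have := (contDiff_succ_iff_deriv (n := n) (f := g)).1 (by exact_mod_cast hg)
      exact this.2.2
    have hM' : ∀ x, |iteratedDeriv n (deriv g) x| ≤ M := by
      intro x
      rw [← iteratedDeriv_succ']
      exact hM x
    set G : ℝ → ℝ := fun θ => ∑ a ∈ s, c a * g (p + θ * σ a) with hG
    set G' : ℝ → ℝ := fun θ => ∑ a ∈ s, (c a * σ a) * deriv g (p + θ * σ a) with hG'
    have hder : ∀ θ, HasDerivAt G (G' θ) θ := by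
      intro θ
      have h1 : ∀ a ∈ s, HasDerivAt (fun θ => c a * g (p + θ * σ a))
          ((c a * σ a) * deriv g (p + θ * σ a)) θ := by
        intro a _
        have h2 : HasDerivAt (fun θ : ℝ => p + θ * σ a) (σ a) θ := by
          simpa using ((hasDerivAt_id θ).mul_const (σ a)).const_add p
        have h3 : HasDerivAt (fun θ => g (p + θ * σ a)) (deriv g (p + θ * σ a) * σ a) θ :=
          (hgd (p + θ * σ a)).hasDerivAt.comp θ h2
        exact (h3.const_mul (c a)).congr_deriv (by ring)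
      have := HasDerivAt.fun_sum h1
      exact this
    have hbound : ∀ θ ∈ Set.Ico (0:ℝ) 1, ‖G' θ‖ ≤ M * ∑ a ∈ s, |c a| * |σ a| ^ (n + 1) := by
      intro θ hθ
      have h5 := ih M (deriv g) hg' hM' (fun a => c a * σ a) (fun a => θ * σ a) (by
        intro i hi
        have e1 : ∑ a ∈ s, c a * σ a * (θ * σ a) ^ i = θ ^ i * ∑ a ∈ s, c a * σ a ^ (i + 1) := by
          rw [Finset.mul_sum]
          refine Finset.sum_congr rfl (fun a _ => ?_)
          ring
        rw [e1, hc (i + 1) (by omega), mul_zero]) p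
      rw [Real.norm_eq_abs]
      refine h5.trans (mul_le_mul_of_nonneg_left (Finset.sum_le_sum (fun a _ => ?_)) hM0)
      rw [abs_mul, abs_mul θ, pow_succ, mul_pow]
      have h6 : |θ| ^ n ≤ 1 := pow_le_one₀ (abs_nonneg _) (by rw [abs_of_nonneg hθ.1]; exact hθ.2.le)
      calc |c a| * |σ a| * (|θ| ^ n * |σ a| ^ n) = |θ| ^ n * (|c a| * (|σ a| ^ n * |σ a|)) := by ring
        _ ≤ 1 * (|c a| * (|σ a| ^ n * |σ a|)) := mul_le_mul_of_nonneg_right h6 (by positivity)
        _ = _ := one_mul _
    have h7 := norm_image_sub_le_of_norm_deriv_le_segment_01'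
      (fun θ _ => (hder θ).hasDerivWithinAt) hbound
    have e0 : G 0 = 0 := by
      have := hc 0 (Nat.succ_pos n)
      simp only [pow_zero, mul_one] at this
      simp only [hG, zero_mul, add_zero]
      rw [← Finset.sum_mul, this, zero_mul]
    have e1 : G 1 = ∑ a ∈ s, c a * g (p + σ a) := by simp [hG]
    rw [e0, sub_zero, e1, Real.norm_eq_abs] at h7
    exact h7

end Pool.Agent.Helper218_SB
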