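import Pool.Agent.Helper218_SB.UTens
import Pool.Agent.Helper218_SB.TestFun

namespace Pool.Agent.Helper218_SB

open MeasureTheory Set
open scoped ENNReal

variable {d : ℕ}

/-- bounded linear functionals on continuous functions -/
structure IsBL (Λ : (Torus d → ℝ) → ℝ) : Prop where
  add : ∀ f g, Continuous f → Continuous g → Λ (fun x => f x + g x) = Λ f + Λ g
  smul : ∀ (c : ℝ) f, Continuous f → Λ (fun x => c * f x) = c * Λ f
  bd : ∃ C : ℝ, 0 ≤ C ∧ ∀ f, Continuous f → ∀ ε : ℝ, (∀ x, |f x| ≤ ε) → |Λ f| ≤ C * ε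

theorem IsBL.eval (y : Torus d) : IsBL (fun f => f y) :=
  ⟨fun _ _ _ _ => rfl, fun _ _ _ => rfl, 1, zero_le_one, fun f _ ε h => by
    rw [one_mul]; exact h y⟩

theorem IsBL.sub {Λ Λ' : (Torus d → ℝ) → ℝ} (h : IsBL Λ) (h' : IsBL Λ') :
    IsBL (fun f => Λ f - Λ' f) := by
  obtain ⟨C, hC0, hC⟩ := h.bd
  obtain ⟨C', hC0', hC'⟩ := h'.bd
  refine ⟨fun f g hf hg => ?_, fun c f hf => ?_, C + C', by positivity, fun f hf ε hε => ?_⟩
  · rw [h.add f g hf hg, h'.add f g hf hg]; ring
  · rw [h.smul c f hf, h'.smul c f hf]; ring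
  · calc |Λ f - Λ' f| ≤ |Λ f| + |Λ' f| := abs_sub _ _
      _ ≤ C * ε + C' * ε := add_le_add (hC f hf ε hε) (hC' f hf ε hε)
      _ = _ := by ring

theorem IsBL.const_mul {Λ : (Torus d → ℝ) → ℝ} (h : IsBL Λ) (a : ℝ) :
    IsBL (fun f => a * Λ f) := by
  obtain ⟨C, hC0, hC⟩ := h.bd
  refine ⟨fun f g hf hg => ?_, fun c f hf => ?_, |a| * C, by positivity, fun f hf ε hε => ?_⟩
  · rw [h.add f g hf hg]; ring
  · rw [h.smul c f hf]; ring
  · rw [abs_mul, mul_assoc]
    exact mul_le_mul_of_nonneg_left (hC f hf ε hε) (abs_nonneg _)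

theorem IsBL.sum {ι : Type*} (s : Finset ι) {Λ : ι → (Torus d → ℝ) → ℝ}
    (h : ∀ i ∈ s, IsBL (Λ i)) : IsBL (fun f => ∑ i ∈ s, Λ i f) := by
  classical
  induction s using Finset.induction_on with
  | empty =>
    refine ⟨fun f g _ _ => by simp, fun c f _ => by simp, 0, le_rfl, fun f _ ε _ => by simp⟩
  | insert a s ha ih =>
    have h1 := ih (fun i hi => h i (Finset.mem_insert_of_mem hi))
    have h2 := h a (Finset.mem_insert_self a s)
    have e : (fun f => ∑ i ∈ insert a s, Λ i f) = fun f => Λ a f - (-1) * ∑ i ∈ s, Λ i f := by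
      funext f
      rw [Finset.sum_insert ha]; ring
    rw [e]
    exact h2.sub (h1.const_mul _)

theorem IsBL.integral {Ω : Type*} [MeasurableSpace Ω] {μ : Measure Ω} {K : Ω → ℝ}
    {Λ : Ω → (Torus d → ℝ) → ℝ} (hΛ : ∀ ω, IsBL (Λ ω)) {C : ℝ} (hC0 : 0 ≤ C)
    (hC : ∀ ω f, Continuous f → ∀ ε : ℝ, (∀ x, |f x| ≤ ε) → |Λ ω f| ≤ C * ε)
    (hK : Integrable K μ) (hint : ∀ f, Continuous f → Integrable (fun ω => K ω * Λ ω f) μ) :
    IsBL (fun f => ∫ ω, K ω * Λ ω f ∂μ) := by
  refine ⟨fun f g hf hg => ?_, fun c f hf => ?_, (∫ ω, |K ω| ∂μ) * C,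
    mul_nonneg (integral_nonneg (fun _ => abs_nonneg _)) hC0, fun f hf ε hε => ?_⟩
  · rw [← integral_add (hint f hf) (hint g hg)]
    congr 1
    funext ω
    rw [(hΛ ω).add f g hf hg]; ring
  · rw [← integral_const_mul]
    congr 1
    funext ω
    rw [(hΛ ω).smul c f hf]; ring
  · have h1 : |∫ ω, K ω * Λ ω f ∂μ| ≤ ∫ ω, |K ω| * (C * ε) ∂μ := by
      rw [← Real.norm_eq_abs]
      refine norm_integral_le_of_norm_le (hK.abs.mul_const _) (Filter.Eventually.of_forall (fun ω => ?_))
      rw [Real.norm_eq_abs, abs_mul]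
      exact mul_le_mul_of_nonneg_left (hC ω f hf ε hε) (abs_nonneg _)
    rw [integral_mul_const] at h1
    rw [mul_assoc]; exact h1

theorem IsBL.comp {Λ : (Torus d → ℝ) → ℝ} (h : IsBL Λ) {T : (Torus d → ℝ) → (Torus d → ℝ)}
    (hTc : ∀ f, Continuous f → Continuous (T f)) (hT : ∀ y, IsBL (fun f => T f y))
    {C : ℝ} (hC0 : 0 ≤ C)
    (hC : ∀ f, Continuous f → ∀ ε : ℝ, (∀ x, |f x| ≤ ε) → ∀ y, |T f y| ≤ C * ε) :
    IsBL (fun f => Λ (T f)) := by
  obtain ⟨C', hC0', hC'⟩ := h.bd
  refine ⟨fun f g hf hg => ?_, fun c f hf => ?_, C' * C, by positivity, fun f hf ε hε => ?_⟩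
  · have e : T (fun x => f x + g x) = fun y => T f y + T g y := by
      funext y; exact (hT y).add f g hf hg
    rw [e, h.add _ _ (hTc f hf) (hTc g hg)]
  · have e : T (fun x => c * f x) = fun y => c * T f y := by
      funext y; exact (hT y).smul c f hf
    rw [e, h.smul _ _ (hTc f hf)]
  · rw [mul_assoc]
    exact hC' _ (hTc f hf) _ (hC f hf ε hε)

theorem IsBL.ext {Λ Λ' : (Torus d → ℝ) → ℝ} (h : IsBL Λ) (h' : IsBL Λ')
    (hprod : ∀ g : Fin d → AddCircle (2 * Real.pi) → ℝ, (∀ i, Continuous (g i)) →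
      Λ (fun x => ∏ i, g i (x i)) = Λ' (fun x => ∏ i, g i (x i)))
    {f : Torus d → ℝ} (hf : Continuous f) : Λ f = Λ' f := by
  have h1 := h.sub h'
  obtain ⟨C, hC0, hC⟩ := h1.bd
  have := tens_ext (fun f => Λ f - Λ' f) C h1.add h1.smul hC
    (fun g hg => sub_eq_zero.2 (hprod g hg)) hf
  linarith

/-! ### the operators -/

/-- tensor product of the operators `η_{s_i}` -/
noncomputable def Em (k : ℕ) (s : Fin d → ℕ) (f : Torus d → ℝ) (x : Torus d) : ℝ :=
  ∑ a : Fin d → AA k, (∏ i, cc k (s i) (a i) (x i)) *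
    f (x + fun i => ((tt k (s i) (a i) (x i) : ℝ) : AddCircle (2 * Real.pi)))

/-- tensor product of the interpolation operators of level `N` -/
noncomputable def Im (k N : ℕ) (f : Torus d → ℝ) (x : Torus d) : ℝ :=
  ∑ j : Fin d → Fin k, (∏ i, lb k (j i) (fr N (x i))) *
    f (x + fun i => ((2 * Real.pi / 2 ^ N * ((j i : ℕ) - fr N (x i)) : ℝ) : AddCircle (2 * Real.pi)))

/-- tensor product of the mollifiers -/
noncomputable def Vm (k N : ℕ) (f : Torus d → ℝ) (y : Torus d) : ℝ :=
  ∫ w : Torus d, (∏ i, vv k N (w i)) * f (y + w)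

/-- the support of a multiindex -/
def supp (u : Fin d → ℕ) : Finset (Fin d) := Finset.univ.filter (fun i => u i ≠ 0)

/-- the integrand of the difference operator -/
noncomputable def Dk (k : ℕ) (u : Fin d → ℕ) (x : Fin d → ℝ) (f : Torus d → ℝ) (z : Torus d) : ℝ :=
  ∑ b : Fin d → Bool, (∏ i, sc k (u i) (b i)) *
    mixedDiff k (supp u) (fun i => st k (u i) (b i) * x i) f z

/-- tensor product of the difference operators -/
noncomputable def Dm (k : ℕ) (u : Fin d → ℕ) (f : Torus d → ℝ) (z : Torus d) : ℝ :=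
  ∫ x : Fin d → ℝ, (∏ i, bn (x i)) * Dk k u x f z

theorem isBL_Em (k : ℕ) (s : Fin d → ℕ) (x : Torus d) : IsBL (fun f => Em k s f x) :=
  IsBL.sum _ (fun _ _ => (IsBL.eval _).const_mul _)

theorem isBL_Im (k N : ℕ) (x : Torus d) : IsBL (fun f => Im k N f x) :=
  IsBL.sum _ (fun _ _ => (IsBL.eval _).const_mul _)

theorem prod_vv_continuous (k N : ℕ) : Continuous (fun w : Torus d => ∏ i, vv k N (w i)) :=
  continuous_finsetProd _ (fun i _ => (vv_continuous k N).comp (continuous_apply i))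

theorem isBL_Vm (k N : ℕ) (y : Torus d) : IsBL (fun f => Vm k N f y) := by
  refine IsBL.integral (μ := volume) (K := fun w : Torus d => ∏ i, vv k N (w i))
    (Λ := fun w f => f (y + w)) (fun w => IsBL.eval _) zero_le_one
    (fun ω f _ ε h => by rw [one_mul]; exact h _) (int_cont (prod_vv_continuous k N)) ?_
  intro f hf
  exact int_cont ((prod_vv_continuous k N).mul (hf.comp (continuous_const.add continuous_id)))

theorem Vm_continuous (k N : ℕ) {f : Torus d → ℝ} (hf : Continuous f) : Continuous (Vm k N f) := by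
  obtain ⟨C, hC0, hC⟩ := exists_abs_bound (X := Torus d × Torus d)
    (g := fun p => (∏ i, vv k N (p.2 i)) * f (p.1 + p.2))
    (((prod_vv_continuous k N).comp continuous_snd).mul (hf.comp (continuous_fst.add continuous_snd)))
  refine continuous_of_dominated (F := fun z w => (∏ i, vv k N (w i)) * f (z + w))
    (bound := fun _ => C) (fun z => ?_) (fun z => ?_) (integrable_const _) ?_
  · exact ((prod_vv_continuous k N).mul
      (hf.comp (continuous_const.add continuous_id))).aestronglyMeasurable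
  · exact Filter.Eventually.of_forall (fun w => by
      rw [Real.norm_eq_abs]; exact hC (z, w))
  · exact Filter.Eventually.of_forall (fun w =>
      continuous_const.mul (hf.comp (continuous_id.add continuous_const)))

theorem abs_Vm_le (k N : ℕ) {f : Torus d → ℝ} (ε : ℝ) (h : ∀ x, |f x| ≤ ε) (y : Torus d) :
    |Vm k N f y| ≤ (∫ w : Torus d, |∏ i, vv k N (w i)|) * ε := by
  have h1 : |Vm k N f y| ≤ ∫ w : Torus d, |∏ i, vv k N (w i)| * ε := by
    rw [← Real.norm_eq_abs]
    refine norm_integral_le_of_norm_le ((int_cont (prod_vv_continuous k N)).abs.mul_const _)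
      (Filter.Eventually.of_forall (fun ω => ?_))
    rw [Real.norm_eq_abs, abs_mul]
    exact mul_le_mul_of_nonneg_left (h _) (abs_nonneg _)
  rwa [integral_mul_const] at h1

/-- constant for mixed differences -/
noncomputable def cD (k : ℕ) (e : Finset (Fin d)) : ℝ :=
  ∑ j ∈ jset k e, |∏ i ∈ e, (-1 : ℝ) ^ (k - j i) * (k.choose (j i) : ℝ)|

theorem abs_mixedDiff_le (k : ℕ) (e : Finset (Fin d)) (h : Fin d → ℝ) {f : Torus d → ℝ} {ε : ℝ}
    (hf : ∀ x, |f x| ≤ ε) (z : Torus d) : |mixedDiff k e h f z| ≤ cD k e * ε := by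
  unfold mixedDiff cD
  rw [Finset.sum_mul]
  refine (Finset.abs_sum_le_sum_abs _ _).trans (Finset.sum_le_sum (fun j _ => ?_))
  rw [abs_mul]
  exact mul_le_mul_of_nonneg_left (hf _) (abs_nonneg _)

theorem cD_nonneg (k : ℕ) (e : Finset (Fin d)) : 0 ≤ cD k e :=
  Finset.sum_nonneg (fun _ _ => abs_nonneg _)

theorem abs_Dk_le (k : ℕ) (u : Fin d → ℕ) (x : Fin d → ℝ) {f : Torus d → ℝ} {ε : ℝ}
    (hf : ∀ x, |f x| ≤ ε) (z : Torus d) : |Dk k u x f z| ≤ (2 ^ d * cD k (supp u)) * ε := by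
  unfold Dk
  calc _ ≤ ∑ _b : Fin d → Bool, cD k (supp u) * ε := by
        refine (Finset.abs_sum_le_sum_abs _ _).trans (Finset.sum_le_sum (fun b _ => ?_))
        rw [abs_mul]
        have h1 : |∏ i, sc k (u i) (b i)| ≤ 1 := by
          rw [Finset.abs_prod]
          exact Finset.prod_le_one (fun _ _ => abs_nonneg _) (fun i _ => abs_sc_le _ _ _)
        calc |∏ i, sc k (u i) (b i)| * |mixedDiff k (supp u) (fun i => st k (u i) (b i) * x i) f z|
            ≤ 1 * (cD k (supp u) * ε) :=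
              mul_le_mul h1 (abs_mixedDiff_le k _ _ hf z) (abs_nonneg _) zero_le_one
          _ = _ := one_mul _
    _ = _ := by
        rw [Finset.sum_const, nsmul_eq_mul]
        simp only [Finset.card_univ, Fintype.card_pi, Fintype.card_bool, Finset.prod_const,
          Fintype.card_fin]
        push_cast
        ring

theorem isBL_Dk (k : ℕ) (u : Fin d → ℕ) (x : Fin d → ℝ) (z : Torus d) :
    IsBL (fun f => Dk k u x f z) := by
  refine IsBL.sum _ (fun b _ => IsBL.const_mul ?_ _)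
  exact IsBL.sum _ (fun j _ => (IsBL.eval _).const_mul _)

theorem Dk_continuous (k : ℕ) (u : Fin d → ℕ) {f : Torus d → ℝ} (hf : Continuous f) :
    Continuous (fun p : (Fin d → ℝ) × Torus d => Dk k u p.1 f p.2) := by
  unfold Dk mixedDiff
  refine continuous_finsetSum _ (fun b _ => continuous_const.mul ?_)
  refine continuous_finsetSum _ (fun j _ => continuous_const.mul (hf.comp ?_))
  refine continuous_snd.add (continuous_pi (fun i => ?_))
  exact (AddCircle.continuous_mk' _).comp (continuous_const.mul (continuous_const.mul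
    ((continuous_apply i).comp continuous_fst)))

theorem Dk_continuous_left (k : ℕ) (u : Fin d → ℕ) {f : Torus d → ℝ} (hf : Continuous f)
    (z : Torus d) : Continuous (fun x : Fin d → ℝ => Dk k u x f z) := by
  have h2 : Continuous (fun x : Fin d → ℝ => (x, z)) := continuous_id.prodMk continuous_const
  have h3 := (Dk_continuous k u hf).comp h2
  exact h3

theorem Dk_continuous_right (k : ℕ) (u : Fin d → ℕ) {f : Torus d → ℝ} (hf : Continuous f)
    (x : Fin d → ℝ) : Continuous (fun z : Torus d => Dk k u x f z) := by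
  have h2 : Continuous (fun z : Torus d => (x, z)) := continuous_const.prodMk continuous_id
  have h3 := (Dk_continuous k u hf).comp h2
  exact h3

theorem prod_bn_integrable : Integrable (fun x : Fin d → ℝ => ∏ i, bn (x i)) volume :=
  Integrable.fintype_prod (fun _ => bn_integrable)

theorem prod_bn_nonneg (x : Fin d → ℝ) : 0 ≤ ∏ i, bn (x i) :=
  Finset.prod_nonneg (fun _ _ => bn_nonneg _)

theorem prod_bn_integral : ∫ x : Fin d → ℝ, ∏ i, bn (x i) = 1 := by
  rw [integral_fintype_prod_volume_eq_prod (fun _ : Fin d => bn)]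
  simp [bn_integral]

theorem Dk_integrable (k : ℕ) (u : Fin d → ℕ) {f : Torus d → ℝ} (hf : Continuous f) (z : Torus d) :
    Integrable (fun x : Fin d → ℝ => (∏ i, bn (x i)) * Dk k u x f z) volume := by
  obtain ⟨C, hC0, hC⟩ := exists_abs_bound hf
  have hm : AEStronglyMeasurable (fun x : Fin d → ℝ => Dk k u x f z) volume :=
    (Dk_continuous_left k u hf z).aestronglyMeasurable
  have hb : ∀ᵐ x : Fin d → ℝ, ‖Dk k u x f z‖ ≤ (2 ^ d * cD k (supp u)) * C :=
    Filter.Eventually.of_forall (fun x => by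
      rw [Real.norm_eq_abs]; exact abs_Dk_le k u x hC z)
  exact Integrable.mul_bdd prod_bn_integrable hm hb

theorem isBL_Dm (k : ℕ) (u : Fin d → ℕ) (z : Torus d) : IsBL (fun f => Dm k u f z) := by
  refine IsBL.integral (μ := volume) (K := fun x : Fin d → ℝ => ∏ i, bn (x i))
    (Λ := fun x f => Dk k u x f z) (fun x => isBL_Dk k u x z)
    (C := 2 ^ d * cD k (supp u)) (mul_nonneg (by positivity) (cD_nonneg _ _))
    (fun x f _ ε h => abs_Dk_le k u x h z) prod_bn_integrable (fun f hf => Dk_integrable k u hf z)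

theorem abs_Dm_le (k : ℕ) (u : Fin d → ℕ) {f : Torus d → ℝ} {ε : ℝ}
    (hf : ∀ x, |f x| ≤ ε) (z : Torus d) : |Dm k u f z| ≤ (2 ^ d * cD k (supp u)) * ε := by
  have h1 : |Dm k u f z| ≤ ∫ x : Fin d → ℝ, (∏ i, bn (x i)) * ((2 ^ d * cD k (supp u)) * ε) := by
    rw [← Real.norm_eq_abs]
    refine norm_integral_le_of_norm_le (prod_bn_integrable.mul_const _)
      (Filter.Eventually.of_forall (fun x => ?_))
    rw [Real.norm_eq_abs, abs_mul, abs_of_nonneg (prod_bn_nonneg x)]
    exact mul_le_mul_of_nonneg_left (abs_Dk_le k u x hf z) (prod_bn_nonneg x)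
  rwa [integral_mul_const, prod_bn_integral, one_mul] at h1

theorem Dm_continuous (k : ℕ) (u : Fin d → ℕ) {f : Torus d → ℝ} (hf : Continuous f) :
    Continuous (Dm k u f) := by
  obtain ⟨C, hC0, hC⟩ := exists_abs_bound hf
  refine continuous_of_dominated (F := fun z x => (∏ i, bn (x i)) * Dk k u x f z)
    (bound := fun x => (∏ i, bn (x i)) * ((2 ^ d * cD k (supp u)) * C)) (fun z => ?_) (fun z => ?_)
    (prod_bn_integrable.mul_const _) ?_
  · exact (Dk_integrable k u hf z).aestronglyMeasurable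
  · refine Filter.Eventually.of_forall (fun x => ?_)
    rw [Real.norm_eq_abs, abs_mul, abs_of_nonneg (prod_bn_nonneg x)]
    exact mul_le_mul_of_nonneg_left (abs_Dk_le k u x hC z) (prod_bn_nonneg x)
  · exact Filter.Eventually.of_forall (fun x =>
      continuous_const.mul (Dk_continuous_right k u hf x))

end Pool.Agent.Helper218_SB
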