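import Pool.Agent.Helper218_SB.UIdent

namespace Pool.Agent.Helper218_SB

open MeasureTheory Set
open scoped ENNReal

variable {d : ℕ}

/-- the exponent: `∞` or `1` -/
noncomputable def pp (top : Bool) : ℝ≥0∞ := if top then ∞ else 1

/-- the norm functional: supremum or integral -/
noncomputable def NN (top : Bool) (F : Torus d → ℝ≥0∞) : ℝ≥0∞ :=
  if top then ⨆ x, F x else ∫⁻ x, F x

/-- the weights -/
noncomputable def ww (top : Bool) (k s u : ℕ) : ℝ := if top then wi k s u else w1 k s u

theorem w1_nonneg (k s u : ℕ) : 0 ≤ w1 k s u := by unfold w1; split_ifs <;> positivity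
theorem wi_nonneg (k s u : ℕ) : 0 ≤ wi k s u := by unfold wi; split_ifs <;> positivity
theorem ww_nonneg (top : Bool) (k s u : ℕ) : 0 ≤ ww top k s u := by
  unfold ww; split_ifs
  · exact wi_nonneg _ _ _
  · exact w1_nonneg _ _ _

theorem NN_mono (top : Bool) {F G : Torus d → ℝ≥0∞} (h : ∀ x, F x ≤ G x) : NN top F ≤ NN top G := by
  unfold NN
  cases top
  · simpa using lintegral_mono h
  · simpa using iSup_mono h

theorem NN_add (top : Bool) {F G : Torus d → ℝ≥0∞} (hF : Measurable F) :
    NN top (fun x => F x + G x) ≤ NN top F + NN top G := by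
  unfold NN
  cases top
  · simp only [Bool.false_eq_true, if_false]
    exact (lintegral_add_left hF _).le
  · simp only [if_true]
    exact iSup_le (fun x => add_le_add (le_iSup F x) (le_iSup G x))

theorem NN_sum (top : Bool) {ι : Type*} (s : Finset ι) {F : ι → Torus d → ℝ≥0∞}
    (hF : ∀ i ∈ s, Measurable (F i)) :
    NN top (fun x => ∑ i ∈ s, F i x) ≤ ∑ i ∈ s, NN top (F i) := by
  unfold NN
  cases top
  · simp only [Bool.false_eq_true, if_false]
    exact (lintegral_finsetSum s hF).le
  · simp only [if_true]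
    exact iSup_le (fun x => Finset.sum_le_sum (fun i _ => le_iSup (F i) x))

theorem NN_const (top : Bool) (c : ℝ≥0∞) :
    NN top (fun _ : Torus d => c) ≤ (1 + volume (Set.univ : Set (Torus d))) * c := by
  unfold NN
  cases top
  · simp only [Bool.false_eq_true, if_false, lintegral_const]
    rw [add_mul, mul_comm c]
    exact le_add_self
  · simp only [if_true]
    refine iSup_le (fun _ => ?_)
    rw [add_mul, one_mul]
    exact le_self_add

theorem eLpNorm_le_NN (top : Bool) (f : Torus d → ℝ) :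
    eLpNorm f (pp top) volume ≤ NN top (fun x => ‖f x‖ₑ) := by
  unfold NN pp
  cases top
  · simp only [Bool.false_eq_true, if_false]
    rw [eLpNorm_one_eq_lintegral_enorm]
  · simp only [if_true]
    rw [eLpNorm_exponent_top]
    exact eLpNormEssSup_le_of_ae_enorm_bound (Filter.Eventually.of_forall
      (fun x => le_iSup (fun x => ‖f x‖ₑ) x))

theorem NN_le_eLpNorm (top : Bool) {f : Torus d → ℝ} (hf : Continuous f) :
    NN top (fun x => ‖f x‖ₑ) ≤ eLpNorm f (pp top) volume := by
  unfold NN pp
  cases top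
  · simp only [Bool.false_eq_true, if_false]
    rw [eLpNorm_one_eq_lintegral_enorm]
  · simp only [if_true]
    rw [eLpNorm_exponent_top]
    have h1 := ae_le_eLpNormEssSup (μ := (volume : Measure (Torus d))) (f := f)
    have hcl : IsClosed {x : Torus d | ‖f x‖ₑ ≤ eLpNormEssSup f volume} :=
      isClosed_le hf.enorm continuous_const
    have h2 : {x : Torus d | ‖f x‖ₑ ≤ eLpNormEssSup f volume} = Set.univ := by
      rw [← hcl.ae_eq_univ_iff_eq (μ := (volume : Measure (Torus d)))]
      filter_upwards [h1] with x hx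
      exact propext ⟨fun _ => trivial, fun _ => hx⟩
    refine iSup_le (fun x => ?_)
    have : x ∈ {x : Torus d | ‖f x‖ₑ ≤ eLpNormEssSup f volume} := by rw [h2]; trivial
    exact this

/-- kernel operators -/
theorem exists_NN_kernel {k : ℕ} (hk : 1 ≤ k) (top : Bool) : ∃ C : ℝ, 1 ≤ C ∧
    ∀ (d : ℕ) (s u : Fin d → ℕ) (G : Torus d → ℝ), Continuous G →
      NN top (fun x => ‖∫ z, Km k s u x z * G z‖ₑ) ≤
        (∏ i, ENNReal.ofReal (C * ww top k (s i) (u i))) * NN top (fun z => ‖G z‖ₑ) := by
  obtain ⟨C, hC1, hC⟩ := exists_kap_int hk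
  refine ⟨C, hC1, ?_⟩
  intro d s u G hG
  have hKe : ∀ x z, ‖Km k s u x z‖ₑ = ∏ i, ‖kap k (s i) (u i) (x i) (z i)‖ₑ := by
    intro x z
    rw [Real.enorm_eq_ofReal_abs, Km, Finset.abs_prod,
      ENNReal.ofReal_prod_of_nonneg (fun _ _ => abs_nonneg _)]
    exact Finset.prod_congr rfl (fun i _ => (Real.enorm_eq_ofReal_abs _).symm)
  have hpt : ∀ x, ‖∫ z, Km k s u x z * G z‖ₑ ≤ ∫⁻ z, ‖Km k s u x z‖ₑ * ‖G z‖ₑ := by
    intro x
    refine (enorm_integral_le_lintegral_enorm _).trans (le_of_eq ?_)
    congr 1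
    funext z
    rw [enorm_mul]
  have hkm1 : ∀ i (z : AddCircle (2 * Real.pi)), Measurable (fun x => ‖kap k (s i) (u i) x z‖ₑ) := by
    intro i z
    have h1 : Measurable (fun x : AddCircle (2 * Real.pi) => (x, z)) :=
      Measurable.prodMk measurable_id measurable_const
    have h2 := (kap_measurable k (s i) (u i)).comp h1
    exact h2.enorm
  have hkm2 : ∀ i (x : AddCircle (2 * Real.pi)), Measurable (fun z => ‖kap k (s i) (u i) x z‖ₑ) := by
    intro i x
    have h1 : Measurable (fun z : AddCircle (2 * Real.pi) => (x, z)) :=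
      Measurable.prodMk measurable_const measurable_id
    have h2 := (kap_measurable k (s i) (u i)).comp h1
    exact h2.enorm
  cases top
  · refine (NN_mono false hpt).trans ?_
    unfold NN
    simp only [Bool.false_eq_true, if_false]
    have hm : Measurable (Function.uncurry (fun (x z : Torus d) => ‖Km k s u x z‖ₑ * ‖G z‖ₑ)) :=
      (Km_measurable k s u).enorm.mul ((hG.measurable.comp measurable_snd).enorm)
    rw [lintegral_lintegral_swap hm.aemeasurable]
    have h3 : ∀ z, ∫⁻ x, ‖Km k s u x z‖ₑ * ‖G z‖ₑ ≤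
        (∏ i, ENNReal.ofReal (C * ww false k (s i) (u i))) * ‖G z‖ₑ := by
      intro z
      have hmz : Measurable (fun x => ‖Km k s u x z‖ₑ) := by
        have h1 : Measurable (fun x : Torus d => (x, z)) :=
          Measurable.prodMk measurable_id measurable_const
        have h2 := (Km_measurable k s u).comp h1
        exact h2.enorm
      rw [lintegral_mul_const _ hmz]
      refine mul_le_mul_left ?_ _
      simp_rw [hKe]
      have h4 := lintegral_fin_prod (μ := fun _ : Fin d => (volume : Measure (AddCircle (2 * Real.pi))))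
        (fun i x => ‖kap k (s i) (u i) x (z i)‖ₑ) (fun i => hkm1 i (z i))
      calc ∫⁻ x : Torus d, ∏ i, ‖kap k (s i) (u i) (x i) (z i)‖ₑ
          = ∏ i, ∫⁻ x, ‖kap k (s i) (u i) x (z i)‖ₑ := h4
        _ ≤ ∏ i, ENNReal.ofReal (C * ww false k (s i) (u i)) :=
            Finset.prod_le_prod' (fun i _ => (hC (s i) (u i)).1 (z i))
    calc ∫⁻ z, ∫⁻ x, ‖Km k s u x z‖ₑ * ‖G z‖ₑ
        ≤ ∫⁻ z, (∏ i, ENNReal.ofReal (C * ww false k (s i) (u i))) * ‖G z‖ₑ := lintegral_mono h3
      _ = _ := lintegral_const_mul _ hG.measurable.enorm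
  · unfold NN
    simp only [if_true]
    refine iSup_le (fun x => (hpt x).trans ?_)
    calc ∫⁻ z, ‖Km k s u x z‖ₑ * ‖G z‖ₑ ≤ ∫⁻ z, ‖Km k s u x z‖ₑ * ⨆ z, ‖G z‖ₑ :=
          lintegral_mono (fun z => mul_le_mul_right (le_iSup (fun z => ‖G z‖ₑ) z) _)
      _ = (∫⁻ z, ‖Km k s u x z‖ₑ) * ⨆ z, ‖G z‖ₑ :=
          lintegral_mul_const _ (Km_measurable_right k s u x).enorm
      _ ≤ _ := by
          refine mul_le_mul_left ?_ _
          simp_rw [hKe]
          have h4 := lintegral_fin_prod (μ := fun _ : Fin d => (volume : Measure (AddCircle (2 * Real.pi))))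
            (fun i z => ‖kap k (s i) (u i) (x i) z‖ₑ) (fun i => hkm2 i (x i))
          calc ∫⁻ z : Torus d, ∏ i, ‖kap k (s i) (u i) (x i) (z i)‖ₑ
              = ∏ i, ∫⁻ z, ‖kap k (s i) (u i) (x i) z‖ₑ := h4
            _ ≤ ∏ i, ENNReal.ofReal (C * ww true k (s i) (u i)) :=
                Finset.prod_le_prod' (fun i _ => (hC (s i) (u i)).2 (x i))

theorem mixedDiff_continuous (k : ℕ) (e : Finset (Fin d)) (h : Fin d → ℝ) {f : Torus d → ℝ}
    (hf : Continuous f) : Continuous (mixedDiff k e h f) := by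
  unfold mixedDiff
  exact continuous_finsetSum _ (fun j _ => continuous_const.mul
    (hf.comp (continuous_id.add continuous_const)))

theorem st_pos {k : ℕ} (hk : 1 ≤ k) (u : ℕ) (b : Bool) : 0 < st k u b := by
  unfold st; split_ifs <;> exact hh_pos hk _

theorem st_le {k : ℕ} (hk : 1 ≤ k) {u : ℕ} (hu : u ≠ 0) (b : Bool) : st k u b ≤ (1/2) ^ u := by
  have hk0 : (0:ℝ) < k := by exact_mod_cast hk
  have hk1 : (1:ℝ) ≤ k := by exact_mod_cast hk
  obtain ⟨v, rfl⟩ : ∃ v, u = v + 1 := ⟨u - 1, by omega⟩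
  have hv : (0:ℝ) < (1/2) ^ v := by positivity
  unfold st hh
  split_ifs
  · rw [div_le_iff₀ (by positivity), pow_succ, pow_succ]
    nlinarith
  · rw [Nat.add_sub_cancel, div_le_iff₀ (by positivity), pow_succ]
    nlinarith

/-- the norm of the difference operators -/
theorem NN_Dm_le {k : ℕ} (hk : 1 ≤ k) (top : Bool) (u : Fin d → ℕ) {f : Torus d → ℝ}
    (hf : Continuous f) :
    NN top (fun z => ‖Dm k u f z‖ₑ) ≤
      2 ^ d * mixedModulus k (supp u) (pp top) f (fun i => (1/2) ^ (u i)) := by
  set W : ℝ≥0∞ := mixedModulus k (supp u) (pp top) f (fun i => (1/2) ^ (u i)) with hW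
  -- fixed x
  have hx : ∀ x : Fin d → ℝ, ENNReal.ofReal (∏ i, bn (x i)) * NN top (fun z => ‖Dk k u x f z‖ₑ)
      ≤ ENNReal.ofReal (∏ i, bn (x i)) * (2 ^ d * W) := by
    intro x
    by_cases h0 : ∃ i, 1 ≤ |x i|
    · obtain ⟨i, hi⟩ := h0
      rw [Finset.prod_eq_zero (Finset.mem_univ i) (bn_zero _ hi)]
      simp
    · push Not at h0
      refine mul_le_mul_right ?_ _
      calc NN top (fun z => ‖Dk k u x f z‖ₑ)
          ≤ NN top (fun z => ∑ b : Fin d → Bool,
            ‖mixedDiff k (supp u) (fun i => st k (u i) (b i) * x i) f z‖ₑ) := by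
            refine NN_mono top (fun z => ?_)
            unfold Dk
            refine (enorm_sum_le _ _).trans (Finset.sum_le_sum (fun b _ => ?_))
            rw [enorm_mul]
            have h1 : ‖∏ i, sc k (u i) (b i)‖ₑ ≤ 1 := by
              rw [Real.enorm_eq_ofReal_abs, ← ENNReal.ofReal_one]
              apply ENNReal.ofReal_le_ofReal
              rw [Finset.abs_prod]
              exact Finset.prod_le_one (fun _ _ => abs_nonneg _) (fun i _ => abs_sc_le _ _ _)
            calc _ ≤ 1 * ‖mixedDiff k (supp u) (fun i => st k (u i) (b i) * x i) f z‖ₑ :=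
                  mul_le_mul_left h1 _
              _ = _ := one_mul _
        _ ≤ ∑ b : Fin d → Bool, NN top (fun z =>
            ‖mixedDiff k (supp u) (fun i => st k (u i) (b i) * x i) f z‖ₑ) :=
            NN_sum top _ (fun b _ => (mixedDiff_continuous k _ _ hf).measurable.enorm)
        _ ≤ ∑ _b : Fin d → Bool, W := by
            refine Finset.sum_le_sum (fun b _ => ?_)
            refine (NN_le_eLpNorm top (mixedDiff_continuous k _ _ hf)).trans ?_
            rw [hW]
            unfold mixedModulus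
            refine le_iSup₂ (f := fun (h : Fin d → ℝ) (_ : ∀ i ∈ supp u, |h i| < (1/2) ^ (u i)) =>
              eLpNorm (mixedDiff k (supp u) h f) (pp top) volume)
              (fun i => st k (u i) (b i) * x i) ?_
            intro i hi
            have hui : u i ≠ 0 := by simpa [supp] using hi
            have h2 := st_pos hk (u i) (b i)
            have h3 := st_le hk hui (b i)
            rw [abs_mul, abs_of_pos h2]
            calc st k (u i) (b i) * |x i| < st k (u i) (b i) * 1 :=
                  mul_lt_mul_of_pos_left (h0 i) h2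
              _ ≤ _ := by rw [mul_one]; exact h3
        _ = 2 ^ d * W := by
            rw [Finset.sum_const, nsmul_eq_mul]
            simp only [Finset.card_univ, Fintype.card_pi, Fintype.card_bool, Finset.prod_const,
              Fintype.card_fin]
            push_cast
            rfl
  have hbn : ∫⁻ x : Fin d → ℝ, ENNReal.ofReal (∏ i, bn (x i)) = 1 := by
    rw [← ofReal_integral_eq_lintegral_ofReal prod_bn_integrable
      (Filter.Eventually.of_forall prod_bn_nonneg), prod_bn_integral, ENNReal.ofReal_one]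
  have hbnm : Measurable (fun x : Fin d → ℝ => ENNReal.ofReal (∏ i, bn (x i))) :=
    (Finset.measurable_prod _ (fun i _ => bn_continuous.measurable.comp
      (measurable_pi_apply i))).ennreal_ofReal
  have hpt : ∀ z, ‖Dm k u f z‖ₑ ≤ ∫⁻ x : Fin d → ℝ, ENNReal.ofReal (∏ i, bn (x i)) *
      ‖Dk k u x f z‖ₑ := by
    intro z
    unfold Dm
    refine (enorm_integral_le_lintegral_enorm _).trans (le_of_eq ?_)
    congr 1
    funext x
    rw [enorm_mul, Real.enorm_of_nonneg (prod_bn_nonneg x)]
  have hfinal : ∫⁻ x : Fin d → ℝ, ENNReal.ofReal (∏ i, bn (x i)) *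
      NN top (fun z => ‖Dk k u x f z‖ₑ) ≤ 2 ^ d * W := by
    calc _ ≤ ∫⁻ x : Fin d → ℝ, ENNReal.ofReal (∏ i, bn (x i)) * (2 ^ d * W) := lintegral_mono hx
      _ = 2 ^ d * W := by rw [lintegral_mul_const _ hbnm, hbn, one_mul]
  refine le_trans ?_ hfinal
  refine (NN_mono top hpt).trans ?_
  have hDkm : Measurable (fun p : (Fin d → ℝ) × Torus d => ‖Dk k u p.1 f p.2‖ₑ) :=
    (Dk_continuous k u hf).measurable.enorm
  cases top
  · unfold NN
    simp only [Bool.false_eq_true, if_false]
    have h1 : Measurable (fun p : Torus d × (Fin d → ℝ) => ‖Dk k u p.2 f p.1‖ₑ) := by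
      have h2 : Measurable (fun p : Torus d × (Fin d → ℝ) => (p.2, p.1)) := measurable_swap
      have h3 := hDkm.comp h2
      exact h3
    have h4 : Measurable (fun p : Torus d × (Fin d → ℝ) => ENNReal.ofReal (∏ i, bn (p.2 i))) :=
      hbnm.comp measurable_snd
    have hm' : Measurable (fun p : Torus d × (Fin d → ℝ) =>
        ENNReal.ofReal (∏ i, bn (p.2 i)) * ‖Dk k u p.2 f p.1‖ₑ) := Measurable.mul h4 h1
    have hm : AEMeasurable (Function.uncurry (fun (z : Torus d) (x : Fin d → ℝ) =>
        ENNReal.ofReal (∏ i, bn (x i)) * ‖Dk k u x f z‖ₑ))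
        ((volume : Measure (Torus d)).prod (volume : Measure (Fin d → ℝ))) := hm'.aemeasurable
    rw [lintegral_lintegral_swap hm]
    refine le_of_eq ?_
    congr 1
    funext x
    rw [lintegral_const_mul]
    exact (Dk_continuous_right k u hf x).measurable.enorm
  · unfold NN
    simp only [if_true]
    refine iSup_le (fun z => lintegral_mono (fun x => ?_))
    exact mul_le_mul_right (le_iSup (fun z => ‖Dk k u x f z‖ₑ) z) _

end Pool.Agent.Helper218_SB
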