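import Pool.Agent.Helper218_SB.UErr

namespace Pool.Agent.Helper218_SB

open MeasureTheory Set
open scoped ENNReal

variable {d : ℕ}

/-- sampling numbers are bounded by the error of any sampling operator with at most `m` nodes -/
theorem samplingNumber_le {𝕜 : Type} [RCLike 𝕜] {m : ℕ} {F : Set (Torus d → 𝕜)} {p : ℝ≥0∞}
    {ι : Type} [Fintype ι] (hm : Fintype.card ι ≤ m) (x : ι → Torus d) (ψ : ι → Torus d → 𝕜)
    (hψ : ∀ i, MemLp (ψ i) p volume) {B : ℝ≥0∞}
    (hB : ∀ f ∈ F, eLpNorm (fun y => f y - ∑ i, f (x i) * ψ i y) p volume ≤ B) :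
    samplingNumber m F p ≤ B := by
  classical
  obtain ⟨e⟩ : Nonempty (ι ↪ Fin m) :=
    Function.Embedding.nonempty_of_card_le (by simpa using hm)
  set x' : Fin m → Torus d := fun j => if h : ∃ i, e i = j then x h.choose else 0 with hx'
  set ψ' : Fin m → Torus d → 𝕜 := fun j => if h : ∃ i, e i = j then ψ h.choose else 0 with hψ'
  have hch : ∀ i, (⟨i, rfl⟩ : ∃ i', e i' = e i).choose = i := fun i =>
    e.injective (⟨i, rfl⟩ : ∃ i', e i' = e i).choose_spec
  have hx1 : ∀ i, x' (e i) = x i := by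
    intro i
    have h : ∃ i', e i' = e i := ⟨i, rfl⟩
    simp only [hx', h, dif_pos]
    rw [hch i]
  have hψ1 : ∀ i, ψ' (e i) = ψ i := by
    intro i
    have h : ∃ i', e i' = e i := ⟨i, rfl⟩
    simp only [hψ', h, dif_pos]
    rw [hch i]
  have hψ0 : ∀ j, (¬ ∃ i, e i = j) → ψ' j = 0 := by
    intro j h
    simp only [hψ', h, dif_neg, not_false_iff]
  have hmem : ∀ j, MemLp (ψ' j) p volume := by
    intro j
    by_cases h : ∃ i, e i = j
    · obtain ⟨i, rfl⟩ := h
      rw [hψ1]; exact hψ i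
    · rw [hψ0 j h]; exact MemLp.zero
  have hsum : ∀ (f : Torus d → 𝕜) y, ∑ j, f (x' j) * ψ' j y = ∑ i, f (x i) * ψ i y := by
    intro f y
    symm
    refine Finset.sum_of_injOn e (e.injective.injOn) (fun _ _ => Finset.mem_coe.2 (Finset.mem_univ _))
      ?_ ?_
    · intro j _ hj
      rw [hψ0 j (fun ⟨i, hi⟩ => hj ⟨i, Finset.mem_coe.2 (Finset.mem_univ _), hi⟩)]
      simp
    · intro i _
      rw [hx1, hψ1]
  unfold samplingNumber
  refine (iInf_le_of_le x' (iInf_le_of_le ψ' (iInf_le_of_le hmem ?_)))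
  refine iSup₂_le (fun f hf => ?_)
  simp only [hsum]
  exact hB f hf

/-- level of a node -/
def lev (k s : ℕ) (a : AA k) : ℕ := if a.1 then s - 1 else s

/-- the nodes -/
noncomputable def nd (k s : ℕ) (a : AA k) (l : ℕ) : AddCircle (2 * Real.pi) :=
  ((2 * Real.pi * ((l : ℝ) + (a.2 : ℕ)) / 2 ^ (lev k s a) : ℝ) : AddCircle (2 * Real.pi))

theorem node_eq (k s : ℕ) (a : AA k) (x : AddCircle (2 * Real.pi)) :
    x + ((tt k s a x : ℝ) : AddCircle (2 * Real.pi)) = nd k s a (cl (lev k s a) x) := by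
  have hpi := Real.pi_pos
  have key : ∀ L : ℕ, ∀ j : ℝ, lft x + 2 * Real.pi / 2 ^ L * (j - fr L x)
      = 2 * Real.pi * ((cl L x : ℝ) + j) / 2 ^ L := by
    intro L j
    have h1 := cl_add_fr L x
    have h2 : lft x = 2 * Real.pi / 2 ^ L * ps L x := by
      unfold ps; field_simp
    rw [h2, ← h1]
    field_simp
    ring
  have e0 : x + ((tt k s a x : ℝ) : AddCircle (2 * Real.pi))
      = ((lft x : ℝ) : AddCircle (2 * Real.pi)) + ((tt k s a x : ℝ) : AddCircle (2 * Real.pi)) := by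
    rw [coe_lft]
  rw [e0]
  unfold nd
  rw [← AddCircle.coe_add]
  congr 1
  obtain ⟨b, j⟩ := a
  cases b
  · simp only [tt, lev, Bool.false_eq_true, if_false]
    exact key s _
  · simp only [tt, lev, if_true]
    exact key (s - 1) _

theorem cl_lev_lt (k s : ℕ) (a : AA k) (x : AddCircle (2 * Real.pi)) : cl (lev k s a) x < 2 ^ s := by
  have h1 := cl_lt (lev k s a) x
  have h2 : lev k s a ≤ s := by unfold lev; split_ifs <;> omega
  exact h1.trans_le (Nat.pow_le_pow_right (by norm_num) h2)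

/-- index set of the nodes used at level `s` -/
abbrev NI (k : ℕ) (s : Fin d → ℕ) : Type := (Fin d → AA k) × ((i : Fin d) → Fin (2 ^ (s i)))

/-- the basis functions -/
noncomputable def bas (k : ℕ) (s : Fin d → ℕ) (p : NI k s) (x : Torus d) : ℝ :=
  ∏ i, (cc k (s i) (p.1 i) (x i) * (if cl (lev k (s i) (p.1 i)) (x i) = p.2 i then 1 else 0))

/-- the node points -/
noncomputable def ptn (k : ℕ) (s : Fin d → ℕ) (p : NI k s) : Torus d :=
  fun i => nd k (s i) (p.1 i) (p.2 i)

theorem Em_eq_nodes (k : ℕ) (s : Fin d → ℕ) (f : Torus d → ℝ) (x : Torus d) :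
    Em k s f x = ∑ p : NI k s, f (ptn k s p) * bas k s p x := by
  classical
  rw [Fintype.sum_prod_type]
  unfold Em
  refine Finset.sum_congr rfl (fun a _ => ?_)
  set l0 : (i : Fin d) → Fin (2 ^ (s i)) := fun i => ⟨cl (lev k (s i) (a i)) (x i), cl_lev_lt _ _ _ _⟩
    with hl0
  rw [Finset.sum_eq_single l0]
  · have h1 : (x + fun i => ((tt k (s i) (a i) (x i) : ℝ) : AddCircle (2 * Real.pi)))
        = ptn k s (a, l0) := by
      funext i
      exact node_eq k (s i) (a i) (x i)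
    rw [h1, mul_comm]
    congr 1
    unfold bas
    refine Finset.prod_congr rfl (fun i _ => ?_)
    simp [hl0]
  · intro l _ hl
    have : ∃ i, l i ≠ l0 i := by
      by_contra hcon
      push Not at hcon
      exact hl (funext hcon)
    obtain ⟨i, hi⟩ := this
    have h2 : bas k s (a, l) x = 0 := by
      unfold bas
      apply Finset.prod_eq_zero (Finset.mem_univ i)
      have h3 : ¬ cl (lev k (s i) (a i)) (x i) = (l i : ℕ) := by
        intro h
        apply hi
        apply Fin.ext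
        rw [← h]
      simp [h3]
    rw [h2, mul_zero]
  · intro h; exact absurd (Finset.mem_univ _) h

theorem bas_measurable (k : ℕ) (s : Fin d → ℕ) (p : NI k s) : Measurable (bas k s p) := by
  unfold bas
  refine Finset.measurable_prod _ (fun i _ => ?_)
  refine ((cc_measurable k _ _).comp (measurable_pi_apply i)).mul ?_
  refine Measurable.ite ?_ measurable_const measurable_const
  exact ((cl_measurable _).comp (measurable_pi_apply i)) (measurableSet_singleton _)

theorem bas_memLp {𝕜 : Type} [RCLike 𝕜] (k : ℕ) (s : Fin d → ℕ) (p : NI k s) (q : ℝ≥0∞) :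
    MemLp (fun x => ((bas k s p x : ℝ) : 𝕜)) q (volume : Measure (Torus d)) := by
  obtain ⟨C, hC1, hC⟩ := exists_cc_bound k
  refine MemLp.of_bound (C := C ^ d) ?_ (Filter.Eventually.of_forall (fun x => ?_))
  · exact (RCLike.measurable_ofReal.comp (bas_measurable k s p)).aestronglyMeasurable
  · rw [RCLike.norm_ofReal]
    unfold bas
    rw [Finset.abs_prod]
    calc _ ≤ ∏ _i : Fin d, C := by
          refine Finset.prod_le_prod (fun _ _ => abs_nonneg _) (fun i _ => ?_)
          rw [abs_mul]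
          calc _ ≤ C * 1 := by
                refine mul_le_mul (hC _ _ _) ?_ (abs_nonneg _) (by linarith)
                split_ifs <;> simp
            _ = C := mul_one C
      _ = C ^ d := by simp

/-- the index set of the Smolyak grid -/
def Sn (d n : ℕ) : Finset (Fin d → ℕ) :=
  (Fintype.piFinset (fun _ : Fin d => Finset.range (n + 1))).filter (fun s => ∑ i, s i ≤ n)

/-- all nodes of the Smolyak operator -/
abbrev GI (k d n : ℕ) : Type := Σ s : {s // s ∈ Sn d n}, NI k s.1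

theorem card_GI (k d' n : ℕ) :
    Fintype.card (GI k (d' + 1) n) ≤ (2 * k) ^ (d' + 1) * ((n + 1) ^ d' * 2 ^ (n + 1)) := by
  classical
  rw [Fintype.card_sigma]
  have h1 : ∀ s : {s // s ∈ Sn (d' + 1) n}, Fintype.card (NI k s.1)
      = (2 * k) ^ (d' + 1) * 2 ^ (∑ i, s.1 i) := by
    intro s
    rw [Fintype.card_prod, Fintype.card_pi, Fintype.card_pi]
    simp only [Fintype.card_prod, Fintype.card_bool, Fintype.card_fin, Finset.prod_const,
      Finset.card_univ]
    rw [Finset.prod_pow_eq_pow_sum]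
  rw [Finset.sum_congr rfl (fun s _ => h1 s), ← Finset.mul_sum]
  refine Nat.mul_le_mul_left _ ?_
  have h2 : ∑ s : {s // s ∈ Sn (d' + 1) n}, 2 ^ (∑ i, s.1 i) = ∑ s ∈ Sn (d' + 1) n, 2 ^ (∑ i, s i) :=
    Finset.sum_coe_sort (Sn (d' + 1) n) (fun s => 2 ^ (∑ i, s i))
  rw [h2]
  exact sum_two_pow_le d' n

theorem Tn_eq_nodes (k n : ℕ) (f : Torus d → ℝ) (x : Torus d) :
    Tn k n f x = ∑ p : GI k d n, f (ptn k p.1.1 p.2) * bas k p.1.1 p.2 x := by
  classical
  rw [Fintype.sum_sigma]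
  unfold Tn
  rw [← Finset.sum_coe_sort]
  refine Finset.sum_congr rfl (fun s _ => ?_)
  exact Em_eq_nodes k s.1 f x

/-- error of the Smolyak operator for `𝕜`-valued functions -/
theorem eLpNorm_sub_nodes_le {𝕜 : Type} [RCLike 𝕜] (top : Bool) (k n : ℕ) {f : Torus d → 𝕜}
    (hf : Continuous f) {B : ℝ≥0∞}
    (h1 : NN top (fun x => ‖RCLike.re (f x) - Tn k n (fun y => RCLike.re (f y)) x‖ₑ) ≤ B)
    (h2 : NN top (fun x => ‖RCLike.im (f x) - Tn k n (fun y => RCLike.im (f y)) x‖ₑ) ≤ B) :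
    eLpNorm (fun y => f y - ∑ p : GI k d n, f (ptn k p.1.1 p.2) *
      ((bas k p.1.1 p.2 y : ℝ) : 𝕜)) (pp top) volume ≤ 2 * B := by
  set F : Torus d → 𝕜 := fun y => f y - ∑ p : GI k d n, f (ptn k p.1.1 p.2) *
      ((bas k p.1.1 p.2 y : ℝ) : 𝕜) with hF
  have hre : ∀ y, RCLike.re (F y) = RCLike.re (f y) - Tn k n (fun y => RCLike.re (f y)) y := by
    intro y
    rw [hF, Tn_eq_nodes]
    simp only [map_sub, map_sum]
    congr 1
    refine Finset.sum_congr rfl (fun p _ => ?_)
    rw [RCLike.re_mul_ofReal]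
  have him : ∀ y, RCLike.im (F y) = RCLike.im (f y) - Tn k n (fun y => RCLike.im (f y)) y := by
    intro y
    rw [hF, Tn_eq_nodes]
    simp only [map_sub, map_sum]
    congr 1
    refine Finset.sum_congr rfl (fun p _ => ?_)
    rw [RCLike.im_mul_ofReal]
  have hFm : AEStronglyMeasurable F volume := by
    refine hf.aestronglyMeasurable.sub ?_
    have : Measurable (fun y => ∑ p : GI k d n, f (ptn k p.1.1 p.2) *
      ((bas k p.1.1 p.2 y : ℝ) : 𝕜)) :=
      Finset.measurable_sum _ (fun p _ => (RCLike.measurable_ofReal.comp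
        (bas_measurable k p.1.1 p.2)).const_mul _)
    exact this.aestronglyMeasurable
  have hp1 : 1 ≤ pp top := by
    unfold pp; split_ifs
    · exact le_top
    · exact le_rfl
  have e1 : F = (fun y => ((RCLike.re (F y) : ℝ) : 𝕜)) +
      (fun y => ((RCLike.im (F y) : ℝ) : 𝕜) * RCLike.I) := by
    funext y
    simp only [Pi.add_apply]
    exact (RCLike.re_add_im (F y)).symm
  have hrem : AEStronglyMeasurable (fun y => ((RCLike.re (F y) : ℝ) : 𝕜)) volume :=
    RCLike.continuous_ofReal.comp_aestronglyMeasurable (RCLike.continuous_re.comp_aestronglyMeasurable hFm)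
  have himm : AEStronglyMeasurable (fun y => ((RCLike.im (F y) : ℝ) : 𝕜) * RCLike.I) volume :=
    (RCLike.continuous_ofReal.comp_aestronglyMeasurable
      (RCLike.continuous_im.comp_aestronglyMeasurable hFm)).mul_const _
  have hA : eLpNorm (fun y => ((RCLike.re (F y) : ℝ) : 𝕜)) (pp top) volume ≤ B := by
    refine le_trans ?_ h1
    refine le_trans ?_ (eLpNorm_le_NN top _)
    refine eLpNorm_mono (fun y => ?_)
    rw [RCLike.norm_ofReal, hre, Real.norm_eq_abs]
  have hB : eLpNorm (fun y => ((RCLike.im (F y) : ℝ) : 𝕜) * RCLike.I) (pp top) volume ≤ B := by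
    refine le_trans ?_ h2
    refine le_trans ?_ (eLpNorm_le_NN top _)
    refine eLpNorm_mono (fun y => ?_)
    rw [norm_mul, RCLike.norm_ofReal, him, Real.norm_eq_abs]
    have : ‖(RCLike.I : 𝕜)‖ ≤ 1 := by
      rcases RCLike.I_eq_zero_or_im_I_eq_one (K := 𝕜) with h | h
      · rw [h]; simp
      · exact (RCLike.norm_I_of_ne_zero (by
          intro h0; rw [h0] at h; simp at h)).le
    calc _ ≤ _ * 1 := mul_le_mul_of_nonneg_left this (abs_nonneg _)
      _ = _ := mul_one _
  rw [e1]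
  calc eLpNorm _ (pp top) volume ≤ _ := eLpNorm_add_le hrem himm hp1
    _ ≤ B + B := add_le_add hA hB
    _ = 2 * B := by ring

/-- upper bound at a given level -/
theorem exists_upper_level (𝕜 : Type) [RCLike 𝕜] (top : Bool) (d' : ℕ) {k : ℕ} {r : ℝ} (hr : 0 < r)
    (hr1 : top = false → 1 < r) (hk : r < k) (θ : ℝ≥0∞) (hθ : 1 ≤ θ) : ∃ C : ℝ, 1 ≤ C ∧
    (∀ n m : ℕ, (2 * k) ^ (d' + 1) * ((n + 1) ^ d' * 2 ^ (n + 1)) ≤ m →
      samplingNumber m (besovClass 𝕜 (d' + 1) k r (pp top) θ) (pp top) ≤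
        ENNReal.ofReal (C * (((2:ℝ) ^ (-r)) ^ n * (((n:ℝ) + 1) ^ d') ^ (1 - (θ⁻¹).toReal)))) ∧
    (∀ m : ℕ, samplingNumber m (besovClass 𝕜 (d' + 1) k r (pp top) θ) (pp top) ≤
      ENNReal.ofReal C) := by
  obtain ⟨C, hC1, hC⟩ := exists_err top d' hr hr1 hk θ hθ
  obtain ⟨Cs, hCs1, hCs⟩ := exists_seq_bound (d' + 1) r hr θ hθ
  refine ⟨2 * C + Cs, by linarith, ?_, ?_⟩
  · intro n m hm
    set B : ℝ≥0∞ := ENNReal.ofReal (C * (((2:ℝ) ^ (-r)) ^ n *
      (((n:ℝ) + 1) ^ d') ^ (1 - (θ⁻¹).toReal))) with hB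
    have h2B : 2 * B ≤ ENNReal.ofReal ((2 * C + Cs) * (((2:ℝ) ^ (-r)) ^ n *
      (((n:ℝ) + 1) ^ d') ^ (1 - (θ⁻¹).toReal))) := by
      have : (2:ℝ≥0∞) = ENNReal.ofReal 2 := by norm_num
      rw [hB, this, ← ENNReal.ofReal_mul (by norm_num)]
      apply ENNReal.ofReal_le_ofReal
      rw [← mul_assoc]
      refine mul_le_mul_of_nonneg_right (by linarith) (by positivity)
    refine le_trans ?_ h2B
    refine samplingNumber_le ((card_GI k d' n).trans hm) (fun p => ptn k p.1.1 p.2)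
      (fun p y => ((bas k p.1.1 p.2 y : ℝ) : 𝕜)) (fun p => bas_memLp k p.1.1 p.2 _) ?_
    rintro f ⟨hf, hfn⟩
    refine eLpNorm_sub_nodes_le top k n hf ?_ ?_
    · exact hC n _ (RCLike.continuous_re.comp hf) ((besovNorm_re_le k r _ θ f).trans hfn)
    · exact hC n _ (RCLike.continuous_im.comp hf) ((besovNorm_im_le k r _ θ f).trans hfn)
  · intro m
    unfold samplingNumber
    refine (iInf_le_of_le (fun _ => 0) (iInf_le_of_le (fun _ => 0) (iInf_le_of_le
      (fun _ => MemLp.zero) ?_)))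
    refine iSup₂_le (fun f hf => ?_)
    have h1 : (fun y => f y - ∑ j : Fin m, f ((fun _ => (0 : Torus (d' + 1))) j) *
        (0 : Torus (d' + 1) → 𝕜) y) = f := by
      funext y; simp
    rw [h1]
    refine (modulus_zero k (pp top) f).trans ?_
    have h2 := (hCs 𝕜 k (pp top) f hf.2).2 0
    simp only [Pi.zero_apply, Nat.cast_zero, mul_zero, Real.rpow_zero, Finset.prod_const_one,
      ENNReal.ofReal_one, one_mul] at h2
    refine h2.trans (ENNReal.ofReal_le_ofReal (by linarith))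

end Pool.Agent.Helper218_SB
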