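import Pool.Agent.Helper218_SB.UNorm
import Pool.Agent.Helper218_SB.Family

namespace Pool.Agent.Helper218_SB

open MeasureTheory Set
open scoped ENNReal

theorem tsum_le_of_finset {α : Type*} {a : α → ℝ≥0∞} {b : ℝ≥0∞}
    (h : ∀ T : Finset α, ∑ i ∈ T, a i ≤ b) : ∑' i, a i ≤ b := by
  rw [ENNReal.tsum_eq_iSup_sum]
  exact iSup_le h

theorem tsum_prod_le (d : ℕ) (a : Fin d → ℕ → ℝ≥0∞) :
    ∑' s : Fin d → ℕ, ∏ i, a i (s i) ≤ ∏ i, ∑' v, a i v := by
  classical
  refine tsum_le_of_finset (fun T => ?_)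
  set N : ℕ := T.sup (fun s => Finset.univ.sup s) + 1 with hN
  have hsub : T ⊆ Fintype.piFinset (fun _ : Fin d => Finset.range N) := by
    intro s hs
    rw [Fintype.mem_piFinset]
    intro i
    rw [Finset.mem_range, hN, Nat.lt_succ_iff]
    exact (Finset.le_sup (f := s) (Finset.mem_univ i)).trans
      (Finset.le_sup (f := fun s : Fin d → ℕ => Finset.univ.sup s) hs)
  calc ∑ s ∈ T, ∏ i, a i (s i)
      ≤ ∑ s ∈ Fintype.piFinset (fun _ : Fin d => Finset.range N), ∏ i, a i (s i) :=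
        Finset.sum_le_sum_of_subset hsub
    _ = ∏ i, ∑ v ∈ Finset.range N, a i v := by rw [Finset.prod_univ_sum]
    _ ≤ ∏ i, ∑' v, a i v := Finset.prod_le_prod' (fun i _ => ENNReal.sum_le_tsum _)

/-- weights between levels -/
noncomputable def be (top : Bool) (r C : ℝ) (k s u : ℕ) : ℝ≥0∞ :=
  ENNReal.ofReal ((2:ℝ) ^ (r * s) * (C * ww top k s u) * (2:ℝ) ^ (-(r * u)))

theorem be_le (top : Bool) {r : ℝ} {k : ℕ} (hr : 0 < r) (hr1 : top = false → 1 < r) (hk : r < k) :
    ∃ ρ : ℝ, 0 ≤ ρ ∧ ρ < 1 ∧ ∀ s u : ℕ,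
      (2:ℝ) ^ (r * s) * ww top k s u * (2:ℝ) ^ (-(r * u)) ≤ ρ ^ ((s : ℤ) - u).natAbs := by
  set ρ1 : ℝ := (2:ℝ) ^ (r - k) with hρ1
  set ρ2 : ℝ := if top then (2:ℝ) ^ (-r) else (2:ℝ) ^ (1 - r) with hρ2
  have h1 : ρ1 < 1 := Real.rpow_lt_one_of_one_lt_of_neg (by norm_num) (by linarith)
  have h10 : 0 < ρ1 := by positivity
  have h20 : 0 < ρ2 := by rw [hρ2]; split_ifs <;> positivity
  have h2 : ρ2 < 1 := by
    rw [hρ2]
    cases top
    · simp only [Bool.false_eq_true, if_false]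
      exact Real.rpow_lt_one_of_one_lt_of_neg (by norm_num) (by linarith [hr1 rfl])
    · simp only [if_true]
      exact Real.rpow_lt_one_of_one_lt_of_neg (by norm_num) (by linarith)
  refine ⟨max ρ1 ρ2, le_max_of_le_left h10.le, max_lt h1 h2, ?_⟩
  intro s u
  rcases le_or_gt u s with hus | hus
  · obtain ⟨j, rfl⟩ := Nat.exists_eq_add_of_le hus
    have e1 : (((u + j : ℕ) : ℤ) - u).natAbs = j := by omega
    have e2 : ww top k (u + j) u = (1/2) ^ (k * j) := by
      unfold ww w1 wi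
      have : u + j - u = j := by omega
      split_ifs <;> simp_all
    rw [e1, e2]
    have e3 : (2:ℝ) ^ (r * ((u + j : ℕ) : ℝ)) * (1/2:ℝ) ^ (k * j) * (2:ℝ) ^ (-(r * u)) = ρ1 ^ j := by
      have e4 : (1/2:ℝ) ^ (k * j) = (2:ℝ) ^ (-((k:ℝ) * j)) := by
        rw [Real.rpow_neg (by norm_num), ← Nat.cast_mul, Real.rpow_natCast, div_pow, one_pow, one_div]
      rw [e4, ← Real.rpow_add (by norm_num), ← Real.rpow_add (by norm_num), hρ1,
        ← Real.rpow_natCast, ← Real.rpow_mul (by norm_num)]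
      congr 1
      push_cast
      ring
    rw [e3]
    exact pow_le_pow_left₀ h10.le (le_max_left _ _) _
  · obtain ⟨j, rfl⟩ := Nat.exists_eq_add_of_lt hus
    have e1 : ((s : ℤ) - ((s + j + 1 : ℕ) : ℤ)).natAbs = j + 1 := by omega
    have e3 : (2:ℝ) ^ (r * (s : ℝ)) * ww top k s (s + j + 1) * (2:ℝ) ^ (-(r * ((s + j + 1 : ℕ) : ℝ)))
        = ρ2 ^ (j + 1) := by
      cases top
      · have e2 : ww false k s (s + j + 1) = (2:ℝ) ^ (((j + 1 : ℕ)) : ℝ) := by
          rw [Real.rpow_natCast]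
          unfold ww w1
          have h3 : ¬ (s + j + 1 ≤ s) := by omega
          have h4 : s + j + 1 - s = j + 1 := by omega
          simp only [Bool.false_eq_true, if_false, h3, h4]
        rw [e2, ← Real.rpow_add (by norm_num), ← Real.rpow_add (by norm_num), hρ2]
        simp only [Bool.false_eq_true, if_false]
        rw [← Real.rpow_natCast ((2:ℝ) ^ (1 - r)), ← Real.rpow_mul (by norm_num)]
        congr 1
        push_cast
        ring
      · have e2 : ww true k s (s + j + 1) = 1 := by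
          unfold ww wi
          have h3 : ¬ (s + j + 1 ≤ s) := by omega
          simp only [if_true, h3, if_false]
        rw [e2, mul_one, ← Real.rpow_add (by norm_num), hρ2]
        simp only [if_true]
        rw [← Real.rpow_natCast ((2:ℝ) ^ (-r)), ← Real.rpow_mul (by norm_num)]
        congr 1
        push_cast
        ring
    rw [e1, e3]
    exact pow_le_pow_left₀ h20.le (le_max_right _ _) _

theorem exists_be_sum (top : Bool) {r C : ℝ} {k : ℕ} (hr : 0 < r) (hr1 : top = false → 1 < r)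
    (hk : r < k) (hC : 1 ≤ C) : ∃ K : ℝ, 1 ≤ K ∧
      (∀ u, ∑' s, be top r C k s u ≤ ENNReal.ofReal K) ∧
      (∀ s, ∑' u, be top r C k s u ≤ ENNReal.ofReal K) := by
  obtain ⟨ρ, h0, h1, h⟩ := be_le top hr hr1 hk
  have hρ : 0 < 1 - ρ := by linarith
  have hinv : 1 ≤ (1 - ρ)⁻¹ := (one_le_inv₀ hρ).2 (by linarith)
  have hb : ∀ s u, be top r C k s u ≤ ENNReal.ofReal (C * ρ ^ ((s : ℤ) - u).natAbs) := by
    intro s u
    apply ENNReal.ofReal_le_ofReal
    calc (2:ℝ) ^ (r * s) * (C * ww top k s u) * (2:ℝ) ^ (-(r * u))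
        = C * ((2:ℝ) ^ (r * s) * ww top k s u * (2:ℝ) ^ (-(r * u))) := by ring
      _ ≤ _ := mul_le_mul_of_nonneg_left (h s u) (by linarith)
  refine ⟨C * (2 * (1 - ρ)⁻¹), by nlinarith, fun u => ?_, fun s => ?_⟩
  · refine tsum_le_of_finset (fun T => ?_)
    calc ∑ s ∈ T, be top r C k s u ≤ ∑ s ∈ T, ENNReal.ofReal (C * ρ ^ ((s : ℤ) - u).natAbs) :=
          Finset.sum_le_sum (fun s _ => hb s u)
      _ = ENNReal.ofReal (∑ s ∈ T, C * ρ ^ ((s : ℤ) - u).natAbs) := by
          rw [ENNReal.ofReal_sum_of_nonneg (fun i _ => by positivity)]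
      _ ≤ _ := by
          apply ENNReal.ofReal_le_ofReal
          rw [← Finset.mul_sum]
          refine mul_le_mul_of_nonneg_left ?_ (by linarith)
          have h2 := sum_two_sided_le h0 h1 u T
          have e : ∀ v : ℕ, ((u : ℤ) - v).natAbs = ((v : ℤ) - u).natAbs := fun v => by omega
          simp_rw [e] at h2
          exact h2
  · refine tsum_le_of_finset (fun T => ?_)
    calc ∑ u ∈ T, be top r C k s u ≤ ∑ u ∈ T, ENNReal.ofReal (C * ρ ^ ((s : ℤ) - u).natAbs) :=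
          Finset.sum_le_sum (fun u _ => hb s u)
      _ = ENNReal.ofReal (∑ u ∈ T, C * ρ ^ ((s : ℤ) - u).natAbs) := by
          rw [ENNReal.ofReal_sum_of_nonneg (fun i _ => by positivity)]
      _ ≤ _ := by
          apply ENNReal.ofReal_le_ofReal
          rw [← Finset.mul_sum]
          exact mul_le_mul_of_nonneg_left (sum_two_sided_le h0 h1 s T) (by linarith)

/-! ### tails -/

/-- tail sums over multiindices -/
noncomputable def Rt (x : ℝ) (d n : ℕ) : ℝ≥0∞ :=
  ∑' s : Fin d → ℕ, (if n < ∑ i, s i then ENNReal.ofReal (x ^ (∑ i, s i)) else 0)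

theorem tail_one {x : ℝ} (hx0 : 0 < x) (hx1 : x < 1) (n a : ℕ) :
    ∑' v : ℕ, (if n < v + a then ENNReal.ofReal (x ^ (v + a)) else 0) ≤
      ENNReal.ofReal ((1 - x)⁻¹) * (if n < a then ENNReal.ofReal (x ^ a) else ENNReal.ofReal (x ^ n)) := by
  classical
  have hx : 0 < 1 - x := by linarith
  refine tsum_le_of_finset (fun T => ?_)
  rw [← Finset.sum_filter, ← ENNReal.ofReal_sum_of_nonneg (fun i _ => by positivity)]
  by_cases hna : n < a
  · simp only [hna, if_true]
    rw [← ENNReal.ofReal_mul (by positivity)]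
    apply ENNReal.ofReal_le_ofReal
    have h1 := sum_pow_inj_le hx0.le hx1 (T.filter (fun v => n < v + a)) (fun v => v)
      (fun a _ b _ h => h)
    calc ∑ v ∈ T.filter (fun v => n < v + a), x ^ (v + a)
        = (∑ v ∈ T.filter (fun v => n < v + a), x ^ v) * x ^ a := by
          rw [Finset.sum_mul]
          exact Finset.sum_congr rfl (fun v _ => pow_add x v a)
      _ ≤ _ := mul_le_mul_of_nonneg_right h1 (by positivity)
  · simp only [hna, if_false]
    rw [← ENNReal.ofReal_mul (by positivity)]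
    apply ENNReal.ofReal_le_ofReal
    have h1 := sum_pow_inj_le hx0.le hx1 (T.filter (fun v => n < v + a)) (fun v => v + a - n) (by
      intro v hv w hw h
      have hv' : n < v + a := (Finset.mem_filter.1 hv).2
      have hw' : n < w + a := (Finset.mem_filter.1 hw).2
      simp only at h
      omega)
    calc ∑ v ∈ T.filter (fun v => n < v + a), x ^ (v + a)
        = (∑ v ∈ T.filter (fun v => n < v + a), x ^ (v + a - n)) * x ^ n := by
          rw [Finset.sum_mul]
          refine Finset.sum_congr rfl (fun v hv => ?_)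
          have hv' : n < v + a := (Finset.mem_filter.1 hv).2
          rw [← pow_add]
          congr 1
          omega
      _ ≤ _ := mul_le_mul_of_nonneg_right h1 (by positivity)

theorem card_small (d n : ℕ) :
    ∑' s : Fin d → ℕ, (if ∑ i, s i ≤ n then (1:ℝ≥0∞) else 0) ≤ ENNReal.ofReal (((n:ℝ) + 1) ^ d) := by
  classical
  set P : Finset (Fin d → ℕ) := Fintype.piFinset (fun _ : Fin d => Finset.range (n + 1)) with hP
  have h1 : ∀ s ∉ P, (if ∑ i, s i ≤ n then (1:ℝ≥0∞) else 0) = 0 := by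
    intro s hs
    rw [if_neg]
    intro h
    apply hs
    rw [hP, Fintype.mem_piFinset]
    intro i
    have := Finset.single_le_sum (f := s) (fun _ _ => Nat.zero_le _) (Finset.mem_univ i)
    rw [Finset.mem_range]
    omega
  rw [tsum_eq_sum h1]
  calc ∑ s ∈ P, (if ∑ i, s i ≤ n then (1:ℝ≥0∞) else 0) ≤ ∑ _s ∈ P, (1:ℝ≥0∞) := by
        refine Finset.sum_le_sum (fun s _ => ?_)
        split_ifs <;> simp
    _ = ENNReal.ofReal (((n:ℝ) + 1) ^ d) := by
        rw [Finset.sum_const, nsmul_eq_mul, mul_one, hP, Fintype.card_piFinset]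
        simp only [Finset.card_range, Finset.prod_const, Finset.card_univ, Fintype.card_fin]
        rw [← ENNReal.ofReal_natCast]
        congr 1
        push_cast
        rfl

theorem Rt_succ {x : ℝ} (hx0 : 0 < x) (hx1 : x < 1) (d n : ℕ) :
    Rt x (d + 1) n ≤ ENNReal.ofReal ((1 - x)⁻¹) *
      (ENNReal.ofReal (x ^ n * ((n:ℝ) + 1) ^ d) + Rt x d n) := by
  have e1 : Rt x (d + 1) n = ∑' p : ℕ × (Fin d → ℕ),
      (if n < p.1 + ∑ i, p.2 i then ENNReal.ofReal (x ^ (p.1 + ∑ i, p.2 i)) else 0) := by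
    unfold Rt
    rw [← (Fin.consEquiv (fun _ : Fin (d + 1) => ℕ)).tsum_eq]
    refine tsum_congr (fun p => ?_)
    simp [Fin.consEquiv, Fin.sum_univ_succ]
  have e2 := ENNReal.tsum_prod (f := fun (v : ℕ) (b : Fin d → ℕ) =>
    (if n < v + ∑ i, b i then ENNReal.ofReal (x ^ (v + ∑ i, b i)) else 0))
  rw [e1, e2, ENNReal.tsum_comm]
  calc ∑' b : Fin d → ℕ, ∑' v : ℕ,
        (if n < v + ∑ i, b i then ENNReal.ofReal (x ^ (v + ∑ i, b i)) else 0)
      ≤ ∑' b : Fin d → ℕ, ENNReal.ofReal ((1 - x)⁻¹) *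
        (ENNReal.ofReal (x ^ n) * (if ∑ i, b i ≤ n then 1 else 0) +
          (if n < ∑ i, b i then ENNReal.ofReal (x ^ (∑ i, b i)) else 0)) := by
        refine ENNReal.tsum_le_tsum (fun b => (tail_one hx0 hx1 n _).trans (mul_le_mul_right ?_ _))
        by_cases h : n < ∑ i, b i
        · simp [h]
        · simp [h, not_lt.1 h]
    _ = ENNReal.ofReal ((1 - x)⁻¹) * (ENNReal.ofReal (x ^ n) *
        ∑' b : Fin d → ℕ, (if ∑ i, b i ≤ n then (1:ℝ≥0∞) else 0) + Rt x d n) := by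
        rw [ENNReal.tsum_mul_left, ENNReal.tsum_add, ENNReal.tsum_mul_left]
        rfl
    _ ≤ _ := by
        refine mul_le_mul_right (add_le_add ?_ le_rfl) _
        rw [ENNReal.ofReal_mul (by positivity)]
        exact mul_le_mul_right (card_small d n) _

theorem exists_Rt_weak {x : ℝ} (hx0 : 0 < x) (hx1 : x < 1) (d : ℕ) : ∃ C : ℝ, 1 ≤ C ∧ ∀ n : ℕ,
    Rt x d n ≤ ENNReal.ofReal (C * (x ^ n * ((n:ℝ) + 1) ^ d)) := by
  have hx : 0 < 1 - x := by linarith
  have hinv : 1 ≤ (1 - x)⁻¹ := (one_le_inv₀ hx).2 (by linarith)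
  induction d with
  | zero =>
    refine ⟨1, le_rfl, fun n => ?_⟩
    have : Rt x 0 n = 0 := by
      unfold Rt
      rw [ENNReal.tsum_eq_zero]
      intro s
      simp
    rw [this]
    exact zero_le
  | succ d ih =>
    obtain ⟨C, hC1, hC⟩ := ih
    refine ⟨(1 - x)⁻¹ * (1 + C), by nlinarith, fun n => ?_⟩
    refine (Rt_succ hx0 hx1 d n).trans ?_
    calc _ ≤ ENNReal.ofReal ((1 - x)⁻¹) * (ENNReal.ofReal (x ^ n * ((n:ℝ) + 1) ^ d) +
          ENNReal.ofReal (C * (x ^ n * ((n:ℝ) + 1) ^ d))) :=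
          mul_le_mul_right (add_le_add le_rfl (hC n)) _
      _ = ENNReal.ofReal ((1 - x)⁻¹ * (1 + C) * (x ^ n * ((n:ℝ) + 1) ^ d)) := by
          rw [← ENNReal.ofReal_add (by positivity) (by positivity),
            ← ENNReal.ofReal_mul (by positivity)]
          congr 1
          ring
      _ ≤ _ := by
          apply ENNReal.ofReal_le_ofReal
          refine mul_le_mul_of_nonneg_left (mul_le_mul_of_nonneg_left ?_ (by positivity))
            (by positivity)
          exact pow_le_pow_right₀ (by have : (0:ℝ) ≤ n := Nat.cast_nonneg _; linarith) (Nat.le_succ d)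

theorem exists_Rt {x : ℝ} (hx0 : 0 < x) (hx1 : x < 1) (d : ℕ) : ∃ C : ℝ, 1 ≤ C ∧ ∀ n : ℕ,
    Rt x (d + 1) n ≤ ENNReal.ofReal (C * (x ^ n * ((n:ℝ) + 1) ^ d)) := by
  have hx : 0 < 1 - x := by linarith
  have hinv : 1 ≤ (1 - x)⁻¹ := (one_le_inv₀ hx).2 (by linarith)
  obtain ⟨C, hC1, hC⟩ := exists_Rt_weak hx0 hx1 d
  refine ⟨(1 - x)⁻¹ * (1 + C), by nlinarith, fun n => ?_⟩
  refine (Rt_succ hx0 hx1 d n).trans ?_
  calc _ ≤ ENNReal.ofReal ((1 - x)⁻¹) * (ENNReal.ofReal (x ^ n * ((n:ℝ) + 1) ^ d) +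
        ENNReal.ofReal (C * (x ^ n * ((n:ℝ) + 1) ^ d))) :=
        mul_le_mul_right (add_le_add le_rfl (hC n)) _
    _ = ENNReal.ofReal ((1 - x)⁻¹ * (1 + C) * (x ^ n * ((n:ℝ) + 1) ^ d)) := by
        rw [← ENNReal.ofReal_add (by positivity) (by positivity),
          ← ENNReal.ofReal_mul (by positivity)]
        congr 1
        ring

/-- number of nodes of the Smolyak grid -/
theorem sum_two_pow_le (d n : ℕ) :
    ∑ s ∈ (Fintype.piFinset (fun _ : Fin (d + 1) => Finset.range (n + 1))).filter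
      (fun s => ∑ i, s i ≤ n), 2 ^ (∑ i, s i) ≤ (n + 1) ^ d * 2 ^ (n + 1) := by
  classical
  set S := (Fintype.piFinset (fun _ : Fin (d + 1) => Finset.range (n + 1))).filter
      (fun s => ∑ i, s i ≤ n) with hS
  set Q : Finset ((Fin d → ℕ) × ℕ) :=
    (Fintype.piFinset (fun _ : Fin d => Finset.range (n + 1))) ×ˢ Finset.range (n + 1) with hQ
  set φ : (Fin (d + 1) → ℕ) → (Fin d → ℕ) × ℕ := fun s => (fun i => s i.succ, ∑ i, s i) with hφ
  have hinj : Set.InjOn φ S := by
    intro s _ t _ h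
    simp only [hφ, Prod.mk.injEq] at h
    have h1 : ∀ i : Fin d, s i.succ = t i.succ := fun i => congrFun h.1 i
    have h2 := h.2
    rw [Fin.sum_univ_succ, Fin.sum_univ_succ, Finset.sum_congr rfl (fun i _ => h1 i)] at h2
    funext i
    refine Fin.cases ?_ ?_ i
    · omega
    · exact h1
  have himg : S.image φ ⊆ Q := by
    intro p hp
    obtain ⟨s, hs, rfl⟩ := Finset.mem_image.1 hp
    rw [hS, Finset.mem_filter, Fintype.mem_piFinset] at hs
    rw [hQ, Finset.mem_product, Fintype.mem_piFinset]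
    refine ⟨fun i => hs.1 _, ?_⟩
    rw [Finset.mem_range]
    have := hs.2
    simp only [hφ]
    omega
  have himage : ∑ p ∈ S.image φ, 2 ^ p.2 = ∑ s ∈ S, 2 ^ (∑ i, s i) :=
    Finset.sum_image (f := fun p : (Fin d → ℕ) × ℕ => 2 ^ p.2) hinj
  calc ∑ s ∈ S, 2 ^ (∑ i, s i) = ∑ p ∈ S.image φ, 2 ^ p.2 := himage.symm
    _ ≤ ∑ p ∈ Q, 2 ^ p.2 := Finset.sum_le_sum_of_subset himg
    _ = (n + 1) ^ d * ∑ L ∈ Finset.range (n + 1), 2 ^ L := by
        rw [hQ, Finset.sum_product]
        simp only [Finset.sum_const, smul_eq_mul, Fintype.card_piFinset, Finset.card_range,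
          Finset.prod_const, Finset.card_univ, Fintype.card_fin]
    _ ≤ _ := by
        refine Nat.mul_le_mul_left _ ?_
        have := Nat.geomSum_lt (m := 2) (n := n + 1) le_rfl (s := Finset.range (n + 1))
          (fun k hk => Finset.mem_range.1 hk)
        exact this.le

end Pool.Agent.Helper218_SB
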