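import Pool.Agent.Helper218_SB.UMoll2

namespace Pool.Agent.Helper218_SB

open MeasureTheory Set
open scoped ENNReal

theorem V1_comm (k a b : ℕ) {g : AddCircle (2 * Real.pi) → ℝ} (hg : Continuous g)
    (y : AddCircle (2 * Real.pi)) : V1 k a (V1 k b g) y = V1 k b (V1 k a g) y := by
  unfold V1
  have h1 : ∀ w : AddCircle (2 * Real.pi), vv k a w * ∫ w', vv k b w' * g (y + w + w')
      = ∫ w', vv k a w * (vv k b w' * g (y + w + w')) := fun w => by rw [integral_const_mul]
  have h2 : ∀ w : AddCircle (2 * Real.pi), vv k b w * ∫ w', vv k a w' * g (y + w + w')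
      = ∫ w', vv k a w' * (vv k b w * g (y + w' + w)) := fun w => by
    rw [← integral_const_mul]
    congr 1
    funext w'
    rw [add_right_comm]
    ring
  simp_rw [h1, h2]
  rw [integral_integral_swap]
  have hc : Continuous (fun p : AddCircle (2 * Real.pi) × AddCircle (2 * Real.pi) =>
      vv k a p.1 * (vv k b p.2 * g (y + p.1 + p.2))) :=
    ((vv_continuous k a).comp continuous_fst).mul (((vv_continuous k b).comp continuous_snd).mul
      (hg.comp ((continuous_const.add continuous_fst).add continuous_snd)))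
  exact int_cont hc

theorem V1_sub (k u : ℕ) {g h : AddCircle (2 * Real.pi) → ℝ} (hg : Continuous g)
    (hh : Continuous h) (y : AddCircle (2 * Real.pi)) :
    V1 k u (fun z => g z - h z) y = V1 k u g y - V1 k u h y := by
  unfold V1
  rw [← integral_sub]
  · congr 1
    funext w
    ring
  · exact int_cont ((vv_continuous k u).mul (hg.comp (continuous_const.add continuous_id)))
  · exact int_cont ((vv_continuous k u).mul (hh.comp (continuous_const.add continuous_id)))

/-- coefficients in the difference operators -/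
noncomputable def sc (k u : ℕ) (b : Bool) : ℝ :=
  if u = 0 then (if b then 1 else 0) else
    (if b then -(-1) ^ k else (if u = 1 then 0 else (-1) ^ k))

/-- steps in the difference operators -/
noncomputable def st (k u : ℕ) (b : Bool) : ℝ := if b then hh k (u + 1) else hh k (u - 1)

theorem abs_sc_le (k u : ℕ) (b : Bool) : |sc k u b| ≤ 1 := by
  unfold sc
  split_ifs <;> simp [abs_pow]

/-- one coordinate difference operator: averages of `k`-th differences -/
noncomputable def D1 (k u : ℕ) (g : AddCircle (2 * Real.pi) → ℝ) (z : AddCircle (2 * Real.pi)) : ℝ :=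
  ∫ x : ℝ, bn x * ∑ b : Bool, sc k u b * (if u = 0 then g z else
    diff1 k g (fun j => z + (((j : ℝ) * (st k u b * x) : ℝ) : AddCircle (2 * Real.pi))))

theorem diff1_continuous_step (k : ℕ) {g : AddCircle (2 * Real.pi) → ℝ} (hg : Continuous g)
    (z : AddCircle (2 * Real.pi)) (h : ℝ) :
    Continuous (fun x : ℝ => diff1 k g
      (fun j => z + (((j : ℝ) * (h * x) : ℝ) : AddCircle (2 * Real.pi)))) := by
  unfold diff1
  refine continuous_finsetSum _ (fun j _ => continuous_const.mul (hg.comp ?_))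
  exact continuous_const.add ((AddCircle.continuous_mk' _).comp
      (continuous_const.mul (continuous_const.mul continuous_id)))

theorem abs_diff1_le' {E : Type*} (k : ℕ) (g : E → ℝ) (sh : ℕ → E) {C : ℝ}
    (hg : ∀ y, |g y| ≤ C) : |diff1 k g sh| ≤ 2 ^ k * C := by
  unfold diff1
  calc |∑ j ∈ Finset.range (k + 1), ((-1 : ℝ) ^ (k - j) * (k.choose j : ℝ)) * g (sh j)|
      ≤ ∑ j ∈ Finset.range (k + 1), |((-1 : ℝ) ^ (k - j) * (k.choose j : ℝ)) * g (sh j)| :=
        Finset.abs_sum_le_sum_abs _ _
    _ ≤ ∑ j ∈ Finset.range (k + 1), (k.choose j : ℝ) * C := by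
        refine Finset.sum_le_sum (fun j _ => ?_)
        rw [abs_mul, abs_mul, abs_pow, abs_neg, abs_one, one_pow, one_mul,
          abs_of_nonneg (Nat.cast_nonneg _ : (0:ℝ) ≤ (k.choose j : ℝ))]
        exact mul_le_mul_of_nonneg_left (hg _) (Nat.cast_nonneg _)
    _ = 2 ^ k * C := by
        rw [← Finset.sum_mul]
        have := Nat.sum_range_choose k
        congr 1
        exact_mod_cast this

theorem int_bn_diff1 (k : ℕ) {g : AddCircle (2 * Real.pi) → ℝ} (hg : Continuous g)
    (z : AddCircle (2 * Real.pi)) (h : ℝ) :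
    Integrable (fun x : ℝ => bn x * diff1 k g
      (fun j => z + (((j : ℝ) * (h * x) : ℝ) : AddCircle (2 * Real.pi)))) volume := by
  obtain ⟨C, hC0, hC⟩ := exists_abs_bound hg
  exact int_bn_mul (diff1_continuous_step k hg z h) (fun x => abs_diff1_le' k g _ hC)

/-- averaged difference -/
noncomputable def Av (k : ℕ) (h : ℝ) (g : AddCircle (2 * Real.pi) → ℝ)
    (z : AddCircle (2 * Real.pi)) : ℝ :=
  ∫ x : ℝ, bn x * diff1 k g (fun j => z + (((j : ℝ) * (h * x) : ℝ) : AddCircle (2 * Real.pi)))

theorem V1_eq_Av {k : ℕ} (hk : 1 ≤ k) (u : ℕ) {g : AddCircle (2 * Real.pi) → ℝ}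
    (hg : Continuous g) (z : AddCircle (2 * Real.pi)) :
    V1 k u g z = g z - (-1) ^ k * Av k (hh k u) g z := by
  rw [V1_eq hk u hg]
  have e : ∀ x : ℝ, bn x * (g z - (-1) ^ k * diff1 k g
      (fun j => z + (((j : ℝ) * (hh k u * x) : ℝ) : AddCircle (2 * Real.pi))))
      = bn x * g z - (-1) ^ k * (bn x * diff1 k g
      (fun j => z + (((j : ℝ) * (hh k u * x) : ℝ) : AddCircle (2 * Real.pi)))) := fun x => by ring
  simp_rw [e]
  rw [integral_sub (bn_integrable.mul_const _) ((int_bn_diff1 k hg z _).const_mul _),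
    integral_mul_const, bn_integral, one_mul, integral_const_mul]
  rfl

theorem D1_zero {k : ℕ} {g : AddCircle (2 * Real.pi) → ℝ} (z : AddCircle (2 * Real.pi)) :
    D1 k 0 g z = g z := by
  unfold D1
  simp [sc, integral_mul_const, bn_integral]

theorem D1_pos {k u : ℕ} (hu : u ≠ 0) {g : AddCircle (2 * Real.pi) → ℝ} (hg : Continuous g)
    (z : AddCircle (2 * Real.pi)) :
    D1 k u g z = sc k u true * Av k (hh k (u + 1)) g z + sc k u false * Av k (hh k (u - 1)) g z := by
  unfold D1 Av
  simp only [hu, if_false, Fintype.sum_bool, st, if_true, Bool.false_eq_true]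
  rw [← integral_const_mul, ← integral_const_mul, ← integral_add]
  · congr 1
    funext x
    ring
  · exact (int_bn_diff1 k hg z _).const_mul _
  · exact (int_bn_diff1 k hg z _).const_mul _

theorem D1_one {k : ℕ} (hk : 1 ≤ k) {g : AddCircle (2 * Real.pi) → ℝ} (hg : Continuous g)
    (z : AddCircle (2 * Real.pi)) : D1 k 1 g z = V1 k 2 g z - g z := by
  rw [D1_pos one_ne_zero hg, V1_eq_Av hk 2 hg]
  simp only [sc]
  norm_num

theorem D1_two {k : ℕ} (hk : 1 ≤ k) (u : ℕ) {g : AddCircle (2 * Real.pi) → ℝ} (hg : Continuous g)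
    (z : AddCircle (2 * Real.pi)) : D1 k (u + 2) g z = V1 k (u + 3) g z - V1 k (u + 1) g z := by
  rw [D1_pos (by omega) hg, V1_eq_Av hk (u + 3) hg, V1_eq_Av hk (u + 1) hg]
  have e1 : u + 2 ≠ 0 := by omega
  have e2 : u + 2 ≠ 1 := by omega
  have e3 : u + 2 - 1 = u + 1 := by omega
  simp only [sc, e1, e2, if_false, if_true, Bool.false_eq_true, e3]
  ring

/-- The one dimensional reproducing formula. -/
theorem tele1 {k : ℕ} (hk : 1 ≤ k) (M : ℕ) {g : AddCircle (2 * Real.pi) → ℝ} (hg : Continuous g)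
    (y : AddCircle (2 * Real.pi)) :
    ∑ u ∈ Finset.range (M + 2), V1 k (max u 1) (D1 k u g) y = V1 k (M + 1) (V1 k (M + 2) g) y := by
  induction M with
  | zero =>
    rw [Finset.sum_range_succ, Finset.sum_range_succ, Finset.sum_range_zero]
    have e0 : D1 k 0 g = g := funext (fun z => D1_zero z)
    have e1 : D1 k 1 g = fun z => V1 k 2 g z - g z := funext (fun z => D1_one hk hg z)
    rw [e0, e1]
    simp only [Nat.zero_max, max_self, zero_add]
    rw [V1_sub k 1 (V1_continuous k 2 hg) hg]
    ring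
  | succ M ih =>
    rw [Finset.sum_range_succ, ih]
    have e1 : D1 k (M + 2) g = fun z => V1 k (M + 3) g z - V1 k (M + 1) g z :=
      funext (fun z => D1_two hk M hg z)
    have e2 : max (M + 2) 1 = M + 2 := by omega
    rw [e1, e2, V1_sub k (M + 2) (V1_continuous k (M + 3) hg) (V1_continuous k (M + 1) hg),
      V1_comm k (M + 2) (M + 1) hg]
    ring

end Pool.Agent.Helper218_SB
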