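import Pool.Agent.Helper218_SB.UKern

namespace Pool.Agent.Helper218_SB

open MeasureTheory Set
open scoped ENNReal

/-- the product functions form a submonoid -/
def prodFns (d : ℕ) : Submonoid C(Torus d, ℝ) where
  carrier := {F | ∃ g : Fin d → AddCircle (2 * Real.pi) → ℝ, (∀ i, Continuous (g i)) ∧
    ∀ x, F x = ∏ i, g i (x i)}
  mul_mem' := by
    rintro F G ⟨g, hg, hF⟩ ⟨g', hg', hG⟩
    refine ⟨fun i y => g i y * g' i y, fun i => (hg i).mul (hg' i), fun x => ?_⟩
    rw [ContinuousMap.mul_apply, hF, hG, Finset.prod_mul_distrib]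
  one_mem' := ⟨fun _ _ => 1, fun _ => continuous_const, fun x => by simp⟩

/-- **Tensorisation principle.**  A bounded linear functional on continuous functions which vanishes
on products of functions of one variable vanishes. -/
theorem tens_ext {d : ℕ} (Λ : (Torus d → ℝ) → ℝ) (C : ℝ)
    (hadd : ∀ f g, Continuous f → Continuous g → Λ (fun x => f x + g x) = Λ f + Λ g)
    (hsmul : ∀ (c : ℝ) f, Continuous f → Λ (fun x => c * f x) = c * Λ f)
    (hbd : ∀ f, Continuous f → ∀ ε : ℝ, (∀ x, |f x| ≤ ε) → |Λ f| ≤ C * ε)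
    (hprod : ∀ g : Fin d → AddCircle (2 * Real.pi) → ℝ, (∀ i, Continuous (g i)) →
      Λ (fun x => ∏ i, g i (x i)) = 0)
    {f : Torus d → ℝ} (hf : Continuous f) : Λ f = 0 := by
  set A : Subalgebra ℝ C(Torus d, ℝ) := Algebra.adjoin ℝ (prodFns d : Set C(Torus d, ℝ)) with hA
  have hAspan : Subalgebra.toSubmodule A = Submodule.span ℝ (prodFns d : Set C(Torus d, ℝ)) := by
    rw [hA, Algebra.adjoin_eq_span, Submonoid.closure_eq]
  have hS0 : ∀ F ∈ Submodule.span ℝ (prodFns d : Set C(Torus d, ℝ)), Λ (fun x => F x) = 0 := by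
    intro F hF
    induction hF using Submodule.span_induction with
    | mem F hF =>
      obtain ⟨g, hg, hFg⟩ := hF
      have : (fun x => F x) = fun x => ∏ i, g i (x i) := funext hFg
      rw [this]
      exact hprod g hg
    | zero =>
      have := hsmul 0 (fun _ => 0) continuous_const
      simpa using this
    | add F G _ _ ihF ihG =>
      have := hadd (fun x => F x) (fun x => G x) F.continuous G.continuous
      have e : (fun x => (F + G) x) = fun x => F x + G x := rfl
      rw [e, this, ihF, ihG, add_zero]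
    | smul c F _ ihF =>
      have := hsmul c (fun x => F x) F.continuous
      have e : (fun x => (c • F) x) = fun x => c * F x := rfl
      rw [e, this, ihF, mul_zero]
  have hA0 : ∀ F ∈ A, Λ (fun x => F x) = 0 := by
    intro F hF
    apply hS0
    rw [← hAspan]; exact hF
  have hsep : A.SeparatesPoints := by
    intro x y hxy
    obtain ⟨i, hi⟩ : ∃ i, x i ≠ y i := by
      by_contra hcon
      push Not at hcon
      exact hxy (funext hcon)
    classical
    set G : C(Torus d, ℝ) := ⟨fun z => dist (z i) (x i), by fun_prop⟩ with hG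
    refine ⟨fun z => G z, ⟨G, ?_, rfl⟩, ?_⟩
    · apply Algebra.subset_adjoin
      refine ⟨fun j z => if j = i then dist z (x i) else 1, ?_, ?_⟩
      · intro j
        by_cases h : j = i
        · simp only [h, if_true]; fun_prop
        · simp only [h, if_false]; exact continuous_const
      · intro z
        rw [Finset.prod_eq_single i]
        · simp [hG]
        · intro j _ hj; simp [hj]
        · intro h; exact absurd (Finset.mem_univ _) h
    · simp only [hG, ContinuousMap.coe_mk, dist_self]
      intro h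
      exact hi (dist_eq_zero.1 h.symm).symm
  have hC0 : ∀ ε : ℝ, 0 < ε → |Λ f| ≤ |C| * ε := by
    intro ε hε
    obtain ⟨g, hg⟩ := ContinuousMap.exists_mem_subalgebra_near_continuous_of_separatesPoints A hsep
      f hf ε hε
    have h1 := hA0 (g : C(Torus d, ℝ)) g.2
    have hgc : Continuous (fun x => (g : C(Torus d, ℝ)) x) := (g : C(Torus d, ℝ)).continuous
    have h2 : Λ f = Λ (fun x => f x + (-1) * (g : C(Torus d, ℝ)) x) := by
      rw [hadd f (fun x => (-1) * (g : C(Torus d, ℝ)) x) hf (continuous_const.mul hgc),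
        hsmul (-1) _ hgc, h1, mul_zero, add_zero]
    rw [h2]
    refine (hbd _ (hf.add (continuous_const.mul hgc)) ε (fun x => ?_)).trans ?_
    · have := (hg x).le
      rw [Real.norm_eq_abs, abs_sub_comm] at this
      calc |f x + (-1) * (g : C(Torus d, ℝ)) x| = |f x - (g : C(Torus d, ℝ)) x| := by ring_nf
        _ ≤ ε := this
    · exact mul_le_mul_of_nonneg_right (le_abs_self _) hε.le
  by_contra hne
  have hpos : 0 < |Λ f| := abs_pos.2 hne
  have h3 := hC0 (|Λ f| / (2 * (|C| + 1))) (by positivity)
  have h4 : |C| * (|Λ f| / (2 * (|C| + 1))) ≤ |Λ f| / 2 := by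
    have hC : 0 ≤ |C| := abs_nonneg C
    rw [mul_div_assoc', div_le_div_iff₀ (by positivity) (by norm_num)]
    nlinarith
  linarith

end Pool.Agent.Helper218_SB
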