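import Pool.Agent.Helper218_SB.USamp
import Pool.Agent.Helper218_SB.UFin

namespace Pool.Agent.Helper218_SB

open MeasureTheory Set
open scoped ENNReal

/-- upper bound for the sampling numbers -/
theorem upper_all (𝕜 : Type) [RCLike 𝕜] (top : Bool) (d' : ℕ) {k : ℕ} {r : ℝ} (hr : 0 < r)
    (hr1 : top = false → 1 < r) (hk : r < k) (θ : ℝ≥0∞) (hθ : 1 ≤ θ) : ∃ C : ℝ, 0 < C ∧
    ∀ m : ℕ, 2 ≤ m → samplingNumber m (besovClass 𝕜 (d' + 1) k r (pp top) θ) (pp top) ≤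
      ENNReal.ofReal (C * ((m : ℝ) ^ (-r) * (Real.log m) ^ (d' * (r + 1 - (θ⁻¹).toReal)))) := by
  have hk1 : 1 ≤ k := by
    by_contra h
    have : k = 0 := by omega
    subst this
    simp at hk
    linarith
  have ht : (θ⁻¹).toReal ≤ 1 := by
    have h1 : θ⁻¹ ≤ 1 := ENNReal.inv_le_one.2 hθ
    simpa using ENNReal.toReal_mono ENNReal.one_ne_top h1
  exact exists_upper_all d' ((2 * k) ^ (d' + 1)) (Nat.one_le_pow _ _ (by omega)) r (θ⁻¹).toReal hr ht
    (fun m => samplingNumber m (besovClass 𝕜 (d' + 1) k r (pp top) θ) (pp top))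
    (exists_upper_level 𝕜 top d' hr hr1 hk θ hθ)

end Pool.Agent.Helper218_SB
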